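import Mathlib

/-! Exponential sums over subgroups of `ZMod Q`. -/

set_option autoImplicit false

namespace Pool.Agent.L5helper10.RM

open Finset

/-- the additive character `x ↦ exp (2πi x / Q)` -/
noncomputable def ee {Q : ℕ} [NeZero Q] (x : ZMod Q) : ℂ := ZMod.stdAddChar x

/-- `∑_{h ≤ H} e(r h / Q)` -/
noncomputable def EE {Q : ℕ} [NeZero Q] (H : ℕ) (r : ZMod Q) : ℂ := ∑ h ∈ Icc 1 H, ee (r * (h : ZMod Q))

/-- the kernel of multiplication by `N` -/
def ker (Q : ℕ) [NeZero Q] (N : ℕ) : Finset (ZMod Q) := univ.filter (fun k : ZMod Q => (N : ZMod Q) * k = 0)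

variable {Q : ℕ} [NeZero Q]

lemma ee_norm (x : ZMod Q) : ‖ee x‖ = 1 := by
  unfold ee
  rw [ZMod.stdAddChar_apply]
  exact Circle.norm_coe _

lemma ee_zero : ee (0 : ZMod Q) = 1 := by
  unfold ee
  exact AddChar.map_zero_eq_one _

lemma ee_add (x y : ZMod Q) : ee (x + y) = ee x * ee y := by
  unfold ee
  exact AddChar.map_add_eq_mul _ _ _

lemma ee_neg (x : ZMod Q) : ee (-x) = (starRingEnd ℂ) (ee x) := by
  have h : ee (-x) * ee x = 1 := by rw [← ee_add, neg_add_cancel, ee_zero]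
  have h2 : (starRingEnd ℂ) (ee x) * ee x = 1 := by
    rw [mul_comm, Complex.mul_conj, Complex.normSq_eq_norm_sq, ee_norm]; norm_num
  have hne : ee x ≠ 0 := by
    intro h0; rw [h0, mul_zero] at h; exact zero_ne_one h
  exact mul_right_cancel₀ hne (h.trans h2.symm)

lemma ee_sub (x y : ZMod Q) : ee (x - y) = ee x * (starRingEnd ℂ) (ee y) := by
  rw [sub_eq_add_neg, ee_add, ee_neg]

lemma ee_ne_zero (x : ZMod Q) : ee x ≠ 0 := by
  intro h
  have := ee_norm x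
  rw [h, norm_zero] at this
  exact zero_ne_one this

lemma ee_int (j : ℤ) : ee (j : ZMod Q) = Complex.exp (2 * Real.pi * Complex.I * j / Q) := by
  unfold ee
  exact ZMod.stdAddChar_coe j

lemma ee_eq_one_iff (x : ZMod Q) : ee x = 1 ↔ x = 0 := by
  unfold ee
  constructor
  · intro h
    have h1 := ZMod.injective_stdAddChar (N := Q)
    apply h1
    rw [h, AddChar.map_zero_eq_one]
  · rintro rfl
    exact AddChar.map_zero_eq_one _

lemma EE_norm_le (H : ℕ) (r : ZMod Q) : ‖EE H r‖ ≤ H := by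
  unfold EE
  refine (norm_sum_le _ _).trans ?_
  simp [ee_norm]

lemma EE_zero (H : ℕ) : EE H (0 : ZMod Q) = H := by
  unfold EE
  simp [ee_zero]

lemma EE_neg (H : ℕ) (r : ZMod Q) : EE H (-r) = (starRingEnd ℂ) (EE H r) := by
  unfold EE
  rw [map_sum]
  refine sum_congr rfl fun h _ => ?_
  rw [neg_mul, ee_neg]

lemma norm_sq_EE (X : ℕ) (t : ZMod Q) :
    ((‖EE X t‖ ^ 2 : ℝ) : ℂ) = ∑ x ∈ Icc 1 X, ∑ y ∈ Icc 1 X, ee (t * ((x : ZMod Q) - (y : ZMod Q))) := by
  have h1 : ((‖EE X t‖ ^ 2 : ℝ) : ℂ) = EE X t * (starRingEnd ℂ) (EE X t) := by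
    rw [Complex.mul_conj, Complex.normSq_eq_norm_sq]
  rw [h1]
  unfold EE
  rw [map_sum, sum_mul_sum]
  refine sum_congr rfl fun x _ => sum_congr rfl fun y _ => ?_
  rw [mul_sub, ee_sub]

/-- the kernel, explicitly -/
lemma ker_eq {N : ℕ} (hN : N ∣ Q) : ker Q N = (range N).image (fun j : ℕ => ((j * (Q / N) : ℕ) : ZMod Q)) := by
  obtain ⟨M, hM⟩ := hN
  have hQ : 0 < Q := Nat.pos_of_ne_zero (NeZero.ne Q)
  have hN0 : 0 < N := Nat.pos_of_ne_zero (by rintro rfl; rw [zero_mul] at hM; omega)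
  have hM0 : 0 < M := Nat.pos_of_ne_zero (by rintro rfl; rw [mul_zero] at hM; omega)
  have hdiv : Q / N = M := by rw [hM, Nat.mul_div_cancel_left _ hN0]
  ext k
  unfold ker
  rw [mem_filter, mem_image, hdiv]
  constructor
  · rintro ⟨-, h⟩
    have h1 : ((N * k.val : ℕ) : ZMod Q) = 0 := by
      push_cast
      rw [ZMod.natCast_zmod_val]
      exact h
    rw [ZMod.natCast_eq_zero_iff] at h1
    have h2 : M ∣ k.val := by
      apply Nat.dvd_of_mul_dvd_mul_left hN0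
      rw [← hM]
      exact h1
    obtain ⟨j, hj⟩ := h2
    refine ⟨j, ?_, ?_⟩
    · rw [mem_range]
      have h3 := ZMod.val_lt k
      rw [hj] at h3
      by_contra hcon
      push Not at hcon
      have : Q ≤ M * j := by
        calc Q = M * N := by rw [hM, mul_comm]
          _ ≤ M * j := Nat.mul_le_mul_left _ hcon
      omega
    · show ((j * M : ℕ) : ZMod Q) = k
      rw [mul_comm, ← hj, ZMod.natCast_zmod_val]
  · rintro ⟨j, -, rfl⟩
    refine ⟨mem_univ _, ?_⟩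
    have : ((N : ZMod Q) * ((j * M : ℕ) : ZMod Q)) = ((N * (j * M) : ℕ) : ZMod Q) := by push_cast; ring
    rw [this, ZMod.natCast_eq_zero_iff]
    exact ⟨j, by rw [hM]; ring⟩

lemma ker_inj {N : ℕ} (hN : N ∣ Q) : Set.InjOn (fun j : ℕ => ((j * (Q / N) : ℕ) : ZMod Q)) (range N) := by
  obtain ⟨M, hM⟩ := hN
  have hQ : 0 < Q := Nat.pos_of_ne_zero (NeZero.ne Q)
  have hN0 : 0 < N := Nat.pos_of_ne_zero (by rintro rfl; rw [zero_mul] at hM; omega)
  have hM0 : 0 < M := Nat.pos_of_ne_zero (by rintro rfl; rw [mul_zero] at hM; omega)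
  have hdiv : Q / N = M := by rw [hM, Nat.mul_div_cancel_left _ hN0]
  intro i hi j hj hij
  rw [mem_coe, mem_range] at hi hj
  simp only [hdiv] at hij
  rw [ZMod.natCast_eq_natCast_iff'] at hij
  rw [Nat.mod_eq_of_lt, Nat.mod_eq_of_lt] at hij
  · exact Nat.eq_of_mul_eq_mul_right hM0 hij
  · rw [hM]; exact Nat.mul_lt_mul_of_pos_right hj hM0
  · rw [hM]; exact Nat.mul_lt_mul_of_pos_right hi hM0

lemma ker_card {N : ℕ} (hN : N ∣ Q) : #(ker Q N) = N := by
  rw [ker_eq hN, card_image_of_injOn (ker_inj hN), card_range]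

/-- orthogonality on the kernel -/
lemma ker_sum {N : ℕ} (hN : N ∣ Q) (m : ℤ) :
    ∑ k ∈ ker Q N, ee (k * (m : ZMod Q)) = if (N : ℤ) ∣ m then (N : ℂ) else 0 := by
  have hQ : 0 < Q := Nat.pos_of_ne_zero (NeZero.ne Q)
  have hN0 : 0 < N := Nat.pos_of_ne_zero (by rintro rfl; rw [zero_dvd_iff] at hN; omega)
  have hM0 : 0 < Q / N := Nat.div_pos (Nat.le_of_dvd hQ hN) hN0
  have hNM : N * (Q / N) = Q := Nat.mul_div_cancel' hN
  rw [ker_eq hN, sum_image (ker_inj hN)]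
  set ζ : ℂ := ee (((Q / N : ℕ) : ZMod Q) * (m : ZMod Q)) with hζ
  have hpow : ∀ j : ℕ, ee (((j * (Q / N) : ℕ) : ZMod Q) * (m : ZMod Q)) = ζ ^ j := by
    intro j
    induction j with
    | zero => simp [ee_zero]
    | succ j ih =>
      rw [pow_succ, ← ih, hζ, ← ee_add]
      congr 1
      push_cast
      ring
  rw [sum_congr rfl (fun j _ => hpow j)]
  have h1 : ζ = 1 ↔ (N : ℤ) ∣ m := by
    rw [hζ, ee_eq_one_iff]
    have : (((Q / N : ℕ) : ZMod Q) * (m : ZMod Q)) = ((((Q / N : ℕ) : ℤ) * m : ℤ) : ZMod Q) := by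
      rw [Int.cast_mul, Int.cast_natCast]
    rw [this, ZMod.intCast_zmod_eq_zero_iff_dvd]
    constructor
    · intro h
      have h2 : ((N : ℤ) * ((Q / N : ℕ) : ℤ)) ∣ ((Q / N : ℕ) : ℤ) * m := by
        have : (N : ℤ) * ((Q / N : ℕ) : ℤ) = (Q : ℤ) := by exact_mod_cast hNM
        rw [this]; exact h
      rw [mul_comm (N : ℤ)] at h2
      exact Int.dvd_of_mul_dvd_mul_left (by exact_mod_cast hM0.ne') h2
    · rintro ⟨l, rfl⟩
      refine ⟨l, ?_⟩
      have : (N : ℤ) * ((Q / N : ℕ) : ℤ) = (Q : ℤ) := by exact_mod_cast hNM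
      rw [← this]; ring
  split_ifs with h
  · rw [h1.mpr h]; simp
  · have hne : ζ ≠ 1 := fun h' => h (h1.mp h')
    have hN1 : ζ ^ N = 1 := by
      rw [← hpow N, hNM]
      simp [ee_zero]
    rw [geom_sum_eq hne, hN1, sub_self, zero_div]

end Pool.Agent.L5helper10.RM
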