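import Pool.Agent.L5helper10.RM.F9

/-! The bound for the variance of the local mean square. -/

set_option autoImplicit false
set_option linter.unusedSectionVars false

namespace Pool.Agent.L5helper10.RM

open Finset

lemma harm_le (X : ℕ) (hX : 1 ≤ X) : ∑ n ∈ Icc 1 X, 1 / (n : ℝ) ≤ 1 + Real.log X := by
  have h := harmonic_le_one_add_log X
  have h2 : ((harmonic X : ℚ) : ℝ) = ∑ n ∈ Icc 1 X, 1 / (n : ℝ) := by
    rw [harmonic_eq_sum_Icc]
    push_cast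
    exact sum_congr rfl fun n _ => by rw [one_div]
  rwa [h2] at h

lemma NZ_sum (N : ℕ) : ∑ a ∈ NZ N, 1 / |(a : ℝ)| = 2 * ∑ n ∈ Icc 1 N, 1 / (n : ℝ) := by
  have hNZ : NZ N = (Icc 1 N).image (fun n : ℕ => (n : ℤ)) ∪ (Icc 1 N).image (fun n : ℕ => -(n : ℤ)) := by
    ext a
    unfold NZ
    rw [mem_erase, mem_Icc, mem_union, mem_image, mem_image]
    constructor
    · rintro ⟨h0, h1, h2⟩
      rcases lt_or_gt_of_ne h0 with h | h
      · right
        refine ⟨(-a).toNat, ?_, ?_⟩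
        · rw [mem_Icc]; omega
        · omega
      · left
        refine ⟨a.toNat, ?_, ?_⟩
        · rw [mem_Icc]; omega
        · omega
    · rintro (⟨n, hn, rfl⟩ | ⟨n, hn, rfl⟩)
      · rw [mem_Icc] at hn; omega
      · rw [mem_Icc] at hn; omega
  have hdisj : Disjoint ((Icc 1 N).image (fun n : ℕ => (n : ℤ))) ((Icc 1 N).image (fun n : ℕ => -(n : ℤ))) := by
    rw [disjoint_left]
    intro a ha hb
    rw [mem_image] at ha hb
    obtain ⟨n, hn, rfl⟩ := ha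
    obtain ⟨m, hm, hnm⟩ := hb
    rw [mem_Icc] at hn hm
    omega
  rw [hNZ, sum_union hdisj, sum_image (fun x _ y _ h => by simpa using h),
    sum_image (fun x _ y _ h => by simpa using h), two_mul]
  congr 1
  · refine sum_congr rfl fun n _ => ?_
    simp
  · refine sum_congr rfl fun n _ => ?_
    simp

open Classical in
lemma ar_d (X N e g₀ g₁ M : ℕ) (Tm : ℝ) (hTm : ∀ n : ℕ, 1 ≤ n → n ≤ M → tau n ≤ Tm) (hT0 : 0 ≤ Tm)
    (hM : (g₀ + e) * N ≤ M) :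
    ∑ d ∈ Icc 1 X, ar N (d, e, g₀, g₁) ≤ Tm * (∑ a ∈ NZ N, 1 / |(a : ℝ)|) ^ 2 := by
  unfold ar
  simp only
  rw [sum_comm]
  have h1 : ∀ a ∈ NZ N, ∑ d ∈ Icc 1 X, ∑ b ∈ NZ N, (if (d : ℤ) ∣ g₀ * b - e * a ∧ (g₀ : ℤ) * b - e * a ≠ 0 then
      1 / (|(a : ℝ)| * |(b : ℝ)|) else 0) ≤ Tm * ((1 / |(a : ℝ)|) * ∑ b ∈ NZ N, 1 / |(b : ℝ)|) := by
    intro a ha
    rw [sum_comm, mul_sum, mul_sum]
    refine sum_le_sum fun b hb => ?_
    have h2 : ∑ d ∈ Icc 1 X, (if (d : ℤ) ∣ g₀ * b - e * a ∧ (g₀ : ℤ) * b - e * a ≠ 0 then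
      1 / (|(a : ℝ)| * |(b : ℝ)|) else 0) =
      (#((Icc 1 X).filter (fun d : ℕ => (d : ℤ) ∣ g₀ * b - e * a ∧ (g₀ : ℤ) * b - e * a ≠ 0)) : ℝ) *
        (1 / (|(a : ℝ)| * |(b : ℝ)|)) := by
      rw [← sum_filter, sum_const, nsmul_eq_mul]
    rw [h2]
    have h3 : (#((Icc 1 X).filter (fun d : ℕ => (d : ℤ) ∣ g₀ * b - e * a ∧ (g₀ : ℤ) * b - e * a ≠ 0)) : ℝ) ≤ Tm := by
      by_cases h4 : (g₀ : ℤ) * b - e * a = 0
      · have : (Icc 1 X).filter (fun d : ℕ => (d : ℤ) ∣ g₀ * b - e * a ∧ (g₀ : ℤ) * b - e * a ≠ 0) = ∅ := by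
          rw [filter_eq_empty_iff]
          intro d _ h5
          exact h5.2 h4
        rw [this]
        simpa using hT0
      · have hsub : (Icc 1 X).filter (fun d : ℕ => (d : ℤ) ∣ g₀ * b - e * a ∧ (g₀ : ℤ) * b - e * a ≠ 0) ⊆
            ((g₀ : ℤ) * b - e * a).natAbs.divisors := by
          intro d hd
          rw [mem_filter] at hd
          rw [Nat.mem_divisors]
          exact ⟨Int.natCast_dvd.mp hd.2.1, Int.natAbs_ne_zero.mpr h4⟩
        have hcard := card_le_card hsub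
        have hle : ((g₀ : ℤ) * b - e * a).natAbs ≤ M := by
          unfold NZ at ha hb
          rw [mem_erase, mem_Icc] at ha hb
          have h5 : |(g₀ : ℤ) * b - e * a| ≤ (g₀ + e) * N := by
            calc |(g₀ : ℤ) * b - e * a| ≤ |(g₀ : ℤ) * b| + |(e : ℤ) * a| := abs_sub _ _
              _ = g₀ * |b| + e * |a| := by rw [abs_mul, abs_mul, Nat.abs_cast, Nat.abs_cast]
              _ ≤ g₀ * N + e * N := by
                  have := abs_le.mpr ha.2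
                  have := abs_le.mpr hb.2
                  gcongr
              _ = (g₀ + e) * N := by ring
          have h6 : ((((g₀ : ℤ) * b - e * a).natAbs : ℕ) : ℤ) ≤ (M : ℤ) := by
            rw [Int.natCast_natAbs]
            refine h5.trans ?_
            exact_mod_cast hM
          exact_mod_cast h6
        have h7 := hTm _ (Nat.pos_of_ne_zero (Int.natAbs_ne_zero.mpr h4)) hle
        refine le_trans ?_ h7
        unfold tau
        exact_mod_cast hcard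
    have h8 : 0 ≤ 1 / (|(a : ℝ)| * |(b : ℝ)|) := by positivity
    calc _ ≤ Tm * (1 / (|(a : ℝ)| * |(b : ℝ)|)) := mul_le_mul_of_nonneg_right h3 h8
      _ = Tm * (1 / |(a : ℝ)| * (1 / |(b : ℝ)|)) := by rw [one_div_mul_one_div]
  refine (sum_le_sum h1).trans (le_of_eq ?_)
  rw [← mul_sum, ← sum_mul, sq]

lemma ar_total (X N M : ℕ) (hX : 1 ≤ X) (hN : 1 ≤ N) (Tm : ℝ) (hTm : ∀ n : ℕ, 1 ≤ n → n ≤ M → tau n ≤ Tm)
    (hT0 : 0 ≤ Tm) (hM : 2 * X * N ≤ M) :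
    ∑ d ∈ Icc 1 X, ∑ e ∈ Icc 1 X, ∑ g₀ ∈ Icc 1 X, ∑ g₁ ∈ Icc 1 X, ar N (d, e, g₀, g₁) / (e * g₀ * g₁) ≤
      4 * Tm * (1 + Real.log X) ^ 3 * (1 + Real.log N) ^ 2 := by
  rw [sum_comm]
  have hlX : 0 ≤ Real.log X := Real.log_natCast_nonneg X
  have hlN : 0 ≤ Real.log N := Real.log_natCast_nonneg N
  have hS0 : 0 ≤ ∑ n ∈ Icc 1 X, 1 / (n : ℝ) := sum_nonneg fun _ _ => by positivity
  have hS := harm_le X hX
  have hA : (∑ a ∈ NZ N, 1 / |(a : ℝ)|) ^ 2 ≤ (2 * (1 + Real.log N)) ^ 2 := by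
    rw [NZ_sum]
    have h0 : 0 ≤ ∑ n ∈ Icc 1 N, 1 / (n : ℝ) := sum_nonneg fun _ _ => by positivity
    have := harm_le N hN
    gcongr
  set A := (2 * (1 + Real.log N)) ^ 2 with hAdef
  have hA0 : 0 ≤ A := by positivity
  set S := ∑ n ∈ Icc 1 X, 1 / (n : ℝ) with hSdef
  have h1 : ∀ e ∈ Icc 1 X, ∑ d ∈ Icc 1 X, ∑ g₀ ∈ Icc 1 X, ∑ g₁ ∈ Icc 1 X, ar N (d, e, g₀, g₁) / (e * g₀ * g₁) ≤
      (1 / (e : ℝ)) * (S ^ 2 * (Tm * A)) := by
    intro e he
    rw [sum_comm]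
    have h2 : ∀ g₀ ∈ Icc 1 X, ∑ d ∈ Icc 1 X, ∑ g₁ ∈ Icc 1 X, ar N (d, e, g₀, g₁) / (e * g₀ * g₁) ≤
        (1 / (e : ℝ)) * ((1 / (g₀ : ℝ)) * (S * (Tm * A))) := by
      intro g₀ hg₀
      rw [sum_comm]
      have h3 : ∀ g₁ ∈ Icc 1 X, ∑ d ∈ Icc 1 X, ar N (d, e, g₀, g₁) / (e * g₀ * g₁) ≤
          (1 / (e : ℝ)) * ((1 / (g₀ : ℝ)) * ((1 / (g₁ : ℝ)) * (Tm * A))) := by
        intro g₁ _
        rw [mem_Icc] at he hg₀
        rw [← sum_div]
        have h4 := ar_d X N e g₀ g₁ M Tm hTm hT0 (by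
          calc (g₀ + e) * N ≤ (2 * X) * N := Nat.mul_le_mul_right _ (by omega)
            _ ≤ M := hM)
        calc _ ≤ (Tm * A) / (e * g₀ * g₁) := by
              gcongr
              exact h4.trans (mul_le_mul_of_nonneg_left hA hT0)
          _ = _ := by
              rw [div_eq_mul_one_div, ← one_div_mul_one_div, ← one_div_mul_one_div]; ring
      refine (sum_le_sum h3).trans (le_of_eq ?_)
      rw [← mul_sum, ← mul_sum, ← sum_mul]
    refine (sum_le_sum h2).trans (le_of_eq ?_)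
    rw [← mul_sum, ← sum_mul, ← hSdef]
    ring
  refine (sum_le_sum h1).trans ?_
  rw [← sum_mul, ← hSdef]
  calc S * (S ^ 2 * (Tm * A)) = S ^ 3 * (Tm * A) := by ring
    _ ≤ (1 + Real.log X) ^ 3 * (Tm * A) := by gcongr
    _ = _ := by rw [hAdef]; ring

end Pool.Agent.L5helper10.RM
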