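import Pool.Agent.L5helper10.RM.F10

/-! The bound for the variance of the local mean square, assembled. -/

set_option autoImplicit false
set_option linter.unusedSectionVars false

namespace Pool.Agent.L5helper10.RM

open Finset

variable {Q : ℕ} [NeZero Q]

lemma inv_tot_le (hQ : Squarefree Q) {V : ℝ} (hV : (Q : ℝ) / Q.totient ≤ V) {n : ℕ} (hn : n ∈ Q.divisors) :
    1 / (n.totient : ℝ) ≤ V / n := by
  rw [Nat.mem_divisors] at hn
  obtain ⟨m, hm⟩ := hn.1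
  have hn0 : 0 < n := Nat.pos_of_ne_zero (by rintro rfl; rw [zero_mul] at hm; exact hn.2 hm)
  have hm0 : 0 < m := Nat.pos_of_ne_zero (by rintro rfl; rw [mul_zero] at hm; exact hn.2 hm)
  have hcop : Nat.Coprime n m := Nat.coprime_of_squarefree_mul (hm ▸ hQ)
  have h1 : Q.totient ≤ n.totient * m := by
    rw [hm, Nat.totient_mul hcop]
    exact Nat.mul_le_mul_left _ (Nat.totient_le m)
  have h2 : (Q.totient : ℝ) ≤ n.totient * m := by exact_mod_cast h1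
  have hnr : (0 : ℝ) < n := by exact_mod_cast hn0
  have hmr : (0 : ℝ) < m := by exact_mod_cast hm0
  have hφn : (0 : ℝ) < n.totient := by exact_mod_cast Nat.totient_pos.mpr hn0
  have hφQ : (0 : ℝ) < Q.totient := by
    exact_mod_cast Nat.totient_pos.mpr (Nat.pos_of_ne_zero hn.2)
  have hQr : (Q : ℝ) = n * m := by exact_mod_cast hm
  have h3 : (n : ℝ) / n.totient ≤ V := by
    refine le_trans ?_ hV
    rw [div_le_div_iff₀ hφn hφQ, hQr]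
    nlinarith
  rw [div_le_div_iff₀ hφn hnr]
  rw [div_le_iff₀ hφn] at h3
  linarith

lemma inv_tot3_le (hQ : Squarefree Q) {V : ℝ} (hV : (Q : ℝ) / Q.totient ≤ V) (hV0 : 0 ≤ V) {a b c : ℕ}
    (ha : a ∈ Q.divisors) (hb : b ∈ Q.divisors) (hc : c ∈ Q.divisors) :
    1 / ((a * (b * c)).totient : ℝ) ≤ V ^ 3 / (a * b * c) := by
  have ha0 := Nat.pos_of_mem_divisors ha
  have hb0 := Nat.pos_of_mem_divisors hb
  have hc0 := Nat.pos_of_mem_divisors hc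
  have h1 : a.totient * (b.totient * c.totient) ≤ (a * (b * c)).totient :=
    (Nat.mul_le_mul_left _ (Nat.totient_super_multiplicative b c)).trans (Nat.totient_super_multiplicative _ _)
  have h2 : (a.totient : ℝ) * (b.totient * c.totient) ≤ ((a * (b * c)).totient : ℝ) := by exact_mod_cast h1
  have pa : (0 : ℝ) < a.totient := by exact_mod_cast Nat.totient_pos.mpr ha0
  have pb : (0 : ℝ) < b.totient := by exact_mod_cast Nat.totient_pos.mpr hb0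
  have pc : (0 : ℝ) < c.totient := by exact_mod_cast Nat.totient_pos.mpr hc0
  have ha1 := inv_tot_le hQ hV ha
  have hb1 := inv_tot_le hQ hV hb
  have hc1 := inv_tot_le hQ hV hc
  calc 1 / ((a * (b * c)).totient : ℝ) ≤ 1 / ((a.totient : ℝ) * (b.totient * c.totient)) :=
        one_div_le_one_div_of_le (by positivity) h2
    _ = 1 / (a.totient : ℝ) * (1 / (b.totient : ℝ) * (1 / (c.totient : ℝ))) := by
        rw [one_div_mul_one_div, one_div_mul_one_div]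
    _ ≤ V / a * (V / b * (V / c)) := by gcongr
    _ = _ := by
        field_simp

lemma ww_le (hQ : Squarefree Q) {V : ℝ} (hV : (Q : ℝ) / Q.totient ≤ V) (hV0 : 0 ≤ V) {d e g₀ g₁ : ℕ}
    (hd : d ∈ Q.divisors) (he : e ∈ Q.divisors) (hg₀ : g₀ ∈ Q.divisors) (hg₁ : g₁ ∈ Q.divisors) :
    ww (d, e, g₀, g₁) ≤ tau (d * e * g₁) ^ 3 * V ^ 12 / ((d : ℝ) ^ 2 * e ^ 2 * g₀ ^ 2 * g₁ ^ 3) := by
  have p1 : (0 : ℝ) < d := by exact_mod_cast Nat.pos_of_mem_divisors hd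
  have p2 : (0 : ℝ) < e := by exact_mod_cast Nat.pos_of_mem_divisors he
  have p3 : (0 : ℝ) < g₀ := by exact_mod_cast Nat.pos_of_mem_divisors hg₀
  have p4 : (0 : ℝ) < g₁ := by exact_mod_cast Nat.pos_of_mem_divisors hg₁
  have h1 := inv_tot3_le hQ hV hV0 hd hg₀ hg₁
  have h2 := inv_tot3_le hQ hV hV0 he hg₀ hg₁
  have h0 := tau_nonneg (d * e * g₁)
  unfold ww
  simp only
  calc tau (d * e * g₁) ^ 3 * ((g₀ : ℝ) ^ 2 * g₁) /
      (((d * (g₀ * g₁)).totient : ℝ) ^ 2 * ((e * (g₀ * g₁)).totient : ℝ) ^ 2)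
      = tau (d * e * g₁) ^ 3 * ((g₀ : ℝ) ^ 2 * g₁) * ((1 / ((d * (g₀ * g₁)).totient : ℝ)) ^ 2 *
        (1 / ((e * (g₀ * g₁)).totient : ℝ)) ^ 2) := by
        rw [one_div, one_div, inv_pow, inv_pow, ← mul_inv, div_eq_mul_inv]
    _ ≤ tau (d * e * g₁) ^ 3 * ((g₀ : ℝ) ^ 2 * g₁) * ((V ^ 3 / (d * g₀ * g₁)) ^ 2 * (V ^ 3 / (e * g₀ * g₁)) ^ 2) := by
        gcongr
    _ = _ := by field_simp

theorem sum_SS_le (hQ : Squarefree Q) (X H : ℕ) (hX : 1 ≤ X) (hHX : H ≤ X) {V : ℝ}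
    (hV : (Q : ℝ) / Q.totient ≤ V) (hV1 : 1 ≤ V) (Tm : ℝ) (hT0 : 0 ≤ Tm)
    (hTm : ∀ n : ℕ, 1 ≤ n → n ≤ 2 * X ^ 3 → tau n ≤ Tm) :
    ∑ σ ∈ Sh Q, ww σ * SS X H Q σ ≤
      (H : ℝ) ^ 3 / X * (2 * V ^ 44 + Tm ^ 4 * V ^ 12 * (1 + 2 * Real.log X) ^ 5) := by
  classical
  have hXr : (0 : ℝ) < X := by exact_mod_cast hX
  have hV0 : 0 ≤ V := by linarith
  have hlX : 0 ≤ Real.log X := Real.log_natCast_nonneg X
  set good : ℕ × ℕ × ℕ × ℕ → Prop := fun σ => X ≤ σ.2.1 * σ.2.2.2 ∨ X ≤ σ.1 * σ.2.2.2 ∨ H ≤ σ.2.2.1 * σ.2.2.2 with hgood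
  have hterm : ∀ σ ∈ Sh Q, ww σ * SS X H Q σ ≤
      2 * ((H : ℝ) ^ 3 / X) * V ^ 12 * ((tau σ.1 ^ 3 / σ.1) * ((tau σ.2.1 ^ 3 / σ.2.1) *
        ((tau σ.2.2.1 ^ 3 / σ.2.2.1) * (tau σ.2.2.2 ^ 3 / σ.2.2.2)))) +
      if good σ then 0 else Tm ^ 3 * V ^ 12 * ((H : ℝ) ^ 3 / (4 * X)) *
        (ar (X ^ 2) σ / (σ.2.1 * σ.2.2.1 * σ.2.2.2)) := by
    rintro ⟨d, e, g₀, g₁⟩ hσ
    unfold Sh at hσ
    rw [mem_product, mem_product, mem_product] at hσ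
    obtain ⟨hd, he, hg₀, hg₁⟩ := hσ
    simp only at hd he hg₀ hg₁
    have p1 : (0 : ℝ) < d := by exact_mod_cast Nat.pos_of_mem_divisors hd
    have p2 : (0 : ℝ) < e := by exact_mod_cast Nat.pos_of_mem_divisors he
    have p3 : (0 : ℝ) < g₀ := by exact_mod_cast Nat.pos_of_mem_divisors hg₀
    have p4 : (0 : ℝ) < g₁ := by exact_mod_cast Nat.pos_of_mem_divisors hg₁
    have n1 : 0 < d := Nat.pos_of_mem_divisors hd
    have n2 : 0 < e := Nat.pos_of_mem_divisors he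
    have n3 : 0 < g₀ := Nat.pos_of_mem_divisors hg₀
    have n4 : 0 < g₁ := Nat.pos_of_mem_divisors hg₁
    have hw := ww_le hQ hV hV0 hd he hg₀ hg₁
    have hSS0 := SS_nonneg (Q := Q) X H (d, e, g₀, g₁)
    have t1 := tau_pos n1.ne'
    have t2 := tau_pos n2.ne'
    have t3 := tau_pos n3.ne'
    have t4 := tau_pos n4.ne'
    simp only
    by_cases hg : good (d, e, g₀, g₁)
    · rw [if_pos hg, add_zero]
      have h1 := SS_good hQ X H d e g₀ g₁ hX hg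
      have htau : tau (d * e * g₁) ≤ tau d * tau e * tau g₁ :=
        (tau_mul_le _ _).trans (mul_le_mul_of_nonneg_right (tau_mul_le _ _) (tau_nonneg _))
      have h0 := tau_nonneg (d * e * g₁)
      calc ww (d, e, g₀, g₁) * SS X H Q (d, e, g₀, g₁)
          ≤ (tau (d * e * g₁) ^ 3 * V ^ 12 / ((d : ℝ) ^ 2 * e ^ 2 * g₀ ^ 2 * g₁ ^ 3)) *
            (2 * ((H : ℝ) ^ 3 / X) * (d * e * g₀ * g₁ ^ 2)) :=
            mul_le_mul hw h1 hSS0 (by positivity)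
        _ ≤ ((tau d * tau e * tau g₁) ^ 3 * V ^ 12 / ((d : ℝ) ^ 2 * e ^ 2 * g₀ ^ 2 * g₁ ^ 3)) *
            (2 * ((H : ℝ) ^ 3 / X) * (d * e * g₀ * g₁ ^ 2)) := by gcongr
        _ = 2 * ((H : ℝ) ^ 3 / X) * V ^ 12 * ((tau d ^ 3 / d) * ((tau e ^ 3 / e) *
            ((1 / g₀) * (tau g₁ ^ 3 / g₁)))) := by field_simp
        _ ≤ _ := by
            gcongr
            exact one_le_pow₀ t3
    · rw [if_neg hg]
      have hg' := hg
      simp only [hgood, not_or, not_le] at hg'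
      obtain ⟨c1, c2, c3⟩ := hg'
      have hdX : d < X := lt_of_le_of_lt (Nat.le_mul_of_pos_right d n4) c2
      have hX2 : X ^ 2 = X * X := sq X
      have hN1 : d * g₀ * g₁ ≤ X ^ 2 := by
        rw [hX2, mul_assoc]
        exact Nat.mul_le_mul hdX.le (c3.le.trans hHX)
      have hN2 : d * e * g₁ ≤ X ^ 2 := by
        rw [hX2, mul_assoc]
        exact Nat.mul_le_mul hdX.le c1.le
      have h1 := SS4 hQ X H (X ^ 2) d e g₀ g₁ hX hN1 hN2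
      have htau : tau (d * e * g₁) ≤ Tm := by
        apply hTm _ (Nat.succ_le_of_lt (by positivity))
        refine hN2.trans ?_
        calc X ^ 2 ≤ X ^ 3 := Nat.pow_le_pow_right hX (by norm_num)
          _ ≤ 2 * X ^ 3 := by omega
      have har : 0 ≤ ar (X ^ 2) (d, e, g₀, g₁) := by
        unfold ar
        refine sum_nonneg fun a _ => sum_nonneg fun b _ => ?_
        split_ifs <;> positivity
      have h0 := tau_nonneg (d * e * g₁)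
      have hA : 0 ≤ 2 * ((H : ℝ) ^ 3 / X) * V ^ 12 * ((tau d ^ 3 / d) * ((tau e ^ 3 / e) *
        ((tau g₀ ^ 3 / g₀) * (tau g₁ ^ 3 / g₁)))) := by positivity
      refine le_trans ?_ (le_add_of_nonneg_left hA)
      calc ww (d, e, g₀, g₁) * SS X H Q (d, e, g₀, g₁)
          ≤ (tau (d * e * g₁) ^ 3 * V ^ 12 / ((d : ℝ) ^ 2 * e ^ 2 * g₀ ^ 2 * g₁ ^ 3)) *
            ((H : ℝ) ^ 3 / (4 * X) * ((d * g₀ * g₁) * (d * e * g₁)) * ar (X ^ 2) (d, e, g₀, g₁)) :=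
            mul_le_mul hw h1 hSS0 (by positivity)
        _ ≤ (Tm ^ 3 * V ^ 12 / ((d : ℝ) ^ 2 * e ^ 2 * g₀ ^ 2 * g₁ ^ 3)) *
            ((H : ℝ) ^ 3 / (4 * X) * ((d * g₀ * g₁) * (d * e * g₁)) * ar (X ^ 2) (d, e, g₀, g₁)) := by gcongr
        _ = _ := by field_simp
  refine (sum_le_sum hterm).trans ?_
  rw [sum_add_distrib]
  -- the first sum
  have hS := sum_tau_div hQ hV
  have hS0 : 0 ≤ ∑ n ∈ Q.divisors, tau n ^ 3 / (n : ℝ) := sum_nonneg fun n _ => by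
    have := tau_nonneg n
    positivity
  have hfirst : ∑ σ ∈ Sh Q, 2 * ((H : ℝ) ^ 3 / X) * V ^ 12 * ((tau σ.1 ^ 3 / σ.1) * ((tau σ.2.1 ^ 3 / σ.2.1) *
        ((tau σ.2.2.1 ^ 3 / σ.2.2.1) * (tau σ.2.2.2 ^ 3 / σ.2.2.2)))) ≤ (H : ℝ) ^ 3 / X * (2 * V ^ 44) := by
    have e1 : ∑ σ ∈ Sh Q, (tau σ.1 ^ 3 / (σ.1 : ℝ)) * ((tau σ.2.1 ^ 3 / σ.2.1) *
        ((tau σ.2.2.1 ^ 3 / σ.2.2.1) * (tau σ.2.2.2 ^ 3 / σ.2.2.2))) = (∑ n ∈ Q.divisors, tau n ^ 3 / (n : ℝ)) ^ 4 := by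
      unfold Sh
      rw [sum_product]
      simp only
      simp_rw [← mul_sum]
      rw [← sum_mul, sum_product]
      simp only
      simp_rw [← mul_sum]
      rw [← sum_mul, sum_product]
      simp only
      simp_rw [← mul_sum]
      rw [← sum_mul]
      ring
    rw [← mul_sum, e1]
    calc 2 * ((H : ℝ) ^ 3 / X) * V ^ 12 * (∑ n ∈ Q.divisors, tau n ^ 3 / (n : ℝ)) ^ 4
        ≤ 2 * ((H : ℝ) ^ 3 / X) * V ^ 12 * (V ^ 8) ^ 4 := by gcongr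
      _ = _ := by ring
  -- the second sum
  have hsecond : ∑ σ ∈ Sh Q, (if good σ then 0 else Tm ^ 3 * V ^ 12 * ((H : ℝ) ^ 3 / (4 * X)) *
        (ar (X ^ 2) σ / (σ.2.1 * σ.2.2.1 * σ.2.2.2))) ≤
        (H : ℝ) ^ 3 / X * (Tm ^ 4 * V ^ 12 * (1 + 2 * Real.log X) ^ 5) := by
    have har : ∀ σ : ℕ × ℕ × ℕ × ℕ, 0 ≤ ar (X ^ 2) σ / ((σ.2.1 : ℝ) * σ.2.2.1 * σ.2.2.2) := by
      intro σ
      have : 0 ≤ ar (X ^ 2) σ := by
        unfold ar
        refine sum_nonneg fun a _ => sum_nonneg fun b _ => ?_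
        split_ifs <;> positivity
      positivity
    have e2 : ∑ σ ∈ Sh Q, (if good σ then 0 else Tm ^ 3 * V ^ 12 * ((H : ℝ) ^ 3 / (4 * X)) *
        (ar (X ^ 2) σ / (σ.2.1 * σ.2.2.1 * σ.2.2.2))) =
        ∑ σ ∈ (Sh Q).filter (fun σ => ¬ good σ), Tm ^ 3 * V ^ 12 * ((H : ℝ) ^ 3 / (4 * X)) *
        (ar (X ^ 2) σ / (σ.2.1 * σ.2.2.1 * σ.2.2.2)) := by
      rw [sum_filter]
      refine sum_congr rfl fun σ _ => ?_
      by_cases h : good σ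
      · rw [if_pos h, if_neg (not_not.mpr h)]
      · rw [if_neg h, if_pos h]
    rw [e2]
    have hsub : (Sh Q).filter (fun σ => ¬ good σ) ⊆ Icc 1 X ×ˢ Icc 1 X ×ˢ Icc 1 X ×ˢ Icc 1 X := by
      rintro ⟨d, e, g₀, g₁⟩ hσ
      rw [mem_filter] at hσ
      obtain ⟨hσ, hg⟩ := hσ
      unfold Sh at hσ
      rw [mem_product, mem_product, mem_product] at hσ
      obtain ⟨hd, he, hg₀, hg₁⟩ := hσ
      simp only at hd he hg₀ hg₁
      simp only [hgood, not_or, not_le] at hg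
      obtain ⟨c1, c2, c3⟩ := hg
      have n1 : 0 < d := Nat.pos_of_mem_divisors hd
      have n2 : 0 < e := Nat.pos_of_mem_divisors he
      have n3 : 0 < g₀ := Nat.pos_of_mem_divisors hg₀
      have n4 : 0 < g₁ := Nat.pos_of_mem_divisors hg₁
      rw [mem_product, mem_product, mem_product, mem_Icc, mem_Icc, mem_Icc, mem_Icc]
      simp only
      have i1 : d ≤ d * g₁ := Nat.le_mul_of_pos_right d n4
      have i2 : e ≤ e * g₁ := Nat.le_mul_of_pos_right e n4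
      have i3 : g₀ ≤ g₀ * g₁ := Nat.le_mul_of_pos_right g₀ n4
      have i4 : g₁ ≤ d * g₁ := Nat.le_mul_of_pos_left g₁ n1
      exact ⟨⟨n1, by omega⟩, ⟨n2, by omega⟩, ⟨n3, by omega⟩, ⟨n4, by omega⟩⟩
    have hX2 : 1 ≤ X ^ 2 := Nat.one_le_pow _ _ hX
    have h3 := ar_total X (X ^ 2) (2 * X ^ 3) hX hX2 Tm hTm hT0 (by
      have : 2 * X * X ^ 2 = 2 * X ^ 3 := by ring
      omega)
    calc _ ≤ ∑ σ ∈ Icc 1 X ×ˢ Icc 1 X ×ˢ Icc 1 X ×ˢ Icc 1 X, Tm ^ 3 * V ^ 12 * ((H : ℝ) ^ 3 / (4 * X)) *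
        (ar (X ^ 2) σ / (σ.2.1 * σ.2.2.1 * σ.2.2.2)) :=
          sum_le_sum_of_subset_of_nonneg hsub fun σ _ _ => by
            have := har σ
            positivity
      _ = Tm ^ 3 * V ^ 12 * ((H : ℝ) ^ 3 / (4 * X)) * ∑ d ∈ Icc 1 X, ∑ e ∈ Icc 1 X, ∑ g₀ ∈ Icc 1 X, ∑ g₁ ∈ Icc 1 X,
          ar (X ^ 2) (d, e, g₀, g₁) / (e * g₀ * g₁) := by
          rw [← mul_sum, sum_product]
          refine congrArg (fun z => Tm ^ 3 * V ^ 12 * ((H : ℝ) ^ 3 / (4 * X)) * z) (sum_congr rfl fun d _ => ?_)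
          rw [sum_product]
          refine sum_congr rfl fun e _ => ?_
          rw [sum_product]
      _ ≤ Tm ^ 3 * V ^ 12 * ((H : ℝ) ^ 3 / (4 * X)) * (4 * Tm * (1 + Real.log X) ^ 3 * (1 + Real.log ((X ^ 2 : ℕ) : ℝ)) ^ 2) := by
          gcongr
      _ ≤ Tm ^ 3 * V ^ 12 * ((H : ℝ) ^ 3 / (4 * X)) * (4 * Tm * (1 + 2 * Real.log X) ^ 3 * (1 + 2 * Real.log X) ^ 2) := by
          have e4 : Real.log ((X ^ 2 : ℕ) : ℝ) = 2 * Real.log X := by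
            push_cast
            rw [Real.log_pow]
            norm_num
          rw [e4]
          gcongr
          linarith
      _ = _ := by field_simp
  calc _ ≤ (H : ℝ) ^ 3 / X * (2 * V ^ 44) + (H : ℝ) ^ 3 / X * (Tm ^ 4 * V ^ 12 * (1 + 2 * Real.log X) ^ 5) :=
        add_le_add hfirst hsecond
    _ = _ := by ring

/-- **The variance of the local mean square.** -/
theorem variance_bound (hQ : Squarefree Q) (X H : ℕ) (hX : 1 ≤ X) (hHX : H ≤ X) {V : ℝ}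
    (hV : (Q : ℝ) / Q.totient ≤ V) (hV1 : 1 ≤ V) (Tm : ℝ) (hT0 : 0 ≤ Tm)
    (hTm : ∀ n : ℕ, 1 ≤ n → n ≤ 2 * X ^ 3 → tau n ≤ Tm) :
    ∑ a : ZMod Q, (VV X H a - EV Q H) ^ 2 ≤
      Q * (V ^ 8 * ((H : ℝ) ^ 3 / X * (2 * V ^ 44 + Tm ^ 4 * V ^ 12 * (1 + 2 * Real.log X) ^ 5))) := by
  have h1 := var_shapes hQ X H hX
  have h2 := sum_SS_le hQ X H hX hHX hV hV1 Tm hT0 hTm
  have h3 : ∑ n ∈ Q.divisors, 1 / (n : ℝ) ≤ V ^ 8 := by
    refine le_trans (sum_le_sum fun n hn => ?_) (sum_tau_div hQ hV)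
    have := tau_pos (Nat.pos_of_mem_divisors hn).ne'
    gcongr
    exact one_le_pow₀ this
  have h4 : 0 ≤ ∑ σ ∈ Sh Q, ww σ * SS X H Q σ :=
    sum_nonneg fun σ _ => mul_nonneg (ww_nonneg σ) (SS_nonneg X H σ)
  refine h1.trans ?_
  have hV0 : 0 ≤ V := by linarith
  gcongr

end Pool.Agent.L5helper10.RM
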