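import Pool.Agent.L5helper10.RM.F11

/-! The sums over the frequencies of a given order. -/

set_option autoImplicit false
set_option linter.unusedSectionVars false

namespace Pool.Agent.L5helper10.RM

open Finset ArithmeticFunction

open scoped ArithmeticFunction.Moebius ArithmeticFunction.zeta

lemma NZ_sum' (N : ℕ) (f : ℕ → ℝ) : ∑ a ∈ NZ N, f a.natAbs = 2 * ∑ n ∈ Icc 1 N, f n := by
  have hNZ : NZ N = (Icc 1 N).image (fun n : ℕ => (n : ℤ)) ∪ (Icc 1 N).image (fun n : ℕ => -(n : ℤ)) := by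
    ext a
    unfold NZ
    rw [mem_erase, mem_Icc, mem_union, mem_image, mem_image]
    constructor
    · rintro ⟨h0, h1, h2⟩
      rcases lt_or_gt_of_ne h0 with h | h
      · right
        refine ⟨(-a).toNat, ?_, ?_⟩
        · rw [mem_Icc]; omega
        · omega
      · left
        refine ⟨a.toNat, ?_, ?_⟩
        · rw [mem_Icc]; omega
        · omega
    · rintro (⟨n, hn, rfl⟩ | ⟨n, hn, rfl⟩)
      · rw [mem_Icc] at hn; omega
      · rw [mem_Icc] at hn; omega
  have hdisj : Disjoint ((Icc 1 N).image (fun n : ℕ => (n : ℤ))) ((Icc 1 N).image (fun n : ℕ => -(n : ℤ))) := by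
    rw [disjoint_left]
    intro a ha hb
    rw [mem_image] at ha hb
    obtain ⟨n, hn, rfl⟩ := ha
    obtain ⟨m, hm, hnm⟩ := hb
    rw [mem_Icc] at hn hm
    omega
  rw [hNZ, sum_union hdisj, sum_image (fun x _ y _ h => by simpa using h),
    sum_image (fun x _ y _ h => by simpa using h), two_mul]
  congr 1
  refine sum_congr rfl fun n _ => ?_
  simp

lemma sum_inv_sq (N : ℕ) : ∑ n ∈ Icc 1 N, 1 / (n : ℝ) ^ 2 ≤ 2 := by
  rcases Nat.eq_zero_or_pos N with h | h
  · subst h; simp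
  · have : ∑ n ∈ Icc 1 N, 1 / (n : ℝ) ^ 2 ≤ 2 - 1 / (N : ℝ) := by
      induction N with
      | zero => omega
      | succ n ih =>
        rcases Nat.eq_zero_or_pos n with hn | hn
        · subst hn; norm_num
        · rw [sum_Icc_succ_top (by omega)]
          have h1 := ih hn
          have hnr : (0 : ℝ) < n := by exact_mod_cast hn
          have h2 : 1 / ((n + 1 : ℕ) : ℝ) ^ 2 ≤ 1 / (n : ℝ) - 1 / ((n + 1 : ℕ) : ℝ) := by
            push_cast
            rw [div_sub_div _ _ (by positivity) (by positivity), div_le_div_iff₀ (by positivity) (by positivity)]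
            nlinarith
          linarith
    have h3 : (0 : ℝ) ≤ 1 / (N : ℝ) := by positivity
    linarith

variable {Q : ℕ} [NeZero Q]

/-- the sum over the frequencies of order `d` -/
noncomputable def AA (Q : ℕ) [NeZero Q] (H d : ℕ) : ℝ :=
  ∑ r ∈ (univ : Finset (ZMod Q)).filter (fun r => od r = d), ‖EE H r‖ ^ 2

lemma AA_nonneg (H d : ℕ) : 0 ≤ AA Q H d := sum_nonneg fun _ _ => by positivity

lemma EV_eq (hQ : Squarefree Q) (H : ℕ) :
    EV Q H = ∑ d ∈ Q.divisors.erase 1, AA Q H d / (d.totient : ℝ) ^ 2 := by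
  unfold EV
  have hmaps : ∀ r ∈ (univ : Finset (ZMod Q)).erase 0, od r ∈ Q.divisors.erase 1 := by
    intro r hr
    rw [mem_erase, Nat.mem_divisors]
    refine ⟨fun h => (mem_erase.mp hr).1 ((od_eq_one r).mp h), od_dvd r, hQ.ne_zero⟩
  rw [← sum_fiberwise_of_maps_to hmaps]
  refine sum_congr rfl fun d hd => ?_
  unfold AA
  rw [sum_div]
  have hset : ((univ : Finset (ZMod Q)).erase 0).filter (fun r => od r = d) =
      (univ : Finset (ZMod Q)).filter (fun r => od r = d) := by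
    ext r
    rw [mem_filter, mem_erase, mem_filter]
    constructor
    · rintro ⟨⟨-, h⟩, h2⟩; exact ⟨h, h2⟩
    · rintro ⟨h, h2⟩
      refine ⟨⟨?_, h⟩, h2⟩
      rintro rfl
      rw [od_zero] at h2
      exact (mem_erase.mp hd).1 h2.symm
  rw [hset]
  refine sum_congr rfl fun r hr => ?_
  rw [cc_sq hQ, (mem_filter.mp hr).2]
  ring

lemma AA_sub {d : ℕ} (hd1 : d ≠ 1) :
    (univ : Finset (ZMod Q)).filter (fun r => od r = d) ⊆ (ker Q d).erase 0 := by
  intro r hr
  have h := (mem_filter.mp hr).2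
  rw [mem_erase, mem_ker]
  refine ⟨?_, by rw [h]⟩
  rintro rfl
  rw [od_zero] at h
  exact hd1 h.symm

lemma AA_le1 {d : ℕ} (hd : d ∣ Q) (hd1 : d ≠ 1) (H : ℕ) : AA Q H d ≤ d * H :=
  (sum_le_sum_of_subset_of_nonneg (AA_sub hd1) fun _ _ _ => by positivity).trans (ker_sq_erase hd H)

lemma AA_le2 {d : ℕ} (hd : d ∣ Q) (hd1 : d ≠ 1) (H : ℕ) : AA Q H d ≤ (d : ℝ) ^ 2 := by
  refine (sum_le_sum_of_subset_of_nonneg (AA_sub hd1) fun _ _ _ => by positivity).trans ?_
  have hd0 := dvd_pos hd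
  obtain ⟨M, hM⟩ := hd
  have hM0 : 0 < M := Nat.pos_of_ne_zero (by
    rintro rfl
    rw [mul_zero] at hM
    exact NeZero.ne Q hM)
  have hMz : (M : ℤ) ≠ 0 := by exact_mod_cast hM0.ne'
  have hdr : (0 : ℝ) < d := by exact_mod_cast hd0
  have hMr : (0 : ℝ) < M := by exact_mod_cast hM0
  set φ : ZMod Q → ℤ := fun k => k.valMinAbs / M with hφ
  have hf : ∀ k ∈ (ker Q d).erase 0, k.valMinAbs = φ k * M ∧ φ k ∈ NZ d := by
    intro k hk
    rw [mem_erase] at hk
    have h1 : (d : ZMod Q) * k = 0 := by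
      have := hk.2
      unfold ker at this
      exact (mem_filter.mp this).2
    obtain ⟨b, hb⟩ := dvd_valMinAbs hd0 hM k h1
    have e1 : φ k = b := by
      simp only [hφ]
      rw [hb, Int.mul_ediv_cancel_left _ hMz]
    rw [e1]
    refine ⟨by rw [hb]; ring, ?_⟩
    unfold NZ
    rw [mem_erase, mem_Icc, ← abs_le]
    constructor
    · rintro rfl
      rw [mul_zero] at hb
      exact hk.1 ((ZMod.valMinAbs_eq_zero k).mp hb)
    · have h2 := valMinAbs_le' k
      rw [hb, abs_mul, Nat.abs_cast] at h2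
      have h3 : (M : ℤ) * (2 * |b|) ≤ M * d := by
        have e2 : (M : ℤ) * d = Q := by rw [mul_comm]; exact_mod_cast hM.symm
        rw [e2]; linarith
      have h4 := le_of_mul_le_mul_left h3 (by exact_mod_cast hM0)
      have := abs_nonneg b
      linarith
  have hinj : Set.InjOn φ ((ker Q d).erase 0) := by
    intro k hk k' hk' hkk
    have e1 : k.valMinAbs = k'.valMinAbs := by rw [(hf k hk).1, (hf k' hk').1, hkk]
    rw [← ZMod.coe_valMinAbs k, e1, ZMod.coe_valMinAbs]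
  have hterm : ∀ k ∈ (ker Q d).erase 0, ‖EE H k‖ ^ 2 ≤ (d : ℝ) ^ 2 / 4 * (1 / ((φ k).natAbs : ℝ) ^ 2) := by
    intro k hk
    obtain ⟨h1, h2⟩ := hf k hk
    have hb : (φ k) ≠ 0 := by
      unfold NZ at h2
      exact (mem_erase.mp h2).1
    have hbr : (0 : ℝ) < |((φ k : ℤ) : ℝ)| := by rw [abs_pos]; exact_mod_cast hb
    have h3 : ‖EE H k‖ ≤ d / (2 * |((φ k : ℤ) : ℝ)|) := by
      refine (EE_norm_le' H k (mem_erase.mp hk).1).trans (le_of_eq ?_)
      rw [h1]
      push_cast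
      have hQr : (Q : ℝ) = d * M := by exact_mod_cast hM
      rw [abs_mul, abs_of_pos hMr, hQr]
      field_simp
    have h4 : ((φ k).natAbs : ℝ) = |((φ k : ℤ) : ℝ)| := by
      rw [Nat.cast_natAbs, Int.cast_abs]
    rw [h4]
    calc ‖EE H k‖ ^ 2 ≤ (d / (2 * |((φ k : ℤ) : ℝ)|)) ^ 2 := by gcongr
      _ = _ := by field_simp; norm_num
  refine (sum_le_sum hterm).trans ?_
  rw [← mul_sum]
  have h5 : ∑ k ∈ (ker Q d).erase 0, (1 / ((φ k).natAbs : ℝ) ^ 2) ≤ ∑ a ∈ NZ d, 1 / (a.natAbs : ℝ) ^ 2 := by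
    rw [← sum_image (f := fun a : ℤ => 1 / (a.natAbs : ℝ) ^ 2) hinj]
    apply sum_le_sum_of_subset_of_nonneg
    · intro a ha
      rw [mem_image] at ha
      obtain ⟨k, hk, rfl⟩ := ha
      exact (hf k hk).2
    · intro _ _ _; positivity
  rw [NZ_sum' d (fun n => 1 / (n : ℝ) ^ 2)] at h5
  have h6 := sum_inv_sq d
  nlinarith

/-- Möbius inversion -/
lemma AA_moebius {d : ℕ} (hd : d ∣ Q) (H : ℕ) :
    AA Q H d = ∑ e ∈ d.divisors, (μ (d / e) : ℝ) * (e * cnt H e) := by
  have hd0 := dvd_pos hd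
  have h1 : ∀ e ∈ d.divisors, ((e : ℝ) * cnt H e) = ∑ r ∈ ker Q d, if od r ∣ e then ‖EE H r‖ ^ 2 else 0 := by
    intro e he
    rw [Nat.mem_divisors] at he
    have he' : e ∣ Q := he.1.trans hd
    rw [← ker_sq_eq he' H, ← sum_filter]
    refine sum_congr ?_ fun _ _ => rfl
    ext r
    rw [mem_filter, mem_ker, mem_ker]
    exact ⟨fun h => ⟨h.trans he.1, h⟩, fun h => h.2⟩
  have h2 : ∑ e ∈ d.divisors, (μ (d / e) : ℝ) * (e * cnt H e) =
      ∑ r ∈ ker Q d, ‖EE H r‖ ^ 2 * ∑ e ∈ d.divisors with od r ∣ e, (μ (d / e) : ℝ) := by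
    rw [sum_congr rfl (fun e he => by rw [h1 e he])]
    simp_rw [mul_sum]
    rw [sum_comm]
    refine sum_congr rfl fun r _ => ?_
    rw [sum_filter]
    refine sum_congr rfl fun e _ => ?_
    split_ifs <;> ring
  rw [h2]
  have h3 : ∀ r ∈ ker Q d, ∑ e ∈ d.divisors with od r ∣ e, (μ (d / e) : ℝ) = if od r = d then 1 else 0 := by
    intro r hr
    rw [mem_ker] at hr
    obtain ⟨m, hm⟩ := hr
    have ho := od_pos r
    have hm0 : m ≠ 0 := by rintro rfl; rw [mul_zero] at hm; omega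
    have h4 : ∑ e ∈ d.divisors with od r ∣ e, (μ (d / e) : ℝ) = ∑ f ∈ m.divisors, (μ f : ℝ) := by
      symm
      apply sum_bij (fun f _ => od r * (m / f))
      · intro f hf
        rw [Nat.mem_divisors] at hf
        rw [mem_filter, Nat.mem_divisors]
        refine ⟨⟨?_, hd0.ne'⟩, Dvd.intro _ rfl⟩
        rw [hm]
        exact Nat.mul_dvd_mul_left _ (Nat.div_dvd_of_dvd hf.1)
      · intro f hf f' hf' hff
        rw [Nat.mem_divisors] at hf hf'
        have e1 := Nat.eq_of_mul_eq_mul_left ho hff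
        have e2 := Nat.div_div_self hf.1 hm0
        have e3 := Nat.div_div_self hf'.1 hm0
        rw [← e2, ← e3, e1]
      · intro e he
        rw [mem_filter, Nat.mem_divisors] at he
        obtain ⟨⟨he1, -⟩, g, hg⟩ := he
        rw [hg, hm] at he1
        have hgm : g ∣ m := Nat.dvd_of_mul_dvd_mul_left ho he1
        refine ⟨m / g, ?_, ?_⟩
        · rw [Nat.mem_divisors]
          exact ⟨Nat.div_dvd_of_dvd hgm, hm0⟩
        · rw [Nat.div_div_self hgm hm0, hg]
      · intro f hf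
        rw [Nat.mem_divisors] at hf
        congr 2
        have hf0 : 0 < f := Nat.pos_of_dvd_of_pos hf.1 (Nat.pos_of_ne_zero hm0)
        obtain ⟨g, hg⟩ := hf.1
        have hg0 : 0 < g := Nat.pos_of_ne_zero (by rintro rfl; rw [mul_zero] at hg; exact hm0 hg)
        rw [hm, hg, Nat.mul_div_cancel_left _ hf0]
        rw [show od r * (f * g) = f * (od r * g) by ring, Nat.mul_div_cancel _ (by positivity)]
    rw [h4, sum_mu m hm0]
    by_cases hm1 : m = 1
    · rw [if_pos hm1, if_pos (by rw [hm, hm1, mul_one])]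
    · rw [if_neg hm1, if_neg]
      intro h5
      apply hm1
      rw [hm] at h5
      have : od r * 1 = od r * m := by rw [mul_one]; exact h5
      exact (Nat.eq_of_mul_eq_mul_left ho this).symm
  rw [sum_congr rfl (fun r hr => by rw [h3 r hr])]
  unfold AA
  rw [sum_filter]
  simp_rw [mul_ite, mul_one, mul_zero]
  symm
  apply sum_subset (subset_univ _)
  intro r _ hr
  rw [mem_ker] at hr
  rw [if_neg]
  intro h
  exact hr (by rw [h])

lemma AA_main {d : ℕ} (hd : d ∣ Q) (H : ℕ) : |AA Q H d - H * d.totient| ≤ (H : ℝ) ^ 2 * tau d := by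
  have hd0 := dvd_pos hd
  rw [AA_moebius hd]
  have h1 : (d.totient : ℝ) = ∑ e ∈ d.divisors, (μ (d / e) : ℝ) * e := by
    have h2 := (sum_eq_iff_sum_mul_moebius_eq (R := ℝ) (f := fun n => (n.totient : ℝ)) (g := fun n => (n : ℝ))).mp
      (fun n _ => by
        have := Nat.sum_totient n
        exact_mod_cast this) d hd0
    rw [← h2, ← Nat.map_div_left_divisors, sum_map]
    refine sum_congr rfl fun e _ => ?_
    rfl
  rw [h1, mul_sum, ← sum_sub_distrib]
  refine (abs_sum_le_sum_abs _ _).trans ?_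
  have h3 : ∀ e ∈ d.divisors, |(μ (d / e) : ℝ) * (e * cnt H e) - H * ((μ (d / e) : ℝ) * e)| ≤ (H : ℝ) ^ 2 := by
    intro e he
    have he0 : 0 < e := Nat.pos_of_mem_divisors he
    have e1 : (μ (d / e) : ℝ) * (e * cnt H e) - H * ((μ (d / e) : ℝ) * e) =
        (μ (d / e) : ℝ) * (e * cnt H e - e * H) := by ring
    rw [e1, abs_mul]
    have h4 : |(μ (d / e) : ℝ)| ≤ 1 := by
      have := abs_moebius_le_one (n := d / e)
      exact_mod_cast this
    have h5 := cnt_le H e he0
    have h6 : (H : ℝ) ≤ cnt H e := by exact_mod_cast cnt_ge H e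
    have her : (0 : ℝ) < e := by exact_mod_cast he0
    have h7 : |(e : ℝ) * cnt H e - e * H| ≤ (H : ℝ) ^ 2 := by
      rw [abs_le]
      constructor
      · nlinarith
      · nlinarith
    calc _ ≤ 1 * (H : ℝ) ^ 2 := mul_le_mul h4 h7 (abs_nonneg _) (by norm_num)
      _ = _ := one_mul _
  refine (sum_le_sum h3).trans (le_of_eq ?_)
  rw [sum_const, nsmul_eq_mul]
  unfold tau
  ring

end Pool.Agent.L5helper10.RM
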