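import Pool.Agent.L5helper10.RM.F12

/-! The mean of the local mean square. -/

set_option autoImplicit false
set_option linter.unusedSectionVars false

namespace Pool.Agent.L5helper10.RM

open Finset ArithmeticFunction

open scoped ArithmeticFunction.Moebius ArithmeticFunction.zeta

lemma sum_Ioc_le_log (a b : ℕ) (ha : 1 ≤ a) (hab : a ≤ b) : ∑ m ∈ Ioc a b, 1 / (m : ℝ) ≤ Real.log b - Real.log a := by
  induction b, hab using Nat.le_induction with
  | base => simp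
  | succ b hb ih =>
    rw [sum_Ioc_succ_top hb]
    have hb0 : (0 : ℝ) < b := by exact_mod_cast (by omega : 0 < b)
    have h1 : 1 / ((b + 1 : ℕ) : ℝ) ≤ Real.log ((b + 1 : ℕ) : ℝ) - Real.log b := by
      rw [← Real.log_div (by positivity) hb0.ne']
      have h2 := Real.one_sub_inv_le_log_of_pos (x := ((b + 1 : ℕ) : ℝ) / b) (by positivity)
      refine le_trans (le_of_eq ?_) h2
      push_cast
      field_simp
      ring
    linarith

lemma sum_window_le (α β : ℝ) (hα : 0 < α) (hαβ : α ≤ β) (s : Finset ℕ) (hs : ∀ m ∈ s, 1 ≤ m ∧ α < m ∧ (m : ℝ) ≤ β) :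
    ∑ m ∈ s, 1 / (m : ℝ) ≤ 1 + Real.log (β / α) := by
  have hβ : 0 < β := hα.trans_le hαβ
  have hlog : 0 ≤ Real.log (β / α) := Real.log_nonneg (by rwa [le_div_iff₀ hα, one_mul])
  rcases s.eq_empty_or_nonempty with h | ⟨m₀, hm₀⟩
  · rw [h, sum_empty]; linarith
  have hsub : s ⊆ Ioc ⌊α⌋₊ ⌊β⌋₊ := by
    intro m hm
    obtain ⟨h1, h2, h3⟩ := hs m hm
    rw [mem_Ioc]
    exact ⟨(Nat.floor_lt hα.le).mpr h2, Nat.le_floor h3⟩
  have h1 : ∑ m ∈ s, 1 / (m : ℝ) ≤ ∑ m ∈ Ioc ⌊α⌋₊ ⌊β⌋₊, 1 / (m : ℝ) :=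
    sum_le_sum_of_subset_of_nonneg hsub fun _ _ _ => by positivity
  refine h1.trans ?_
  have hab : ⌊α⌋₊ ≤ ⌊β⌋₊ := Nat.floor_le_floor hαβ
  have hb1 : 1 ≤ ⌊β⌋₊ := by
    obtain ⟨h1, h2, h3⟩ := hs m₀ hm₀
    exact h1.trans (Nat.le_floor h3)
  have hbr : (1 : ℝ) ≤ (⌊β⌋₊ : ℝ) := by exact_mod_cast hb1
  have hbβ : (⌊β⌋₊ : ℝ) ≤ β := Nat.floor_le hβ.le
  rcases Nat.eq_zero_or_pos ⌊α⌋₊ with h0 | h0
  · rw [h0]
    have h2 : ∑ m ∈ Ioc 0 ⌊β⌋₊, 1 / (m : ℝ) ≤ 1 + Real.log ⌊β⌋₊ := by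
      have := harm_le ⌊β⌋₊ hb1
      have e : Icc 1 ⌊β⌋₊ = Ioc 0 ⌊β⌋₊ := by ext; simp [Nat.succ_le_iff]
      rwa [e] at this
    have hα1 : α ≤ 1 := by
      have := Nat.floor_eq_zero.mp h0
      linarith
    have h3 : Real.log ⌊β⌋₊ ≤ Real.log (β / α) := by
      apply Real.log_le_log (by linarith)
      rw [le_div_iff₀ hα]
      nlinarith
    linarith
  · have h2 := sum_Ioc_le_log ⌊α⌋₊ ⌊β⌋₊ h0 hab
    have h0r : (1 : ℝ) ≤ (⌊α⌋₊ : ℝ) := by exact_mod_cast h0
    have h3 : α < ⌊α⌋₊ + 1 := Nat.lt_floor_add_one α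
    have h4 : Real.log ⌊β⌋₊ ≤ Real.log β := Real.log_le_log (by linarith) hbβ
    have h5 : Real.log α - Real.log ⌊α⌋₊ ≤ 1 := by
      rw [← Real.log_div hα.ne' (by positivity)]
      have h6 := Real.log_le_sub_one_of_pos (x := α / ⌊α⌋₊) (by positivity)
      have h7 : α / ⌊α⌋₊ ≤ 2 := by
        rw [div_le_iff₀ (by positivity)]
        linarith
      linarith
    rw [Real.log_div hβ.ne' hα.ne']
    linarith

/-- the local weight -/
noncomputable def fp (p : ℕ) : ℝ := ((p : ℝ) / (p - 1)) ^ 2 - 1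

lemma fp_nonneg {p : ℕ} (hp : p.Prime) : 0 ≤ fp p := by
  unfold fp
  have h2 : (2 : ℝ) ≤ p := by exact_mod_cast hp.two_le
  have : 1 ≤ (p : ℝ) / (p - 1) := by rw [le_div_iff₀ (by linarith)]; linarith
  nlinarith

lemma fp_le {p : ℕ} (hp : p.Prime) : fp p ≤ 6 / p := by
  unfold fp
  have h2 : (2 : ℝ) ≤ p := by exact_mod_cast hp.two_le
  have h3 : (0 : ℝ) < p - 1 := by linarith
  have e : ((p : ℝ) / (p - 1)) ^ 2 - 1 = (2 * p - 1) / (p - 1) ^ 2 := by
    field_simp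
    ring
  rw [e, div_le_div_iff₀ (by positivity) (by linarith)]
  nlinarith

noncomputable def FF : ArithmeticFunction ℝ := prodPrimeFactors fp

lemma FF_apply {e : ℕ} (he : e ≠ 0) : FF e = ∏ p ∈ e.primeFactors, fp p := by
  unfold FF
  rw [prodPrimeFactors_apply he]

lemma FF_nonneg {e : ℕ} (he : e ≠ 0) : 0 ≤ FF e := by
  rw [FF_apply he]
  exact prod_nonneg fun p hp => fp_nonneg (Nat.prime_of_mem_primeFactors hp)

lemma ratio_eq {d : ℕ} (hd : Squarefree d) : ((d : ℝ) / d.totient) ^ 2 = ∑ e ∈ d.divisors, FF e := by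
  have hmul : IsMultiplicative FF := IsMultiplicative.prodPrimeFactors fp
  rw [← hmul.prodPrimeFactors_one_add_of_squarefree hd]
  have hd0 : (d : ℝ) ≠ 0 := by exact_mod_cast hd.ne_zero
  have h3 : (d.totient : ℝ) = d * ∏ p ∈ d.primeFactors, (1 - (p : ℝ)⁻¹) := by
    have := congrArg (fun q : ℚ => (q : ℝ)) (Nat.totient_eq_mul_prod_factors d)
    push_cast at this
    exact this
  have hpp : ∀ p ∈ d.primeFactors, (2 : ℝ) ≤ p := by
    intro p hp
    exact_mod_cast (Nat.prime_of_mem_primeFactors hp).two_le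
  have h4 : (d : ℝ) / d.totient = ∏ p ∈ d.primeFactors, (1 - (p : ℝ)⁻¹)⁻¹ := by
    rw [h3, prod_inv_distrib]
    field_simp
  rw [h4, ← prod_pow]
  refine prod_congr rfl fun p hp => ?_
  have hprime := Nat.prime_of_mem_primeFactors hp
  rw [FF_apply hprime.ne_zero, hprime.primeFactors, prod_singleton]
  unfold fp
  have := hpp p hp
  have h5 : (p : ℝ) - 1 ≠ 0 := by linarith
  have h6 : (p : ℝ) ≠ 0 := by linarith
  have h7 : (1 - (p : ℝ)⁻¹)⁻¹ = (p : ℝ) / (p - 1) := by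
    rw [inv_eq_iff_eq_inv, inv_div]
    field_simp
  rw [h7]
  ring

lemma FF_sum {Q : ℕ} (hQ : Squarefree Q) : ∑ e ∈ Q.divisors, FF e / e ≤ Real.exp 12 := by
  have hmul : IsMultiplicative (prodPrimeFactors (fun p => fp p / p) : ArithmeticFunction ℝ) :=
    IsMultiplicative.prodPrimeFactors _
  have h1 : ∀ e ∈ Q.divisors, FF e / e = (prodPrimeFactors (fun p => fp p / p) : ArithmeticFunction ℝ) e := by
    intro e he
    have he0 := (Nat.pos_of_mem_divisors he).ne'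
    have hsq := hQ.squarefree_of_dvd (Nat.dvd_of_mem_divisors he)
    rw [FF_apply he0, prodPrimeFactors_apply he0, prod_div_distrib]
    congr 1
    have := Nat.prod_primeFactors_of_squarefree hsq
    conv_lhs => rw [← this]
    push_cast
    rfl
  rw [sum_congr rfl h1, ← hmul.prodPrimeFactors_one_add_of_squarefree hQ]
  have h2 : ∀ p ∈ Q.primeFactors, 1 + (prodPrimeFactors (fun p => fp p / p) : ArithmeticFunction ℝ) p ≤
      Real.exp (6 * (1 / (p : ℝ) ^ 2)) := by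
    intro p hp
    have hprime := Nat.prime_of_mem_primeFactors hp
    rw [prodPrimeFactors_apply hprime.ne_zero, hprime.primeFactors, prod_singleton]
    have h3 := fp_le hprime
    have hp0 : (0 : ℝ) < p := by exact_mod_cast hprime.pos
    have h4 : fp p / p ≤ 6 * (1 / (p : ℝ) ^ 2) := by
      rw [div_le_iff₀ hp0]
      refine h3.trans (le_of_eq ?_)
      field_simp
    have h5 := Real.add_one_le_exp (6 * (1 / (p : ℝ) ^ 2))
    linarith
  calc _ ≤ ∏ p ∈ Q.primeFactors, Real.exp (6 * (1 / (p : ℝ) ^ 2)) := by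
        apply prod_le_prod
        · intro p hp
          have hprime := Nat.prime_of_mem_primeFactors hp
          rw [prodPrimeFactors_apply hprime.ne_zero, hprime.primeFactors, prod_singleton]
          have := fp_nonneg hprime
          positivity
        · exact h2
    _ = Real.exp (∑ p ∈ Q.primeFactors, 6 * (1 / (p : ℝ) ^ 2)) := by rw [Real.exp_sum]
    _ ≤ Real.exp 12 := by
        apply Real.exp_le_exp.mpr
        rw [← mul_sum]
        have h6 : ∑ p ∈ Q.primeFactors, 1 / (p : ℝ) ^ 2 ≤ ∑ n ∈ Icc 1 Q, 1 / (n : ℝ) ^ 2 := by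
          apply sum_le_sum_of_subset_of_nonneg
          · intro p hp
            rw [mem_Icc]
            exact ⟨(Nat.prime_of_mem_primeFactors hp).pos, Nat.le_of_mem_primeFactors hp⟩
          · intro _ _ _; positivity
        have := sum_inv_sq Q
        linarith

/-- the sum over a window -/
lemma window_sum {Q : ℕ} (hQ : Squarefree Q) (α β : ℝ) (hα : 0 < α) (hαβ : α ≤ β) :
    ∑ d ∈ Q.divisors.filter (fun d : ℕ => α < d ∧ (d : ℝ) ≤ β), (d : ℝ) / (d.totient : ℝ) ^ 2 ≤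
      Real.exp 12 * (1 + Real.log (β / α)) := by
  have hβ : 0 < β := hα.trans_le hαβ
  have hlog : 0 ≤ Real.log (β / α) := Real.log_nonneg (by rwa [le_div_iff₀ hα, one_mul])
  have h1 : ∀ d ∈ Q.divisors.filter (fun d : ℕ => α < d ∧ (d : ℝ) ≤ β), (d : ℝ) / (d.totient : ℝ) ^ 2 =
      ∑ e ∈ Q.divisors, if e ∣ d then FF e * (1 / (d : ℝ)) else 0 := by
    intro d hd
    rw [mem_filter] at hd
    have hd0 : (d : ℝ) ≠ 0 := by exact_mod_cast (Nat.pos_of_mem_divisors hd.1).ne'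
    have hdQ := Nat.dvd_of_mem_divisors hd.1
    have hsq := hQ.squarefree_of_dvd hdQ
    have e1 : (d : ℝ) / (d.totient : ℝ) ^ 2 = ((d : ℝ) / d.totient) ^ 2 * (1 / (d : ℝ)) := by field_simp
    rw [e1, ratio_eq hsq, sum_mul, ← sum_filter]
    refine sum_congr ?_ fun _ _ => rfl
    ext e
    rw [mem_filter, Nat.mem_divisors, Nat.mem_divisors]
    exact ⟨fun h => ⟨⟨h.1.trans hdQ, hQ.ne_zero⟩, h.1⟩, fun h => ⟨h.2, hsq.ne_zero⟩⟩
  rw [sum_congr rfl h1, sum_comm]
  have h2 : ∀ e ∈ Q.divisors, ∑ d ∈ Q.divisors.filter (fun d : ℕ => α < d ∧ (d : ℝ) ≤ β),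
      (if e ∣ d then FF e * (1 / (d : ℝ)) else 0) ≤ FF e / e * (1 + Real.log (β / α)) := by
    intro e he
    have he0 := Nat.pos_of_mem_divisors he
    have her : (0 : ℝ) < e := by exact_mod_cast he0
    have hF := FF_nonneg he0.ne'
    rw [← sum_filter, ← mul_sum]
    set s := (Q.divisors.filter (fun d : ℕ => α < d ∧ (d : ℝ) ≤ β)).filter (fun d => e ∣ d) with hs
    have hs1 : ∀ d ∈ s, e ∣ d ∧ α < d ∧ (d : ℝ) ≤ β ∧ 0 < d := by
      intro d hd
      rw [hs, mem_filter, mem_filter] at hd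
      exact ⟨hd.2, hd.1.2.1, hd.1.2.2, Nat.pos_of_mem_divisors hd.1.1⟩
    have hinj : Set.InjOn (fun d => d / e) s := by
      intro d hd d' hd' h
      obtain ⟨a, -⟩ := hs1 d hd
      obtain ⟨b, -⟩ := hs1 d' hd'
      simp only at h
      rw [← Nat.mul_div_cancel' a, ← Nat.mul_div_cancel' b, h]
    have h3 : ∑ d ∈ s, 1 / (d : ℝ) = 1 / (e : ℝ) * ∑ m ∈ s.image (fun d => d / e), 1 / (m : ℝ) := by
      rw [sum_image hinj, mul_sum]
      refine sum_congr rfl fun d hd => ?_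
      obtain ⟨⟨m, hm⟩, -⟩ := hs1 d hd
      have : d / e = m := by rw [hm, Nat.mul_div_cancel_left _ he0]
      rw [this, one_div_mul_one_div]
      congr 1
      rw [hm]; push_cast; ring
    have h4 : ∑ m ∈ s.image (fun d => d / e), 1 / (m : ℝ) ≤ 1 + Real.log ((β / e) / (α / e)) := by
      apply sum_window_le (α / e) (β / e) (by positivity) (by gcongr)
      intro m hm
      rw [mem_image] at hm
      obtain ⟨d, hd, rfl⟩ := hm
      obtain ⟨⟨m, hm⟩, a1, a2, a3⟩ := hs1 d hd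
      have e1 : d / e = m := by rw [hm, Nat.mul_div_cancel_left _ he0]
      rw [e1]
      have hdr : (d : ℝ) = e * m := by rw [hm]; push_cast; ring
      refine ⟨Nat.pos_of_ne_zero (by rintro rfl; rw [mul_zero] at hm; omega), ?_, ?_⟩
      · rw [div_lt_iff₀ her]; linarith
      · rw [le_div_iff₀ her]; linarith
    have h5 : (β / e) / (α / e) = β / α := by field_simp
    rw [h5] at h4
    rw [h3]
    calc _ ≤ FF e * (1 / (e : ℝ) * (1 + Real.log (β / α))) := by gcongr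
      _ = _ := by ring
  refine (sum_le_sum h2).trans ?_
  rw [← sum_mul]
  exact mul_le_mul_of_nonneg_right (FF_sum hQ) (by linarith)

end Pool.Agent.L5helper10.RM
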