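import Pool.Agent.L5helper10.RM.F13

/-! The mean of the local mean square: the asymptotic formula. -/

set_option autoImplicit false
set_option linter.unusedSectionVars false

namespace Pool.Agent.L5helper10.RM

open Finset ArithmeticFunction

open scoped ArithmeticFunction.Moebius ArithmeticFunction.zeta

variable {Q : ℕ} [NeZero Q]

/-- the sum of `1 / φ(d)` over the divisors `d > H` of `Q` -/
noncomputable def LL (Q H : ℕ) : ℝ := ∑ d ∈ Q.divisors.filter (fun d => H < d), 1 / (d.totient : ℝ)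

lemma LL_eq (H : ℕ) (hH : 1 ≤ H) :
    LL Q H = ∑ d ∈ Q.divisors.erase 1, if H < d then 1 / (d.totient : ℝ) else 0 := by
  unfold LL
  rw [← sum_filter]
  refine sum_congr ?_ fun _ _ => rfl
  ext d
  rw [mem_filter, mem_filter, mem_erase]
  constructor
  · rintro ⟨h1, h2⟩
    exact ⟨⟨by omega, h1⟩, h2⟩
  · rintro ⟨⟨_, h1⟩, h2⟩
    exact ⟨h1, h2⟩

theorem EV_main (hQ : Squarefree Q) {V : ℝ} (hV : (Q : ℝ) / Q.totient ≤ V) (hV1 : 1 ≤ V) (H : ℕ) (hH : 1 ≤ H) :
    |EV Q H - H * LL Q H| ≤ H * (4 * Real.exp 12 * (1 + 20 * Real.log V)) := by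
  have hV0 : 0 < V := by linarith
  have hHr : (1 : ℝ) ≤ H := by exact_mod_cast hH
  have hH0 : (0 : ℝ) < H := by linarith
  obtain ⟨K, hK⟩ : ∃ K : ℝ, K = V ^ 10 := ⟨_, rfl⟩
  have hK1 : 1 ≤ K := by rw [hK]; exact one_le_pow₀ hV1
  have hK0 : 0 < K := by linarith
  rw [EV_eq hQ, LL_eq H hH, mul_sum, ← sum_sub_distrib]
  refine (abs_sum_le_sum_abs _ _).trans ?_
  -- pointwise bound
  have hpt : ∀ d ∈ Q.divisors.erase 1, |AA Q H d / (d.totient : ℝ) ^ 2 - H * (if H < d then 1 / (d.totient : ℝ) else 0)| ≤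
      (if (d : ℝ) ≤ H / K then V ^ 2 else 0) +
      (if ((H : ℝ) / K < d ∧ (d : ℝ) ≤ H * K) then 2 * H * ((d : ℝ) / (d.totient : ℝ) ^ 2) else 0) +
      (H * V ^ 2 / K) * (tau d ^ 3 / d) := by
    intro d hd
    rw [mem_erase] at hd
    have hdQ := Nat.dvd_of_mem_divisors hd.2
    have hd0 := Nat.pos_of_mem_divisors hd.2
    have hdr : (0 : ℝ) < d := by exact_mod_cast hd0
    have hφ0 : (0 : ℝ) < d.totient := by exact_mod_cast Nat.totient_pos.mpr hd0
    have hφd : (d.totient : ℝ) ≤ d := by exact_mod_cast Nat.totient_le d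
    have hinv := inv_tot_le hQ hV hd.2
    have hτ := tau_pos hd0.ne'
    have hA0 := AA_nonneg (Q := Q) H d
    have hnn3 : 0 ≤ (H * V ^ 2 / K) * (tau d ^ 3 / d) := by positivity
    by_cases c1 : (d : ℝ) ≤ H / K
    · have h1 : ¬ H < d := by
        intro h
        have h2 : (H : ℝ) < d := by exact_mod_cast h
        have h3 : (H : ℝ) / K ≤ H := div_le_self hH0.le hK1
        linarith
      rw [if_neg h1, mul_zero, sub_zero, abs_of_nonneg (by positivity), if_pos c1]
      have h2 := AA_le2 hdQ hd.1 H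
      have h3 : AA Q H d / (d.totient : ℝ) ^ 2 ≤ V ^ 2 := by
        calc AA Q H d / (d.totient : ℝ) ^ 2 ≤ (d : ℝ) ^ 2 / (d.totient : ℝ) ^ 2 := by gcongr
          _ = (d * (1 / (d.totient : ℝ))) ^ 2 := by field_simp
          _ ≤ (d * (V / d)) ^ 2 := by gcongr
          _ = V ^ 2 := by field_simp
      have hnn2 : 0 ≤ (if ((H : ℝ) / K < d ∧ (d : ℝ) ≤ H * K) then 2 * H * ((d : ℝ) / (d.totient : ℝ) ^ 2) else 0) := by
        split_ifs <;> positivity
      linarith
    · rw [if_neg c1]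
      push Not at c1
      by_cases c2 : (d : ℝ) ≤ H * K
      · have e3 : (if ((H : ℝ) / K < d ∧ (d : ℝ) ≤ H * K) then 2 * H * ((d : ℝ) / (d.totient : ℝ) ^ 2) else 0) =
            2 * H * ((d : ℝ) / (d.totient : ℝ) ^ 2) := if_pos ⟨c1, c2⟩
        rw [e3]
        have h2 := AA_le1 hdQ hd.1 H
        have h3 : AA Q H d / (d.totient : ℝ) ^ 2 ≤ H * ((d : ℝ) / (d.totient : ℝ) ^ 2) := by
          calc AA Q H d / (d.totient : ℝ) ^ 2 ≤ (d * H) / (d.totient : ℝ) ^ 2 := by gcongr
            _ = _ := by ring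
        have h4 : H * (if H < d then 1 / (d.totient : ℝ) else 0) ≤ H * ((d : ℝ) / (d.totient : ℝ) ^ 2) := by
          apply mul_le_mul_of_nonneg_left _ hH0.le
          split_ifs
          · rw [div_le_div_iff₀ hφ0 (by positivity)]
            nlinarith
          · positivity
        have h5 : 0 ≤ H * (if H < d then 1 / (d.totient : ℝ) else 0) := by
          apply mul_nonneg hH0.le
          split_ifs <;> positivity
        have h6 : 0 ≤ AA Q H d / (d.totient : ℝ) ^ 2 := by positivity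
        rw [abs_le]
        constructor <;> nlinarith
      · have e3 : (if ((H : ℝ) / K < d ∧ (d : ℝ) ≤ H * K) then 2 * H * ((d : ℝ) / (d.totient : ℝ) ^ 2) else 0) = 0 :=
          if_neg (fun h => c2 h.2)
        rw [e3, zero_add, zero_add]
        push Not at c2
        have h1 : H < d := by
          have : (H : ℝ) < d := lt_of_le_of_lt (le_mul_of_one_le_right hH0.le hK1) c2
          exact_mod_cast this
        rw [if_pos h1]
        have h2 := AA_main hdQ H
        have e1 : AA Q H d / (d.totient : ℝ) ^ 2 - H * (1 / (d.totient : ℝ)) =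
            (AA Q H d - H * d.totient) / (d.totient : ℝ) ^ 2 := by field_simp
        rw [e1, abs_div, abs_of_pos (by positivity : (0 : ℝ) < (d.totient : ℝ) ^ 2)]
        have h3 : 1 / (d.totient : ℝ) ^ 2 ≤ (V / d) ^ 2 := by
          calc 1 / (d.totient : ℝ) ^ 2 = (1 / (d.totient : ℝ)) ^ 2 := by field_simp
            _ ≤ _ := by gcongr
        have h4 : tau d ≤ tau d ^ 3 := by nlinarith [mul_nonneg (by linarith : (0:ℝ) ≤ tau d - 1) (by linarith : (0:ℝ) ≤ tau d), mul_nonneg (by linarith : (0:ℝ) ≤ tau d - 1) (by positivity : (0:ℝ) ≤ tau d ^ 2)]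
        have h5 : (H : ℝ) / d ≤ 1 / K := by
          rw [div_le_div_iff₀ hdr hK0]; linarith
        calc |AA Q H d - H * d.totient| / (d.totient : ℝ) ^ 2
            = |AA Q H d - H * d.totient| * (1 / (d.totient : ℝ) ^ 2) := by ring
          _ ≤ ((H : ℝ) ^ 2 * tau d ^ 3) * (V / d) ^ 2 := by
              apply mul_le_mul (h2.trans (by gcongr)) h3 (by positivity) (by positivity)
          _ = (H * V ^ 2 * (tau d ^ 3 / d)) * ((H : ℝ) / d) := by field_simp
          _ ≤ (H * V ^ 2 * (tau d ^ 3 / d)) * (1 / K) := by gcongr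
          _ = _ := by ring
  refine (sum_le_sum hpt).trans ?_
  rw [sum_add_distrib, sum_add_distrib]
  have hs1 : ∑ d ∈ Q.divisors.erase 1, (if (d : ℝ) ≤ H / K then V ^ 2 else 0) ≤ H := by
    rw [← sum_filter, sum_const, nsmul_eq_mul]
    have hc : (#((Q.divisors.erase 1).filter (fun d : ℕ => (d : ℝ) ≤ H / K)) : ℝ) ≤ H / K := by
      have h1 : (Q.divisors.erase 1).filter (fun d : ℕ => (d : ℝ) ≤ H / K) ⊆ Icc 1 ⌊(H : ℝ) / K⌋₊ := by
        intro d hd
        rw [mem_filter, mem_erase] at hd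
        rw [mem_Icc]
        exact ⟨Nat.pos_of_mem_divisors hd.1.2, Nat.le_floor hd.2⟩
      have h2 := card_le_card h1
      rw [Nat.card_Icc, Nat.add_sub_cancel] at h2
      calc _ ≤ ((⌊(H : ℝ) / K⌋₊ : ℕ) : ℝ) := by exact_mod_cast h2
        _ ≤ _ := Nat.floor_le (by positivity)
    have hVK : V ^ 2 ≤ K := by
      rw [hK]; exact pow_le_pow_right₀ hV1 (by norm_num)
    calc _ ≤ (H : ℝ) / K * K := by gcongr
      _ = H := by field_simp
  have hs2 : ∑ d ∈ Q.divisors.erase 1, (if ((H : ℝ) / K < d ∧ (d : ℝ) ≤ H * K) then 2 * H * ((d : ℝ) / (d.totient : ℝ) ^ 2) else 0) ≤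
      2 * H * (Real.exp 12 * (1 + 20 * Real.log V)) := by
    rw [← sum_filter, ← mul_sum]
    apply mul_le_mul_of_nonneg_left _ (by positivity)
    have h1 := window_sum hQ ((H : ℝ) / K) (H * K) (by positivity) ((div_le_self hH0.le hK1).trans (le_mul_of_one_le_right hH0.le hK1))
    have e1 : (H : ℝ) * K / (H / K) = V ^ 20 := by
      rw [hK]; field_simp
    rw [e1, Real.log_pow] at h1
    refine le_trans ?_ h1
    apply sum_le_sum_of_subset_of_nonneg
    · exact filter_subset_filter _ (erase_subset _ _)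
    · intro _ _ _; positivity
  have hs3 : ∑ d ∈ Q.divisors.erase 1, (H * V ^ 2 / K) * (tau d ^ 3 / d) ≤ H := by
    rw [← mul_sum]
    have h1 : ∑ d ∈ Q.divisors.erase 1, tau d ^ 3 / d ≤ V ^ 8 := by
      refine le_trans ?_ (sum_tau_div hQ hV)
      apply sum_le_sum_of_subset_of_nonneg (erase_subset _ _)
      intro d _ _
      have := tau_nonneg d
      positivity
    calc _ ≤ (H * V ^ 2 / K) * V ^ 8 := by gcongr
      _ = H := by rw [hK]; field_simp
  have hlog : 0 ≤ Real.log V := Real.log_nonneg hV1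
  have hexp : (1 : ℝ) ≤ Real.exp 12 := Real.one_le_exp (by norm_num)
  have h9 : (1 : ℝ) ≤ Real.exp 12 * (1 + 20 * Real.log V) := by nlinarith
  have h10 : (H : ℝ) ≤ H * (Real.exp 12 * (1 + 20 * Real.log V)) := le_mul_of_one_le_right hH0.le h9
  linarith

end Pool.Agent.L5helper10.RM
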