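import Pool.Agent.L5helper10.RM.F1

/-! Sums of `‖EE X t‖ ^ 2` over cosets. -/

set_option autoImplicit false

namespace Pool.Agent.L5helper10.RM

open Finset

/-- the number of `y ≤ X` in a residue class -/
lemma count_class (X N : ℕ) (hN : 0 < N) (x : ℤ) : #((Icc 1 X).filter (fun y : ℕ => (N : ℤ) ∣ x - y)) ≤ X / N + 1 := by
  have : #((Icc 1 X).filter (fun y : ℕ => (N : ℤ) ∣ x - y)) ≤ #(range (X / N + 1)) := by
    apply card_le_card_of_injOn (fun y : ℕ => y / N)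
    · intro y hy
      rw [mem_coe, mem_filter, mem_Icc] at hy
      rw [mem_coe, mem_range]
      have := Nat.div_le_div_right (c := N) hy.1.2
      show y / N < X / N + 1
      omega
    · intro y hy y' hy' hyy'
      rw [mem_coe, mem_filter] at hy hy'
      simp only at hyy'
      have h1 : (N : ℤ) ∣ (y' : ℤ) - y := by
        have := dvd_sub hy.2 hy'.2
        simpa using this
      have h2 : y ≡ y' [MOD N] := (Nat.modEq_iff_dvd).mpr h1
      have h3 : y % N = y' % N := h2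
      calc y = N * (y / N) + y % N := (Nat.div_add_mod _ _).symm
        _ = N * (y' / N) + y' % N := by rw [hyy', h3]
        _ = y' := Nat.div_add_mod _ _
  rwa [card_range] at this

/-- `∑_{x, y ≤ X, N ∣ x - y} 1` -/
def cnt (X N : ℕ) : ℕ := ∑ x ∈ Icc 1 X, #((Icc 1 X).filter (fun y : ℕ => (N : ℤ) ∣ (x : ℤ) - y))

lemma cnt_le (X N : ℕ) (hN : 0 < N) : (N : ℝ) * cnt X N ≤ X * (X + N) := by
  have h1 : cnt X N ≤ X * (X / N + 1) := by
    unfold cnt
    refine (sum_le_card_nsmul _ _ (X / N + 1) fun x _ => count_class X N hN _).trans ?_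
    rw [Nat.card_Icc, smul_eq_mul]
    simp
  have h2 : N * (X / N) ≤ X := Nat.mul_div_le _ _
  have h3 : N * cnt X N ≤ X * (X + N) := by
    calc N * cnt X N ≤ N * (X * (X / N + 1)) := Nat.mul_le_mul_left _ h1
      _ = X * (N * (X / N) + N) := by ring
      _ ≤ X * (X + N) := by gcongr
  exact_mod_cast h3

lemma cnt_ge (X N : ℕ) : X ≤ cnt X N := by
  unfold cnt
  have : ∀ x ∈ Icc 1 X, 1 ≤ #((Icc 1 X).filter (fun y : ℕ => (N : ℤ) ∣ (x : ℤ) - y)) := by
    intro x hx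
    apply card_pos.mpr
    exact ⟨x, by rw [mem_filter]; exact ⟨hx, by simp⟩⟩
  have h2 := card_nsmul_le_sum _ _ 1 this
  simpa using h2

variable {Q : ℕ} [NeZero Q]

lemma dvd_pos {N : ℕ} (hN : N ∣ Q) : 0 < N := by
  have hQ : 0 < Q := Nat.pos_of_ne_zero (NeZero.ne Q)
  exact Nat.pos_of_dvd_of_pos hN hQ

/-- the second moment over a coset -/
lemma coset_eq {N : ℕ} (hN : N ∣ Q) (X : ℕ) (t₀ : ZMod Q) :
    ((∑ k ∈ ker Q N, ‖EE X (t₀ + k)‖ ^ 2 : ℝ) : ℂ) =
      ∑ x ∈ Icc 1 X, ∑ y ∈ Icc 1 X, ee (t₀ * ((x : ZMod Q) - (y : ZMod Q))) *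
        (if (N : ℤ) ∣ (x : ℤ) - y then (N : ℂ) else 0) := by
  rw [Complex.ofReal_sum]
  rw [sum_congr rfl (fun k _ => norm_sq_EE X (t₀ + k))]
  rw [sum_comm]
  refine sum_congr rfl fun x _ => ?_
  rw [sum_comm]
  refine sum_congr rfl fun y _ => ?_
  rw [← ker_sum hN, mul_sum]
  refine sum_congr rfl fun k _ => ?_
  rw [← ee_add]
  congr 1
  push_cast
  ring

lemma coset_le {N : ℕ} (hN : N ∣ Q) (X : ℕ) (t₀ : ZMod Q) :
    ∑ k ∈ ker Q N, ‖EE X (t₀ + k)‖ ^ 2 ≤ X * (X + N) := by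
  have hN0 := dvd_pos hN
  have h0 : 0 ≤ ∑ k ∈ ker Q N, ‖EE X (t₀ + k)‖ ^ 2 := sum_nonneg fun _ _ => by positivity
  have h1 : ∑ k ∈ ker Q N, ‖EE X (t₀ + k)‖ ^ 2 = ‖((∑ k ∈ ker Q N, ‖EE X (t₀ + k)‖ ^ 2 : ℝ) : ℂ)‖ := by
    rw [Complex.norm_real, Real.norm_of_nonneg h0]
  rw [h1, coset_eq hN]
  refine le_trans ?_ (cnt_le X N hN0)
  refine (norm_sum_le _ _).trans ?_
  unfold cnt
  rw [Nat.cast_sum, mul_sum]
  refine sum_le_sum fun x _ => ?_
  refine (norm_sum_le _ _).trans ?_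
  rw [card_filter, Nat.cast_sum, mul_sum]
  refine sum_le_sum fun y _ => ?_
  rw [norm_mul, ee_norm, one_mul]
  split_ifs with h
  · simp
  · simp

lemma ker_sq_eq {N : ℕ} (hN : N ∣ Q) (X : ℕ) :
    ∑ k ∈ ker Q N, ‖EE X k‖ ^ 2 = N * cnt X N := by
  have h := coset_eq hN X (0 : ZMod Q)
  simp only [zero_add, zero_mul, ee_zero, one_mul] at h
  have h2 : (∑ x ∈ Icc 1 X, ∑ y ∈ Icc 1 X, (if (N : ℤ) ∣ (x : ℤ) - y then (N : ℂ) else 0)) =
      (((N : ℝ) * cnt X N : ℝ) : ℂ) := by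
    unfold cnt
    push_cast
    rw [mul_sum]
    refine sum_congr rfl fun x _ => ?_
    rw [card_filter]
    push_cast
    rw [mul_sum]
    refine sum_congr rfl fun y _ => ?_
    split_ifs <;> simp
  rw [h2] at h
  exact_mod_cast h

lemma zero_mem_ker (N : ℕ) : (0 : ZMod Q) ∈ ker Q N := by
  unfold ker; simp

lemma ker_sq_erase {N : ℕ} (hN : N ∣ Q) (X : ℕ) :
    ∑ k ∈ (ker Q N).erase 0, ‖EE X k‖ ^ 2 ≤ N * X := by
  have h1 := add_sum_erase (ker Q N) (fun k => ‖EE X k‖ ^ 2) (zero_mem_ker N)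
  simp only [EE_zero, Complex.norm_natCast] at h1
  have h2 := ker_sq_eq hN X
  have h3 := cnt_le X N (dvd_pos hN)
  nlinarith

/-- the bound by the distance from the nearest integer -/
lemma EE_norm_le' (H : ℕ) (r : ZMod Q) (hr : r ≠ 0) : ‖EE H r‖ ≤ Q / (2 * |(r.valMinAbs : ℝ)|) := by
  have hQ : 0 < Q := Nat.pos_of_ne_zero (NeZero.ne Q)
  have hQr : (0 : ℝ) < Q := by exact_mod_cast hQ
  have hv : r.valMinAbs ≠ 0 := by
    intro h
    apply hr
    rwa [ZMod.valMinAbs_eq_zero] at h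
  have hvr : (0 : ℝ) < |(r.valMinAbs : ℝ)| := by
    rw [abs_pos]; exact_mod_cast hv
  set v : ℝ := (r.valMinAbs : ℝ) with hvdef
  have hvQ : |v| ≤ Q / 2 := by
    have h := ZMod.natAbs_valMinAbs_le r
    have h2 : ((r.valMinAbs.natAbs : ℕ) : ℝ) ≤ Q / 2 := by
      rw [le_div_iff₀ (by norm_num)]
      have := Nat.div_mul_le_self Q 2
      have h3 : r.valMinAbs.natAbs * 2 ≤ Q := le_trans (Nat.mul_le_mul_right _ h) this
      exact_mod_cast h3
    rw [Nat.cast_natAbs, Int.cast_abs] at h2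
    exact h2
  have hee : ee r = Complex.exp (Complex.I * ((2 * Real.pi * v / Q : ℝ) : ℂ)) := by
    have h1 : ((r.valMinAbs : ℤ) : ZMod Q) = r := ZMod.coe_valMinAbs r
    rw [← h1, ee_int, hvdef]
    congr 1
    push_cast
    ring
  have hsub : ‖ee r - 1‖ = 2 * |Real.sin (Real.pi * v / Q)| := by
    rw [hee, Complex.norm_exp_I_mul_ofReal_sub_one, Real.norm_eq_abs, abs_mul, abs_of_pos (by norm_num : (0:ℝ) < 2)]
    congr 3
    ring
  have hsin : 2 * |v| / Q ≤ |Real.sin (Real.pi * v / Q)| := by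
    have hle : |Real.pi * v / Q| ≤ Real.pi / 2 := by
      rw [abs_div, abs_mul, abs_of_pos Real.pi_pos, abs_of_pos hQr, div_le_div_iff₀ hQr (by norm_num)]
      have := Real.pi_pos
      nlinarith
    have h2 := Real.mul_abs_le_abs_sin hle
    refine le_trans (le_of_eq ?_) h2
    rw [abs_div, abs_mul, abs_of_pos Real.pi_pos, abs_of_pos hQr]
    have := Real.pi_pos
    field_simp
  have hgeo : EE H r * (ee r - 1) = ee (r * ((H : ZMod Q) + 1)) - ee r := by
    unfold EE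
    induction H with
    | zero => simp
    | succ n ih =>
      rw [sum_Icc_succ_top (by omega), add_mul, ih]
      have e1 : ee (r * (((n + 1 : ℕ) : ZMod Q))) * ee r = ee (r * (((n + 1 : ℕ) : ZMod Q) + 1)) := by
        rw [← ee_add]; congr 1; ring
      have e2 : ee (r * (((n + 1 : ℕ) : ZMod Q))) = ee (r * ((n : ZMod Q) + 1)) := by
        congr 1; push_cast; ring
      rw [mul_sub, e1, mul_one, e2]
      ring
  have hn : ‖EE H r‖ * ‖ee r - 1‖ ≤ 2 := by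
    rw [← norm_mul, hgeo]
    refine (norm_sub_le _ _).trans ?_
    rw [ee_norm, ee_norm]; norm_num
  rw [hsub] at hn
  rw [le_div_iff₀ (by positivity)]
  have h5 : ‖EE H r‖ * (2 * (2 * |v| / Q)) ≤ 2 := by
    refine le_trans ?_ hn
    gcongr
  have h6 : ‖EE H r‖ * (2 * |v|) = Q / 2 * (‖EE H r‖ * (2 * (2 * |v| / Q))) := by
    field_simp
  rw [h6]
  nlinarith

end Pool.Agent.L5helper10.RM
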