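import Pool.Agent.L5helper10.RM.F2

/-! Fourier expansion of the indicator function of the units. -/

set_option autoImplicit false
set_option linter.unusedSectionVars false

namespace Pool.Agent.L5helper10.RM

open Finset ArithmeticFunction

open scoped ArithmeticFunction.Moebius ArithmeticFunction.zeta

lemma sum_mu (n : ℕ) (hn : n ≠ 0) : ∑ e ∈ n.divisors, (μ e : ℝ) = if n = 1 then 1 else 0 := by
  have h := congrArg (fun f : ArithmeticFunction ℝ => f n) (coe_moebius_mul_coe_zeta (R := ℝ))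
  rw [coe_mul_zeta_apply, one_apply] at h
  simpa using h

lemma sum_mu_div (M : ℕ) (hM : Squarefree M) :
    ∑ f ∈ M.divisors, (μ f : ℝ) * (f : ℝ)⁻¹ = (M.totient : ℝ) / M := by
  have hM0 : (M : ℝ) ≠ 0 := by exact_mod_cast hM.ne_zero
  have hmul : IsMultiplicative (⟨fun n => (n : ℝ)⁻¹, by simp⟩ : ArithmeticFunction ℝ) :=
    ⟨by simp, by intro m n _; simp [mul_inv, mul_comm]⟩
  have h := IsMultiplicative.prodPrimeFactors_one_sub_of_squarefree _ hmul (n := M) hM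
  simp only [coe_mk] at h
  have h2 := Nat.totient_eq_mul_prod_factors M
  have h3 : (M.totient : ℝ) = M * ∏ p ∈ M.primeFactors, (1 - (p : ℝ)⁻¹) := by
    have := congrArg (fun q : ℚ => (q : ℝ)) h2
    push_cast at this
    exact this
  rw [h3, mul_div_cancel_left₀ _ hM0, h]

lemma sum_mu_multiples {Q d : ℕ} (hQ : Squarefree Q) (hd : d ∣ Q) :
    ∑ e ∈ Q.divisors with d ∣ e, (μ e : ℝ) * (e : ℝ)⁻¹ =
      (μ d : ℝ) / d.totient * (Q.totient / Q) := by
  obtain ⟨M, rfl⟩ := hd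
  have hcop : Nat.Coprime d M := Nat.coprime_of_squarefree_mul hQ
  have hd0 : d ≠ 0 := by rintro rfl; simp at hQ
  have hM0 : M ≠ 0 := by rintro rfl; simp at hQ
  have hMsq : Squarefree M := hQ.squarefree_of_dvd ⟨d, by ring⟩
  have himg : (d * M).divisors.filter (fun e => d ∣ e) = M.divisors.image (fun f => d * f) := by
    ext e
    rw [mem_filter, Nat.mem_divisors, mem_image]
    constructor
    · rintro ⟨⟨h1, h2⟩, f, rfl⟩
      exact ⟨f, by rw [Nat.mem_divisors]; exact ⟨Nat.dvd_of_mul_dvd_mul_left (Nat.pos_of_ne_zero hd0) h1, hM0⟩, rfl⟩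
    · rintro ⟨f, hf, rfl⟩
      rw [Nat.mem_divisors] at hf
      exact ⟨⟨Nat.mul_dvd_mul_left _ hf.1, by positivity⟩, Dvd.intro _ rfl⟩
  rw [himg, sum_image (fun x _ y _ h => Nat.eq_of_mul_eq_mul_left (Nat.pos_of_ne_zero hd0) h)]
  have h1 : ∀ f ∈ M.divisors, (μ (d * f) : ℝ) * ((d * f : ℕ) : ℝ)⁻¹ =
      ((μ d : ℝ) * (d : ℝ)⁻¹) * ((μ f : ℝ) * (f : ℝ)⁻¹) := by
    intro f hf
    rw [Nat.mem_divisors] at hf
    have hc : Nat.Coprime d f := Nat.Coprime.coprime_dvd_right hf.1 hcop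
    rw [isMultiplicative_moebius.map_mul_of_coprime hc]
    push_cast
    rw [mul_inv]
    ring
  rw [sum_congr rfl h1, ← mul_sum, sum_mu_div M hMsq, Nat.totient_mul hcop]
  have e1 : (d : ℝ) ≠ 0 := by exact_mod_cast hd0
  have e2 : (M : ℝ) ≠ 0 := by exact_mod_cast hM0
  have e3 : (d.totient : ℝ) ≠ 0 := by
    have := Nat.totient_pos.mpr (Nat.pos_of_ne_zero hd0)
    exact_mod_cast this.ne'
  push_cast
  field_simp

variable {Q : ℕ} [NeZero Q]

/-- the order of `r` -/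
noncomputable def od (r : ZMod Q) : ℕ := addOrderOf r

lemma od_dvd_iff (r : ZMod Q) (N : ℕ) : od r ∣ N ↔ (N : ZMod Q) * r = 0 := by
  unfold od
  rw [addOrderOf_dvd_iff_nsmul_eq_zero, nsmul_eq_mul]

lemma od_dvd (r : ZMod Q) : od r ∣ Q := by
  rw [od_dvd_iff]; simp

lemma mem_ker (r : ZMod Q) (N : ℕ) : r ∈ ker Q N ↔ od r ∣ N := by
  rw [od_dvd_iff]; unfold ker; simp

lemma od_eq_one (r : ZMod Q) : od r = 1 ↔ r = 0 := by
  unfold od; exact AddMonoid.addOrderOf_eq_one_iff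

lemma od_zero : od (0 : ZMod Q) = 1 := (od_eq_one 0).mpr rfl

lemma od_pos (r : ZMod Q) : 0 < od r := dvd_pos (od_dvd r)

/-- the Fourier coefficients -/
noncomputable def cc (r : ZMod Q) : ℝ := (μ (od r) : ℝ) / ((od r).totient : ℝ)

/-- the normalised indicator function of the units -/
noncomputable def WW (m : ZMod Q) : ℝ := by
  classical
  exact if IsUnit m then (Q : ℝ) / Q.totient else 0

theorem WW_expand (hQ : Squarefree Q) (m : ZMod Q) : (WW m : ℂ) = ∑ r : ZMod Q, (cc r : ℂ) * ee (r * m) := by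
  have hQ0 : (Q : ℝ) ≠ 0 := by exact_mod_cast hQ.ne_zero
  have hφ : (Q.totient : ℝ) ≠ 0 := by
    have := Nat.totient_pos.mpr (Nat.pos_of_ne_zero hQ.ne_zero)
    exact_mod_cast this.ne'
  have h1 : ∀ r : ZMod Q, cc r = (Q : ℝ) / Q.totient * ∑ e ∈ Q.divisors with od r ∣ e, (μ e : ℝ) * (e : ℝ)⁻¹ := by
    intro r
    rw [sum_mu_multiples hQ (od_dvd r)]
    unfold cc
    field_simp
  have hm : m = ((m.val : ℤ) : ZMod Q) := by
    rw [Int.cast_natCast, ZMod.natCast_zmod_val]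
  have h2 : ∀ e ∈ Q.divisors, ∑ r : ZMod Q with od r ∣ e, ee (r * m) = if e ∣ m.val then (e : ℂ) else 0 := by
    intro e he
    rw [Nat.mem_divisors] at he
    have h3 : (univ.filter fun r : ZMod Q => od r ∣ e) = ker Q e := by
      ext r; rw [mem_ker]; simp
    rw [h3]
    conv_lhs => rw [hm]
    rw [ker_sum he.1]
    simp only [Int.natCast_dvd_natCast]
  have h4 : ∑ r : ZMod Q, (cc r : ℂ) * ee (r * m) =
      ((Q : ℝ) / Q.totient : ℝ) * ∑ e ∈ Q.divisors, ((μ e : ℝ) * (e : ℝ)⁻¹ : ℝ) *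
        (if e ∣ m.val then (e : ℂ) else 0) := by
    have h5 : ∀ r : ZMod Q, (cc r : ℂ) * ee (r * m) = ((Q : ℝ) / Q.totient : ℝ) *
        ∑ e ∈ Q.divisors, if od r ∣ e then (((μ e : ℝ) * (e : ℝ)⁻¹ : ℝ) : ℂ) * ee (r * m) else 0 := by
      intro r
      rw [h1 r, sum_filter]
      push_cast
      rw [mul_assoc, sum_mul]
      congr 1
      refine sum_congr rfl fun e _ => ?_
      split_ifs <;> simp
    rw [sum_congr rfl (fun r _ => h5 r), ← mul_sum, sum_comm]
    congr 1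
    refine sum_congr rfl fun e he => ?_
    rw [← h2 e he, mul_sum, sum_filter]
  rw [h4]
  have h6 : ∀ e ∈ Q.divisors, (((μ e : ℝ) * (e : ℝ)⁻¹ : ℝ) : ℂ) * (if e ∣ m.val then (e : ℂ) else 0) =
      if e ∣ m.val then (((μ e : ℤ) : ℝ) : ℂ) else 0 := by
    intro e he
    have he0 : (e : ℂ) ≠ 0 := by
      have := Nat.pos_of_mem_divisors he
      exact_mod_cast this.ne'
    split_ifs
    · push_cast
      field_simp
    · simp
  rw [sum_congr rfl h6, ← sum_filter]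
  have h7 : Q.divisors.filter (fun e => e ∣ m.val) = (Nat.gcd Q m.val).divisors := by
    ext e
    rw [mem_filter, Nat.mem_divisors, Nat.mem_divisors, Nat.dvd_gcd_iff]
    have h71 : Nat.gcd Q m.val ≠ 0 := Nat.gcd_ne_zero_left hQ.ne_zero
    have h72 : Q ≠ 0 := hQ.ne_zero
    exact ⟨fun h => ⟨⟨h.1.1, h.2⟩, h71⟩, fun h => ⟨⟨h.1.1, h72⟩, h.1.2⟩⟩
  have hg : Nat.gcd Q m.val ≠ 0 := Nat.gcd_ne_zero_left hQ.ne_zero
  rw [h7, ← Complex.ofReal_sum, sum_mu _ hg]
  unfold WW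
  have h8 : IsUnit m ↔ Nat.gcd Q m.val = 1 := by
    have := ZMod.isUnit_iff_coprime m.val Q
    rw [ZMod.natCast_zmod_val] at this
    rw [this, Nat.coprime_comm]
  by_cases h9 : Nat.gcd Q m.val = 1
  · rw [if_pos h9, if_pos (h8.mpr h9)]
    push_cast
    try rw [mul_one]
  · rw [if_neg h9, if_neg (fun h => h9 (h8.mp h))]
    simp

end Pool.Agent.L5helper10.RM
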