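import Pool.Agent.L5helper10.RM.F3

/-! The local mean square and its Fourier expansion. -/

set_option autoImplicit false
set_option linter.unusedSectionVars false

namespace Pool.Agent.L5helper10.RM

open Finset

variable {Q : ℕ} [NeZero Q]

lemma univ_eq_ker : (univ : Finset (ZMod Q)) = ker Q Q := by
  ext k; rw [mem_ker]; simp [od_dvd k]

lemma sum_ee (u : ZMod Q) : ∑ a : ZMod Q, ee (u * a) = if u = 0 then (Q : ℂ) else 0 := by
  have h := ker_sum (Q := Q) (dvd_refl Q) (u.val : ℤ)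
  rw [← univ_eq_ker] at h
  have hu : ((u.val : ℤ) : ZMod Q) = u := by rw [Int.cast_natCast, ZMod.natCast_zmod_val]
  rw [hu] at h
  rw [sum_congr rfl (fun a _ => by rw [mul_comm u a]), h]
  have h2 : ((Q : ℤ) ∣ (u.val : ℤ)) ↔ u = 0 := by
    rw [← ZMod.intCast_zmod_eq_zero_iff_dvd, hu]
  simp only [h2]

lemma parseval (v : ZMod Q → ℂ) :
    ∑ a : ZMod Q, ‖∑ t : ZMod Q, v t * ee (-(t * a))‖ ^ 2 = Q * ∑ t : ZMod Q, ‖v t‖ ^ 2 := by
  have h : ((∑ a : ZMod Q, ‖∑ t : ZMod Q, v t * ee (-(t * a))‖ ^ 2 : ℝ) : ℂ) =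
      ((Q * ∑ t : ZMod Q, ‖v t‖ ^ 2 : ℝ) : ℂ) := by
    push_cast
    have h1 : ∀ a : ZMod Q, (((‖∑ t : ZMod Q, v t * ee (-(t * a))‖ : ℝ) : ℂ) ^ 2) =
        ∑ t : ZMod Q, ∑ s : ZMod Q, (v t * (starRingEnd ℂ) (v s)) * ee ((s - t) * a) := by
      intro a
      have e1 : (((‖∑ t : ZMod Q, v t * ee (-(t * a))‖ : ℝ) : ℂ) ^ 2) =
          (∑ t : ZMod Q, v t * ee (-(t * a))) * (starRingEnd ℂ) (∑ t : ZMod Q, v t * ee (-(t * a))) := by
        rw [Complex.mul_conj, Complex.normSq_eq_norm_sq]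
        push_cast; rfl
      rw [e1, map_sum, sum_mul_sum]
      refine sum_congr rfl fun t _ => sum_congr rfl fun s _ => ?_
      have e2 : ee ((s - t) * a) = ee (-(t * a)) * (starRingEnd ℂ) (ee (-(s * a))) := by
        rw [← ee_neg, neg_neg, ← ee_add]
        congr 1; ring
      rw [map_mul, e2]
      ring
    rw [sum_congr rfl (fun a _ => h1 a), sum_comm, mul_sum]
    refine sum_congr rfl fun t _ => ?_
    rw [sum_comm]
    have h2 : ∀ s : ZMod Q, ∑ a : ZMod Q, (v t * (starRingEnd ℂ) (v s)) * ee ((s - t) * a) =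
        if s = t then (Q : ℂ) * (v t * (starRingEnd ℂ) (v t)) else 0 := by
      intro s
      rw [← mul_sum, sum_ee]
      by_cases hs : s = t
      · subst hs; simp; ring
      · rw [if_neg (sub_ne_zero.mpr hs), if_neg hs, mul_zero]
    rw [sum_congr rfl (fun s _ => h2 s), sum_ite_eq' univ t, if_pos (mem_univ _)]
    congr 1
    rw [Complex.mul_conj, Complex.normSq_eq_norm_sq]
    push_cast; rfl
  exact_mod_cast h

/-- `∑_{h ≤ H} (W(m + h) - 1)` -/
noncomputable def DD (H : ℕ) (m : ZMod Q) : ℝ := ∑ h ∈ Icc 1 H, (WW (m + (h : ZMod Q)) - 1)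

/-- its Fourier coefficients -/
noncomputable def gg (H : ℕ) (r : ZMod Q) : ℂ := if r = 0 then 0 else (cc r : ℂ) * EE H r

lemma cc_zero : cc (0 : ZMod Q) = 1 := by
  unfold cc; rw [od_zero]; simp

lemma od_neg (r : ZMod Q) : od (-r) = od r := by
  unfold od; exact addOrderOf_neg r

lemma cc_neg (r : ZMod Q) : cc (-r) = cc r := by unfold cc; rw [od_neg]

theorem DD_expand (hQ : Squarefree Q) (H : ℕ) (m : ZMod Q) :
    (DD H m : ℂ) = ∑ r : ZMod Q, gg H r * ee (r * m) := by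
  unfold DD
  push_cast
  have h1 : ∀ h ∈ Icc 1 H, ((WW (m + (h : ZMod Q)) : ℂ) - 1) =
      ∑ r : ZMod Q, (if r = 0 then 0 else (cc r : ℂ) * ee (r * (h : ZMod Q))) * ee (r * m) := by
    intro h _
    rw [WW_expand hQ]
    have e0 : ∀ r : ZMod Q, (if r = 0 then 0 else (cc r : ℂ) * ee (r * (h : ZMod Q))) * ee (r * m) =
        (cc r : ℂ) * ee (r * (m + (h : ZMod Q))) - if r = 0 then 1 else 0 := by
      intro r
      by_cases hr : r = 0
      · subst hr
        simp [cc_zero, ee_zero]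
      · rw [if_neg hr, if_neg hr, mul_add, ee_add]
        ring
    rw [sum_congr rfl (fun r _ => e0 r), sum_sub_distrib, sum_ite_eq' univ (0 : ZMod Q), if_pos (mem_univ _)]
  rw [sum_congr rfl h1, sum_comm]
  refine sum_congr rfl fun r _ => ?_
  rw [← sum_mul]
  congr 1
  unfold gg EE
  split_ifs
  · simp
  · rw [mul_sum]

/-- the local mean square -/
noncomputable def VV (X H : ℕ) (a : ZMod Q) : ℝ := (∑ x ∈ Icc 1 X, DD H ((x : ZMod Q) - a) ^ 2) / X

/-- the convolution -/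
noncomputable def gc (H : ℕ) (t : ZMod Q) : ℂ := ∑ r : ZMod Q, gg H r * gg H (t - r)

theorem VV_expand (hQ : Squarefree Q) (X H : ℕ) (a : ZMod Q) :
    (VV X H a : ℂ) = ∑ t : ZMod Q, (EE X t * gc H t / X) * ee (-(t * a)) := by
  unfold VV
  push_cast
  have h1 : ∀ m : ZMod Q, (DD H m : ℂ) ^ 2 = ∑ t : ZMod Q, gc H t * ee (t * m) := by
    intro m
    rw [DD_expand hQ, sq, sum_mul_sum]
    have e1 : ∀ r : ZMod Q, ∑ s : ZMod Q, gg H r * ee (r * m) * (gg H s * ee (s * m)) =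
        ∑ t : ZMod Q, gg H r * gg H (t - r) * ee (t * m) := by
      intro r
      rw [← Equiv.sum_comp (Equiv.subRight r)]
      refine sum_congr rfl fun t _ => ?_
      simp only [Equiv.subRight_apply]
      have : ee (t * m) = ee (r * m) * ee ((t - r) * m) := by rw [← ee_add]; congr 1; ring
      rw [this]; ring
    rw [sum_congr rfl (fun r _ => e1 r), sum_comm]
    refine sum_congr rfl fun t _ => ?_
    unfold gc
    rw [sum_mul]
  rw [sum_congr rfl (fun x _ => h1 _), sum_comm, sum_div]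
  refine sum_congr rfl fun t _ => ?_
  rw [← mul_sum]
  have h2 : ∑ x ∈ Icc 1 X, ee (t * ((x : ZMod Q) - a)) = EE X t * ee (-(t * a)) := by
    unfold EE
    rw [sum_mul]
    refine sum_congr rfl fun x _ => ?_
    rw [← ee_add]; congr 1; ring
  rw [h2]
  ring

/-- the mean of the local mean square -/
noncomputable def EV (Q : ℕ) [NeZero Q] (H : ℕ) : ℝ := ∑ r ∈ (univ : Finset (ZMod Q)).erase 0, cc r ^ 2 * ‖EE H r‖ ^ 2

lemma gc_zero (H : ℕ) : gc H (0 : ZMod Q) = (EV Q H : ℂ) := by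
  unfold gc EV
  rw [← add_sum_erase univ _ (mem_univ (0 : ZMod Q))]
  have e0 : gg H (0 : ZMod Q) = 0 := by unfold gg; simp
  rw [e0, zero_mul, zero_add]
  push_cast
  refine sum_congr rfl fun r hr => ?_
  have hr0 : r ≠ 0 := (mem_erase.mp hr).1
  have hr1 : (0 : ZMod Q) - r ≠ 0 := by rw [zero_sub]; exact neg_ne_zero.mpr hr0
  unfold gg
  rw [if_neg hr0, if_neg hr1, zero_sub, cc_neg, EE_neg]
  have := Complex.mul_conj (EE H r)
  rw [Complex.normSq_eq_norm_sq] at this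
  calc (cc r : ℂ) * EE H r * ((cc r : ℂ) * (starRingEnd ℂ) (EE H r)) =
      (cc r : ℂ) ^ 2 * (EE H r * (starRingEnd ℂ) (EE H r)) := by ring
    _ = _ := by rw [this]; push_cast; ring

/-- the variance of the local mean square -/
theorem variance_eq (hQ : Squarefree Q) (X H : ℕ) (hX : 0 < X) :
    ∑ a : ZMod Q, (VV X H a - EV Q H) ^ 2 =
      Q * ∑ t ∈ (univ : Finset (ZMod Q)).erase 0, ‖EE X t‖ ^ 2 / X ^ 2 * ‖gc H t‖ ^ 2 := by
  have hXc : (X : ℂ) ≠ 0 := by exact_mod_cast hX.ne'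
  have h1 : ∀ a : ZMod Q, (VV X H a - EV Q H) ^ 2 =
      ‖∑ t : ZMod Q, (if t = 0 then 0 else EE X t * gc H t / X) * ee (-(t * a))‖ ^ 2 := by
    intro a
    have e1 : ((VV X H a - EV Q H : ℝ) : ℂ) =
        ∑ t : ZMod Q, (if t = 0 then 0 else EE X t * gc H t / X) * ee (-(t * a)) := by
      push_cast
      rw [VV_expand hQ]
      rw [← add_sum_erase univ _ (mem_univ (0 : ZMod Q)), ← add_sum_erase univ (fun t : ZMod Q =>
        (if t = 0 then 0 else EE X t * gc H t / X) * ee (-(t * a))) (mem_univ (0 : ZMod Q))]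
      rw [gc_zero, EE_zero]
      simp only [if_true, zero_mul, neg_zero, ee_zero, mul_one, zero_add]
      rw [mul_div_cancel_left₀ _ hXc, add_sub_cancel_left]
      refine sum_congr rfl fun t ht => ?_
      rw [if_neg (mem_erase.mp ht).1]
    rw [← e1, Complex.norm_real, Real.norm_eq_abs, sq_abs]
  rw [sum_congr rfl (fun a _ => h1 a), parseval]
  congr 1
  rw [← add_sum_erase univ _ (mem_univ (0 : ZMod Q))]
  simp only [if_true, norm_zero, ne_eq, OfNat.ofNat_ne_zero, not_false_eq_true, zero_pow, zero_add]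
  refine sum_congr rfl fun t ht => ?_
  rw [if_neg (mem_erase.mp ht).1, norm_div, norm_mul, div_pow, mul_pow, Complex.norm_natCast]
  ring

end Pool.Agent.L5helper10.RM
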