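import Pool.Agent.L5helper10.RM.F4

/-! The shape of a pair of frequencies. -/

set_option autoImplicit false
set_option linter.unusedSectionVars false

namespace Pool.Agent.L5helper10.RM

open Finset

lemma shape_nat (d e q : ℕ) (hd : Squarefree d) (he : Squarefree e) (h1 : q ∣ Nat.lcm d e)
    (h2 : d ∣ Nat.lcm e q) (h3 : e ∣ Nat.lcm d q) :
    q = d / Nat.gcd d e * (e / Nat.gcd d e) * Nat.gcd (Nat.gcd d e) q ∧
    d = d / Nat.gcd d e * (Nat.gcd d e / Nat.gcd (Nat.gcd d e) q * Nat.gcd (Nat.gcd d e) q) ∧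
    e = e / Nat.gcd d e * (Nat.gcd d e / Nat.gcd (Nat.gcd d e) q * Nat.gcd (Nat.gcd d e) q) ∧
    Nat.Coprime (d / Nat.gcd d e) (e / Nat.gcd d e) ∧
    Nat.Coprime (Nat.gcd d e / Nat.gcd (Nat.gcd d e) q) (d / Nat.gcd d e) ∧
    Nat.Coprime (Nat.gcd d e / Nat.gcd (Nat.gcd d e) q) (e / Nat.gcd d e) := by
  have hd0 : d ≠ 0 := hd.ne_zero
  have he0 : e ≠ 0 := he.ne_zero
  set g := Nat.gcd d e with hg
  have hg0 : 0 < g := Nat.gcd_pos_of_pos_left _ (Nat.pos_of_ne_zero hd0)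
  obtain ⟨d1, hd1⟩ : g ∣ d := Nat.gcd_dvd_left d e
  obtain ⟨e1, he1⟩ : g ∣ e := Nat.gcd_dvd_right d e
  have hdd : d / g = d1 := by rw [hd1, Nat.mul_div_cancel_left _ hg0]
  have hee : e / g = e1 := by rw [he1, Nat.mul_div_cancel_left _ hg0]
  rw [hdd, hee]
  set g1 := Nat.gcd g q with hg1
  have hg10 : 0 < g1 := Nat.gcd_pos_of_pos_left _ hg0
  obtain ⟨g0, hg0'⟩ : g1 ∣ g := Nat.gcd_dvd_left g q
  have hgg : g / g1 = g0 := by rw [hg0', Nat.mul_div_cancel_left _ hg10]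
  rw [hgg]
  have hcop1 : Nat.Coprime g d1 := Nat.coprime_of_squarefree_mul (hd1 ▸ hd)
  have hcop2 : Nat.Coprime g e1 := Nat.coprime_of_squarefree_mul (he1 ▸ he)
  have hcop3 : Nat.Coprime d1 e1 := by
    have := Nat.coprime_div_gcd_div_gcd (m := d) (n := e) hg0
    rwa [← hg, hdd, hee] at this
  have hgsq : Squarefree g := hd.squarefree_of_dvd (Nat.gcd_dvd_left d e)
  have hcop4 : Nat.Coprime g1 g0 := Nat.coprime_of_squarefree_mul (hg0' ▸ hgsq)
  have hg0g : g0 ∣ g := ⟨g1, by rw [hg0']; ring⟩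
  have hd1q : d1 ∣ q := by
    have a1 : d1 ∣ e * q := by
      have b1 : d1 ∣ d := ⟨g, by rw [hd1]; ring⟩
      exact (b1.trans h2).trans (Nat.lcm_dvd_mul _ _)
    have a2 : Nat.Coprime d1 e := by
      rw [he1]
      exact Nat.Coprime.mul_right hcop1.symm hcop3
    exact a2.dvd_of_dvd_mul_left a1
  have he1q : e1 ∣ q := by
    have a1 : e1 ∣ d * q := by
      have b1 : e1 ∣ e := ⟨g, by rw [he1]; ring⟩
      exact (b1.trans h3).trans (Nat.lcm_dvd_mul _ _)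
    have a2 : Nat.Coprime e1 d := by
      rw [hd1]
      exact Nat.Coprime.mul_right hcop2.symm hcop3.symm
    exact a2.dvd_of_dvd_mul_left a1
  have hg1q : g1 ∣ q := Nat.gcd_dvd_right g q
  have hg1g : g1 ∣ g := Nat.gcd_dvd_left g q
  have hdvd1 : d1 * e1 * g1 ∣ q := by
    apply Nat.Coprime.mul_dvd_of_dvd_of_dvd _ (Nat.Coprime.mul_dvd_of_dvd_of_dvd hcop3 hd1q he1q) hg1q
    exact Nat.Coprime.mul_left (Nat.Coprime.coprime_dvd_left hg1g hcop1).symm
      (Nat.Coprime.coprime_dvd_left hg1g hcop2).symm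
  have hcop5 : Nat.Coprime q g0 := by
    have a1 : Nat.gcd q g0 ∣ g1 := by
      rw [hg1]
      exact Nat.dvd_gcd ((Nat.gcd_dvd_right q g0).trans hg0g) (Nat.gcd_dvd_left q g0)
    have a2 : Nat.gcd q g0 ∣ Nat.gcd g1 g0 := Nat.dvd_gcd a1 (Nat.gcd_dvd_right q g0)
    rw [hcop4] at a2
    exact Nat.dvd_one.mp a2
  have hdvd2 : q ∣ d1 * e1 * g1 := by
    have a1 : q ∣ (d1 * e1 * g1) * g0 := by
      refine h1.trans ?_
      apply Nat.lcm_dvd
      · exact ⟨e1, by rw [hd1, hg0']; ring⟩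
      · exact ⟨d1, by rw [he1, hg0']; ring⟩
    exact hcop5.dvd_of_dvd_mul_right a1
  refine ⟨Nat.dvd_antisymm hdvd2 hdvd1, ?_, ?_, hcop3, Nat.Coprime.coprime_dvd_left hg0g hcop1,
    Nat.Coprime.coprime_dvd_left hg0g hcop2⟩
  · rw [hd1, hg0']; ring
  · rw [he1, hg0']; ring

variable {Q : ℕ} [NeZero Q]

/-- the shape `(d₁, e₁, g₀, g₁)` of the pair `(r, t - r)` -/
noncomputable def sh (r t : ZMod Q) : ℕ × ℕ × ℕ × ℕ :=
  (od r / Nat.gcd (od r) (od (t - r)), od (t - r) / Nat.gcd (od r) (od (t - r)),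
    Nat.gcd (od r) (od (t - r)) / Nat.gcd (Nat.gcd (od r) (od (t - r))) (od t),
    Nat.gcd (Nat.gcd (od r) (od (t - r))) (od t))

lemma od_add_dvd (r s : ZMod Q) : od (r + s) ∣ Nat.lcm (od r) (od s) := by
  rw [od_dvd_iff, mul_add]
  have h1 := (od_dvd_iff r (Nat.lcm (od r) (od s))).mp (Nat.dvd_lcm_left _ _)
  have h2 := (od_dvd_iff s (Nat.lcm (od r) (od s))).mp (Nat.dvd_lcm_right _ _)
  rw [h1, h2, add_zero]

lemma od_sub_dvd (r s : ZMod Q) : od (r - s) ∣ Nat.lcm (od r) (od s) := by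
  have := od_add_dvd r (-s)
  rwa [od_neg, ← sub_eq_add_neg] at this

lemma shape_main (hQ : Squarefree Q) (r t : ZMod Q) {d e g₀ g₁ : ℕ} (h : sh r t = (d, e, g₀, g₁)) :
    od t = d * e * g₁ ∧ od r = d * (g₀ * g₁) ∧ od (t - r) = e * (g₀ * g₁) ∧ Nat.Coprime d e ∧
      Nat.Coprime g₀ d ∧ Nat.Coprime g₀ e := by
  have h1 : od t ∣ Nat.lcm (od r) (od (t - r)) := by
    have := od_add_dvd r (t - r)
    rwa [add_sub_cancel] at this
  have h2 : od r ∣ Nat.lcm (od (t - r)) (od t) := by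
    have := od_sub_dvd t (t - r)
    rwa [sub_sub_cancel, Nat.lcm_comm] at this
  have h3 : od (t - r) ∣ Nat.lcm (od r) (od t) := by
    have := od_sub_dvd t r
    rwa [Nat.lcm_comm] at this
  have := shape_nat (od r) (od (t - r)) (od t) (hQ.squarefree_of_dvd (od_dvd r))
    (hQ.squarefree_of_dvd (od_dvd (t - r))) h1 h2 h3
  unfold sh at h
  rw [Prod.mk.injEq, Prod.mk.injEq, Prod.mk.injEq] at h
  obtain ⟨a1, a2, a3, a4⟩ := h
  rw [a1, a2, a3, a4] at this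
  exact this

/-- fixed `t`: the frequencies `r` of one shape lie in a coset of the kernel of `g₀ g₁` -/
lemma coset_r (hQ : Squarefree Q) {r r' t : ZMod Q} {d e g₀ g₁ : ℕ} (h : sh r t = (d, e, g₀, g₁))
    (h' : sh r' t = (d, e, g₀, g₁)) : r' - r ∈ ker Q (g₀ * g₁) := by
  obtain ⟨a1, a2, a3, a4, a5, a6⟩ := shape_main hQ r t h
  obtain ⟨b1, b2, b3, b4, b5, b6⟩ := shape_main hQ r' t h'
  rw [mem_ker]
  have c1 : od (r' - r) ∣ d * (g₀ * g₁) := by
    have := od_sub_dvd r' r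
    rw [a2, b2, Nat.lcm_self] at this
    exact this
  have c2 : od (r' - r) ∣ e * (g₀ * g₁) := by
    have := od_sub_dvd (t - r) (t - r')
    rw [a3, b3, Nat.lcm_self] at this
    have e1 : (t - r) - (t - r') = r' - r := by ring
    rwa [e1] at this
  have c3 := Nat.dvd_gcd c1 c2
  rwa [Nat.gcd_mul_right, a4, one_mul] at c3

/-- fixed `r`: the `t` of one shape lie in a coset of the kernel of `e₁ g₁` -/
lemma coset_t (hQ : Squarefree Q) {r t t' : ZMod Q} {d e g₀ g₁ : ℕ} (h : sh r t = (d, e, g₀, g₁))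
    (h' : sh r t' = (d, e, g₀, g₁)) : t' - t ∈ ker Q (e * g₁) := by
  obtain ⟨a1, a2, a3, a4, a5, a6⟩ := shape_main hQ r t h
  obtain ⟨b1, b2, b3, b4, b5, b6⟩ := shape_main hQ r t' h'
  rw [mem_ker]
  have c1 : od (t' - t) ∣ d * e * g₁ := by
    have := od_sub_dvd t' t
    rw [a1, b1, Nat.lcm_self] at this
    exact this
  have c2 : od (t' - t) ∣ e * (g₀ * g₁) := by
    have := od_sub_dvd (t' - r) (t - r)
    rw [a3, b3, Nat.lcm_self] at this
    have e1 : (t' - r) - (t - r) = t' - t := by ring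
    rwa [e1] at this
  have c3 := Nat.dvd_gcd c1 c2
  have e2 : Nat.gcd (d * e * g₁) (e * (g₀ * g₁)) = e * g₁ := by
    have : d * e * g₁ = d * (e * g₁) := by ring
    rw [this, show e * (g₀ * g₁) = g₀ * (e * g₁) by ring, Nat.gcd_mul_right, a5.symm, one_mul]
  rwa [e2] at c3

/-- fixed `s = t - r` -/
lemma coset_s (hQ : Squarefree Q) {s t t' : ZMod Q} {d e g₀ g₁ : ℕ} (h : sh (t - s) t = (d, e, g₀, g₁))
    (h' : sh (t' - s) t' = (d, e, g₀, g₁)) : t' - t ∈ ker Q (d * g₁) := by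
  obtain ⟨a1, a2, a3, a4, a5, a6⟩ := shape_main hQ (t - s) t h
  obtain ⟨b1, b2, b3, b4, b5, b6⟩ := shape_main hQ (t' - s) t' h'
  rw [mem_ker]
  have c1 : od (t' - t) ∣ d * e * g₁ := by
    have := od_sub_dvd t' t
    rw [a1, b1, Nat.lcm_self] at this
    exact this
  have c2 : od (t' - t) ∣ d * (g₀ * g₁) := by
    have := od_sub_dvd (t' - s) (t - s)
    rw [a2, b2, Nat.lcm_self] at this
    have e1 : (t' - s) - (t - s) = t' - t := by ring
    rwa [e1] at this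
  have c3 := Nat.dvd_gcd c1 c2
  have e2 : Nat.gcd (d * e * g₁) (d * (g₀ * g₁)) = d * g₁ := by
    have : d * e * g₁ = e * (d * g₁) := by ring
    rw [this, show d * (g₀ * g₁) = g₀ * (d * g₁) by ring, Nat.gcd_mul_right, a6.symm, one_mul]
  rwa [e2] at c3

end Pool.Agent.L5helper10.RM
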