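import Pool.Agent.L5helper10.RM.F5

/-! The weighted inequality of Cauchy and Schwarz. -/

set_option autoImplicit false
set_option linter.unusedSectionVars false

namespace Pool.Agent.L5helper10.RM

open Finset

/-- number of divisors -/
noncomputable def tau (n : ℕ) : ℝ := (#n.divisors : ℝ)

/-- the weight `1 / (g₀² g₁)` -/
noncomputable def ug (σ : ℕ × ℕ × ℕ × ℕ) : ℝ := 1 / ((σ.2.2.1 : ℝ) ^ 2 * σ.2.2.2)

variable {Q : ℕ} [NeZero Q]

/-- the frequencies `r` with `r ≠ 0`, `t - r ≠ 0` -/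
def RR (t : ZMod Q) : Finset (ZMod Q) := univ.filter (fun r => r ≠ 0 ∧ t - r ≠ 0)

lemma shape_pos (hQ : Squarefree Q) (r t : ZMod Q) {d e g₀ g₁ : ℕ} (h : sh r t = (d, e, g₀, g₁)) :
    0 < d ∧ 0 < e ∧ 0 < g₀ ∧ 0 < g₁ := by
  obtain ⟨a1, a2, a3, a4, a5, a6⟩ := shape_main hQ r t h
  have h1 := od_pos r
  have h2 := od_pos (t - r)
  rw [a2] at h1
  rw [a3] at h2
  have h3 : 0 < g₀ * g₁ := Nat.pos_of_mul_pos_left h1
  exact ⟨Nat.pos_of_mul_pos_right h1, Nat.pos_of_mul_pos_right h2, Nat.pos_of_mul_pos_right h3,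
    Nat.pos_of_mul_pos_left h3⟩

lemma ug_pos (hQ : Squarefree Q) (r t : ZMod Q) : 0 < ug (sh r t) := by
  obtain ⟨h1, h2, h3, h4⟩ := shape_pos hQ r t (d := (sh r t).1) (e := (sh r t).2.1) (g₀ := (sh r t).2.2.1)
    (g₁ := (sh r t).2.2.2) rfl
  unfold ug
  positivity

lemma card_fiber (hQ : Squarefree Q) (t : ZMod Q) (d e g₀ g₁ : ℕ) :
    #((RR t).filter (fun r => sh r t = (d, e, g₀, g₁))) ≤ g₀ * g₁ := by
  rcases ((RR t).filter (fun r => sh r t = (d, e, g₀, g₁))).eq_empty_or_nonempty with h | ⟨r₀, h⟩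
  · rw [h]; simp
  · rw [mem_filter] at h
    obtain ⟨a1, a2, a3, a4, a5, a6⟩ := shape_main hQ r₀ t h.2
    have hG : g₀ * g₁ ∣ Q := by
      have := od_dvd r₀
      rw [a2] at this
      exact (Dvd.intro_left _ rfl).trans this
    have hsub : (RR t).filter (fun r => sh r t = (d, e, g₀, g₁)) ⊆
        (ker Q (g₀ * g₁)).image (fun k => r₀ + k) := by
      intro r hr
      rw [mem_filter] at hr
      rw [mem_image]
      exact ⟨r - r₀, coset_r hQ h.2 hr.2, by ring⟩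
    calc _ ≤ _ := card_le_card hsub
      _ ≤ #(ker Q (g₀ * g₁)) := card_image_le
      _ = g₀ * g₁ := ker_card hG

lemma U_le (hQ : Squarefree Q) (t : ZMod Q) :
    ∑ r ∈ RR t, ug (sh r t) ≤ tau (od t) ^ 3 * ∑ n ∈ Q.divisors, 1 / (n : ℝ) := by
  set B : Finset (ℕ × ℕ × ℕ × ℕ) :=
    (od t).divisors ×ˢ (od t).divisors ×ˢ Q.divisors ×ˢ (od t).divisors with hB
  have hmaps : ∀ r ∈ RR t, sh r t ∈ B := by
    intro r _
    obtain ⟨a1, a2, a3, a4, a5, a6⟩ := shape_main hQ r t (d := (sh r t).1) (e := (sh r t).2.1)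
      (g₀ := (sh r t).2.2.1) (g₁ := (sh r t).2.2.2) rfl
    have hq0 : od t ≠ 0 := (od_pos t).ne'
    rw [hB, mem_product, mem_product, mem_product, Nat.mem_divisors, Nat.mem_divisors, Nat.mem_divisors,
      Nat.mem_divisors]
    refine ⟨⟨?_, hq0⟩, ⟨?_, hq0⟩, ⟨?_, hQ.ne_zero⟩, ⟨?_, hq0⟩⟩
    · rw [a1]; exact ⟨(sh r t).2.1 * (sh r t).2.2.2, by ring⟩
    · rw [a1]; exact ⟨(sh r t).1 * (sh r t).2.2.2, by ring⟩
    · have := od_dvd r
      rw [a2] at this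
      exact Dvd.dvd.trans ⟨(sh r t).1 * (sh r t).2.2.2, by ring⟩ this
    · rw [a1]; exact ⟨(sh r t).1 * (sh r t).2.1, by ring⟩
  rw [← sum_fiberwise_of_maps_to hmaps]
  have h1 : ∀ σ ∈ B, ∑ r ∈ (RR t).filter (fun r => sh r t = σ), ug (sh r t) ≤ 1 / (σ.2.2.1 : ℝ) := by
    rintro ⟨d, e, g₀, g₁⟩ hσ
    rw [hB, mem_product, mem_product, mem_product] at hσ
    have hg0 : 0 < g₀ := Nat.pos_of_mem_divisors hσ.2.2.1
    have hg1 : 0 < g₁ := Nat.pos_of_mem_divisors hσ.2.2.2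
    have e1 : ∑ r ∈ (RR t).filter (fun r => sh r t = (d, e, g₀, g₁)), ug (sh r t) =
        (#((RR t).filter (fun r => sh r t = (d, e, g₀, g₁))) : ℝ) * ug (d, e, g₀, g₁) := by
      rw [← nsmul_eq_mul, ← sum_const]
      refine sum_congr rfl fun r hr => ?_
      rw [(mem_filter.mp hr).2]
    rw [e1]
    have e2 := card_fiber hQ t d e g₀ g₁
    have e3 : (#((RR t).filter (fun r => sh r t = (d, e, g₀, g₁))) : ℝ) ≤ (g₀ : ℝ) * g₁ := by exact_mod_cast e2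
    have g0r : (0 : ℝ) < g₀ := by exact_mod_cast hg0
    have g1r : (0 : ℝ) < g₁ := by exact_mod_cast hg1
    unfold ug
    simp only
    calc _ ≤ (g₀ : ℝ) * g₁ * (1 / ((g₀ : ℝ) ^ 2 * g₁)) := by gcongr
      _ = 1 / (g₀ : ℝ) := by field_simp
  refine (sum_le_sum h1).trans (le_of_eq ?_)
  rw [hB, sum_product]
  have e4 : ∀ x ∈ (od t).divisors, ∑ y ∈ (od t).divisors ×ˢ Q.divisors ×ˢ (od t).divisors,
      1 / (((x, y) : ℕ × ℕ × ℕ × ℕ).2.2.1 : ℝ) = tau (od t) ^ 2 * ∑ n ∈ Q.divisors, 1 / (n : ℝ) := by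
    intro x _
    rw [sum_product]
    have e5 : ∀ y ∈ (od t).divisors, ∑ w ∈ Q.divisors ×ˢ (od t).divisors,
        1 / (((x, (y, w)) : ℕ × ℕ × ℕ × ℕ).2.2.1 : ℝ) = tau (od t) * ∑ n ∈ Q.divisors, 1 / (n : ℝ) := by
      intro y _
      rw [sum_product]
      simp only [sum_const, nsmul_eq_mul]
      rw [← mul_sum]
      rfl
    rw [sum_congr rfl e5, sum_const, nsmul_eq_mul]
    unfold tau
    ring
  rw [sum_congr rfl e4, sum_const, nsmul_eq_mul]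
  unfold tau
  ring

lemma gc_le (hQ : Squarefree Q) (H : ℕ) (t : ZMod Q) :
    ‖gc H t‖ ^ 2 ≤ (tau (od t) ^ 3 * ∑ n ∈ Q.divisors, 1 / (n : ℝ)) *
      ∑ r ∈ RR t, ‖gg H r‖ ^ 2 * ‖gg H (t - r)‖ ^ 2 / ug (sh r t) := by
  have h0 : gc H t = ∑ r ∈ RR t, gg H r * gg H (t - r) := by
    unfold gc RR
    rw [sum_filter]
    refine sum_congr rfl fun r _ => ?_
    split_ifs with h
    · rfl
    · rw [not_and_or, not_not, not_not] at h
      unfold gg
      rcases h with h | h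
      · rw [if_pos h, zero_mul]
      · rw [if_pos h, mul_zero]
  rw [h0]
  have h1 : ‖∑ r ∈ RR t, gg H r * gg H (t - r)‖ ^ 2 ≤ (∑ r ∈ RR t, ‖gg H r‖ * ‖gg H (t - r)‖) ^ 2 := by
    gcongr
    refine (norm_sum_le _ _).trans (le_of_eq ?_)
    exact sum_congr rfl fun r _ => norm_mul _ _
  refine h1.trans ?_
  have h2 := sum_sq_le_sum_mul_sum_of_sq_le_mul (RR t) (r := fun r => ‖gg H r‖ * ‖gg H (t - r)‖)
    (f := fun r => ug (sh r t)) (g := fun r => ‖gg H r‖ ^ 2 * ‖gg H (t - r)‖ ^ 2 / ug (sh r t))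
    (fun r _ => (ug_pos hQ r t).le) (fun r _ => by have := ug_pos hQ r t; positivity)
    (fun r _ => le_of_eq (by
      have := (ug_pos hQ r t).ne'
      field_simp))
  refine h2.trans ?_
  have h3 : 0 ≤ ∑ r ∈ RR t, ‖gg H r‖ ^ 2 * ‖gg H (t - r)‖ ^ 2 / ug (sh r t) :=
    sum_nonneg fun r _ => by have := ug_pos hQ r t; positivity
  exact mul_le_mul_of_nonneg_right (U_le hQ t) h3

end Pool.Agent.L5helper10.RM
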