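import Pool.Agent.L5helper10.RM.F6

/-! The sum over the pairs of one shape. -/

set_option autoImplicit false
set_option linter.unusedSectionVars false

namespace Pool.Agent.L5helper10.RM

open Finset

variable {Q : ℕ} [NeZero Q]

lemma T_le (X N : ℕ) (T : Finset (ZMod Q)) (hN : T.Nonempty → N ∣ Q)
    (hT : ∀ t ∈ T, ∀ t' ∈ T, t' - t ∈ ker Q N) : ∑ t ∈ T, ‖EE X t‖ ^ 2 ≤ X * (X + N) := by
  rcases T.eq_empty_or_nonempty with h | ⟨t₀, h⟩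
  · rw [h, sum_empty]; positivity
  · have hsub : T ⊆ (ker Q N).image (fun k => t₀ + k) := by
      intro t ht
      rw [mem_image]
      exact ⟨t - t₀, hT t₀ h t ht, by ring⟩
    calc ∑ t ∈ T, ‖EE X t‖ ^ 2 ≤ ∑ t ∈ (ker Q N).image (fun k => t₀ + k), ‖EE X t‖ ^ 2 :=
          sum_le_sum_of_subset_of_nonneg hsub fun _ _ _ => by positivity
      _ = ∑ k ∈ ker Q N, ‖EE X (t₀ + k)‖ ^ 2 := by
          rw [sum_image (fun x _ y _ hxy => add_left_cancel hxy)]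
      _ ≤ _ := coset_le (hN ⟨t₀, h⟩) X t₀

/-- the pair `(r, t)` is admissible of shape `σ` -/
def Ad (σ : ℕ × ℕ × ℕ × ℕ) (r t : ZMod Q) : Prop := r ≠ 0 ∧ t - r ≠ 0 ∧ t ≠ 0 ∧ sh r t = σ

open Classical in
/-- the sum over the pairs of one shape -/
noncomputable def SS (X H : ℕ) (Q : ℕ) [NeZero Q] (σ : ℕ × ℕ × ℕ × ℕ) : ℝ :=
  ∑ t : ZMod Q, ∑ r : ZMod Q, if Ad σ r t then ‖EE X t‖ ^ 2 / X ^ 2 * (‖EE H r‖ ^ 2 * ‖EE H (t - r)‖ ^ 2) else 0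

lemma SS_nonneg (X H : ℕ) (σ : ℕ × ℕ × ℕ × ℕ) : 0 ≤ SS X H Q σ := by
  unfold SS
  refine sum_nonneg fun t _ => sum_nonneg fun r _ => ?_
  split_ifs <;> positivity

lemma EE_sq_le (H : ℕ) (r : ZMod Q) : ‖EE H r‖ ^ 2 ≤ (H : ℝ) ^ 2 := by
  have := EE_norm_le H r
  gcongr

open Classical in
lemma SS1 (hQ : Squarefree Q) (X H d e g₀ g₁ : ℕ) (hX : 0 < X) :
    SS X H Q (d, e, g₀, g₁) ≤ (H : ℝ) ^ 3 * (d * g₀ * g₁) * (X + e * g₁) / X := by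
  have hXr : (0 : ℝ) < X := by exact_mod_cast hX
  by_cases hex : ∃ r t : ZMod Q, Ad (d, e, g₀, g₁) r t
  swap
  · push Not at hex
    have : SS X H Q (d, e, g₀, g₁) = 0 := by
      unfold SS
      refine sum_eq_zero fun t _ => sum_eq_zero fun r _ => ?_
      rw [if_neg (hex r t)]
    rw [this]; positivity
  obtain ⟨r₀, t₀, h₀⟩ := hex
  obtain ⟨a1, a2, a3, a4, a5, a6⟩ := shape_main hQ r₀ t₀ h₀.2.2.2
  have hD : d * (g₀ * g₁) ∣ Q := a2 ▸ od_dvd r₀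
  unfold SS
  rw [sum_comm]
  have h1 : ∀ r : ZMod Q, (∑ t : ZMod Q, if Ad (d, e, g₀, g₁) r t then
      ‖EE X t‖ ^ 2 / X ^ 2 * (‖EE H r‖ ^ 2 * ‖EE H (t - r)‖ ^ 2) else 0) ≤
      if r ∈ (ker Q (d * (g₀ * g₁))).erase 0 then ‖EE H r‖ ^ 2 * ((H : ℝ) ^ 2 / X ^ 2 * (X * (X + (e * g₁ : ℕ)))) else 0 := by
    intro r
    rw [← sum_filter]
    rcases (univ.filter (fun t => Ad (d, e, g₀, g₁) r t)).eq_empty_or_nonempty with h | ⟨t₁, ht₁⟩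
    · rw [h, sum_empty]
      split_ifs <;> positivity
    · have ht₁' := (mem_filter.mp ht₁).2
      obtain ⟨b1, b2, b3, b4, b5, b6⟩ := shape_main hQ r t₁ ht₁'.2.2.2
      rw [if_pos (by
        rw [mem_erase, mem_ker, b2]
        exact ⟨ht₁'.1, dvd_rfl⟩)]
      have h2 : ∑ t ∈ univ.filter (fun t => Ad (d, e, g₀, g₁) r t), ‖EE X t‖ ^ 2 ≤ X * (X + (e * g₁ : ℕ)) := by
        apply T_le
        · intro _
          have := od_dvd t₁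
          rw [b1] at this
          exact Dvd.dvd.trans ⟨d, by ring⟩ this
        · intro t ht t' ht'
          exact coset_t hQ (mem_filter.mp ht).2.2.2.2 (mem_filter.mp ht').2.2.2.2
      calc ∑ t ∈ univ.filter (fun t => Ad (d, e, g₀, g₁) r t),
            ‖EE X t‖ ^ 2 / X ^ 2 * (‖EE H r‖ ^ 2 * ‖EE H (t - r)‖ ^ 2)
          ≤ ∑ t ∈ univ.filter (fun t => Ad (d, e, g₀, g₁) r t),
            ‖EE H r‖ ^ 2 * ((H : ℝ) ^ 2 / X ^ 2) * ‖EE X t‖ ^ 2 := by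
            refine sum_le_sum fun t _ => ?_
            have h3 := EE_sq_le H (t - r)
            calc _ ≤ ‖EE X t‖ ^ 2 / X ^ 2 * (‖EE H r‖ ^ 2 * (H : ℝ) ^ 2) := by gcongr
              _ = _ := by ring
        _ = ‖EE H r‖ ^ 2 * ((H : ℝ) ^ 2 / X ^ 2) * ∑ t ∈ univ.filter (fun t => Ad (d, e, g₀, g₁) r t), ‖EE X t‖ ^ 2 := by
            rw [mul_sum]
        _ ≤ ‖EE H r‖ ^ 2 * ((H : ℝ) ^ 2 / X ^ 2) * (X * (X + (e * g₁ : ℕ))) := by gcongr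
        _ = _ := by ring
  refine (sum_le_sum fun r _ => h1 r).trans ?_
  rw [← sum_filter, filter_mem_eq_inter, univ_inter, ← sum_mul]
  have h4 := ker_sq_erase hD H
  calc _ ≤ (((d * (g₀ * g₁) : ℕ) : ℝ) * H) * ((H : ℝ) ^ 2 / X ^ 2 * (X * (X + (e * g₁ : ℕ)))) := by gcongr
    _ = _ := by push_cast; field_simp

open Classical in
lemma SS2 (hQ : Squarefree Q) (X H d e g₀ g₁ : ℕ) (hX : 0 < X) :
    SS X H Q (d, e, g₀, g₁) ≤ (H : ℝ) ^ 3 * (e * g₀ * g₁) * (X + d * g₁) / X := by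
  have hXr : (0 : ℝ) < X := by exact_mod_cast hX
  by_cases hex : ∃ r t : ZMod Q, Ad (d, e, g₀, g₁) r t
  swap
  · push Not at hex
    have : SS X H Q (d, e, g₀, g₁) = 0 := by
      unfold SS
      refine sum_eq_zero fun t _ => sum_eq_zero fun r _ => ?_
      rw [if_neg (hex r t)]
    rw [this]; positivity
  obtain ⟨r₀, t₀, h₀⟩ := hex
  obtain ⟨a1, a2, a3, a4, a5, a6⟩ := shape_main hQ r₀ t₀ h₀.2.2.2
  have hE : e * (g₀ * g₁) ∣ Q := a3 ▸ od_dvd (t₀ - r₀)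
  unfold SS
  have h0 : ∀ t : ZMod Q, (∑ r : ZMod Q, if Ad (d, e, g₀, g₁) r t then
      ‖EE X t‖ ^ 2 / X ^ 2 * (‖EE H r‖ ^ 2 * ‖EE H (t - r)‖ ^ 2) else 0) =
      ∑ s : ZMod Q, if Ad (d, e, g₀, g₁) (t - s) t then
      ‖EE X t‖ ^ 2 / X ^ 2 * (‖EE H (t - s)‖ ^ 2 * ‖EE H s‖ ^ 2) else 0 := by
    intro t
    rw [← Equiv.sum_comp (Equiv.subLeft t)]
    refine sum_congr rfl fun s _ => ?_
    simp only [Equiv.subLeft_apply, sub_sub_cancel]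
  rw [sum_congr rfl (fun t _ => h0 t), sum_comm]
  have h1 : ∀ s : ZMod Q, (∑ t : ZMod Q, if Ad (d, e, g₀, g₁) (t - s) t then
      ‖EE X t‖ ^ 2 / X ^ 2 * (‖EE H (t - s)‖ ^ 2 * ‖EE H s‖ ^ 2) else 0) ≤
      if s ∈ (ker Q (e * (g₀ * g₁))).erase 0 then ‖EE H s‖ ^ 2 * ((H : ℝ) ^ 2 / X ^ 2 * (X * (X + (d * g₁ : ℕ)))) else 0 := by
    intro s
    rw [← sum_filter]
    rcases (univ.filter (fun t => Ad (d, e, g₀, g₁) (t - s) t)).eq_empty_or_nonempty with h | ⟨t₁, ht₁⟩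
    · rw [h, sum_empty]
      split_ifs <;> positivity
    · have ht₁' := (mem_filter.mp ht₁).2
      obtain ⟨b1, b2, b3, b4, b5, b6⟩ := shape_main hQ (t₁ - s) t₁ ht₁'.2.2.2
      rw [sub_sub_cancel] at b3
      have hs0 : s ≠ 0 := by
        have := ht₁'.2.1
        rwa [sub_sub_cancel] at this
      rw [if_pos (by
        rw [mem_erase, mem_ker, b3]
        exact ⟨hs0, dvd_rfl⟩)]
      have h2 : ∑ t ∈ univ.filter (fun t => Ad (d, e, g₀, g₁) (t - s) t), ‖EE X t‖ ^ 2 ≤ X * (X + (d * g₁ : ℕ)) := by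
        apply T_le
        · intro _
          have := od_dvd t₁
          rw [b1] at this
          exact Dvd.dvd.trans ⟨e, by ring⟩ this
        · intro t ht t' ht'
          exact coset_s hQ (mem_filter.mp ht).2.2.2.2 (mem_filter.mp ht').2.2.2.2
      calc ∑ t ∈ univ.filter (fun t => Ad (d, e, g₀, g₁) (t - s) t),
            ‖EE X t‖ ^ 2 / X ^ 2 * (‖EE H (t - s)‖ ^ 2 * ‖EE H s‖ ^ 2)
          ≤ ∑ t ∈ univ.filter (fun t => Ad (d, e, g₀, g₁) (t - s) t),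
            ‖EE H s‖ ^ 2 * ((H : ℝ) ^ 2 / X ^ 2) * ‖EE X t‖ ^ 2 := by
            refine sum_le_sum fun t _ => ?_
            have h3 := EE_sq_le H (t - s)
            calc _ ≤ ‖EE X t‖ ^ 2 / X ^ 2 * ((H : ℝ) ^ 2 * ‖EE H s‖ ^ 2) := by gcongr
              _ = _ := by ring
        _ = ‖EE H s‖ ^ 2 * ((H : ℝ) ^ 2 / X ^ 2) * ∑ t ∈ univ.filter (fun t => Ad (d, e, g₀, g₁) (t - s) t), ‖EE X t‖ ^ 2 := by
            rw [mul_sum]
        _ ≤ ‖EE H s‖ ^ 2 * ((H : ℝ) ^ 2 / X ^ 2) * (X * (X + (d * g₁ : ℕ))) := by gcongr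
        _ = _ := by ring
  refine (sum_le_sum fun r _ => h1 r).trans ?_
  rw [← sum_filter, filter_mem_eq_inter, univ_inter, ← sum_mul]
  have h4 := ker_sq_erase hE H
  calc _ ≤ (((e * (g₀ * g₁) : ℕ) : ℝ) * H) * ((H : ℝ) ^ 2 / X ^ 2 * (X * (X + (d * g₁ : ℕ)))) := by gcongr
    _ = _ := by push_cast; field_simp

open Classical in
lemma SS3 (hQ : Squarefree Q) (X H d e g₀ g₁ : ℕ) (hX : 0 < X) :
    SS X H Q (d, e, g₀, g₁) ≤ (H : ℝ) ^ 3 * (H + g₀ * g₁) * (d * e * g₁) / X := by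
  have hXr : (0 : ℝ) < X := by exact_mod_cast hX
  by_cases hex : ∃ r t : ZMod Q, Ad (d, e, g₀, g₁) r t
  swap
  · push Not at hex
    have : SS X H Q (d, e, g₀, g₁) = 0 := by
      unfold SS
      refine sum_eq_zero fun t _ => sum_eq_zero fun r _ => ?_
      rw [if_neg (hex r t)]
    rw [this]; positivity
  obtain ⟨r₀, t₀, h₀⟩ := hex
  obtain ⟨a1, a2, a3, a4, a5, a6⟩ := shape_main hQ r₀ t₀ h₀.2.2.2
  have hq : d * e * g₁ ∣ Q := a1 ▸ od_dvd t₀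
  unfold SS
  have h1 : ∀ t : ZMod Q, (∑ r : ZMod Q, if Ad (d, e, g₀, g₁) r t then
      ‖EE X t‖ ^ 2 / X ^ 2 * (‖EE H r‖ ^ 2 * ‖EE H (t - r)‖ ^ 2) else 0) ≤
      if t ∈ (ker Q (d * e * g₁)).erase 0 then ‖EE X t‖ ^ 2 * ((H : ℝ) ^ 2 / X ^ 2 * (H * (H + (g₀ * g₁ : ℕ)))) else 0 := by
    intro t
    rw [← sum_filter]
    rcases (univ.filter (fun r => Ad (d, e, g₀, g₁) r t)).eq_empty_or_nonempty with h | ⟨r₁, hr₁⟩
    · rw [h, sum_empty]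
      split_ifs <;> positivity
    · have hr₁' := (mem_filter.mp hr₁).2
      obtain ⟨b1, b2, b3, b4, b5, b6⟩ := shape_main hQ r₁ t hr₁'.2.2.2
      rw [if_pos (by
        rw [mem_erase, mem_ker, b1]
        exact ⟨hr₁'.2.2.1, dvd_rfl⟩)]
      have h2 : ∑ r ∈ univ.filter (fun r => Ad (d, e, g₀, g₁) r t), ‖EE H r‖ ^ 2 ≤ H * (H + (g₀ * g₁ : ℕ)) := by
        apply T_le
        · intro _
          have := od_dvd r₁
          rw [b2] at this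
          exact Dvd.dvd.trans ⟨d, by ring⟩ this
        · intro r hr r' hr'
          exact coset_r hQ (mem_filter.mp hr).2.2.2.2 (mem_filter.mp hr').2.2.2.2
      calc ∑ r ∈ univ.filter (fun r => Ad (d, e, g₀, g₁) r t),
            ‖EE X t‖ ^ 2 / X ^ 2 * (‖EE H r‖ ^ 2 * ‖EE H (t - r)‖ ^ 2)
          ≤ ∑ r ∈ univ.filter (fun r => Ad (d, e, g₀, g₁) r t),
            ‖EE X t‖ ^ 2 * ((H : ℝ) ^ 2 / X ^ 2) * ‖EE H r‖ ^ 2 := by
            refine sum_le_sum fun r _ => ?_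
            have h3 := EE_sq_le H (t - r)
            calc _ ≤ ‖EE X t‖ ^ 2 / X ^ 2 * (‖EE H r‖ ^ 2 * (H : ℝ) ^ 2) := by gcongr
              _ = _ := by ring
        _ = ‖EE X t‖ ^ 2 * ((H : ℝ) ^ 2 / X ^ 2) * ∑ r ∈ univ.filter (fun r => Ad (d, e, g₀, g₁) r t), ‖EE H r‖ ^ 2 := by
            rw [mul_sum]
        _ ≤ ‖EE X t‖ ^ 2 * ((H : ℝ) ^ 2 / X ^ 2) * (H * (H + (g₀ * g₁ : ℕ))) := by gcongr
        _ = _ := by ring
  refine (sum_le_sum fun r _ => h1 r).trans ?_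
  rw [← sum_filter, filter_mem_eq_inter, univ_inter, ← sum_mul]
  have h4 := ker_sq_erase hq X
  calc _ ≤ (((d * e * g₁ : ℕ) : ℝ) * X) * ((H : ℝ) ^ 2 / X ^ 2 * (H * (H + (g₀ * g₁ : ℕ)))) := by gcongr
    _ = _ := by push_cast; field_simp

/-- the three ranges -/
lemma SS_good (hQ : Squarefree Q) (X H d e g₀ g₁ : ℕ) (hX : 0 < X)
    (h : X ≤ e * g₁ ∨ X ≤ d * g₁ ∨ H ≤ g₀ * g₁) :
    SS X H Q (d, e, g₀, g₁) ≤ 2 * ((H : ℝ) ^ 3 / X) * (d * e * g₀ * g₁ ^ 2) := by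
  have hXr : (0 : ℝ) < X := by exact_mod_cast hX
  rcases h with h | h | h
  · have h' : (X : ℝ) ≤ e * g₁ := by exact_mod_cast h
    refine (SS1 hQ X H d e g₀ g₁ hX).trans ?_
    rw [div_le_iff₀ hXr]
    have e1 : 2 * ((H : ℝ) ^ 3 / X) * (d * e * g₀ * g₁ ^ 2) * X = (H : ℝ) ^ 3 * (d * g₀ * g₁) * (2 * (e * g₁)) := by
      field_simp
    rw [e1]
    gcongr
    linarith
  · have h' : (X : ℝ) ≤ d * g₁ := by exact_mod_cast h
    refine (SS2 hQ X H d e g₀ g₁ hX).trans ?_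
    rw [div_le_iff₀ hXr]
    have e1 : 2 * ((H : ℝ) ^ 3 / X) * (d * e * g₀ * g₁ ^ 2) * X = (H : ℝ) ^ 3 * (e * g₀ * g₁) * (2 * (d * g₁)) := by
      field_simp
    rw [e1]
    gcongr
    linarith
  · have h' : (H : ℝ) ≤ g₀ * g₁ := by exact_mod_cast h
    refine (SS3 hQ X H d e g₀ g₁ hX).trans ?_
    rw [div_le_iff₀ hXr]
    have e1 : 2 * ((H : ℝ) ^ 3 / X) * (d * e * g₀ * g₁ ^ 2) * X = (H : ℝ) ^ 3 * (2 * (g₀ * g₁)) * (d * e * g₁) := by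
      field_simp
    rw [e1]
    gcongr
    linarith

end Pool.Agent.L5helper10.RM
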