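import Pool.Agent.L5helper10.RM.F7

/-! Numerators of the frequencies. -/

set_option autoImplicit false
set_option linter.unusedSectionVars false

namespace Pool.Agent.L5helper10.RM

open Finset

variable {Q : ℕ} [NeZero Q]

/-- `N r = 0` and `Q = N M` imply that `M` divides the representative -/
lemma dvd_valMinAbs {N M : ℕ} (hN : 0 < N) (hQ : Q = N * M) (r : ZMod Q) (h : (N : ZMod Q) * r = 0) :
    (M : ℤ) ∣ r.valMinAbs := by
  have h1 : (((N : ℤ) * r.valMinAbs : ℤ) : ZMod Q) = 0 := by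
    rw [Int.cast_mul, ZMod.coe_valMinAbs, Int.cast_natCast, h]
  rw [ZMod.intCast_zmod_eq_zero_iff_dvd] at h1
  have h2 : ((N : ℤ) * (M : ℤ)) ∣ (N : ℤ) * r.valMinAbs := by
    have : ((N : ℤ) * (M : ℤ)) = (Q : ℤ) := by rw [← Nat.cast_mul]; exact_mod_cast hQ.symm
    rw [this]; exact h1
  exact Int.dvd_of_mul_dvd_mul_left (by exact_mod_cast hN.ne') h2

lemma valMinAbs_le' (r : ZMod Q) : 2 * |r.valMinAbs| ≤ Q := by
  have h := ZMod.natAbs_valMinAbs_le r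
  have h2 := Nat.div_mul_le_self Q 2
  have h3 : r.valMinAbs.natAbs * 2 ≤ Q := le_trans (Nat.mul_le_mul_right _ h) h2
  have : ((r.valMinAbs.natAbs * 2 : ℕ) : ℤ) ≤ (Q : ℤ) := by exact_mod_cast h3
  push_cast at this
  linarith

lemma param (hQ : Squarefree Q) {r t : ZMod Q} {d e g₀ g₁ : ℕ} (h : Ad (d, e, g₀, g₁) r t) :
    ∃ K : ℕ, 0 < K ∧ Q = K * (d * e * g₀ * g₁) ∧ ∃ a b : ℤ, r.valMinAbs = a * (e * K) ∧
      t.valMinAbs = b * (g₀ * K) ∧ a ≠ 0 ∧ b ≠ 0 ∧ (d : ℤ) ∣ g₀ * b - e * a ∧ (g₀ : ℤ) * b - e * a ≠ 0 ∧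
      |a| ≤ d * g₀ * g₁ ∧ |b| ≤ d * e * g₁ := by
  obtain ⟨hr, hs, ht, hsh⟩ := h
  obtain ⟨a1, a2, a3, a4, a5, a6⟩ := shape_main hQ r t hsh
  obtain ⟨p1, p2, p3, p4⟩ := shape_pos hQ r t hsh
  have hQ0 : 0 < Q := Nat.pos_of_ne_zero hQ.ne_zero
  have hcop : Nat.Coprime e (d * (g₀ * g₁)) := by
    apply Nat.Coprime.mul_right a4.symm
    have : Squarefree (e * (g₀ * g₁)) := a3 ▸ hQ.squarefree_of_dvd (od_dvd (t - r))
    exact Nat.coprime_of_squarefree_mul this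
  have hdvd : e * (d * (g₀ * g₁)) ∣ Q := by
    apply Nat.Coprime.mul_dvd_of_dvd_of_dvd hcop
    · have := od_dvd (t - r)
      rw [a3] at this
      exact (Dvd.intro _ rfl).trans this
    · have := od_dvd r
      rwa [a2] at this
  obtain ⟨K, hK⟩ := hdvd
  have hK0 : 0 < K := Nat.pos_of_ne_zero (by rintro rfl; rw [mul_zero] at hK; omega)
  refine ⟨K, hK0, by rw [hK]; ring, ?_⟩
  have h1 : ((d * (g₀ * g₁) : ℕ) : ZMod Q) * r = 0 := by rw [← od_dvd_iff, a2]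
  have h2 : ((d * e * g₁ : ℕ) : ZMod Q) * t = 0 := by rw [← od_dvd_iff, a1]
  have h3 : ((e * (g₀ * g₁) : ℕ) : ZMod Q) * (t - r) = 0 := by rw [← od_dvd_iff, a3]
  obtain ⟨a, ha⟩ := dvd_valMinAbs (N := d * (g₀ * g₁)) (M := e * K) (by positivity) (by rw [hK]; ring) r h1
  obtain ⟨b, hb⟩ := dvd_valMinAbs (N := d * e * g₁) (M := g₀ * K) (by positivity) (by rw [hK]; ring) t h2
  have hrc : r = ((r.valMinAbs : ℤ) : ZMod Q) := (ZMod.coe_valMinAbs r).symm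
  have htc : t = ((t.valMinAbs : ℤ) : ZMod Q) := (ZMod.coe_valMinAbs t).symm
  have hsc : t - r = ((K * (g₀ * b - e * a) : ℤ) : ZMod Q) := by
    conv_lhs => rw [hrc, htc]
    rw [← Int.cast_sub, ha, hb]
    congr 1
    push_cast
    ring
  have ha0 : a ≠ 0 := by
    rintro rfl
    rw [mul_zero] at ha
    exact hr ((ZMod.valMinAbs_eq_zero r).mp ha)
  have hb0 : b ≠ 0 := by
    rintro rfl
    rw [mul_zero] at hb
    exact ht ((ZMod.valMinAbs_eq_zero t).mp hb)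
  refine ⟨a, b, by rw [ha]; push_cast; ring, by rw [hb]; push_cast; ring, ha0, hb0, ?_, ?_, ?_, ?_⟩
  · rw [hsc, ← Int.cast_natCast, ← Int.cast_mul, ZMod.intCast_zmod_eq_zero_iff_dvd] at h3
    have h4 : ((e * (g₀ * g₁) * K : ℕ) : ℤ) * d ∣ ((e * (g₀ * g₁) * K : ℕ) : ℤ) * (g₀ * b - e * a) := by
      have e1 : ((e * (g₀ * g₁) * K : ℕ) : ℤ) * d = (Q : ℤ) := by rw [hK]; push_cast; ring
      have e2 : ((e * (g₀ * g₁) * K : ℕ) : ℤ) * (g₀ * b - e * a) =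
          ((e * (g₀ * g₁) : ℕ) : ℤ) * (K * (g₀ * b - e * a)) := by push_cast; ring
      rw [e1, e2]; exact h3
    exact Int.dvd_of_mul_dvd_mul_left (by positivity) h4
  · intro h5
    apply hs
    rw [hsc, h5]; simp
  · have h6 := valMinAbs_le' r
    rw [ha, abs_mul, Nat.abs_cast] at h6
    have h7 : ((e * K : ℕ) : ℤ) * (2 * |a|) ≤ ((e * K : ℕ) : ℤ) * (d * g₀ * g₁) := by
      have e1 : ((e * K : ℕ) : ℤ) * (d * g₀ * g₁) = (Q : ℤ) := by rw [hK]; push_cast; ring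
      rw [e1]; linarith
    have h8 := le_of_mul_le_mul_left h7 (by positivity)
    have := abs_nonneg a
    linarith
  · have h6 := valMinAbs_le' t
    rw [hb, abs_mul, Nat.abs_cast] at h6
    have h7 : ((g₀ * K : ℕ) : ℤ) * (2 * |b|) ≤ ((g₀ * K : ℕ) : ℤ) * (d * e * g₁) := by
      have e1 : ((g₀ * K : ℕ) : ℤ) * (d * e * g₁) = (Q : ℤ) := by rw [hK]; push_cast; ring
      rw [e1]; linarith
    have h8 := le_of_mul_le_mul_left h7 (by positivity)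
    have := abs_nonneg b
    linarith

/-- nonzero integers up to `N` -/
noncomputable def NZ (N : ℕ) : Finset ℤ := (Icc (-(N : ℤ)) N).erase 0

open Classical in
/-- the arithmetic sum of one shape -/
noncomputable def ar (N : ℕ) (σ : ℕ × ℕ × ℕ × ℕ) : ℝ :=
  ∑ a ∈ NZ N, ∑ b ∈ NZ N, if (σ.1 : ℤ) ∣ σ.2.2.1 * b - σ.2.1 * a ∧ (σ.2.2.1 : ℤ) * b - σ.2.1 * a ≠ 0 then
    1 / (|(a : ℝ)| * |(b : ℝ)|) else 0

open Classical in
lemma SS4 (hQ : Squarefree Q) (X H N d e g₀ g₁ : ℕ) (hX : 0 < X) (hN1 : d * g₀ * g₁ ≤ N) (hN2 : d * e * g₁ ≤ N) :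
    SS X H Q (d, e, g₀, g₁) ≤ (H : ℝ) ^ 3 / (4 * X) * ((d * g₀ * g₁) * (d * e * g₁)) * ar N (d, e, g₀, g₁) := by
  have hXr : (0 : ℝ) < X := by exact_mod_cast hX
  have har : 0 ≤ ar N (d, e, g₀, g₁) := by
    unfold ar
    refine sum_nonneg fun a _ => sum_nonneg fun b _ => ?_
    split_ifs <;> positivity
  by_cases hex : ∃ r t : ZMod Q, Ad (d, e, g₀, g₁) r t
  swap
  · push Not at hex
    have : SS X H Q (d, e, g₀, g₁) = 0 := by
      unfold SS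
      refine sum_eq_zero fun t _ => sum_eq_zero fun r _ => ?_
      rw [if_neg (hex r t)]
    rw [this]; positivity
  obtain ⟨r₀, t₀, h₀⟩ := hex
  obtain ⟨K, hK0, hQK, -⟩ := param hQ h₀
  obtain ⟨p1, p2, p3, p4⟩ := shape_pos hQ r₀ t₀ h₀.2.2.2
  have hKu : ∀ K' : ℕ, Q = K' * (d * e * g₀ * g₁) → K' = K := by
    intro K' h'
    have hp : 0 < d * e * g₀ * g₁ := by positivity
    exact Nat.eq_of_mul_eq_mul_right hp (h'.symm.trans hQK)
  -- the set of pairs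
  set P : Finset (ZMod Q × ZMod Q) := univ.filter (fun p => Ad (d, e, g₀, g₁) p.2 p.1) with hP
  have hSS : SS X H Q (d, e, g₀, g₁) = ∑ p ∈ P, ‖EE X p.1‖ ^ 2 / X ^ 2 * (‖EE H p.2‖ ^ 2 * ‖EE H (p.1 - p.2)‖ ^ 2) := by
    unfold SS
    rw [hP, sum_filter, ← univ_product_univ, sum_product]
  set φ : ZMod Q × ZMod Q → ℤ × ℤ := fun p => (p.2.valMinAbs / (e * K), p.1.valMinAbs / (g₀ * K)) with hφ
  have heK : ((e : ℤ) * K) ≠ 0 := by positivity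
  have hgK : ((g₀ : ℤ) * K) ≠ 0 := by positivity
  have hfacts : ∀ p ∈ P, p.2.valMinAbs = (φ p).1 * (e * K) ∧ p.1.valMinAbs = (φ p).2 * (g₀ * K) ∧
      (φ p).1 ≠ 0 ∧ (φ p).2 ≠ 0 ∧ (d : ℤ) ∣ g₀ * (φ p).2 - e * (φ p).1 ∧
      (g₀ : ℤ) * (φ p).2 - e * (φ p).1 ≠ 0 ∧ |(φ p).1| ≤ d * g₀ * g₁ ∧ |(φ p).2| ≤ d * e * g₁ := by
    intro p hp
    rw [hP, mem_filter] at hp
    obtain ⟨K', -, hQK', a, b, h1, h2, h3, h4, h5, h6, h7, h8⟩ := param hQ hp.2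
    rw [hKu K' hQK'] at h1 h2
    have e1 : (φ p).1 = a := by
      simp only [hφ]
      rw [h1, Int.mul_ediv_cancel _ heK]
    have e2 : (φ p).2 = b := by
      simp only [hφ]
      rw [h2, Int.mul_ediv_cancel _ hgK]
    rw [e1, e2]
    exact ⟨h1, h2, h3, h4, h5, h6, h7, h8⟩
  have hinj : Set.InjOn φ P := by
    intro p hp p' hp' hpp
    have f1 := hfacts p hp
    have f2 := hfacts p' hp'
    have e1 : p.2.valMinAbs = p'.2.valMinAbs := by rw [f1.1, f2.1, hpp]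
    have e2 : p.1.valMinAbs = p'.1.valMinAbs := by rw [f1.2.1, f2.2.1, hpp]
    have e3 : p.2 = p'.2 := by
      rw [← ZMod.coe_valMinAbs p.2, e1, ZMod.coe_valMinAbs]
    have e4 : p.1 = p'.1 := by
      rw [← ZMod.coe_valMinAbs p.1, e2, ZMod.coe_valMinAbs]
    exact Prod.ext e4 e3
  rw [hSS]
  -- the bound of a term
  have hterm : ∀ p ∈ P, ‖EE X p.1‖ ^ 2 / X ^ 2 * (‖EE H p.2‖ ^ 2 * ‖EE H (p.1 - p.2)‖ ^ 2) ≤
      (H : ℝ) ^ 3 / (4 * X) * ((d * g₀ * g₁) * (d * e * g₁)) *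
        (1 / (|((φ p).1 : ℝ)| * |((φ p).2 : ℝ)|)) := by
    intro p hp
    obtain ⟨f1, f2, f3, f4, -, -, -, -⟩ := hfacts p hp
    have hpA := (mem_filter.mp hp).2
    have ha : (0 : ℝ) < |((φ p).1 : ℝ)| := by rw [abs_pos]; exact_mod_cast f3
    have hb : (0 : ℝ) < |((φ p).2 : ℝ)| := by rw [abs_pos]; exact_mod_cast f4
    have hKr : (0 : ℝ) < K := by exact_mod_cast hK0
    have her : (0 : ℝ) < e := by exact_mod_cast p2
    have hg0r : (0 : ℝ) < g₀ := by exact_mod_cast p3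
    have hdr : (0 : ℝ) < d := by exact_mod_cast p1
    have hg1r : (0 : ℝ) < g₁ := by exact_mod_cast p4
    have hQr : (Q : ℝ) = K * (d * e * g₀ * g₁) := by exact_mod_cast hQK
    have b1 : ‖EE H p.2‖ ≤ d * g₀ * g₁ / (2 * |((φ p).1 : ℝ)|) := by
      refine (EE_norm_le' H p.2 hpA.1).trans (le_of_eq ?_)
      rw [f1]
      push_cast
      rw [abs_mul, abs_of_pos (show (0 : ℝ) < e * K by positivity), hQr]
      field_simp
    have b2 : ‖EE X p.1‖ ≤ d * e * g₁ / (2 * |((φ p).2 : ℝ)|) := by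
      refine (EE_norm_le' X p.1 hpA.2.2.1).trans (le_of_eq ?_)
      rw [f2]
      push_cast
      rw [abs_mul, abs_of_pos (show (0 : ℝ) < g₀ * K by positivity), hQr]
      field_simp
    have c1 : ‖EE H p.2‖ ^ 2 ≤ H * (d * g₀ * g₁ / (2 * |((φ p).1 : ℝ)|)) := by
      rw [sq]
      exact mul_le_mul (EE_norm_le H p.2) b1 (norm_nonneg _) (Nat.cast_nonneg _)
    have c2 : ‖EE X p.1‖ ^ 2 ≤ X * (d * e * g₁ / (2 * |((φ p).2 : ℝ)|)) := by
      rw [sq]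
      exact mul_le_mul (EE_norm_le X p.1) b2 (norm_nonneg _) (Nat.cast_nonneg _)
    have c3 := EE_sq_le H (p.1 - p.2)
    calc ‖EE X p.1‖ ^ 2 / X ^ 2 * (‖EE H p.2‖ ^ 2 * ‖EE H (p.1 - p.2)‖ ^ 2)
        ≤ (X * (d * e * g₁ / (2 * |((φ p).2 : ℝ)|))) / X ^ 2 *
          ((H * (d * g₀ * g₁ / (2 * |((φ p).1 : ℝ)|))) * (H : ℝ) ^ 2) := by gcongr
      _ = _ := by field_simp; ring
  refine (sum_le_sum hterm).trans ?_
  rw [← mul_sum]
  have hfin : ∑ p ∈ P, (1 / (|((φ p).1 : ℝ)| * |((φ p).2 : ℝ)|)) ≤ ar N (d, e, g₀, g₁) := by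
    have e1 : ∑ p ∈ P, (1 / (|((φ p).1 : ℝ)| * |((φ p).2 : ℝ)|)) =
        ∑ y ∈ P.image φ, (1 / (|(y.1 : ℝ)| * |(y.2 : ℝ)|)) := by
      rw [sum_image hinj]
    rw [e1]
    unfold ar
    rw [← sum_product', ← sum_filter]
    apply sum_le_sum_of_subset_of_nonneg
    · intro y hy
      rw [mem_image] at hy
      obtain ⟨p, hp, rfl⟩ := hy
      obtain ⟨f1, f2, f3, f4, f5, f6, f7, f8⟩ := hfacts p hp
      rw [mem_filter, mem_product]
      have g1 : ((d * g₀ * g₁ : ℕ) : ℤ) ≤ N := by exact_mod_cast hN1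
      have g2 : ((d * e * g₁ : ℕ) : ℤ) ≤ N := by exact_mod_cast hN2
      push_cast at g1 g2
      refine ⟨⟨?_, ?_⟩, f5, f6⟩
      · unfold NZ
        rw [mem_erase, mem_Icc]
        exact ⟨f3, abs_le.mp (f7.trans g1)⟩
      · unfold NZ
        rw [mem_erase, mem_Icc]
        exact ⟨f4, abs_le.mp (f8.trans g2)⟩
    · intro _ _ _; positivity
  exact mul_le_mul_of_nonneg_left hfin (by positivity)

end Pool.Agent.L5helper10.RM
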