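import Pool.Agent.L5helper10.RM.F8

/-! The sums over the shapes. -/

set_option autoImplicit false
set_option linter.unusedSectionVars false

namespace Pool.Agent.L5helper10.RM

open Finset

lemma tau_pos {n : ℕ} (h : n ≠ 0) : 1 ≤ tau n := by
  unfold tau
  have : 0 < #n.divisors := card_pos.mpr ⟨1, Nat.one_mem_divisors.mpr h⟩
  exact_mod_cast this

lemma tau_nonneg (n : ℕ) : 0 ≤ tau n := Nat.cast_nonneg _

lemma tau_mul_le (a b : ℕ) : tau (a * b) ≤ tau a * tau b := by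
  unfold tau
  rw [Nat.divisors_mul]
  exact_mod_cast card_mul_le

/-- the weight of a shape -/
noncomputable def ww (σ : ℕ × ℕ × ℕ × ℕ) : ℝ :=
  tau (σ.1 * σ.2.1 * σ.2.2.2) ^ 3 * ((σ.2.2.1 : ℝ) ^ 2 * σ.2.2.2) /
    (((σ.1 * (σ.2.2.1 * σ.2.2.2)).totient : ℝ) ^ 2 * ((σ.2.1 * (σ.2.2.1 * σ.2.2.2)).totient : ℝ) ^ 2)

lemma ww_nonneg (σ : ℕ × ℕ × ℕ × ℕ) : 0 ≤ ww σ := by
  unfold ww
  have := tau_nonneg (σ.1 * σ.2.1 * σ.2.2.2)
  positivity

variable {Q : ℕ} [NeZero Q]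

/-- all shapes -/
def Sh (Q : ℕ) : Finset (ℕ × ℕ × ℕ × ℕ) := Q.divisors ×ˢ Q.divisors ×ˢ Q.divisors ×ˢ Q.divisors

lemma sh_mem (hQ : Squarefree Q) (r t : ZMod Q) : sh r t ∈ Sh Q := by
  obtain ⟨a1, a2, a3, a4, a5, a6⟩ := shape_main hQ r t (d := (sh r t).1) (e := (sh r t).2.1)
    (g₀ := (sh r t).2.2.1) (g₁ := (sh r t).2.2.2) rfl
  unfold Sh
  have h1 := od_dvd r
  have h2 := od_dvd (t - r)
  rw [a2] at h1
  rw [a3] at h2
  rw [mem_product, mem_product, mem_product, Nat.mem_divisors, Nat.mem_divisors, Nat.mem_divisors,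
      Nat.mem_divisors]
  exact ⟨⟨(Dvd.intro _ rfl).trans h1, hQ.ne_zero⟩, ⟨(Dvd.intro _ rfl).trans h2, hQ.ne_zero⟩,
    ⟨Dvd.dvd.trans ⟨(sh r t).1 * (sh r t).2.2.2, by ring⟩ h1, hQ.ne_zero⟩,
    ⟨Dvd.dvd.trans ⟨(sh r t).1 * (sh r t).2.2.1, by ring⟩ h1, hQ.ne_zero⟩⟩

lemma cc_sq (hQ : Squarefree Q) (r : ZMod Q) : cc r ^ 2 = 1 / ((od r).totient : ℝ) ^ 2 := by
  unfold cc
  have h := hQ.squarefree_of_dvd (od_dvd r)
  rw [div_pow]
  congr 1
  have := ArithmeticFunction.moebius_sq_eq_one_of_squarefree h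
  exact_mod_cast this

lemma gg_sq (hQ : Squarefree Q) (H : ℕ) (r : ZMod Q) (hr : r ≠ 0) :
    ‖gg H r‖ ^ 2 = 1 / ((od r).totient : ℝ) ^ 2 * ‖EE H r‖ ^ 2 := by
  unfold gg
  rw [if_neg hr, norm_mul, mul_pow, ← cc_sq hQ, Complex.norm_real, Real.norm_eq_abs, sq_abs]

open Classical in
/-- the variance as a sum over the shapes -/
theorem var_shapes (hQ : Squarefree Q) (X H : ℕ) (hX : 0 < X) :
    ∑ a : ZMod Q, (VV X H a - EV Q H) ^ 2 ≤
      Q * ((∑ n ∈ Q.divisors, 1 / (n : ℝ)) * ∑ σ ∈ Sh Q, ww σ * SS X H Q σ) := by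
  have hXr : (0 : ℝ) < X := by exact_mod_cast hX
  rw [variance_eq hQ X H hX]
  refine mul_le_mul_of_nonneg_left ?_ (Nat.cast_nonneg _)
  set B₀ := ∑ n ∈ Q.divisors, 1 / (n : ℝ) with hB₀
  have hB0 : 0 ≤ B₀ := sum_nonneg fun _ _ => by positivity
  clear_value B₀
  have h1 : ∀ t ∈ (univ : Finset (ZMod Q)).erase 0, ‖EE X t‖ ^ 2 / X ^ 2 * ‖gc H t‖ ^ 2 ≤
      B₀ * ∑ r : ZMod Q, if r ≠ 0 ∧ t - r ≠ 0 ∧ t ≠ 0 then ww (sh r t) *
        (‖EE X t‖ ^ 2 / X ^ 2 * (‖EE H r‖ ^ 2 * ‖EE H (t - r)‖ ^ 2)) else 0 := by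
    intro t ht
    have ht0 : t ≠ 0 := (mem_erase.mp ht).1
    have h2 := gc_le hQ H t
    rw [← hB₀] at h2
    have h3 : ∑ r ∈ RR t, ‖gg H r‖ ^ 2 * ‖gg H (t - r)‖ ^ 2 / ug (sh r t) =
        ∑ r ∈ RR t, ((sh r t).2.2.1 : ℝ) ^ 2 * (sh r t).2.2.2 / (((od r).totient : ℝ) ^ 2 * ((od (t - r)).totient : ℝ) ^ 2) *
          (‖EE H r‖ ^ 2 * ‖EE H (t - r)‖ ^ 2) := by
      refine sum_congr rfl fun r hr => ?_
      have hr' := (mem_filter.mp hr).2
      rw [gg_sq hQ H r hr'.1, gg_sq hQ H (t - r) hr'.2]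
      unfold ug
      rw [div_div_eq_mul_div, div_one]
      ring
    rw [h3] at h2
    calc ‖EE X t‖ ^ 2 / X ^ 2 * ‖gc H t‖ ^ 2
        ≤ ‖EE X t‖ ^ 2 / X ^ 2 * (tau (od t) ^ 3 * B₀ * ∑ r ∈ RR t, ((sh r t).2.2.1 : ℝ) ^ 2 * (sh r t).2.2.2 /
          (((od r).totient : ℝ) ^ 2 * ((od (t - r)).totient : ℝ) ^ 2) *
          (‖EE H r‖ ^ 2 * ‖EE H (t - r)‖ ^ 2)) := by gcongr
      _ = B₀ * ∑ r ∈ RR t, tau (od t) ^ 3 * (((sh r t).2.2.1 : ℝ) ^ 2 * (sh r t).2.2.2) /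
          (((od r).totient : ℝ) ^ 2 * ((od (t - r)).totient : ℝ) ^ 2) *
          (‖EE X t‖ ^ 2 / X ^ 2 * (‖EE H r‖ ^ 2 * ‖EE H (t - r)‖ ^ 2)) := by
          rw [mul_sum, mul_sum, mul_sum]
          apply sum_congr rfl
          intro r _
          ring
      _ = B₀ * ∑ r : ZMod Q, (if r ≠ 0 ∧ t - r ≠ 0 ∧ t ≠ 0 then ww (sh r t) *
        (‖EE X t‖ ^ 2 / X ^ 2 * (‖EE H r‖ ^ 2 * ‖EE H (t - r)‖ ^ 2)) else 0) := by
          unfold RR
          rw [sum_filter]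
          refine congrArg (fun z => B₀ * z) (sum_congr rfl fun r _ => ?_)
          by_cases hc : r ≠ 0 ∧ t - r ≠ 0
          · rw [if_pos hc, if_pos ⟨hc.1, hc.2, ht0⟩]
            obtain ⟨a1, a2, a3, a4, a5, a6⟩ := shape_main hQ r t (d := (sh r t).1) (e := (sh r t).2.1)
              (g₀ := (sh r t).2.2.1) (g₁ := (sh r t).2.2.2) rfl
            unfold ww
            rw [← a1, ← a2, ← a3]
          · rw [if_neg hc, if_neg (fun h => hc ⟨h.1, h.2.1⟩)]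
  refine (sum_le_sum h1).trans ?_
  rw [← mul_sum]
  refine mul_le_mul_of_nonneg_left ?_ hB0
  calc _ ≤ ∑ t : ZMod Q, ∑ r : ZMod Q, (if r ≠ 0 ∧ t - r ≠ 0 ∧ t ≠ 0 then ww (sh r t) *
        (‖EE X t‖ ^ 2 / X ^ 2 * (‖EE H r‖ ^ 2 * ‖EE H (t - r)‖ ^ 2)) else 0) := by
        apply sum_le_sum_of_subset_of_nonneg (erase_subset _ _)
        intro t _ _
        refine sum_nonneg fun r _ => ?_
        split_ifs
        · have := ww_nonneg (sh r t)
          positivity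
        · exact le_rfl
    _ = ∑ σ ∈ Sh Q, ww σ * SS X H Q σ := by
        have hsum : ∑ σ ∈ Sh Q, ww σ * SS X H Q σ = ∑ t : ZMod Q, ∑ r : ZMod Q, ∑ σ ∈ Sh Q, ww σ *
            (if Ad σ r t then ‖EE X t‖ ^ 2 / X ^ 2 * (‖EE H r‖ ^ 2 * ‖EE H (t - r)‖ ^ 2) else 0) := by
          unfold SS
          simp_rw [mul_sum]
          rw [sum_comm]
          refine sum_congr rfl fun t _ => ?_
          rw [sum_comm]
        rw [hsum]
        refine sum_congr rfl fun t _ => sum_congr rfl fun r _ => ?_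
        by_cases hc : r ≠ 0 ∧ t - r ≠ 0 ∧ t ≠ 0
        · rw [if_pos hc]
          have h5 : ∀ σ ∈ Sh Q, ww σ * (if Ad σ r t then ‖EE X t‖ ^ 2 / X ^ 2 * (‖EE H r‖ ^ 2 * ‖EE H (t - r)‖ ^ 2) else 0) =
              if sh r t = σ then ww (sh r t) * (‖EE X t‖ ^ 2 / X ^ 2 * (‖EE H r‖ ^ 2 * ‖EE H (t - r)‖ ^ 2)) else 0 := by
            intro σ _
            by_cases hs : sh r t = σ
            · rw [if_pos hs, if_pos (show Ad σ r t from ⟨hc.1, hc.2.1, hc.2.2, hs⟩), hs]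
            · rw [if_neg hs, if_neg (fun h : Ad σ r t => hs h.2.2.2), mul_zero]
          rw [sum_congr rfl h5, sum_ite_eq, if_pos (sh_mem hQ r t)]
        · rw [if_neg hc]
          symm
          refine sum_eq_zero fun σ _ => ?_
          rw [if_neg (fun h : Ad σ r t => hc ⟨h.1, h.2.1, h.2.2.1⟩), mul_zero]

lemma sum_tau_div (hQ : Squarefree Q) {V : ℝ} (hV : (Q : ℝ) / Q.totient ≤ V) :
    ∑ n ∈ Q.divisors, tau n ^ 3 / n ≤ V ^ 8 := by
  have hmul : ArithmeticFunction.IsMultiplicative (⟨fun n => tau n ^ 3 / (n : ℝ), by simp⟩ : ArithmeticFunction ℝ) := by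
    refine ⟨by simp [tau], ?_⟩
    intro m n hmn
    simp only [ArithmeticFunction.coe_mk]
    unfold tau
    rw [Nat.Coprime.card_divisors_mul hmn]
    push_cast
    rw [mul_pow, mul_div_mul_comm]
  have h := hmul.prodPrimeFactors_one_add_of_squarefree hQ
  simp only [ArithmeticFunction.coe_mk] at h
  rw [← h]
  have h2 := Nat.totient_eq_mul_prod_factors Q
  have h3 : (Q.totient : ℝ) = Q * ∏ p ∈ Q.primeFactors, (1 - (p : ℝ)⁻¹) := by
    have := congrArg (fun q : ℚ => (q : ℝ)) h2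
    push_cast at this
    exact this
  have hQ0 : (Q : ℝ) ≠ 0 := by exact_mod_cast hQ.ne_zero
  have hpp : ∀ p ∈ Q.primeFactors, (2 : ℝ) ≤ p := by
    intro p hp
    exact_mod_cast (Nat.prime_of_mem_primeFactors hp).two_le
  have hpos : ∀ p ∈ Q.primeFactors, (0 : ℝ) < 1 - (p : ℝ)⁻¹ := by
    intro p hp
    have h4 := hpp p hp
    have : (p : ℝ)⁻¹ ≤ 1 / 2 := by rw [inv_eq_one_div]; exact one_div_le_one_div_of_le (by norm_num) h4
    linarith
  have h5 : (Q : ℝ) / Q.totient = ∏ p ∈ Q.primeFactors, (1 - (p : ℝ)⁻¹)⁻¹ := by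
    rw [h3, prod_inv_distrib]
    field_simp
  have hV0 : 0 ≤ (Q : ℝ) / Q.totient := by positivity
  calc ∏ p ∈ Q.primeFactors, (1 + tau p ^ 3 / (p : ℝ)) ≤ ∏ p ∈ Q.primeFactors, ((1 - (p : ℝ)⁻¹)⁻¹) ^ 8 := by
        apply prod_le_prod
        · intro p _
          have := tau_nonneg p
          positivity
        · intro p hp
          have hprime := Nat.prime_of_mem_primeFactors hp
          have ht : tau p = 2 := by
            unfold tau
            rw [hprime.divisors, card_pair hprime.one_lt.ne]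
            norm_num
          rw [ht, inv_pow, ← one_div, le_div_iff₀ (by have := hpos p hp; positivity)]
          have hp0 : (0 : ℝ) < p := by linarith [hpp p hp]
          have e1 : 1 + (2 : ℝ) ^ 3 / p ≤ (1 + (p : ℝ)⁻¹) ^ 8 := by
            have hpi : (0:ℝ) ≤ (p : ℝ)⁻¹ := by positivity
            have := one_add_mul_le_pow (a := (p : ℝ)⁻¹) (by linarith) 8
            refine le_trans (le_of_eq ?_) this
            norm_num
            ring
          calc _ ≤ (1 + (p : ℝ)⁻¹) ^ 8 * (1 - (p : ℝ)⁻¹) ^ 8 := by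
                have := hpos p hp
                gcongr
            _ = (1 - (p : ℝ)⁻¹ ^ 2) ^ 8 := by ring
            _ ≤ 1 := by
                apply pow_le_one₀
                · have h6 : (p : ℝ)⁻¹ ≤ 1 := by
                    have := hpos p hp
                    linarith
                  have h7 : (0 : ℝ) ≤ (p : ℝ)⁻¹ := by positivity
                  nlinarith
                · have : (0 : ℝ) ≤ (p : ℝ)⁻¹ ^ 2 := by positivity
                  linarith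
    _ = ((Q : ℝ) / Q.totient) ^ 8 := by rw [h5, prod_pow]
    _ ≤ V ^ 8 := by gcongr

end Pool.Agent.L5helper10.RM
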