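import Pool.Agent.L5helper10.RM.F14

/-! The weights of lower level and the mean square of the difference of two levels. -/

set_option autoImplicit false
set_option linter.unusedSectionVars false

namespace Pool.Agent.L5helper10.RM

open Finset ArithmeticFunction

open scoped ArithmeticFunction.Moebius ArithmeticFunction.zeta

variable {Q : ℕ} [NeZero Q]

/-- the weight of the level `D` -/
noncomputable def WR (D : ℕ) (y : ZMod Q) : ℝ := if Nat.gcd D y.val = 1 then (D : ℝ) / D.totient else 0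

theorem WR_expand (hQ : Squarefree Q) {D : ℕ} (hD : D ∣ Q) (m : ZMod Q) :
    (WR D m : ℂ) = ∑ r ∈ ker Q D, (cc r : ℂ) * ee (r * m) := by
  have hDs : Squarefree D := hQ.squarefree_of_dvd hD
  have hD0 : (D : ℝ) ≠ 0 := by exact_mod_cast hDs.ne_zero
  have hφ : (D.totient : ℝ) ≠ 0 := by
    have := Nat.totient_pos.mpr (Nat.pos_of_ne_zero hDs.ne_zero)
    exact_mod_cast this.ne'
  have h1 : ∀ r ∈ ker Q D, cc r = (D : ℝ) / D.totient * ∑ e ∈ D.divisors with od r ∣ e, (μ e : ℝ) * (e : ℝ)⁻¹ := by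
    intro r hr
    rw [sum_mu_multiples hDs ((mem_ker r D).mp hr)]
    unfold cc
    field_simp
  have hm : m = ((m.val : ℤ) : ZMod Q) := by
    rw [Int.cast_natCast, ZMod.natCast_zmod_val]
  have h2 : ∀ e ∈ D.divisors, ∑ r ∈ (ker Q D).filter (fun r => od r ∣ e), ee (r * m) = if e ∣ m.val then (e : ℂ) else 0 := by
    intro e he
    rw [Nat.mem_divisors] at he
    have h3 : ((ker Q D).filter fun r : ZMod Q => od r ∣ e) = ker Q e := by
      ext r; rw [mem_filter, mem_ker, mem_ker]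
      exact ⟨fun h => h.2, fun h => ⟨h.trans he.1, h⟩⟩
    rw [h3]
    conv_lhs => rw [hm]
    rw [ker_sum (he.1.trans hD)]
    simp only [Int.natCast_dvd_natCast]
  have h4 : ∑ r ∈ ker Q D, (cc r : ℂ) * ee (r * m) =
      ((D : ℝ) / D.totient : ℝ) * ∑ e ∈ D.divisors, ((μ e : ℝ) * (e : ℝ)⁻¹ : ℝ) *
        (if e ∣ m.val then (e : ℂ) else 0) := by
    have h5 : ∀ r ∈ ker Q D, (cc r : ℂ) * ee (r * m) = ((D : ℝ) / D.totient : ℝ) *
        ∑ e ∈ D.divisors, if od r ∣ e then (((μ e : ℝ) * (e : ℝ)⁻¹ : ℝ) : ℂ) * ee (r * m) else 0 := by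
      intro r hr
      rw [h1 r hr, sum_filter]
      push_cast
      rw [mul_assoc, sum_mul]
      congr 1
      refine sum_congr rfl fun e _ => ?_
      split_ifs <;> simp
    rw [sum_congr rfl h5, ← mul_sum, sum_comm]
    congr 1
    refine sum_congr rfl fun e he => ?_
    rw [← h2 e he, mul_sum, sum_filter]
  rw [h4]
  have h6 : ∀ e ∈ D.divisors, (((μ e : ℝ) * (e : ℝ)⁻¹ : ℝ) : ℂ) * (if e ∣ m.val then (e : ℂ) else 0) =
      if e ∣ m.val then (((μ e : ℤ) : ℝ) : ℂ) else 0 := by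
    intro e he
    have he0 : (e : ℂ) ≠ 0 := by
      have := Nat.pos_of_mem_divisors he
      exact_mod_cast this.ne'
    split_ifs
    · push_cast
      field_simp
    · simp
  rw [sum_congr rfl h6, ← sum_filter]
  have h7 : D.divisors.filter (fun e => e ∣ m.val) = (Nat.gcd D m.val).divisors := by
    ext e
    rw [mem_filter, Nat.mem_divisors, Nat.mem_divisors, Nat.dvd_gcd_iff]
    have h71 : Nat.gcd D m.val ≠ 0 := Nat.gcd_ne_zero_left hDs.ne_zero
    have h72 : D ≠ 0 := hDs.ne_zero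
    exact ⟨fun h => ⟨⟨h.1.1, h.2⟩, h71⟩, fun h => ⟨⟨h.1.1, h72⟩, h.1.2⟩⟩
  have hg : Nat.gcd D m.val ≠ 0 := Nat.gcd_ne_zero_left hDs.ne_zero
  rw [h7, ← Complex.ofReal_sum, sum_mu _ hg]
  unfold WR
  by_cases h9 : Nat.gcd D m.val = 1
  · rw [if_pos h9, if_pos h9]
    push_cast
    try rw [mul_one]
  · rw [if_neg h9, if_neg h9]
    simp

lemma WR_self (m : ZMod Q) : WR Q m = WW m := by
  unfold WR WW
  have h8 : IsUnit m ↔ Nat.gcd Q m.val = 1 := by
    have := ZMod.isUnit_iff_coprime m.val Q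
    rw [ZMod.natCast_zmod_val] at this
    rw [this, Nat.coprime_comm]
  by_cases h9 : Nat.gcd Q m.val = 1
  · rw [if_pos h9, if_pos (h8.mpr h9)]
  · rw [if_neg h9, if_neg (fun h => h9 (h8.mp h))]

/-- `d / φ(d)²` -/
noncomputable def ff : ArithmeticFunction ℝ := ⟨fun d => (d : ℝ) / (d.totient : ℝ) ^ 2, by simp⟩

lemma ff_mul : IsMultiplicative ff := by
  refine ⟨by simp [ff], ?_⟩
  intro m n hmn
  simp only [ff, coe_mk]
  rw [Nat.totient_mul hmn]
  push_cast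
  rw [div_mul_div_comm]
  congr 1
  ring

noncomputable def GG (Q : ℕ) : ℝ := ∑ d ∈ Q.divisors, (d : ℝ) / (d.totient : ℝ) ^ 2

lemma GG_nonneg (Q : ℕ) : 0 ≤ GG Q := by
  unfold GG
  exact sum_nonneg fun _ _ => by positivity

lemma GG_eq (Q : ℕ) : GG Q = (ff * (ζ : ArithmeticFunction ℝ)) Q := by
  rw [coe_mul_zeta_apply]
  unfold GG ff
  rfl

lemma GG_mul {m n : ℕ} (h : Nat.Coprime m n) : GG (m * n) = GG m * GG n := by
  rw [GG_eq, GG_eq, GG_eq]
  exact (ff_mul.mul isMultiplicative_zeta.natCast).map_mul_of_coprime h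

lemma ff_le_FF {e : ℕ} (he : Squarefree e) : (e : ℝ) / (e.totient : ℝ) ^ 2 ≤ FF e := by
  rw [FF_apply he.ne_zero]
  have h3 : (e.totient : ℝ) = e * ∏ p ∈ e.primeFactors, (1 - (p : ℝ)⁻¹) := by
    have := congrArg (fun q : ℚ => (q : ℝ)) (Nat.totient_eq_mul_prod_factors e)
    push_cast at this
    exact this
  have h4 : (e : ℝ) = ∏ p ∈ e.primeFactors, (p : ℝ) := by
    have := Nat.prod_primeFactors_of_squarefree he
    conv_lhs => rw [← this]
    push_cast; rfl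
  have h5 : (e : ℝ) / (e.totient : ℝ) ^ 2 = ∏ p ∈ e.primeFactors, ((p : ℝ) / (p * (1 - (p : ℝ)⁻¹)) ^ 2) := by
    rw [prod_div_distrib, prod_pow, prod_mul_distrib, ← h4, ← h3]
  rw [h5]
  apply prod_le_prod
  · intro p _; positivity
  · intro p hp
    have hprime := Nat.prime_of_mem_primeFactors hp
    have h2 : (2 : ℝ) ≤ p := by exact_mod_cast hprime.two_le
    unfold fp
    have e1 : (p : ℝ) * (1 - (p : ℝ)⁻¹) = p - 1 := by field_simp
    have h6 : (0 : ℝ) < p - 1 := by linarith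
    rw [e1, div_pow, div_sub_one (by positivity)]
    apply div_le_div_of_nonneg_right _ (by positivity)
    nlinarith

lemma GG_le {Q : ℕ} (hQ : Squarefree Q) : GG Q ≤ ((Q : ℝ) / Q.totient) ^ 2 := by
  rw [ratio_eq hQ]
  unfold GG
  exact sum_le_sum fun e he => ff_le_FF (hQ.squarefree_of_dvd (Nat.dvd_of_mem_divisors he))

lemma one_le_GG {Q : ℕ} (hQ : Q ≠ 0) : 1 ≤ GG Q := by
  unfold GG
  have : (1 : ℕ) ∈ Q.divisors := Nat.one_mem_divisors.mpr hQ
  calc (1 : ℝ) = ((1 : ℕ) : ℝ) / ((1 : ℕ).totient : ℝ) ^ 2 := by simp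
    _ ≤ _ := single_le_sum (f := fun d : ℕ => (d : ℝ) / (d.totient : ℝ) ^ 2) (fun _ _ => by positivity) this

lemma GG_sub {Q D : ℕ} (hQ : Squarefree Q) (hD : D ∣ Q) :
    GG Q - GG D ≤ ((Q : ℝ) / Q.totient) ^ 2 - ((D : ℝ) / D.totient) ^ 2 := by
  obtain ⟨M, rfl⟩ := hD
  have hcop : Nat.Coprime D M := Nat.coprime_of_squarefree_mul hQ
  have hDs : Squarefree D := hQ.squarefree_of_dvd (Dvd.intro _ rfl)
  have hMs : Squarefree M := hQ.squarefree_of_dvd (Dvd.intro_left _ rfl)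
  have h1 := GG_le hDs
  have h2 := GG_le hMs
  have h3 := one_le_GG hMs.ne_zero
  have h4 := GG_nonneg D
  have h5 : (((D * M : ℕ) : ℝ) / ((D * M).totient : ℝ)) ^ 2 = ((D : ℝ) / D.totient) ^ 2 * ((M : ℝ) / M.totient) ^ 2 := by
    rw [Nat.totient_mul hcop]
    push_cast
    rw [mul_div_mul_comm, mul_pow]
  rw [GG_mul hcop, h5]
  have h6 : 0 ≤ ((D : ℝ) / D.totient) ^ 2 := by positivity
  calc GG D * GG M - GG D = GG D * (GG M - 1) := by ring
    _ ≤ ((D : ℝ) / D.totient) ^ 2 * (((M : ℝ) / M.totient) ^ 2 - 1) := by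
        apply mul_le_mul h1 (by linarith) (by linarith) h6
    _ = _ := by ring

/-- an up-set of an initial interval -/
lemma upset (H : ℕ) (P : ℕ → Prop) [DecidablePred P] (hP : ∀ i j, i ≤ j → P i → P j) :
    ∃ c, c ≤ H ∧ (Icc 1 H).filter P = Ioc c H := by
  by_cases h : ∃ i, i ∈ Icc 1 H ∧ P i
  · classical
    obtain ⟨h1, h2⟩ := Nat.find_spec h
    have h3 := fun m hm => Nat.find_min h (m := m) hm
    rw [mem_Icc] at h1
    refine ⟨Nat.find h - 1, by omega, ?_⟩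
    ext i
    rw [mem_filter, mem_Icc, mem_Ioc]
    constructor
    · rintro ⟨⟨a, b⟩, c⟩
      have : Nat.find h ≤ i := Nat.find_min' h ⟨mem_Icc.mpr ⟨a, b⟩, c⟩
      omega
    · rintro ⟨a, b⟩
      exact ⟨⟨by omega, b⟩, hP _ _ (by omega) h2⟩
  · push Not at h
    refine ⟨H, le_rfl, ?_⟩
    rw [Ioc_self]
    rw [filter_eq_empty_iff]
    intro i hi
    exact h i hi

lemma sum_Ioc_ee (c H : ℕ) (hc : c ≤ H) (r : ZMod Q) :
    ∑ h ∈ Ioc c H, ee (r * (h : ZMod Q)) = ee (r * (c : ZMod Q)) * EE (H - c) r := by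
  unfold EE
  rw [mul_sum]
  refine (sum_bij (fun h _ => c + h) ?_ ?_ ?_ ?_).symm
  · intro h hh
    rw [mem_Icc] at hh
    rw [mem_Ioc]
    omega
  · intro a _ b _ hab
    omega
  · intro b hb
    rw [mem_Ioc] at hb
    exact ⟨b - c, mem_Icc.mpr ⟨by omega, by omega⟩, by omega⟩
  · intro h _
    rw [← ee_add]
    congr 1
    push_cast
    ring

/-- the mean square of the difference of the levels -/
theorem level_bound (hQ : Squarefree Q) (D : ℕ → ℕ) (D₀ : ℕ) (m H : ℕ)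
    (hD : ∀ h, D (m + h) ∣ Q ∨ H < h) (hD0 : ∀ h, D₀ ∣ D (m + h)) (hD0Q : D₀ ∣ Q)
    (hmono : ∀ i j, i ≤ j → D i ∣ D j) :
    ∑ a : ZMod Q, (∑ h ∈ Icc 1 H, (WR (D (m + h)) (((m + h : ℕ) : ZMod Q) - a) -
      WR D₀ (((m + h : ℕ) : ZMod Q) - a))) ^ 2 ≤
      Q * (H * (((Q : ℝ) / Q.totient) ^ 2 - ((D₀ : ℝ) / D₀.totient) ^ 2)) := by
  classical
  -- the coefficients
  obtain ⟨v, hv⟩ : ∃ v : ZMod Q → ℂ, v = fun r => if od r ∣ D₀ then 0 else
      (cc r : ℂ) * ee (r * (m : ZMod Q)) * ∑ h ∈ (Icc 1 H).filter (fun h => od r ∣ D (m + h)), ee (r * (h : ZMod Q)) :=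
    ⟨_, rfl⟩
  have h1 : ∀ a : ZMod Q, ((∑ h ∈ Icc 1 H, (WR (D (m + h)) (((m + h : ℕ) : ZMod Q) - a) -
      WR D₀ (((m + h : ℕ) : ZMod Q) - a)) : ℝ) : ℂ) = ∑ r : ZMod Q, v r * ee (-(r * a)) := by
    intro a
    push_cast
    have h2 : ∀ h ∈ Icc 1 H, ((WR (D (m + h)) ((m : ZMod Q) + (h : ZMod Q) - a) : ℂ) -
        (WR D₀ ((m : ZMod Q) + (h : ZMod Q) - a) : ℂ)) =
        ∑ r : ZMod Q, if od r ∣ D₀ then 0 else if od r ∣ D (m + h) then
          (cc r : ℂ) * ee (r * ((m : ZMod Q) + (h : ZMod Q) - a)) else 0 := by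
      intro h hh
      rw [mem_Icc] at hh
      have hDh : D (m + h) ∣ Q := by
        rcases hD h with h' | h'
        · exact h'
        · omega
      rw [WR_expand hQ hDh, WR_expand hQ hD0Q]
      have e1 : ∀ E : ℕ, ∑ r ∈ ker Q E, (cc r : ℂ) * ee (r * ((m : ZMod Q) + (h : ZMod Q) - a)) =
          ∑ r : ZMod Q, if od r ∣ E then (cc r : ℂ) * ee (r * ((m : ZMod Q) + (h : ZMod Q) - a)) else 0 := by
        intro E
        rw [← sum_filter]
        refine sum_congr ?_ fun _ _ => rfl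
        ext r
        rw [mem_ker, mem_filter]
        simp
      rw [e1, e1, ← sum_sub_distrib]
      refine sum_congr rfl fun r _ => ?_
      by_cases c1 : od r ∣ D₀
      · rw [if_pos c1, if_pos c1, if_pos (c1.trans (hD0 h)), sub_self]
      · rw [if_neg c1, if_neg c1, sub_zero]
    rw [sum_congr rfl h2, sum_comm]
    refine sum_congr rfl fun r _ => ?_
    rw [hv]
    simp only
    by_cases c1 : od r ∣ D₀
    · simp only [if_pos c1, sum_const_zero, zero_mul]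
    · simp only [if_neg c1]
      rw [← sum_filter, mul_assoc, mul_assoc, sum_mul, mul_sum, mul_sum]
      refine sum_congr rfl fun h _ => ?_
      congr 1
      rw [← ee_add, ← ee_add]
      congr 1
      ring
  have h2 : ∀ a : ZMod Q, (∑ h ∈ Icc 1 H, (WR (D (m + h)) (((m + h : ℕ) : ZMod Q) - a) -
      WR D₀ (((m + h : ℕ) : ZMod Q) - a))) ^ 2 = ‖∑ r : ZMod Q, v r * ee (-(r * a))‖ ^ 2 := by
    intro a
    rw [← h1 a, Complex.norm_real, Real.norm_eq_abs, sq_abs]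
  rw [sum_congr rfl (fun a _ => h2 a), parseval]
  apply mul_le_mul_of_nonneg_left _ (Nat.cast_nonneg _)
  have h3 : ∑ r : ZMod Q, ‖v r‖ ^ 2 ≤ ∑ d ∈ Q.divisors.filter (fun d => ¬ d ∣ D₀), H * ((d : ℝ) / (d.totient : ℝ) ^ 2) := by
    have e0 : ∑ r : ZMod Q, ‖v r‖ ^ 2 = ∑ r ∈ (univ : Finset (ZMod Q)).filter (fun r => ¬ od r ∣ D₀), ‖v r‖ ^ 2 := by
      rw [sum_filter]
      refine sum_congr rfl fun r _ => ?_
      by_cases c1 : od r ∣ D₀
      · rw [if_neg (not_not.mpr c1), hv]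
        simp [c1]
      · rw [if_pos c1]
    have hmaps : ∀ r ∈ (univ : Finset (ZMod Q)).filter (fun r => ¬ od r ∣ D₀), od r ∈ Q.divisors.filter (fun d => ¬ d ∣ D₀) := by
      intro r hr
      rw [mem_filter, Nat.mem_divisors]
      exact ⟨⟨od_dvd r, hQ.ne_zero⟩, (mem_filter.mp hr).2⟩
    rw [e0, ← sum_fiberwise_of_maps_to hmaps]
    refine sum_le_sum fun d hd => ?_
    rw [mem_filter] at hd
    have hdQ := Nat.dvd_of_mem_divisors hd.1
    have hd1 : d ≠ 1 := by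
      rintro rfl
      exact hd.2 (one_dvd _)
    obtain ⟨c, hc, hc2⟩ := upset H (fun h => d ∣ D (m + h)) (fun i j hij h => h.trans (hmono _ _ (by omega)))
    have h4 : ∀ r ∈ ((univ : Finset (ZMod Q)).filter (fun r => ¬ od r ∣ D₀)).filter (fun r => od r = d),
        ‖v r‖ ^ 2 = 1 / (d.totient : ℝ) ^ 2 * ‖EE (H - c) r‖ ^ 2 := by
      intro r hr
      rw [mem_filter, mem_filter] at hr
      obtain ⟨⟨-, hr1⟩, hr2⟩ := hr
      rw [hv]
      simp only [if_neg hr1]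
      rw [hr2, hc2, sum_Ioc_ee c H hc, norm_mul, norm_mul, norm_mul, ee_norm, ee_norm, mul_one, one_mul, mul_pow]
      congr 1
      rw [Complex.norm_real, Real.norm_eq_abs, sq_abs, cc_sq hQ, hr2]
    rw [sum_congr rfl h4, ← mul_sum]
    have h5 : ∑ r ∈ ((univ : Finset (ZMod Q)).filter (fun r => ¬ od r ∣ D₀)).filter (fun r => od r = d),
        ‖EE (H - c) r‖ ^ 2 ≤ AA Q (H - c) d := by
      unfold AA
      apply sum_le_sum_of_subset_of_nonneg
      · intro r hr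
        rw [mem_filter, mem_filter] at hr
        rw [mem_filter]
        exact ⟨mem_univ _, hr.2⟩
      · intro _ _ _; positivity
    have h6 := AA_le1 hdQ hd1 (H - c)
    have h7 : ((H - c : ℕ) : ℝ) ≤ H := by exact_mod_cast Nat.sub_le _ _
    calc 1 / (d.totient : ℝ) ^ 2 * _ ≤ 1 / (d.totient : ℝ) ^ 2 * (d * H) := by
          apply mul_le_mul_of_nonneg_left _ (by positivity)
          refine h5.trans (h6.trans ?_)
          gcongr
      _ = _ := by ring
  refine h3.trans ?_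
  rw [← mul_sum]
  apply mul_le_mul_of_nonneg_left _ (Nat.cast_nonneg _)
  refine le_trans (le_of_eq ?_) (GG_sub hQ hD0Q)
  unfold GG
  have h8 := sum_filter_add_sum_filter_not Q.divisors (fun d => d ∣ D₀) (fun d : ℕ => (d : ℝ) / (d.totient : ℝ) ^ 2)
  have h9 : Q.divisors.filter (fun d => d ∣ D₀) = D₀.divisors := by
    ext d
    rw [mem_filter, Nat.mem_divisors, Nat.mem_divisors]
    have := hQ.ne_zero
    have h10 : D₀ ≠ 0 := by
      rintro rfl
      exact this (Nat.eq_zero_of_zero_dvd hD0Q)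
    exact ⟨fun h => ⟨h.2, h10⟩, fun h => ⟨⟨h.1.trans hD0Q, this⟩, h.1⟩⟩
  rw [h9] at h8
  linarith

end Pool.Agent.L5helper10.RM
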