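import Pool.Agent.L5helper10.RM.G9

/-! The integral over the real centres. -/

set_option autoImplicit false
set_option linter.unusedSectionVars false

namespace Pool.Agent.L5helper10.RM

open Finset Filter MeasureTheory

open scoped Topology

/-- the level of a real number -/
noncomputable def zR (y : ℝ) : ℕ := sInf {z | Real.log y < VP (z + 1)}

lemma zR_mem (y : ℝ) : Real.log y < VP (zR y + 1) := by
  have hne : {z | Real.log y < VP (z + 1)}.Nonempty := by
    have h := (VP_tendsto.comp (tendsto_add_atTop_nat 1)).eventually (eventually_gt_atTop (Real.log y))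
    obtain ⟨z, hz⟩ := h.exists
    exact ⟨z, hz⟩
  exact Nat.sInf_mem hne

lemma VP_zR_le (y : ℝ) (hy : 3 ≤ y) : VP (zR y) ≤ Real.log y := by
  rcases Nat.eq_zero_or_pos (zR y) with h | h
  · rw [h]
    have h0 : VP 0 = 1 := by unfold VP; simp
    rw [h0]
    rw [Real.le_log_iff_exp_le (by linarith)]
    have := Real.exp_one_lt_d9
    linarith
  · have h1 : zR y - 1 ∉ {z | Real.log y < VP (z + 1)} := Nat.notMem_of_lt_sInf (by unfold zR at h ⊢; omega)
    rw [Set.mem_ofPred_eq, not_lt, Nat.sub_add_cancel h] at h1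
    exact h1

lemma zz_le_zR {M : ℕ} {y : ℝ} (hM : 1 ≤ M) (h : (M : ℝ) ≤ y) : zz M ≤ zR y := by
  apply Nat.sInf_le
  rw [Set.mem_ofPred_eq]
  have h1 : Real.log M ≤ Real.log y := Real.log_le_log (by exact_mod_cast hM) h
  exact lt_of_le_of_lt h1 (zR_mem y)

lemma le_zR_iff (y : ℝ) (hy : 3 ≤ y) (p : ℕ) : VP p ≤ Real.log y ↔ p ≤ zR y := by
  constructor
  · intro h
    by_contra hp
    push Not at hp
    have h1 := VP_mono (show zR y + 1 ≤ p from hp)
    have h2 := zR_mem y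
    linarith
  · intro h
    exact (VP_mono h).trans (VP_zR_le y hy)

/-- the number of elements of the random set in the centred interval, with the weight `log n` -/
noncomputable def psiR (α : ℕ → ℕ) (x H : ℝ) : ℝ := ∑ n ∈ Icc ⌈x - H / 2⌉₊ ⌊x + H / 2⌋₊, lw α n

/-- the mean square -/
noncomputable def JR (α : ℕ → ℕ) (X H : ℝ) : ℝ := 1 / X * ∫ x in H..X, (psiR α x H - H) ^ 2

lemma lw_nonneg (α : ℕ → ℕ) (n : ℕ) : 0 ≤ lw α n := by
  unfold lw
  split_ifs
  · exact Real.log_natCast_nonneg n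
  · exact le_rfl

lemma lw_le (α : ℕ → ℕ) (n : ℕ) : lw α n ≤ Real.log n := by
  unfold lw
  split_ifs
  · exact le_rfl
  · exact Real.log_natCast_nonneg n

/-- comparison with the integral case -/
lemma psi_TT (α : ℕ → ℕ) (x H X : ℝ) (hH : 1 ≤ H) (hx : H ≤ x) (hX : x ≤ X) :
    |psiR α x H - H - TT α (⌈x - H / 2⌉₊ - 1) ⌊H⌋₊| ≤ 1 + Real.log (2 * X) := by
  obtain ⟨c, hc⟩ : ∃ c, c = ⌈x - H / 2⌉₊ := ⟨_, rfl⟩
  obtain ⟨e, he⟩ : ∃ e, e = ⌊x + H / 2⌋₊ := ⟨_, rfl⟩
  obtain ⟨h, hh⟩ : ∃ h, h = ⌊H⌋₊ := ⟨_, rfl⟩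
  have hh1 : (h : ℝ) ≤ H := by rw [hh]; exact Nat.floor_le (by linarith)
  have hh2 : H < h + 1 := by rw [hh]; exact Nat.lt_floor_add_one H
  have hc1 : x - H / 2 ≤ c := by rw [hc]; exact Nat.le_ceil _
  have hc2 : (c : ℝ) < x - H / 2 + 1 := by rw [hc]; exact Nat.ceil_lt_add_one (by linarith)
  have hc0 : 1 ≤ c := by
    have : (0 : ℝ) < c := by linarith
    exact_mod_cast this
  have he1 : (e : ℝ) ≤ x + H / 2 := by rw [he]; exact Nat.floor_le (by linarith)
  have he2 : x + H / 2 < e + 1 := by rw [he]; exact Nat.lt_floor_add_one _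
  have hn1 : c + h ≤ e + 1 := by
    have : (c : ℝ) + h < e + 2 := by linarith
    have : c + h < e + 2 := by exact_mod_cast this
    omega
  have hn2 : e + 1 ≤ c + h + 1 := by
    have : (e : ℝ) < c + h + 1 := by linarith
    have : e < c + h + 1 := by exact_mod_cast this
    omega
  unfold psiR
  rw [← hc, ← he, ← hh]
  have h1 : ∑ n ∈ Ico c (c + h), lw α n = ∑ j ∈ Icc 1 h, lw α (c - 1 + j) := by
    refine (sum_bij (fun j _ => c - 1 + j) ?_ ?_ ?_ ?_).symm
    · intro j hj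
      rw [mem_Icc] at hj
      rw [mem_Ico]; omega
    · intro a _ b _ hab
      omega
    · intro b hb
      rw [mem_Ico] at hb
      exact ⟨b - (c - 1), mem_Icc.mpr ⟨by omega, by omega⟩, by omega⟩
    · intro _ _; rfl
  have h2 : TT α (c - 1) h = ∑ n ∈ Ico c (c + h), lw α n - h := by
    unfold TT
    rw [h1, sum_sub_distrib, sum_const, Nat.card_Icc, Nat.add_sub_cancel, nsmul_eq_mul, mul_one]
  have hlog0 : 0 ≤ Real.log (2 * X) := Real.log_nonneg (by linarith)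
  rcases Nat.lt_or_ge e (c + h) with h3 | h3
  · have h4 : Icc c e = Ico c (c + h) := by
      ext n; rw [mem_Icc, mem_Ico]; omega
    rw [h4, h2, abs_le]
    constructor <;> linarith
  · have h4 : e = c + h := by omega
    have h5 : Icc c e = insert e (Ico c (c + h)) := by
      ext n; rw [mem_Icc, mem_insert, mem_Ico]; omega
    rw [h5, sum_insert (by rw [mem_Ico]; omega), h2]
    have h6 := lw_nonneg α e
    have h7 : lw α e ≤ Real.log (2 * X) := by
      refine (lw_le α e).trans ?_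
      rcases Nat.eq_zero_or_pos e with h8 | h8
      · rw [h8]; simpa using hlog0
      · apply Real.log_le_log (by exact_mod_cast h8)
        linarith
    rw [abs_le]
    constructor <;> linarith

lemma intble (Φ : ℕ → ℕ → ℝ) (c d : ℝ) (a b : ℝ) :
    IntervalIntegrable (fun x => Φ ⌈x - c⌉₊ ⌊x + d⌋₊) volume a b := by
  rw [intervalIntegrable_iff]
  have hmeas : Measurable (fun x : ℝ => Φ ⌈x - c⌉₊ ⌊x + d⌋₊) := by
    have h1 : Measurable (fun x : ℝ => (⌈x - c⌉₊, ⌊x + d⌋₊)) :=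
      (Nat.measurable_ceil.comp (measurable_id.sub_const c)).prodMk (Nat.measurable_floor.comp (measurable_id.add_const d))
    have h2 : Measurable (fun p : ℕ × ℕ => Φ p.1 p.2) := measurable_of_countable _
    exact h2.comp h1
  obtain ⟨C, hC⟩ : ∃ C, C = ∑ i ∈ range (⌈max a b - c⌉₊ + 1), ∑ j ∈ range (⌊max a b + d⌋₊ + 1), |Φ i j| := ⟨_, rfl⟩
  apply Measure.integrableOn_of_bounded (M := C)
  · rw [Set.uIoc]; exact measure_Ioc_lt_top.ne
  · exact hmeas.aestronglyMeasurable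
  · rw [ae_restrict_iff' measurableSet_uIoc]
    refine Filter.Eventually.of_forall fun x hx => ?_
    rw [Set.uIoc, Set.mem_Ioc] at hx
    rw [Real.norm_eq_abs, hC]
    have h1 : ⌈x - c⌉₊ ∈ range (⌈max a b - c⌉₊ + 1) := by
      rw [mem_range, Nat.lt_succ_iff]
      exact Nat.ceil_mono (by linarith [hx.2])
    have h2 : ⌊x + d⌋₊ ∈ range (⌊max a b + d⌋₊ + 1) := by
      rw [mem_range, Nat.lt_succ_iff]
      exact Nat.floor_mono (by linarith [hx.2])
    refine le_trans ?_ (single_le_sum (f := fun i => ∑ j ∈ range (⌊max a b + d⌋₊ + 1), |Φ i j|)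
      (fun _ _ => sum_nonneg fun _ _ => abs_nonneg _) h1)
    exact single_le_sum (f := fun j => |Φ ⌈x - c⌉₊ j|) (fun _ _ => abs_nonneg _) h2

lemma cell (G : ℕ → ℝ) (c : ℝ) (j : ℕ) : ∫ x in ((j : ℝ) + c)..(((j + 1 : ℕ) : ℝ) + c), G (⌈x - c⌉₊ - 1) = G j := by
  rw [intervalIntegral.integral_of_le (by push_cast; linarith)]
  have h1 : ∫ x in Set.Ioc ((j : ℝ) + c) (((j + 1 : ℕ) : ℝ) + c), G (⌈x - c⌉₊ - 1) =
      ∫ x in Set.Ioc ((j : ℝ) + c) (((j + 1 : ℕ) : ℝ) + c), G j := by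
    apply setIntegral_congr_fun measurableSet_Ioc
    intro x hx
    rw [Set.mem_Ioc] at hx
    have h2 : ⌈x - c⌉₊ = j + 1 := by
      rw [Nat.ceil_eq_iff (by omega), Nat.add_sub_cancel]
      push_cast at hx ⊢
      constructor <;> linarith [hx.1, hx.2]
    simp only [h2, Nat.add_sub_cancel]
  rw [h1, setIntegral_const]
  simp

lemma cells (G : ℕ → ℝ) (c : ℝ) (A B : ℕ) (hAB : A ≤ B) :
    ∫ x in ((A : ℝ) + c)..((B : ℝ) + c), G (⌈x - c⌉₊ - 1) = ∑ j ∈ Ico A B, G j := by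
  have h1 := intervalIntegral.sum_integral_adjacent_intervals_Ico (μ := volume)
    (f := fun x => G (⌈x - c⌉₊ - 1)) (a := fun k : ℕ => (k : ℝ) + c) hAB
    (fun k _ => intble (fun i _ => G (i - 1)) c 0 _ _)
  rw [← h1]
  exact sum_congr rfl fun j _ => (cell G c j)

/-- the integral of the step function -/
lemma step_bounds (G : ℕ → ℝ) (hG : ∀ j, 0 ≤ G j) (H X : ℝ) (hH : 2 ≤ H) (hX : 2 * H ≤ X) :
    ∑ j ∈ Ioc ⌊H / 2⌋₊ (⌊X - H / 2⌋₊ - 1), G j ≤ ∫ x in H..X, G (⌈x - H / 2⌉₊ - 1) ∧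
    ∫ x in H..X, G (⌈x - H / 2⌉₊ - 1) ≤ ∑ j ∈ Ioc (⌊H / 2⌋₊ - 1) ⌊X - H / 2⌋₊, G j := by
  obtain ⟨A, hA⟩ : ∃ A, A = ⌊H / 2⌋₊ := ⟨_, rfl⟩
  obtain ⟨N, hN⟩ : ∃ N, N = ⌊X - H / 2⌋₊ := ⟨_, rfl⟩
  have hA1 : (A : ℝ) ≤ H / 2 := by rw [hA]; exact Nat.floor_le (by linarith)
  have hA2 : H / 2 < A + 1 := by rw [hA]; exact Nat.lt_floor_add_one _
  have hN1 : (N : ℝ) ≤ X - H / 2 := by rw [hN]; exact Nat.floor_le (by linarith)
  have hN2 : X - H / 2 < N + 1 := by rw [hN]; exact Nat.lt_floor_add_one _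
  have hA0 : 1 ≤ A := by rw [hA]; exact Nat.le_floor (by push_cast; linarith)
  have hAN : A + 1 ≤ N := by
    have : (A : ℝ) < N := by linarith
    exact_mod_cast this
  rw [← hA, ← hN]
  have e1 : Ioc A (N - 1) = Ico (A + 1) N := by ext n; rw [mem_Ioc, mem_Ico]; omega
  have e2 : Ioc (A - 1) N = Ico A (N + 1) := by ext n; rw [mem_Ioc, mem_Ico]; omega
  rw [e1, e2, ← cells G (H / 2) (A + 1) N hAN, ← cells G (H / 2) A (N + 1) (by omega)]
  constructor
  · apply intervalIntegral.integral_mono_interval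
    · push_cast; linarith
    · have : ((A + 1 : ℕ) : ℝ) ≤ N := by exact_mod_cast hAN
      linarith
    · linarith
    · exact Filter.Eventually.of_forall fun x => hG _
    · exact intble (fun i _ => G (i - 1)) (H / 2) 0 _ _
  · apply intervalIntegral.integral_mono_interval
    · linarith
    · linarith
    · push_cast; linarith
    · exact Filter.Eventually.of_forall fun x => hG _
    · exact intble (fun i _ => G (i - 1)) (H / 2) 0 _ _

/-- from the step function to the mean square -/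
lemma J_step (α : ℕ → ℕ) (H X : ℝ) (hH : 2 ≤ H) (hX : 2 * H ≤ X) (t : ℝ) (ht : 0 < t) :
    |(∫ x in H..X, (psiR α x H - H) ^ 2) - ∫ x in H..X, TT α (⌈x - H / 2⌉₊ - 1) ⌊H⌋₊ ^ 2| ≤
      t * (∫ x in H..X, TT α (⌈x - H / 2⌉₊ - 1) ⌊H⌋₊ ^ 2) + (1 + 1 / t) * (1 + Real.log (2 * X)) ^ 2 * X := by
  obtain ⟨g, hg⟩ : ∃ g : ℝ → ℝ, g = fun x => (psiR α x H - H) ^ 2 := ⟨_, rfl⟩
  obtain ⟨F, hF⟩ : ∃ F : ℝ → ℝ, F = fun x => TT α (⌈x - H / 2⌉₊ - 1) ⌊H⌋₊ ^ 2 := ⟨_, rfl⟩
  have hgi : IntervalIntegrable g volume H X := by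
    rw [hg]
    exact intble (fun i j => (∑ n ∈ Icc i j, lw α n - H) ^ 2) (H / 2) (H / 2) H X
  have hFi : IntervalIntegrable F volume H X := by
    rw [hF]
    exact intble (fun i _ => TT α (i - 1) ⌊H⌋₊ ^ 2) (H / 2) 0 H X
  have hpt : ∀ x ∈ Set.Icc H X, |g x - F x| ≤ t * F x + (1 + 1 / t) * (1 + Real.log (2 * X)) ^ 2 := by
    intro x hx
    have h1 := psi_TT α x H X (by linarith) hx.1 hx.2
    obtain ⟨D, hD⟩ : ∃ D, D = TT α (⌈x - H / 2⌉₊ - 1) ⌊H⌋₊ := ⟨_, rfl⟩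
    obtain ⟨R, hR⟩ : ∃ R, R = psiR α x H - H - D := ⟨_, rfl⟩
    rw [← hD, ← hR] at h1
    rw [hg, hF]
    simp only
    rw [← hD]
    have e0 : psiR α x H - H = D + R := by rw [hR]; ring
    rw [e0]
    have h5 : |2 * (D * R)| ≤ t * D ^ 2 + 1 / t * R ^ 2 := by
      have h6 : 0 ≤ (t * D - R) ^ 2 / t := by positivity
      have h7 : 0 ≤ (t * D + R) ^ 2 / t := by positivity
      have e6 : (t * D - R) ^ 2 / t = t * D ^ 2 - 2 * (D * R) + 1 / t * R ^ 2 := by field_simp; ring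
      have e7 : (t * D + R) ^ 2 / t = t * D ^ 2 + 2 * (D * R) + 1 / t * R ^ 2 := by field_simp; ring
      rw [abs_le]
      constructor <;> linarith
    have h6 : R ^ 2 ≤ (1 + Real.log (2 * X)) ^ 2 := by
      rw [← sq_abs]
      gcongr
    have e8 : (D + R) ^ 2 - D ^ 2 = 2 * (D * R) + R ^ 2 := by ring
    rw [e8]
    calc |2 * (D * R) + R ^ 2| ≤ |2 * (D * R)| + |R ^ 2| := abs_add_le _ _
      _ = |2 * (D * R)| + R ^ 2 := by rw [abs_of_nonneg (sq_nonneg R)]
      _ ≤ t * D ^ 2 + (1 + 1 / t) * R ^ 2 := by linarith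
      _ ≤ _ := by gcongr
  have h1 : |(∫ x in H..X, g x) - ∫ x in H..X, F x| ≤ ∫ x in H..X, (t * F x + (1 + 1 / t) * (1 + Real.log (2 * X)) ^ 2) := by
    rw [← intervalIntegral.integral_sub hgi hFi]
    refine (intervalIntegral.abs_integral_le_integral_abs (by linarith)).trans ?_
    apply intervalIntegral.integral_mono_on (by linarith) (hgi.sub hFi).abs
      ((hFi.const_mul t).add intervalIntegrable_const) hpt
  have h2 : ∫ x in H..X, (t * F x + (1 + 1 / t) * (1 + Real.log (2 * X)) ^ 2) =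
      t * (∫ x in H..X, F x) + (1 + 1 / t) * (1 + Real.log (2 * X)) ^ 2 * (X - H) := by
    rw [intervalIntegral.integral_add (hFi.const_mul t) intervalIntegrable_const,
      intervalIntegral.integral_const_mul, intervalIntegral.integral_const, smul_eq_mul]
    ring
  rw [h2, hg, hF] at h1
  refine h1.trans ?_
  have h3 : 0 ≤ (1 + 1 / t) * (1 + Real.log (2 * X)) ^ 2 := by positivity
  have h4 : X - H ≤ X := by linarith
  have := mul_le_mul_of_nonneg_left h4 h3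
  linarith

end Pool.Agent.L5helper10.RM
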