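import Pool.Agent.L5helper10.RM.G10

/-! The law of the mean square for the real variables. -/

set_option autoImplicit false
set_option linter.unusedSectionVars false

namespace Pool.Agent.L5helper10.RM

open Finset Filter MeasureTheory

open scoped Topology

lemma log_sq_small (ε : ℝ) (hε : 0 < ε) (c : ℝ) (hc : 0 < c) (C : ℝ) :
    ∀ᶠ X : ℝ in atTop, C * (1 + Real.log (2 * X)) ^ 2 ≤ c * X ^ ε := by
  have h1 := (isLittleO_log_rpow_atTop (show 0 < ε / 3 by positivity)).def (show (0 : ℝ) < 1 by norm_num)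
  have h2 : Tendsto (fun X : ℝ => X ^ (ε / 3)) atTop atTop := tendsto_rpow_atTop (by positivity)
  filter_upwards [h1, h2.eventually (eventually_ge_atTop (9 * |C| / c)), h2.eventually (eventually_ge_atTop 2), eventually_ge_atTop 1] with X h3 h4 h5 hX
  have hX0 : (0 : ℝ) < X := by linarith
  have hlog : 0 ≤ Real.log X := Real.log_nonneg hX
  rw [Real.norm_eq_abs, Real.norm_eq_abs, abs_of_nonneg hlog, one_mul, abs_of_pos (by positivity)] at h3
  obtain ⟨y, hy⟩ : ∃ y, y = X ^ (ε / 3) := ⟨_, rfl⟩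
  rw [← hy] at h3 h4 h5
  have h6 : Real.log (2 * X) = Real.log 2 + Real.log X := Real.log_mul (by norm_num) hX0.ne'
  have h7 := Real.log_two_lt_d9
  have h7' := Real.log_two_gt_d9
  have h8 : 1 + Real.log (2 * X) ≤ 3 * y := by rw [h6]; linarith
  have h9 : 0 ≤ 1 + Real.log (2 * X) := by rw [h6]; linarith
  have h10 : X ^ ε = y * y ^ 2 := by
    have : X ^ ε = y ^ 3 := by
      rw [hy, ← Real.rpow_natCast, ← Real.rpow_mul hX0.le]; congr 1; push_cast; ring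
    rw [this]; ring
  rw [h10]
  rw [div_le_iff₀ hc] at h4
  calc C * (1 + Real.log (2 * X)) ^ 2 ≤ |C| * (1 + Real.log (2 * X)) ^ 2 := by
        apply mul_le_mul_of_nonneg_right (le_abs_self C) (by positivity)
    _ ≤ |C| * (3 * y) ^ 2 := by gcongr
    _ = 9 * |C| * y ^ 2 := by ring
    _ ≤ y * c * y ^ 2 := by gcongr
    _ = _ := by ring

lemma main_cmp (δ : ℝ) (hδ : 0 < δ) : ∃ C₁ : ℝ, 8 ≤ C₁ ∧ ∀ᶠ X : ℝ in atTop, ∀ H : ℝ, C₁ ≤ H → H * C₁ ≤ X → ∀ M : ℕ,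
    X - H / 2 - 2 ≤ M → (M : ℝ) ≤ X →
    |M * (⌊H⌋₊ * LL (primorial (zz M)) ⌊H⌋₊) - X * (H * LL (primorial (zR X)) ⌊H⌋₊)| ≤ δ * (X * (H * Real.log X)) := by
  refine ⟨max 8 (4 / δ), le_max_left _ _, ?_⟩
  obtain ⟨m₀, hm₀⟩ : ∃ m₀ : ℕ, ∀ M : ℕ, m₀ ≤ M → (M : ℝ) ^ (1 / 2 : ℝ) ≤ zz M :=
    (zz_lower (1 / 2) (by have := kap_gt; linarith)).exists_forall_of_atTop
  have h1 : ∀ᶠ M : ℕ in atTop, Real.log M ≤ (M : ℝ) ^ (1 / 2 : ℝ) := by
    have h2 := (isLittleO_log_rpow_atTop (show (0 : ℝ) < 1 / 2 by norm_num)).def (show (0 : ℝ) < 1 by norm_num)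
    filter_upwards [tendsto_natCast_atTop_atTop.eventually h2] with M hM
    rw [one_mul, Real.norm_eq_abs, Real.norm_eq_abs, abs_of_nonneg (by positivity : (0 : ℝ) ≤ (M : ℝ) ^ (1 / 2 : ℝ))] at hM
    exact (le_abs_self _).trans hM
  obtain ⟨m₁, hm₁⟩ := h1.exists_forall_of_atTop
  have hlog : ∀ᶠ X : ℝ in atTop, 4 / δ ≤ Real.log X := Real.tendsto_log_atTop.eventually (eventually_ge_atTop _)
  filter_upwards [hlog, eventually_ge_atTop (2 * ((m₀ : ℝ) + m₁ + 8))] with X hX1 hX2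
  intro H hH1 hH2 M hM1 hM2
  have hm₀r : (0 : ℝ) ≤ m₀ := Nat.cast_nonneg m₀
  have hm₁r : (0 : ℝ) ≤ m₁ := Nat.cast_nonneg m₁
  have hX0 : (0 : ℝ) < X := by linarith
  have hC8 : (8 : ℝ) ≤ max 8 (4 / δ) := le_max_left _ _
  have hCδ : 4 / δ ≤ max 8 (4 / δ) := le_max_right _ _
  have hH8 : 8 ≤ H := hC8.trans hH1
  have hH0 : 0 < H := by linarith
  have hHX : H * 8 ≤ X := by nlinarith
  have hM3 : X / 2 ≤ M := by linarith
  have hM3' : (8 : ℝ) ≤ M := by linarith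
  have hMn : 3 ≤ M := by
    have : (3 : ℝ) ≤ M := by linarith
    exact_mod_cast this
  have hMm₀ : m₀ ≤ M := by
    have : (m₀ : ℝ) ≤ M := by linarith
    exact_mod_cast this
  have hMm₁ : m₁ ≤ M := by
    have : (m₁ : ℝ) ≤ M := by linarith
    exact_mod_cast this
  have hz := (hm₁ M hMm₁).trans (hm₀ M hMm₀)
  have hlogM0 : 0 < Real.log M := Real.log_pos (by linarith)
  have hz0 : (0 : ℝ) < zz M := hlogM0.trans_le hz
  have hz1 : 1 ≤ zz M := by exact_mod_cast hz0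
  obtain ⟨h, hh⟩ : ∃ h, h = ⌊H⌋₊ := ⟨_, rfl⟩
  have hh1 : (h : ℝ) ≤ H := by rw [hh]; exact Nat.floor_le hH0.le
  have hh2 : H < h + 1 := by rw [hh]; exact Nat.lt_floor_add_one H
  rw [← hh]
  have hle := zz_le_zR (y := X) (by omega : 1 ≤ M) hM2
  have hd := LL_diff (squarefree_primorial (zR X)) (primorial_dvd_primorial hle) h
  rw [VP_eq, VP_eq] at hd
  have hv := VP_zR_le X (by linarith)
  have hlv := log_sub_VP M hMn hz1
  have h8 : Real.log (M : ℝ) / zz M ≤ 1 := by rw [div_le_one hz0]; exact hz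
  have h9 : Real.log X ≤ Real.log M + 1 := by
    have h10 : Real.log X ≤ Real.log (2 * M) := Real.log_le_log hX0 (by linarith)
    rw [Real.log_mul (by norm_num) (by linarith)] at h10
    have := Real.log_two_lt_d9
    linarith
  have hΛX0 : 0 ≤ LL (primorial (zR X)) h := LL_nonneg _ _
  have hΛX1 : LL (primorial (zR X)) h ≤ Real.log X := by
    refine (LL_le (squarefree_primorial _) h).trans ?_
    rw [VP_eq]; exact hv
  obtain ⟨Λ, hΛ⟩ : ∃ Λ, Λ = LL (primorial (zR X)) h := ⟨_, rfl⟩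
  obtain ⟨Λ', hΛ'⟩ : ∃ Λ', Λ' = LL (primorial (zz M)) h := ⟨_, rfl⟩
  rw [← hΛ, ← hΛ'] at hd
  rw [← hΛ] at hΛX0 hΛX1
  rw [← hΛ, ← hΛ']
  have hd1 := hd.1
  have hd2 : Λ - Λ' ≤ 2 := by linarith [hd.2]
  have hh0 : (0 : ℝ) ≤ h := Nat.cast_nonneg h
  have hM0 : (0 : ℝ) < M := by linarith
  have hlogX0 : 0 < Real.log X := lt_of_lt_of_le (by positivity) hX1
  have e1 : (M : ℝ) * (h * Λ') - X * (H * Λ) = -(M * (h * (Λ - Λ'))) - (X * H - M * h) * Λ := by ring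
  have h10 : (M : ℝ) * (h * (Λ - Λ')) ≤ X * (H * 2) := by
    apply mul_le_mul hM2 _ (mul_nonneg hh0 (by linarith)) hX0.le
    apply mul_le_mul hh1 hd2 (by linarith) hH0.le
  have h10' : 0 ≤ (M : ℝ) * (h * (Λ - Λ')) := mul_nonneg hM0.le (mul_nonneg hh0 (by linarith))
  have h11 : X * H - M * h ≤ X + H ^ 2 := by
    have h12 : (X - H / 2 - 2) * (H - 1) ≤ M * h := by
      apply mul_le_mul hM1 (by linarith) (by linarith) hM0.le
    nlinarith
  have h11' : 0 ≤ X * H - M * h := by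
    have : (M : ℝ) * h ≤ X * H := mul_le_mul hM2 hh1 hh0 hX0.le
    linarith
  have h12 : X + H ^ 2 ≤ δ / 2 * (X * H) := by
    have h13 : 4 / δ ≤ H := hCδ.trans hH1
    have h14 : H * (4 / δ) ≤ X := (mul_le_mul_of_nonneg_left hCδ hH0.le).trans hH2
    rw [div_le_iff₀ hδ] at h13
    rw [mul_div_assoc', div_le_iff₀ hδ] at h14
    have h15 : X * 4 ≤ X * (H * δ) := mul_le_mul_of_nonneg_left h13 hX0.le
    have h16 : H * (H * 4) ≤ H * (X * δ) := mul_le_mul_of_nonneg_left h14 hH0.le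
    nlinarith
  have h13 : (X * H - M * h) * Λ ≤ δ / 2 * (X * H) * Real.log X := by
    apply mul_le_mul (h11.trans h12) hΛX1 hΛX0 (by positivity)
  have h13' : 0 ≤ (X * H - M * h) * Λ := mul_nonneg h11' hΛX0
  have h14 : X * (H * 2) ≤ δ / 2 * (X * (H * Real.log X)) := by
    rw [div_le_iff₀ hδ] at hX1
    have : X * H * 4 ≤ X * H * (Real.log X * δ) := mul_le_mul_of_nonneg_left hX1 (by positivity)
    nlinarith
  rw [e1, abs_le]
  constructor
  · nlinarith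
  · have : 0 ≤ δ * (X * (H * Real.log X)) := by positivity
    linarith

theorem J_law {α : ℕ → ℕ} (hA : Law α) (ε : ℝ) (hε : 0 < ε) (hε1 : ε ≤ 1) (δ : ℝ) (hδ : 0 < δ) (hδ8 : δ ≤ 8) :
    ∀ᶠ X : ℝ in atTop, ∀ H : ℝ, X ^ ε ≤ H → H ≤ X ^ (1 - ε) →
      |JR α X H - H * LL (primorial (zR X)) ⌊H⌋₊| ≤ δ * (H * Real.log X) := by
  obtain ⟨N₀, hN₀⟩ := (sum_law hA (ε / 2) (by positivity) (by linarith) (δ / 8) (by positivity)).exists_forall_of_atTop
  obtain ⟨C₁, hC₁, hmain⟩ := main_cmp (δ / 8) (by positivity)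
  have hpow : ∀ᶠ X : ℝ in atTop, max C₁ 4 ≤ X ^ ε := (tendsto_rpow_atTop hε).eventually (eventually_ge_atTop _)
  have hpow2 : ∀ᶠ X : ℝ in atTop, 2 ≤ X ^ (ε / 2) := (tendsto_rpow_atTop (by positivity)).eventually (eventually_ge_atTop _)
  have hls := log_sq_small ε hε (δ / 8) (by positivity) (1 + 1 / (δ / 16))
  have hlog : ∀ᶠ X : ℝ in atTop, 1 ≤ Real.log X := Real.tendsto_log_atTop.eventually (eventually_ge_atTop _)
  filter_upwards [hmain, hpow, hpow2, hls, hlog, eventually_ge_atTop (2 * ((N₀ : ℝ) + 8))] with X hmainX hX1 hX2 hX3 hX4 hX5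
  intro H hH1 hH2
  have hN₀r : (0 : ℝ) ≤ N₀ := Nat.cast_nonneg N₀
  have hX0 : (0 : ℝ) < X := by linarith
  have hXε : C₁ ≤ X ^ ε := (le_max_left _ _).trans hX1
  have hHC : C₁ ≤ H := hXε.trans hH1
  have hH8 : 8 ≤ H := hC₁.trans hHC
  have hH0 : 0 < H := by linarith
  have hHX : H * X ^ ε ≤ X := by
    calc H * X ^ ε ≤ X ^ (1 - ε) * X ^ ε := by gcongr
      _ = X := by rw [← Real.rpow_add hX0]; simp
  have hHCX : H * C₁ ≤ X := (mul_le_mul_of_nonneg_left hXε hH0.le).trans hHX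
  have hHX8 : H * 8 ≤ X := (mul_le_mul_of_nonneg_left hC₁ hH0.le).trans hHCX
  obtain ⟨A, hAd⟩ : ∃ A, A = ⌊H / 2⌋₊ := ⟨_, rfl⟩
  obtain ⟨N, hNd⟩ : ∃ N, N = ⌊X - H / 2⌋₊ := ⟨_, rfl⟩
  obtain ⟨h, hh⟩ : ∃ h, h = ⌊H⌋₊ := ⟨_, rfl⟩
  have hA1 : (A : ℝ) ≤ H / 2 := by rw [hAd]; exact Nat.floor_le (by linarith)
  have hA2 : H / 2 < A + 1 := by rw [hAd]; exact Nat.lt_floor_add_one _
  have hN1 : (N : ℝ) ≤ X - H / 2 := by rw [hNd]; exact Nat.floor_le (by linarith)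
  have hN2 : X - H / 2 < N + 1 := by rw [hNd]; exact Nat.lt_floor_add_one _
  have hh1 : (h : ℝ) ≤ H := by rw [hh]; exact Nat.floor_le hH0.le
  have hh2 : H < h + 1 := by rw [hh]; exact Nat.lt_floor_add_one H
  have hN0 : 1 ≤ N := by
    have : (0 : ℝ) < N := by linarith
    exact_mod_cast this
  have hA0 : 1 ≤ A := by
    have : (0 : ℝ) < A := by linarith
    exact_mod_cast this
  have hNm1 : ((N - 1 : ℕ) : ℝ) = N - 1 := by rw [Nat.cast_sub hN0]; simp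
  have hAm1 : ((A - 1 : ℕ) : ℝ) = A - 1 := by rw [Nat.cast_sub hA0]; simp
  have hlogX0 : 0 < Real.log X := by linarith
  -- the sums
  have key : ∀ (M A' : ℕ), X - H / 2 - 2 ≤ M → (M : ℝ) ≤ X → H / 2 - 2 < A' → (A' : ℝ) ≤ H / 2 →
      |∑ m ∈ Ioc A' M, TT α m h ^ 2 - X * (H * LL (primorial (zR X)) h)| ≤ δ / 4 * (X * (H * Real.log X)) := by
    intro M A' hM1 hM2 hA'1 hA'2
    have hM3 : X / 2 ≤ M := by linarith
    have hM4 : (1 : ℝ) ≤ M := by linarith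
    have hMN₀ : N₀ ≤ M := by
      have : (N₀ : ℝ) ≤ M := by linarith
      exact_mod_cast this
    have hhalf : X ^ (1 - ε) ≤ (M : ℝ) ^ (1 - ε / 2) := by
      calc X ^ (1 - ε) ≤ X ^ (1 - ε / 2) / 2 := by
            rw [le_div_iff₀ (by norm_num)]
            calc X ^ (1 - ε) * 2 ≤ X ^ (1 - ε) * X ^ (ε / 2) := by gcongr
              _ = X ^ (1 - ε / 2) := by rw [← Real.rpow_add hX0]; congr 1; ring
        _ ≤ (X / 2) ^ (1 - ε / 2) := by
            rw [Real.div_rpow hX0.le (by norm_num)]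
            apply div_le_div_of_nonneg_left (by positivity) (by positivity)
            calc (2 : ℝ) ^ (1 - ε / 2) ≤ 2 ^ (1 : ℝ) := Real.rpow_le_rpow_of_exponent_le (by norm_num) (by linarith)
              _ = 2 := Real.rpow_one 2
        _ ≤ _ := Real.rpow_le_rpow (by positivity) hM3 (by linarith)
    have h1 := hN₀ M hMN₀ h (by
        have e1 : X ^ ε = X ^ (ε / 2) * X ^ (ε / 2) := by rw [← Real.rpow_add hX0]; congr 1; ring
        have h2 : (M : ℝ) ^ (ε / 2) ≤ X ^ (ε / 2) := Real.rpow_le_rpow (by positivity) hM2 (by linarith)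
        have h3 : X ^ (ε / 2) + 1 ≤ X ^ ε := by rw [e1]; nlinarith
        linarith)
      (hh1.trans (hH2.trans hhalf)) A' (by
        have : (h : ℝ) ≤ 4 * A' := by linarith
        exact_mod_cast this) (by
        have h2 : (M : ℝ) ^ (1 - ε / 2) ≤ (M : ℝ) ^ (1 - ε / 2 / 2) :=
          Real.rpow_le_rpow_of_exponent_le hM4 (by linarith)
        linarith [hH2.trans hhalf]) (by
        have : (A' : ℝ) ≤ M := by linarith
        exact_mod_cast this)
    have h2 := hmainX H hHC hHCX M hM1 hM2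
    rw [← hh] at h2
    have h3 : δ / 8 * (M * (h * Real.log M)) ≤ δ / 8 * (X * (H * Real.log X)) := by
      have h4 : Real.log (M : ℝ) ≤ Real.log X := Real.log_le_log (by linarith) hM2
      have h5 : 0 ≤ Real.log (M : ℝ) := Real.log_nonneg hM4
      gcongr
    have h4 := abs_sub_le (∑ m ∈ Ioc A' M, TT α m h ^ 2) (M * (h * LL (primorial (zz M)) h)) (X * (H * LL (primorial (zR X)) h))
    linarith
  have hk1 := abs_le.mp (key (N - 1) A (by rw [hNm1]; linarith) (by rw [hNm1]; linarith) (by linarith) hA1)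
  have hk2 := abs_le.mp (key N (A - 1) (by linarith) (by linarith) (by rw [hAm1]; linarith) (by rw [hAm1]; linarith))
  have hst := step_bounds (fun j => TT α j h ^ 2) (fun _ => sq_nonneg _) H X (by linarith) (by linarith)
  rw [← hAd, ← hNd] at hst
  have hJ := J_step α H X (by linarith) (by linarith) (δ / 16) (by positivity)
  rw [← hh] at hJ
  obtain ⟨IF, hIF⟩ : ∃ IF, IF = ∫ x in H..X, TT α (⌈x - H / 2⌉₊ - 1) h ^ 2 := ⟨_, rfl⟩
  obtain ⟨Ig, hIg⟩ : ∃ Ig, Ig = ∫ x in H..X, (psiR α x H - H) ^ 2 := ⟨_, rfl⟩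
  rw [← hIF, ← hIg] at hJ
  simp only [← hIF] at hst
  obtain ⟨Λ, hΛ⟩ : ∃ Λ, Λ = LL (primorial (zR X)) h := ⟨_, rfl⟩
  rw [← hΛ] at hk1 hk2
  have hΛX0 : 0 ≤ Λ := by rw [hΛ]; exact LL_nonneg _ _
  have hΛX1 : Λ ≤ Real.log X := by
    rw [hΛ]
    refine (LL_le (squarefree_primorial _) h).trans ?_
    rw [VP_eq]; exact VP_zR_le X (by linarith)
  have hXHL : 0 ≤ X * (H * Real.log X) := by positivity
  have hI1 : |IF - X * (H * Λ)| ≤ δ / 4 * (X * (H * Real.log X)) := by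
    rw [abs_le]
    constructor <;> linarith [hst.1, hst.2, hk1.1, hk1.2, hk2.1, hk2.2]
  have hIFle : δ / 16 * IF ≤ δ / 16 * (X * (H * Real.log X)) + δ / 16 * (δ / 4 * (X * (H * Real.log X))) := by
    have h1 : X * (H * Λ) ≤ X * (H * Real.log X) := by gcongr
    have h2 : IF ≤ X * (H * Real.log X) + δ / 4 * (X * (H * Real.log X)) := by linarith [(abs_le.mp hI1).2]
    have := mul_le_mul_of_nonneg_left h2 (show (0 : ℝ) ≤ δ / 16 by positivity)
    linarith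
  have hlsX : (1 + 1 / (δ / 16)) * (1 + Real.log (2 * X)) ^ 2 * X ≤ δ / 8 * (X * (H * Real.log X)) := by
    calc (1 + 1 / (δ / 16)) * (1 + Real.log (2 * X)) ^ 2 * X ≤ (δ / 8 * X ^ ε) * X := by gcongr
      _ ≤ δ / 8 * H * X := by gcongr
      _ = δ / 8 * (X * (H * 1)) := by ring
      _ ≤ _ := by gcongr
  have hfin : |Ig - X * (H * Λ)| ≤ δ * (X * (H * Real.log X)) := by
    have h1 := abs_sub_le Ig IF (X * (H * Λ))
    have h2 : δ / 16 * (δ / 4 * (X * (H * Real.log X))) ≤ δ / 8 * (X * (H * Real.log X)) := by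
      have : δ / 16 * (δ / 4) ≤ δ / 8 := by nlinarith
      calc δ / 16 * (δ / 4 * (X * (H * Real.log X))) = (δ / 16 * (δ / 4)) * (X * (H * Real.log X)) := by ring
        _ ≤ _ := by gcongr
    have h3 : 0 ≤ δ * (X * (H * Real.log X)) := by positivity
    linarith
  unfold JR
  rw [← hIg, ← hh, ← hΛ]
  have e1 : 1 / X * Ig - H * Λ = (Ig - X * (H * Λ)) / X := by field_simp
  rw [e1, abs_div, abs_of_pos hX0, div_le_iff₀ hX0]
  calc |Ig - X * (H * Λ)| ≤ δ * (X * (H * Real.log X)) := hfin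
    _ = _ := by ring

end Pool.Agent.L5helper10.RM
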