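import Pool.Agent.L5helper10.RM.G11
import Pool.Agent.H343R2.PhiSum

/-! The evaluation of the main term. -/

set_option autoImplicit false
set_option linter.unusedSectionVars false

namespace Pool.Agent.L5helper10.RM

open Finset Filter

open scoped Topology

/-- the sum of `μ²(d) / φ(d)` over `d ≤ h` -/
noncomputable def SS' (h : ℕ) : ℝ := H343.LL 0 h

lemma SS'_eq (h : ℕ) : SS' h = ∑ d ∈ (Ioc 0 h).filter Squarefree, 1 / (d.totient : ℝ) := by
  unfold SS' H343.LL H343.Mod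
  rfl

lemma LL_compl (z h : ℕ) : LL (primorial z) h = VP z - ∑ d ∈ (primorial z).divisors.filter (fun d => d ≤ h), 1 / (d.totient : ℝ) := by
  have h1 := sum_inv_tot (squarefree_primorial z)
  rw [VP_eq] at h1
  have h2 := sum_filter_add_sum_filter_not (primorial z).divisors (fun d => h < d) (fun d : ℕ => 1 / (d.totient : ℝ))
  have h3 : (primorial z).divisors.filter (fun d => ¬ h < d) = (primorial z).divisors.filter (fun d => d ≤ h) := by
    ext d; rw [mem_filter, mem_filter, not_lt]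
  rw [h3, h1] at h2
  unfold LL
  linarith

lemma dvd_primorial_of {z d : ℕ} (hd : Squarefree d) (h : ∀ p, p.Prime → p ∣ d → p ≤ z) : d ∣ primorial z := by
  rw [← Nat.prod_primeFactors_of_squarefree hd]
  apply Finset.prod_primes_dvd
  · intro p hp
    exact (Nat.prime_of_mem_primeFactors hp).prime
  · intro p hp
    have hp' := Nat.prime_of_mem_primeFactors hp
    exact hp'.dvd_primorial_iff.mpr (h p hp' (Nat.dvd_of_mem_primeFactors hp))

lemma divisors_small (z h : ℕ) (hh : h ≤ z) : (primorial z).divisors.filter (fun d => d ≤ h) = (Ioc 0 h).filter Squarefree := by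
  ext d
  rw [mem_filter, mem_filter, mem_Ioc, Nat.mem_divisors]
  constructor
  · rintro ⟨⟨h1, -⟩, h2⟩
    have h3 := (squarefree_primorial z).squarefree_of_dvd h1
    exact ⟨⟨Nat.pos_of_ne_zero h3.ne_zero, h2⟩, h3⟩
  · rintro ⟨⟨h1, h2⟩, h3⟩
    refine ⟨⟨dvd_primorial_of h3 fun p _ hpd => ?_, primorial_ne_zero z⟩, h2⟩
    exact (Nat.le_of_dvd h1 hpd).trans (h2.trans hh)

lemma divisors_sub (z h : ℕ) : (primorial z).divisors.filter (fun d => d ≤ h) ⊆ (Ioc 0 h).filter Squarefree := by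
  intro d
  rw [mem_filter, mem_filter, mem_Ioc, Nat.mem_divisors]
  rintro ⟨⟨h1, -⟩, h2⟩
  have h3 := (squarefree_primorial z).squarefree_of_dvd h1
  exact ⟨⟨Nat.pos_of_ne_zero h3.ne_zero, h2⟩, h3⟩

/-- the primes of `(z, w]` -/
def PW (z w : ℕ) : Finset ℕ := (Ioc z w).filter Nat.Prime

lemma VP_ratio (z w : ℕ) (hzw : z ≤ w) : VP w / VP z = ∏ p ∈ PW z w, (1 - (p : ℝ)⁻¹)⁻¹ := by
  have hz := one_le_VP z
  rw [div_eq_iff (by linarith)]
  unfold VP PW
  have h1 : (Icc 1 w).filter Nat.Prime = (Ioc z w).filter Nat.Prime ∪ (Icc 1 z).filter Nat.Prime := by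
    ext p
    rw [mem_union, mem_filter, mem_filter, mem_filter, mem_Icc, mem_Icc, mem_Ioc]
    constructor
    · rintro ⟨⟨a, b⟩, c⟩
      by_cases h : p ≤ z
      · exact Or.inr ⟨⟨a, h⟩, c⟩
      · exact Or.inl ⟨⟨by omega, b⟩, c⟩
    · rintro (⟨⟨a, b⟩, c⟩ | ⟨⟨a, b⟩, c⟩)
      · exact ⟨⟨by omega, b⟩, c⟩
      · exact ⟨⟨a, by omega⟩, c⟩
  rw [h1, prod_union]
  rw [disjoint_left]
  intro p h2 h3
  rw [mem_filter, mem_Ioc] at h2
  rw [mem_filter, mem_Icc] at h3
  omega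

lemma log_ratio_le (z w : ℕ) (hzw : z ≤ w) : Real.log (VP w / VP z) ≤ ∑ p ∈ PW z w, 1 / ((p : ℝ) - 1) := by
  rw [VP_ratio z w hzw]
  have hpp : ∀ p ∈ PW z w, (2 : ℝ) ≤ p := by
    intro p hp
    exact_mod_cast (mem_filter.mp hp).2.two_le
  rw [Real.log_prod]
  · refine sum_le_sum fun p hp => ?_
    have h2 := hpp p hp
    have e1 : (1 - (p : ℝ)⁻¹)⁻¹ = 1 + 1 / (p - 1) := by
      have h5 : (p : ℝ) - 1 ≠ 0 := by linarith
      have h6 : (p : ℝ) ≠ 0 := by linarith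
      have h7 : (1 - (p : ℝ)⁻¹)⁻¹ = (p : ℝ) / (p - 1) := by
        rw [inv_eq_iff_eq_inv, inv_div]
        field_simp
      rw [h7]
      field_simp
      ring
    rw [e1]
    have h3 : (0 : ℝ) < 1 / ((p : ℝ) - 1) := by
      apply div_pos one_pos; linarith
    have := Real.log_le_sub_one_of_pos (x := 1 + 1 / ((p : ℝ) - 1)) (by linarith)
    linarith
  · intro p hp
    have := fac_ge_one (mem_filter.mp hp).2
    linarith

/-- the contribution of the integers with one large prime factor -/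
lemma deficit (z w M h : ℕ) (hM : M ≤ z) (hwM : w * M ≤ h) :
    ∑ d ∈ (primorial z).divisors.filter (fun d => d ≤ h), 1 / (d.totient : ℝ) +
      (∑ p ∈ PW z w, 1 / ((p : ℝ) - 1)) * SS' M ≤ SS' h := by
  rw [SS'_eq, SS'_eq, sum_mul_sum, ← sum_product']
  have hinj : Set.InjOn (fun x : ℕ × ℕ => x.1 * x.2) (PW z w ×ˢ (Ioc 0 M).filter Squarefree : Finset (ℕ × ℕ)) := by
    rintro ⟨p, m⟩ h1 ⟨p', m'⟩ h2 h3
    rw [mem_coe, mem_product] at h1 h2
    simp only at h1 h2 h3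
    unfold PW at h1 h2
    rw [mem_filter, mem_filter, mem_Ioc, mem_Ioc] at h1 h2
    have hp : p = p' := by
      have h4 : p ∣ p' * m' := by rw [← h3]; exact dvd_mul_right _ _
      rcases (Nat.Prime.dvd_mul h1.1.2).mp h4 with h5 | h5
      · exact (Nat.prime_dvd_prime_iff_eq h1.1.2 h2.1.2).mp h5
      · have := Nat.le_of_dvd h2.2.1.1 h5
        omega
    subst hp
    have : m = m' := Nat.eq_of_mul_eq_mul_left h1.1.2.pos h3
    rw [this]
  have h1 : ∑ x ∈ PW z w ×ˢ (Ioc 0 M).filter Squarefree, 1 / ((x.1 : ℝ) - 1) * (1 / (x.2.totient : ℝ)) =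
      ∑ d ∈ (PW z w ×ˢ (Ioc 0 M).filter Squarefree).image (fun x => x.1 * x.2), 1 / (d.totient : ℝ) := by
    rw [sum_image hinj]
    refine sum_congr rfl ?_
    rintro ⟨p, m⟩ hx
    rw [mem_product] at hx
    simp only at hx ⊢
    unfold PW at hx
    rw [mem_filter, mem_filter, mem_Ioc, mem_Ioc] at hx
    have hcop : Nat.Coprime p m := by
      rw [Nat.Prime.coprime_iff_not_dvd hx.1.2]
      intro h
      have := Nat.le_of_dvd hx.2.1.1 h
      omega
    rw [Nat.totient_mul hcop, Nat.totient_prime hx.1.2, one_div_mul_one_div]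
    push_cast [Nat.cast_sub hx.1.2.one_le]
    rfl
  rw [h1, ← sum_union]
  · apply sum_le_sum_of_subset_of_nonneg
    · apply union_subset (divisors_sub z h)
      intro d hd
      rw [mem_image] at hd
      obtain ⟨⟨p, m⟩, hx, rfl⟩ := hd
      rw [mem_product] at hx
      simp only at hx ⊢
      unfold PW at hx
      rw [mem_filter, mem_filter, mem_Ioc, mem_Ioc] at hx
      have hcop : Nat.Coprime p m := by
        rw [Nat.Prime.coprime_iff_not_dvd hx.1.2]
        intro h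
        have := Nat.le_of_dvd hx.2.1.1 h
        omega
      rw [mem_filter, mem_Ioc]
      refine ⟨⟨Nat.mul_pos hx.1.2.pos hx.2.1.1, (Nat.mul_le_mul hx.1.1.2 hx.2.1.2).trans hwM⟩, ?_⟩
      rw [Nat.squarefree_mul hcop]
      exact ⟨hx.1.2.prime.squarefree, hx.2.2⟩
    · intro _ _ _; positivity
  · rw [disjoint_left]
    intro d h2 h3
    rw [mem_filter, Nat.mem_divisors] at h2
    rw [mem_image] at h3
    obtain ⟨⟨p, m⟩, hx, rfl⟩ := h3
    rw [mem_product] at hx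
    simp only at hx h2
    unfold PW at hx
    rw [mem_filter, mem_filter, mem_Ioc, mem_Ioc] at hx
    have h4 : p ∣ primorial z := (dvd_mul_right p m).trans h2.1.1
    have := hx.1.2.dvd_primorial_iff.mp h4
    omega

lemma zR_lower (c : ℝ) (hc0 : 0 < c) (hc : c < kap) : ∀ᶠ X : ℝ in atTop, X ^ c ≤ zR X := by
  obtain ⟨c', h1, h2⟩ := exists_between hc
  have h3 := (tendsto_nat_floor_atTop (α := ℝ)).eventually (zz_lower c' h2)
  have h4 : ∀ᶠ X : ℝ in atTop, (2 : ℝ) ^ c' ≤ X ^ (c' - c) := (tendsto_rpow_atTop (by linarith)).eventually (eventually_ge_atTop _)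
  filter_upwards [h3, h4, eventually_ge_atTop 2] with X h5 h6 h7
  have hX0 : (0 : ℝ) < X := by linarith
  have h8 : X / 2 ≤ ⌊X⌋₊ := by
    have := Nat.lt_floor_add_one X
    linarith
  have h9 : 1 ≤ ⌊X⌋₊ := Nat.le_floor (by push_cast; linarith)
  have h10 : (zz ⌊X⌋₊ : ℝ) ≤ zR X := by exact_mod_cast zz_le_zR h9 (Nat.floor_le hX0.le)
  refine le_trans ?_ h10
  refine le_trans ?_ h5
  calc X ^ c ≤ (X / 2) ^ c' := by
        rw [Real.div_rpow hX0.le (by norm_num), le_div_iff₀ (by positivity)]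
        calc X ^ c * 2 ^ c' ≤ X ^ c * X ^ (c' - c) := by gcongr
          _ = X ^ c' := by rw [← Real.rpow_add hX0]; congr 1; ring
    _ ≤ _ := Real.rpow_le_rpow (by positivity) h8 (by linarith)

lemma zR_tendsto : Tendsto zR atTop atTop := by
  rw [tendsto_atTop]
  intro b
  filter_upwards [Real.tendsto_log_atTop.eventually (eventually_ge_atTop (VP b)), eventually_ge_atTop 3] with X hX hX3
  exact (le_zR_iff X hX3 b).mp hX

lemma zR_upper (c : ℝ) (hc : kap < c) : ∀ᶠ X : ℝ in atTop, (zR X : ℝ) ≤ X ^ c := by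
  have hc0 : 0 < c := kap_pos.trans hc
  have hδ : 0 < kap⁻¹ - c⁻¹ := by
    have := (inv_lt_inv₀ hc0 kap_pos).mpr hc
    linarith
  filter_upwards [zR_tendsto.eventually (VP_lower (kap⁻¹ - c⁻¹) hδ), zR_tendsto.eventually (eventually_ge_atTop 1), eventually_ge_atTop 3] with X h1 h2 hX3
  have h3 := VP_zR_le X hX3
  have e : kap⁻¹ - (kap⁻¹ - c⁻¹) = c⁻¹ := by ring
  rw [e] at h1
  have hX0 : (0 : ℝ) < X := by linarith
  have hz0 : (0 : ℝ) < zR X := by exact_mod_cast h2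
  have h4 : Real.log (zR X) ≤ c * Real.log X := by
    have := mul_le_mul_of_nonneg_left (h1.trans h3) hc0.le
    rwa [← mul_assoc, mul_inv_cancel₀ hc0.ne', one_mul] at this
  rwa [← Real.log_rpow hX0, Real.log_le_log_iff hz0 (by positivity)] at h4

/-- `V(z(X)) = log X + O(1)` -/
lemma VP_zR_ge : ∀ᶠ X : ℝ in atTop, Real.log X - 1 ≤ VP (zR X) := by
  have h1 := zR_lower (1 / 2) (by norm_num) (by have := kap_gt; linarith)
  have h2 := (isLittleO_log_rpow_atTop (show (0 : ℝ) < 1 / 2 by norm_num)).def (show (0 : ℝ) < 1 by norm_num)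
  filter_upwards [h1, h2, eventually_ge_atTop 3] with X h3 h4 hX
  have hX0 : (0 : ℝ) < X := by linarith
  rw [one_mul, Real.norm_eq_abs, Real.norm_eq_abs, abs_of_nonneg (by positivity : (0 : ℝ) ≤ X ^ (1 / 2 : ℝ))] at h4
  have h5 : Real.log X ≤ zR X := ((le_abs_self _).trans h4).trans h3
  have hz0 : (0 : ℝ) < zR X := lt_of_lt_of_le (by positivity) h3
  have hz1 : 1 ≤ zR X := by exact_mod_cast hz0
  have h6 := zR_mem X
  have h7 := VP_succ_le (zR X) hz1
  have h8 := VP_zR_le X hX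
  have h9 : VP (zR X) / zR X ≤ 1 := by
    rw [div_le_one hz0]; linarith
  have e : VP (zR X) * (1 + 1 / (zR X : ℝ)) = VP (zR X) + VP (zR X) / zR X := by ring
  linarith

/-- the main term for the shorter lengths -/
theorem LL_short (ε : ℝ) (hε : 0 < ε) : ∃ C : ℝ, 0 < C ∧ ∀ᶠ X : ℝ in atTop, ∀ H : ℝ, 1 ≤ H → H ≤ X ^ (kap - ε) →
    |LL (primorial (zR X)) ⌊H⌋₊ - (Real.log X - Real.log H)| ≤ C := by
  obtain ⟨C, hC, hup⟩ := H343.PhiSum.totient_upper
  refine ⟨C + 2, by linarith, ?_⟩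
  rcases le_or_gt kap ε with hke | hke
  · -- the range is trivial
    filter_upwards [VP_zR_ge, eventually_ge_atTop 3, zR_tendsto.eventually (eventually_ge_atTop 1)] with X h1 hX hz1
    intro H hH1 hH2
    have h3 : X ^ (kap - ε) ≤ 1 := Real.rpow_le_one_of_one_le_of_nonpos (by linarith) (by linarith)
    have hH : H = 1 := le_antisymm (hH2.trans h3) hH1
    subst hH
    rw [Nat.floor_one, Real.log_one, sub_zero, LL_compl, divisors_small (zR X) 1 hz1]
    have h4 := VP_zR_le X hX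
    have h5 : ∑ d ∈ (Ioc 0 1).filter Squarefree, 1 / (d.totient : ℝ) = 1 := by
      have : (Ioc 0 1).filter Squarefree = {1} := by
        ext d
        rw [mem_filter, mem_Ioc, mem_singleton]
        constructor
        · rintro ⟨⟨a, b⟩, -⟩; omega
        · rintro rfl; exact ⟨⟨by norm_num, le_rfl⟩, squarefree_one⟩
      rw [this]; simp
    rw [h5, abs_le]
    constructor <;> linarith
  filter_upwards [zR_lower (kap - ε) (by linarith) (by linarith), VP_zR_ge, eventually_ge_atTop 3] with X h1 h2 hX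
  intro H hH1 hH2
  have hH0 : (0 : ℝ) < H := by linarith
  obtain ⟨h, hh⟩ : ∃ h, h = ⌊H⌋₊ := ⟨_, rfl⟩
  have hh1 : (h : ℝ) ≤ H := by rw [hh]; exact Nat.floor_le hH0.le
  have hh2 : H < h + 1 := by rw [hh]; exact Nat.lt_floor_add_one H
  have hh0 : 1 ≤ h := by rw [hh]; exact Nat.le_floor (by exact_mod_cast hH1)
  have hh0r : (1 : ℝ) ≤ h := by exact_mod_cast hh0
  have hhz : h ≤ zR X := by
    have : (h : ℝ) ≤ zR X := by linarith
    exact_mod_cast this
  rw [← hh, LL_compl, divisors_small (zR X) h hhz, ← SS'_eq]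
  have h3 := hup h hh0
  have h4 := H343.PhiSum.totient_lower h hh0
  have h5 : Real.log h ≤ Real.log H := Real.log_le_log (by linarith) hh1
  have h6 : Real.log H ≤ Real.log h + 1 := by
    have h7 : Real.log H ≤ Real.log (2 * h) := Real.log_le_log hH0 (by linarith)
    rw [Real.log_mul (by norm_num) (by linarith)] at h7
    have := Real.log_two_lt_d9
    linarith
  have h7 := VP_zR_le X hX
  unfold SS'
  rw [abs_le]
  constructor <;> linarith

/-- the growth of the product over the primes of `(z, z^{1+δ}]` -/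
lemma ratio_growth (δ : ℝ) (hδ : 0 < δ) (hδ1 : δ ≤ 1) : ∀ᶠ z : ℕ in atTop,
    (1 + δ / 2) * VP z ≤ VP ⌊(z : ℝ) ^ (1 + δ)⌋₊ := by
  obtain ⟨η, hη⟩ : ∃ η, η = kap⁻¹ * δ / 16 := ⟨_, rfl⟩
  have hk : 0 < kap⁻¹ := inv_pos.mpr kap_pos
  have hη0 : 0 < η := by rw [hη]; positivity
  have ht : Tendsto (fun z : ℕ => ⌊(z : ℝ) ^ (1 + δ)⌋₊) atTop atTop :=
    tendsto_nat_floor_atTop.comp ((tendsto_rpow_atTop (by linarith)).comp tendsto_natCast_atTop_atTop)
  have hlog : ∀ᶠ z : ℕ in atTop, 8 / δ ≤ Real.log z :=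
    (Real.tendsto_log_atTop.comp tendsto_natCast_atTop_atTop).eventually (eventually_ge_atTop _)
  filter_upwards [ht.eventually (VP_lower η hη0), VP_upper η hη0, hlog, eventually_ge_atTop 2] with z h1 h2 h3 h4
  have hz0 : (2 : ℝ) ≤ z := by exact_mod_cast h4
  have hw : (z : ℝ) ^ (1 + δ) / 2 ≤ ⌊(z : ℝ) ^ (1 + δ)⌋₊ := by
    have h5 : (2 : ℝ) ≤ (z : ℝ) ^ (1 + δ) := by
      calc (2 : ℝ) ≤ (z : ℝ) ^ (1 : ℝ) := by rw [Real.rpow_one]; exact hz0
        _ ≤ _ := Real.rpow_le_rpow_of_exponent_le (by linarith) (by linarith)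
    have := Nat.lt_floor_add_one ((z : ℝ) ^ (1 + δ))
    linarith
  have h5 : (1 + δ) * Real.log z - 1 ≤ Real.log ⌊(z : ℝ) ^ (1 + δ)⌋₊ := by
    have h6 := Real.log_le_log (by positivity) hw
    rw [Real.log_div (by positivity) (by norm_num), Real.log_rpow (by linarith)] at h6
    have := Real.log_two_lt_d9
    linarith
  have hkη : η ≤ kap⁻¹ / 16 := by rw [hη]; nlinarith
  have h6 : (kap⁻¹ - η) * ((1 + δ) * Real.log z - 1) ≤ VP ⌊(z : ℝ) ^ (1 + δ)⌋₊ := by
    refine le_trans ?_ h1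
    apply mul_le_mul_of_nonneg_left h5
    linarith
  refine le_trans ?_ h6
  have hlz : 0 < Real.log z := lt_of_lt_of_le (by positivity) h3
  have h7 : (1 + δ / 2) * VP z ≤ (1 + δ / 2) * ((kap⁻¹ + η) * Real.log z) := by gcongr
  refine h7.trans ?_
  rw [div_le_iff₀ hδ] at h3
  obtain ⟨K, hK⟩ : ∃ K, K = kap⁻¹ := ⟨_, rfl⟩
  obtain ⟨l, hl⟩ : ∃ l, l = Real.log (z : ℝ) := ⟨_, rfl⟩
  rw [← hK] at hη hk hkη ⊢
  rw [← hl] at h3 hlz ⊢
  have e1 : (K - η) * ((1 + δ) * l - 1) - (1 + δ / 2) * ((K + η) * l) =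
      K * (δ / 2 * l - 1) - η * ((2 + 3 * δ / 2) * l - 1) := by ring
  have h8 : η * ((2 + 3 * δ / 2) * l - 1) ≤ K * δ / 16 * (4 * l) := by
    have h9 : (2 + 3 * δ / 2) * l - 1 ≤ 4 * l := by nlinarith
    calc η * ((2 + 3 * δ / 2) * l - 1) ≤ η * (4 * l) := by gcongr
      _ = _ := by rw [hη]
  have h10 : K * δ / 16 * (4 * l) ≤ K * (δ / 2 * l - 1) := by
    have : K * δ / 16 * (4 * l) = K * (δ / 4 * l) := by ring
    rw [this]
    apply mul_le_mul_of_nonneg_left _ hk.le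
    nlinarith
  linarith

/-- the main term for the longer lengths -/
theorem LL_long (ε : ℝ) (hε : 0 < ε) : ∃ c : ℝ, 0 < c ∧ ∀ᶠ X : ℝ in atTop, ∀ H : ℝ, X ^ (kap + ε) ≤ H →
    Real.log X - Real.log H + c * Real.log X ≤ LL (primorial (zR X)) ⌊H⌋₊ := by
  obtain ⟨C, hC, hup⟩ := H343.PhiSum.totient_upper
  -- the exponents
  obtain ⟨b, hb⟩ : ∃ b, b = kap + ε / 2 := ⟨_, rfl⟩
  have hkap := kap_pos
  have hb0 : 0 < b := by rw [hb]; linarith
  obtain ⟨δ, hδ⟩ : ∃ δ, δ = min 1 (ε / (4 * b)) := ⟨_, rfl⟩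
  have hδ0 : 0 < δ := by rw [hδ]; exact lt_min one_pos (by positivity)
  have hδ1 : δ ≤ 1 := by rw [hδ]; exact min_le_left _ _
  have hδb : b * (1 + 2 * δ) ≤ kap + ε := by
    have h1 : δ ≤ ε / (4 * b) := by rw [hδ]; exact min_le_right _ _
    have h2 : b * (2 * δ) ≤ ε / 2 := by
      calc b * (2 * δ) ≤ b * (2 * (ε / (4 * b))) := by gcongr
        _ = ε / 2 := by field_simp; ring
    have : b * (1 + 2 * δ) = b + b * (2 * δ) := by ring
    rw [this, hb] at *
    linarith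
  obtain ⟨c₁, hc₁⟩ : ∃ c₁, c₁ = Real.log (1 + δ / 2) := ⟨_, rfl⟩
  have hc₁0 : 0 < c₁ := by rw [hc₁]; exact Real.log_pos (by linarith)
  obtain ⟨c₂, hc₂⟩ : ∃ c₂, c₂ = c₁ * (δ / 2) * (kap / 2) := ⟨_, rfl⟩
  have hc₂0 : 0 < c₂ := by rw [hc₂]; positivity
  refine ⟨c₂ / 2, by positivity, ?_⟩
  have hlog : ∀ᶠ X : ℝ in atTop, 2 * (C + 1) / c₂ ≤ Real.log X := Real.tendsto_log_atTop.eventually (eventually_ge_atTop _)
  have hlogz : ∀ᶠ z : ℕ in atTop, 2 / δ ≤ Real.log z :=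
    (Real.tendsto_log_atTop.comp tendsto_natCast_atTop_atTop).eventually (eventually_ge_atTop _)
  filter_upwards [zR_upper b (by rw [hb]; linarith), zR_lower (kap / 2) (by linarith) (by linarith), VP_zR_ge,
    zR_tendsto.eventually (ratio_growth δ hδ0 hδ1), zR_tendsto.eventually hlogz, zR_tendsto.eventually (eventually_ge_atTop 2),
    hlog, eventually_ge_atTop 3] with X h1 h2 h3 h4 h5 h6 h7 hX
  intro H hH
  have hX0 : (0 : ℝ) < X := by linarith
  have hX1 : (1 : ℝ) ≤ X := by linarith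
  have hH1 : 1 ≤ H := le_trans (Real.one_le_rpow hX1 (by linarith)) hH
  have hH0 : 0 < H := by linarith
  obtain ⟨z, hz⟩ : ∃ z, z = zR X := ⟨_, rfl⟩
  rw [← hz] at h1 h2 h3 h4 h5 h6 ⊢
  have hzr : (2 : ℝ) ≤ z := by exact_mod_cast h6
  obtain ⟨h, hh⟩ : ∃ h, h = ⌊H⌋₊ := ⟨_, rfl⟩
  have hh1 : (h : ℝ) ≤ H := by rw [hh]; exact Nat.floor_le hH0.le
  have hh0 : 1 ≤ h := by rw [hh]; exact Nat.le_floor (by exact_mod_cast hH1)
  have hh0r : (1 : ℝ) ≤ h := by exact_mod_cast hh0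
  obtain ⟨w, hw⟩ : ∃ w, w = ⌊(z : ℝ) ^ (1 + δ)⌋₊ := ⟨_, rfl⟩
  obtain ⟨M, hM⟩ : ∃ M, M = ⌊(z : ℝ) ^ δ⌋₊ := ⟨_, rfl⟩
  have hzδ1 : (1 : ℝ) ≤ (z : ℝ) ^ δ := Real.one_le_rpow (by linarith) hδ0.le
  have hw1 : (w : ℝ) ≤ (z : ℝ) ^ (1 + δ) := by rw [hw]; exact Nat.floor_le (by positivity)
  have hM1 : (M : ℝ) ≤ (z : ℝ) ^ δ := by rw [hM]; exact Nat.floor_le (by positivity)
  have hM0 : 1 ≤ M := by rw [hM]; exact Nat.le_floor (by exact_mod_cast hzδ1)
  have hMz : M ≤ z := by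
    have : (M : ℝ) ≤ z := by
      refine hM1.trans ?_
      calc (z : ℝ) ^ δ ≤ (z : ℝ) ^ (1 : ℝ) := Real.rpow_le_rpow_of_exponent_le (by linarith) hδ1
        _ = z := Real.rpow_one _
    exact_mod_cast this
  have hzw : z ≤ w := by
    rw [hw]
    apply Nat.le_floor
    calc (z : ℝ) = (z : ℝ) ^ (1 : ℝ) := (Real.rpow_one _).symm
      _ ≤ _ := Real.rpow_le_rpow_of_exponent_le (by linarith) (by linarith)
  have hwM : w * M ≤ h := by
    rw [hh]
    apply Nat.le_floor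
    push_cast
    calc (w : ℝ) * M ≤ (z : ℝ) ^ (1 + δ) * (z : ℝ) ^ δ := by gcongr
      _ = (z : ℝ) ^ (1 + 2 * δ) := by rw [← Real.rpow_add (by linarith)]; congr 1; ring
      _ ≤ (X ^ b) ^ (1 + 2 * δ) := Real.rpow_le_rpow (by positivity) h1 (by linarith)
      _ = X ^ (b * (1 + 2 * δ)) := by rw [← Real.rpow_mul hX0.le]
      _ ≤ X ^ (kap + ε) := Real.rpow_le_rpow_of_exponent_le hX1 hδb
      _ ≤ H := hH
  have hdef := deficit z w M h hMz hwM
  have hratio : c₁ ≤ Real.log (VP w / VP z) := by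
    have hVz := one_le_VP z
    rw [hc₁, hw]
    apply Real.log_le_log (by linarith)
    rw [le_div_iff₀ (by linarith)]
    exact h4
  have hsum := hratio.trans (log_ratio_le z w hzw)
  have hlogM : δ * Real.log z - 1 ≤ SS' M := by
    have h8 := H343.PhiSum.totient_lower M hM0
    have h9 : (z : ℝ) ^ δ / 2 ≤ M := by
      have := Nat.lt_floor_add_one ((z : ℝ) ^ δ)
      rw [← hM] at this
      have : (1 : ℝ) ≤ M := by exact_mod_cast hM0
      linarith
    have h10 := Real.log_le_log (by positivity) h9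
    rw [Real.log_div (by positivity) (by norm_num), Real.log_rpow (by linarith)] at h10
    have := Real.log_two_lt_d9
    unfold SS'
    linarith
  have hlogM2 : δ / 2 * Real.log z ≤ SS' M := by
    rw [div_le_iff₀ hδ0] at h5
    linarith
  have hlogzX : kap / 2 * Real.log X ≤ Real.log z := by
    rw [← Real.log_rpow hX0]
    exact Real.log_le_log (by positivity) h2
  have hlogX0 : 0 ≤ Real.log X := Real.log_nonneg hX1
  have hprod : c₂ * Real.log X ≤ (∑ p ∈ PW z w, 1 / ((p : ℝ) - 1)) * SS' M := by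
    calc c₂ * Real.log X = c₁ * (δ / 2 * (kap / 2 * Real.log X)) := by rw [hc₂]; ring
      _ ≤ c₁ * (δ / 2 * Real.log z) := by gcongr
      _ ≤ c₁ * SS' M := by gcongr
      _ ≤ _ := by
          apply mul_le_mul_of_nonneg_right hsum
          refine le_trans ?_ hlogM2
          have : 0 ≤ Real.log (z : ℝ) := Real.log_nonneg (by linarith)
          positivity
  rw [← hh, LL_compl]
  have h8 := hup h hh0
  have h9 : SS' h ≤ Real.log h + C := h8
  have h10 : Real.log h ≤ Real.log H := Real.log_le_log (by linarith) hh1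
  rw [div_le_iff₀ hc₂0] at h7
  linarith

end Pool.Agent.L5helper10.RM
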