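import Pool.Agent.L5helper10.RM.G12

/-! The consequences of the law. -/

set_option autoImplicit false
set_option linter.unusedSectionVars false

namespace Pool.Agent.L5helper10.RM

open Finset Filter MeasureTheory

open scoped Topology

lemma J_law' {α : ℕ → ℕ} (hA : Law α) (ε : ℝ) (hε : 0 < ε) (δ : ℝ) (hδ : 0 < δ) :
    ∀ᶠ X : ℝ in atTop, ∀ H : ℝ, X ^ ε ≤ H → H ≤ X ^ (1 - ε) →
      |JR α X H - H * LL (primorial (zR X)) ⌊H⌋₊| ≤ δ * (H * Real.log X) := by
  have h1 := J_law hA (min ε 1) (lt_min hε one_pos) (min_le_right _ _) (min δ 8) (lt_min hδ (by norm_num)) (min_le_right _ _)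
  filter_upwards [h1, eventually_ge_atTop 1] with X h2 hX
  intro H hH1 hH2
  have h3 := h2 H ((Real.rpow_le_rpow_of_exponent_le hX (min_le_left _ _)).trans hH1)
    (hH2.trans (Real.rpow_le_rpow_of_exponent_le hX (by linarith [min_le_left ε 1])))
  refine h3.trans ?_
  have hH0 : 0 ≤ H := le_trans (by positivity) hH1
  have := Real.log_nonneg hX
  gcongr
  exact min_le_left _ _

lemma consts : 0 < Real.eulerMascheroniConstant + Real.log (2 * Real.pi) := by
  have h1 := Real.one_half_lt_eulerMascheroniConstant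
  have h2 : 0 ≤ Real.log (2 * Real.pi) := Real.log_nonneg (by linarith [Real.pi_gt_three])
  linarith

theorem J_short {α : ℕ → ℕ} (hA : Law α) (ε : ℝ) (hε : 0 < ε) :
    ∀ᶠ X : ℝ in atTop, ∀ H : ℝ, X ^ ε ≤ H → H ≤ X ^ (kap - ε) →
      |JR α X H - H * (Real.log X - Real.log H - (Real.eulerMascheroniConstant + Real.log (2 * Real.pi)))| ≤
        ε * (H * (Real.log X - Real.log H - (Real.eulerMascheroniConstant + Real.log (2 * Real.pi)))) := by
  obtain ⟨C, hC, hs⟩ := LL_short ε hε
  obtain ⟨c₀, hc₀⟩ : ∃ c₀, c₀ = Real.eulerMascheroniConstant + Real.log (2 * Real.pi) := ⟨_, rfl⟩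
  have hc₀0 : 0 < c₀ := by rw [hc₀]; exact consts
  have hkap := kap_lt
  obtain ⟨b, hb⟩ : ∃ b, b = 1 - kap := ⟨_, rfl⟩
  have hb0 : 0 < b := by rw [hb]; linarith
  obtain ⟨ε', hε'⟩ : ∃ ε', ε' = min ε (1 - kap) := ⟨_, rfl⟩
  have hε'0 : 0 < ε' := by rw [hε']; exact lt_min hε (by linarith)
  have hJ := J_law' hA ε' hε'0 (ε * b / 4) (by positivity)
  have hlog : ∀ᶠ X : ℝ in atTop, (4 * (C + c₀ + ε * c₀)) / (ε * b) ≤ Real.log X :=
    Real.tendsto_log_atTop.eventually (eventually_ge_atTop _)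
  filter_upwards [hJ, hs, hlog, eventually_ge_atTop 2] with X h1 h2 h3 hX
  intro H hH1 hH2
  have hX0 : (0 : ℝ) < X := by linarith
  have hX1 : (1 : ℝ) ≤ X := by linarith
  have hlogX : 0 < Real.log X := Real.log_pos (by linarith)
  have hHone : 1 ≤ H := le_trans (Real.one_le_rpow hX1 hε.le) hH1
  have hH0 : 0 < H := by linarith
  have h4 := h1 H ((Real.rpow_le_rpow_of_exponent_le hX1 (by rw [hε']; exact min_le_left _ _)).trans hH1)
    (hH2.trans (Real.rpow_le_rpow_of_exponent_le hX1 (by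
      have : ε' ≤ 1 - kap := by rw [hε']; exact min_le_right _ _
      linarith)))
  have h5 := h2 H hHone hH2
  rw [← hc₀]
  have h6 : Real.log H ≤ (kap - ε) * Real.log X := by
    have := Real.log_le_log hH0 hH2
    rwa [Real.log_rpow hX0] at this
  have h7 : b * Real.log X ≤ Real.log X - Real.log H := by
    rw [hb]; nlinarith
  obtain ⟨Λ, hΛ⟩ : ∃ Λ, Λ = LL (primorial (zR X)) ⌊H⌋₊ := ⟨_, rfl⟩
  rw [← hΛ] at h4 h5
  have h8 : |JR α X H - H * (Real.log X - Real.log H - c₀)| ≤ H * (ε * b / 4 * Real.log X + C + c₀) := by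
    have e1 : JR α X H - H * (Real.log X - Real.log H - c₀) = (JR α X H - H * Λ) +
        H * (Λ - (Real.log X - Real.log H)) + H * c₀ := by ring
    rw [e1]
    refine (abs_add_three _ _ _).trans ?_
    rw [abs_mul, abs_mul, abs_of_pos hH0, abs_of_pos hc₀0]
    have : H * |Λ - (Real.log X - Real.log H)| ≤ H * C := by gcongr
    calc _ ≤ ε * b / 4 * (H * Real.log X) + H * C + H * c₀ := by linarith
      _ = _ := by ring
  refine h8.trans ?_
  rw [div_le_iff₀ (by positivity)] at h3
  have h9 : ε * b / 4 * Real.log X + C + c₀ ≤ ε * (Real.log X - Real.log H - c₀) := by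
    have : ε * (b * Real.log X) ≤ ε * (Real.log X - Real.log H) := by gcongr
    nlinarith
  calc H * (ε * b / 4 * Real.log X + C + c₀) ≤ H * (ε * (Real.log X - Real.log H - c₀)) := by gcongr
    _ = _ := by ring

theorem J_long {α : ℕ → ℕ} (hA : Law α) (ε : ℝ) (hε : 0 < ε) :
    ∃ c : ℝ, 0 < c ∧ ∀ᶠ X : ℝ in atTop, ∀ H : ℝ, X ^ (kap + ε) ≤ H → H ≤ X ^ (1 - ε) →
      (1 + c) * (H * (Real.log X - Real.log H - (Real.eulerMascheroniConstant + Real.log (2 * Real.pi)))) ≤ JR α X H := by
  obtain ⟨c, hc, hl⟩ := LL_long ε hε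
  have hkap := kap_pos
  refine ⟨c / 2, by positivity, ?_⟩
  have hJ := J_law' hA (min ε (kap + ε)) (lt_min hε (by linarith)) (c / 2) (by positivity)
  filter_upwards [hJ, hl, eventually_ge_atTop 2] with X h1 h2 hX
  intro H hH1 hH2
  have hX0 : (0 : ℝ) < X := by linarith
  have hX1 : (1 : ℝ) ≤ X := by linarith
  have hlogX : 0 < Real.log X := Real.log_pos (by linarith)
  have hHone : 1 ≤ H := le_trans (Real.one_le_rpow hX1 (by linarith)) hH1
  have hH0 : 0 < H := by linarith
  have h4 := h1 H ((Real.rpow_le_rpow_of_exponent_le hX1 (min_le_right _ _)).trans hH1)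
    (hH2.trans (Real.rpow_le_rpow_of_exponent_le hX1 (by linarith [min_le_left ε (kap + ε)])))
  have h5 := h2 H hH1
  have h6 := (abs_le.mp h4).1
  have hlogH : 0 ≤ Real.log H := Real.log_nonneg hHone
  have hc₀ := consts
  have h7 : H * (Real.log X - Real.log H + c * Real.log X) ≤ H * LL (primorial (zR X)) ⌊H⌋₊ := by gcongr
  have h8 : (1 + c / 2) * (H * (Real.log X - Real.log H - (Real.eulerMascheroniConstant + Real.log (2 * Real.pi)))) ≤
      H * (Real.log X - Real.log H + c * Real.log X) - c / 2 * (H * Real.log X) := by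
    have e1 : H * (Real.log X - Real.log H + c * Real.log X) - c / 2 * (H * Real.log X) =
        H * (Real.log X - Real.log H + c / 2 * Real.log X) := by ring
    have e2 : (1 + c / 2) * (H * (Real.log X - Real.log H - (Real.eulerMascheroniConstant + Real.log (2 * Real.pi)))) =
        H * ((1 + c / 2) * (Real.log X - Real.log H - (Real.eulerMascheroniConstant + Real.log (2 * Real.pi)))) := by ring
    rw [e1, e2]
    apply mul_le_mul_of_nonneg_left _ hH0.le
    have h9 : (1 + c / 2) * (Real.log X - Real.log H - (Real.eulerMascheroniConstant + Real.log (2 * Real.pi))) ≤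
        (1 + c / 2) * (Real.log X - Real.log H) := by
      apply mul_le_mul_of_nonneg_left _ (by positivity)
      linarith
    have h10 : 0 ≤ c / 2 * Real.log H := by positivity
    nlinarith
  linarith

end Pool.Agent.L5helper10.RM
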