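import Pool.Agent.L5helper10.RM.G13
import Pool.Agent.Helper923.HMertens

/-! The main term in closed form, part 1: `LL (primorial z) h` for `h < (z+1)^2`. -/

set_option autoImplicit false
set_option linter.unusedSectionVars false

namespace Pool.Agent.L5helper10.RM

open Finset Filter MeasureTheory

open scoped Topology

/-- `∫_l^a log (v/l) dv` for `l ≤ a`, zero otherwise -/
noncomputable def Gp (a l : ℝ) : ℝ := if a ≤ l then 0 else a * Real.log (a / l) - a + l

/-- every squarefree `d ≤ h` has at most one prime factor `> z` -/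
lemma split_large (z h : ℕ) (hh : h < (z + 1) ^ 2) :
    ∑ d ∈ (primorial z).divisors.filter (fun d => d ≤ h), 1 / (d.totient : ℝ) +
      ∑ p ∈ PW z h, 1 / ((p : ℝ) - 1) * SS' (h / p) = SS' h := by
  classical
  rw [SS'_eq h, ← sum_sdiff (divisors_sub z h), add_comm]
  congr 1
  have e1 : ∀ p ∈ PW z h, 1 / ((p : ℝ) - 1) * SS' (h / p) =
      ∑ m ∈ (Ioc 0 (h / p)).filter Squarefree, 1 / ((p : ℝ) - 1) * (1 / (m.totient : ℝ)) := by
    intro p _
    rw [SS'_eq, mul_sum]
  rw [sum_congr rfl e1, sum_sigma']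
  have hm : ∀ p m : ℕ, z < p → m ≤ h / p → m ≤ z := by
    intro p m hp hm
    have h1 : h / p ≤ h / (z + 1) := Nat.div_le_div_left (by omega) (by omega)
    have h2 : h / (z + 1) < z + 1 := by
      rw [Nat.div_lt_iff_lt_mul (by omega)]
      nlinarith
    omega
  apply sum_bij (fun x _ => x.1 * x.2)
  · rintro ⟨p, m⟩ h1
    rw [mem_sigma] at h1
    simp only at h1 ⊢
    unfold PW at h1
    rw [mem_filter, mem_filter, mem_Ioc, mem_Ioc] at h1
    obtain ⟨⟨⟨hp1, hp2⟩, hp3⟩, ⟨hm1, hm2⟩, hm3⟩ := h1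
    have hmz := hm p m hp1 hm2
    have hcop : Nat.Coprime p m := by
      rw [hp3.coprime_iff_not_dvd]
      intro h4
      have := Nat.le_of_dvd hm1 h4
      omega
    rw [Finset.mem_sdiff, mem_filter, mem_filter, mem_Ioc, Nat.mem_divisors]
    refine ⟨⟨⟨Nat.mul_pos hp3.pos hm1, ?_⟩, ?_⟩, ?_⟩
    · calc p * m ≤ p * (h / p) := Nat.mul_le_mul_left _ hm2
        _ ≤ h := Nat.mul_div_le _ _
    · exact (Nat.squarefree_mul hcop).mpr ⟨hp3.squarefree, hm3⟩
    · rintro ⟨⟨h4, -⟩, -⟩
      have h5 := hp3.dvd_primorial_iff.mp ((dvd_mul_right p m).trans h4)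
      omega
  · rintro ⟨p, m⟩ h1 ⟨p', m'⟩ h2 h3
    rw [mem_sigma] at h1 h2
    simp only at h1 h2 h3
    unfold PW at h1 h2
    rw [mem_filter, mem_filter, mem_Ioc, mem_Ioc] at h1 h2
    have hp : p = p' := by
      have h4 : p ∣ p' * m' := by rw [← h3]; exact dvd_mul_right _ _
      rcases (Nat.Prime.dvd_mul h1.1.2).mp h4 with h5 | h5
      · exact (Nat.prime_dvd_prime_iff_eq h1.1.2 h2.1.2).mp h5
      · have h6 := Nat.le_of_dvd h2.2.1.1 h5
        have h7 := hm p' m' h2.1.1.1 h2.2.1.2
        omega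
    subst hp
    have h4 := Nat.eq_of_mul_eq_mul_left h1.1.2.pos h3
    subst h4
    rfl
  · intro d hd
    rw [Finset.mem_sdiff, mem_filter, mem_filter, mem_Ioc, Nat.mem_divisors] at hd
    obtain ⟨⟨⟨hd1, hd2⟩, hd3⟩, hd4⟩ := hd
    have h5 : ∃ p : ℕ, p.Prime ∧ p ∣ d ∧ z < p := by
      by_contra hcon
      push Not at hcon
      exact hd4 ⟨⟨dvd_primorial_of hd3 hcon, primorial_ne_zero z⟩, hd2⟩
    obtain ⟨p, hp, ⟨m, hm'⟩, hpz⟩ := h5
    subst hm'
    have hm0 : 0 < m := Nat.pos_of_mul_pos_left hd1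
    refine ⟨⟨p, m⟩, ?_, rfl⟩
    rw [mem_sigma]
    simp only
    unfold PW
    rw [mem_filter, mem_filter, mem_Ioc, mem_Ioc]
    refine ⟨⟨⟨hpz, ?_⟩, hp⟩, ⟨hm0, ?_⟩, ?_⟩
    · exact (Nat.le_mul_of_pos_right p hm0).trans hd2
    · rw [Nat.le_div_iff_mul_le hp.pos, mul_comm]; exact hd2
    · exact hd3.squarefree_of_dvd (dvd_mul_left m p)
  · rintro ⟨p, m⟩ h1
    rw [mem_sigma] at h1
    simp only at h1 ⊢
    unfold PW at h1
    rw [mem_filter, mem_filter, mem_Ioc, mem_Ioc] at h1
    obtain ⟨⟨⟨hp1, hp2⟩, hp3⟩, ⟨hm1, hm2⟩, hm3⟩ := h1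
    have hmz := hm p m hp1 hm2
    have hcop : Nat.Coprime p m := by
      rw [hp3.coprime_iff_not_dvd]
      intro h4
      have := Nat.le_of_dvd hm1 h4
      omega
    rw [Nat.totient_mul hcop, Nat.totient_prime hp3]
    have : ((p - 1 : ℕ) : ℝ) = (p : ℝ) - 1 := by
      rw [Nat.cast_sub hp3.one_le, Nat.cast_one]
    push_cast
    rw [this]
    field_simp

/-- partial summation -/
lemma abel_PW (z h : ℕ) (hzh : z ≤ h) :
    ∑ p ∈ PW z h, 1 / (p : ℝ) * (Real.log h - Real.log p) =
      ∑ n ∈ Ico z h, (∑ p ∈ PW z n, 1 / (p : ℝ)) * (Real.log (n + 1 : ℕ) - Real.log n) := by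
  induction h, hzh using Nat.le_induction with
  | base => simp [PW]
  | succ h hzh ih =>
    rw [Finset.sum_Ico_succ_top (by omega), ← ih]
    have e1 : ∑ p ∈ PW z (h + 1), 1 / (p : ℝ) * (Real.log (h + 1 : ℕ) - Real.log p) =
        ∑ p ∈ PW z h, 1 / (p : ℝ) * (Real.log (h + 1 : ℕ) - Real.log p) := by
      symm
      apply sum_subset
      · unfold PW
        exact filter_subset_filter _ (Ioc_subset_Ioc_right (by omega))
      · intro p hp hp'
        unfold PW at hp hp'
        rw [mem_filter, mem_Ioc] at hp hp'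
        have : p = h + 1 := by
          by_contra hne
          exact hp' ⟨⟨hp.1.1, by omega⟩, hp.2⟩
        rw [this, sub_self, mul_zero]
    rw [e1, sum_mul, ← sum_add_distrib]
    refine sum_congr rfl fun p _ => ?_
    ring

lemma phi_step {l a b : ℝ} (hl : 0 < l) (hla : l ≤ a) (hab : a ≤ b) :
    Real.log (a / l) * (b - a) ≤ (b * Real.log (b / l) - b) - (a * Real.log (a / l) - a) ∧
    (b * Real.log (b / l) - b) - (a * Real.log (a / l) - a) ≤ Real.log (b / l) * (b - a) := by
  have ha : 0 < a := by linarith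
  have hb : 0 < b := by linarith
  have e1 : Real.log (b / l) = Real.log (a / l) + Real.log (b / a) := by
    rw [← Real.log_mul (by positivity) (by positivity)]
    congr 1
    field_simp
  have h1 : a * Real.log (b / a) ≤ b - a := by
    have := Real.log_le_sub_one_of_pos (show 0 < b / a by positivity)
    calc a * Real.log (b / a) ≤ a * (b / a - 1) := by gcongr
      _ = b - a := by field_simp
  have h2 : b - a ≤ b * Real.log (b / a) := by
    have h3 := Real.log_le_sub_one_of_pos (show 0 < a / b by positivity)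
    have h4 : Real.log (a / b) = - Real.log (b / a) := by
      rw [← Real.log_inv, inv_div]
    rw [h4] at h3
    have h5 : b * (- Real.log (b / a)) ≤ b * (a / b - 1) := by gcongr
    have h6 : b * (a / b - 1) = a - b := by field_simp
    linarith
  rw [e1]
  constructor
  · nlinarith
  · nlinarith

lemma phi_sum (z h : ℕ) (hz : 2 ≤ z) (hzh : z ≤ h) :
    ∑ n ∈ Ico z h, Real.log (Real.log n / Real.log z) * (Real.log (n + 1 : ℕ) - Real.log n) ≤
      Real.log h * Real.log (Real.log h / Real.log z) - Real.log h + Real.log z ∧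
    Real.log h * Real.log (Real.log h / Real.log z) - Real.log h + Real.log z ≤
      ∑ n ∈ Ico z h, Real.log (Real.log n / Real.log z) * (Real.log (n + 1 : ℕ) - Real.log n) +
        Real.log (Real.log h / Real.log z) := by
  have hlz : 0 < Real.log z := Real.log_pos (by exact_mod_cast (by omega : 1 < z))
  induction h, hzh using Nat.le_induction with
  | base =>
    rw [div_self hlz.ne', Real.log_one]
    simp
  | succ h hzh ih =>
    rw [Finset.sum_Ico_succ_top (by omega)]
    have hh : (2 : ℝ) ≤ h := by exact_mod_cast hz.trans hzh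
    have h1 : Real.log z ≤ Real.log h := Real.log_le_log (by positivity) (by exact_mod_cast hzh)
    have h2 : Real.log h ≤ Real.log (h + 1 : ℕ) := Real.log_le_log (by positivity) (by push_cast; linarith)
    have h3 : Real.log (h + 1 : ℕ) ≤ Real.log h + 1 := by
      have h4 : Real.log (h + 1 : ℕ) ≤ Real.log (2 * h) := Real.log_le_log (by positivity) (by push_cast; linarith)
      rw [Real.log_mul (by norm_num) (by linarith)] at h4
      have := Real.log_two_lt_d9
      linarith
    obtain ⟨h5, h6⟩ := phi_step hlz h1 h2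
    obtain ⟨i1, i2⟩ := ih
    constructor
    · linarith
    · have h7 : Real.log (Real.log h / Real.log z) ≤ Real.log (Real.log (h + 1 : ℕ) / Real.log z) := by
        apply Real.log_le_log
        · exact div_pos (by linarith) hlz
        · gcongr
      nlinarith

end Pool.Agent.L5helper10.RM
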