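import Pool.Agent.L5helper10.RM.G14

/-! The main term in closed form, part 2: estimates. -/

set_option autoImplicit false
set_option linter.unusedSectionVars false

namespace Pool.Agent.L5helper10.RM

open Finset Filter MeasureTheory

open scoped Topology

open Pool.Agent.Helper923.HMertens (mertens_ratio)

/-- the double sum in closed form -/
theorem T_asymp : ∃ C : ℝ, 0 < C ∧ ∀ z h : ℕ, 2 ≤ z → z ≤ h → h < (z + 1) ^ 2 →
    |∑ p ∈ PW z h, 1 / ((p : ℝ) - 1) * SS' (h / p) -
      (Real.log h * Real.log (Real.log h / Real.log z) - Real.log h + Real.log z)| ≤ C := by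
  obtain ⟨C₁, hC₁, hup⟩ := H343.PhiSum.totient_upper
  obtain ⟨C₂, hC₂, hM⟩ := mertens_ratio
  obtain ⟨B, hB⟩ : ∃ B, B = 2 * (2 + 2 * C₂) := ⟨_, rfl⟩
  have hB0 : 0 < B := by rw [hB]; positivity
  refine ⟨(C₁ + 3) * B + 4 * C₂ + 2, by positivity, ?_⟩
  intro z h hz hzh hh
  have hzr : (2 : ℝ) ≤ z := by exact_mod_cast hz
  have hhr : (z : ℝ) ≤ h := by exact_mod_cast hzh
  have hlz : 0 < Real.log z := Real.log_pos (by linarith)
  have hlz2 : 1 / 2 ≤ Real.log z := by
    have h1 : Real.log 2 ≤ Real.log z := Real.log_le_log (by norm_num) hzr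
    have := Real.log_two_gt_d9
    linarith
  have hlzh : Real.log z ≤ Real.log h := Real.log_le_log (by linarith) hhr
  have hlh4 : Real.log h ≤ 4 * Real.log z := by
    have h1 : (h : ℝ) ≤ (z : ℝ) ^ 4 := by
      have h2 : (h : ℝ) ≤ ((z : ℝ) + 1) ^ 2 := by exact_mod_cast hh.le
      have h3 : ((z : ℝ) + 1) ^ 2 ≤ ((z : ℝ) ^ 2) ^ 2 := by
        apply pow_le_pow_left₀ (by linarith)
        nlinarith
      calc (h : ℝ) ≤ ((z : ℝ) ^ 2) ^ 2 := h2.trans h3
        _ = _ := by ring
    have h4 := Real.log_le_log (by linarith) h1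
    rw [Real.log_pow] at h4
    exact_mod_cast h4
  have hφh : Real.log (Real.log h / Real.log z) ≤ 2 := by
    have h1 : Real.log h / Real.log z ≤ 4 := by
      rw [div_le_iff₀ hlz]; exact hlh4
    have h2 := Real.log_le_log (by apply div_pos _ hlz; linarith) h1
    have h3 : Real.log 4 = 2 * Real.log 2 := by
      rw [show (4 : ℝ) = 2 ^ 2 by norm_num, Real.log_pow]; norm_num
    have := Real.log_two_lt_d9
    linarith
  have hpp : ∀ p ∈ PW z h, z < p ∧ p ≤ h ∧ p.Prime := by
    intro p hp
    unfold PW at hp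
    rw [mem_filter, mem_Ioc] at hp
    exact ⟨hp.1.1, hp.1.2, hp.2⟩
  -- the sum of `1/(p-1)`
  have hC2z : C₂ / Real.log z ≤ 2 * C₂ := by
    rw [div_le_iff₀ hlz]
    nlinarith
  have hS1 : ∑ p ∈ PW z h, 1 / (p : ℝ) ≤ 2 + 2 * C₂ := by
    have h1 := (abs_le.mp (hM z h hz hzh)).2
    unfold PW
    linarith
  have hS2 : ∑ p ∈ PW z h, 1 / ((p : ℝ) - 1) ≤ B := by
    have h1 : ∑ p ∈ PW z h, 1 / ((p : ℝ) - 1) ≤ ∑ p ∈ PW z h, 2 * (1 / (p : ℝ)) := by
      refine sum_le_sum fun p hp => ?_
      have h2 : (2 : ℝ) ≤ p := by exact_mod_cast (hpp p hp).2.2.two_le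
      rw [mul_one_div, div_le_div_iff₀ (by linarith) (by linarith)]
      linarith
    rw [← mul_sum] at h1
    rw [hB]
    linarith
  have hterm : ∀ p ∈ PW z h, |1 / ((p : ℝ) - 1) * SS' (h / p) - 1 / (p : ℝ) * (Real.log h - Real.log p)| ≤
      (C₁ + 3) * (1 / ((p : ℝ) - 1)) := by
    intro p hp
    obtain ⟨h1, h2, h3⟩ := hpp p hp
    have hp2 : (2 : ℝ) ≤ p := by exact_mod_cast h3.two_le
    have hpr : (z : ℝ) + 1 ≤ p := by exact_mod_cast h1
    have hphr : (p : ℝ) ≤ h := by exact_mod_cast h2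
    have hm1 : 1 ≤ h / p := by
      rw [Nat.one_le_div_iff h3.pos]; exact h2
    have hm1r : (1 : ℝ) ≤ ((h / p : ℕ) : ℝ) := by exact_mod_cast hm1
    have hup' := hup (h / p) hm1
    have hlow' := H343.PhiSum.totient_lower (h / p) hm1
    have hle : ((h / p : ℕ) : ℝ) ≤ (h : ℝ) / p := Nat.cast_div_le
    have hge : (h : ℝ) / p ≤ 2 * ((h / p : ℕ) : ℝ) := by
      have h4 : h < p * (h / p + 1) := Nat.lt_mul_div_succ h h3.pos
      have h5 : (h : ℝ) < p * (((h / p : ℕ) : ℝ) + 1) := by exact_mod_cast h4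
      rw [div_le_iff₀ (by linarith)]
      nlinarith
    have hlog1 : Real.log ((h / p : ℕ) : ℝ) ≤ Real.log h - Real.log p := by
      rw [← Real.log_div (by linarith) (by linarith)]
      exact Real.log_le_log (by linarith) hle
    have hlog2 : Real.log h - Real.log p ≤ Real.log ((h / p : ℕ) : ℝ) + 1 := by
      rw [← Real.log_div (by linarith) (by linarith)]
      have h6 := Real.log_le_log (div_pos (by linarith) (by linarith)) hge
      rw [Real.log_mul (by norm_num) (by linarith)] at h6
      have := Real.log_two_lt_d9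
      linarith
    have hSS : |SS' (h / p) - (Real.log h - Real.log p)| ≤ C₁ + 1 := by
      unfold SS'
      rw [abs_le]
      constructor <;> linarith
    have hd : 1 / ((p : ℝ) - 1) - 1 / (p : ℝ) = (1 / ((p : ℝ) - 1)) * (1 / p) := by
      have : (p : ℝ) - 1 ≠ 0 := by linarith
      have : (p : ℝ) ≠ 0 := by linarith
      field_simp
      ring
    have hlogp : 0 ≤ Real.log h - Real.log p := by
      have := Real.log_le_log (by linarith) hphr
      linarith
    have hlogh : 1 / (p : ℝ) * (Real.log h - Real.log p) ≤ 2 := by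
      have h7 : Real.log p ≥ 0 := Real.log_nonneg (by linarith)
      have h8 : Real.log h ≤ 2 * z := by
        have h9 : (h : ℝ) ≤ ((z : ℝ) + 1) ^ 2 := by exact_mod_cast hh.le
        have h10 := Real.log_le_log (by linarith) h9
        rw [Real.log_pow] at h10
        have h11 := Real.log_le_sub_one_of_pos (show (0 : ℝ) < z + 1 by linarith)
        push_cast at h10
        linarith
      rw [one_div, inv_mul_le_iff₀ (by linarith)]
      linarith
    have e1 : 1 / ((p : ℝ) - 1) * SS' (h / p) - 1 / (p : ℝ) * (Real.log h - Real.log p) =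
        1 / ((p : ℝ) - 1) * ((SS' (h / p) - (Real.log h - Real.log p)) + 1 / (p : ℝ) * (Real.log h - Real.log p)) := by
      have : 1 / (p : ℝ) * (Real.log h - Real.log p) = 1 / ((p : ℝ) - 1) * (Real.log h - Real.log p) -
          (1 / ((p : ℝ) - 1) - 1 / (p : ℝ)) * (Real.log h - Real.log p) := by ring
      rw [hd] at this
      linarith
    have hp0 : 0 ≤ 1 / ((p : ℝ) - 1) := by
      apply div_nonneg zero_le_one; linarith
    rw [e1, abs_mul, abs_of_nonneg hp0, mul_comm]
    apply mul_le_mul_of_nonneg_right _ hp0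
    refine (abs_add_le _ _).trans ?_
    rw [abs_of_nonneg (show 0 ≤ 1 / (p : ℝ) * (Real.log h - Real.log p) by positivity)]
    linarith
  have hT1 : |∑ p ∈ PW z h, 1 / ((p : ℝ) - 1) * SS' (h / p) -
      ∑ p ∈ PW z h, 1 / (p : ℝ) * (Real.log h - Real.log p)| ≤ (C₁ + 3) * B := by
    rw [← sum_sub_distrib]
    refine (abs_sum_le_sum_abs _ _).trans ((sum_le_sum hterm).trans ?_)
    rw [← mul_sum]
    gcongr
  rw [abel_PW z h hzh] at hT1
  -- Mertens
  have hT2 : |∑ n ∈ Ico z h, (∑ p ∈ PW z n, 1 / (p : ℝ)) * (Real.log (n + 1 : ℕ) - Real.log n) -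
      ∑ n ∈ Ico z h, Real.log (Real.log n / Real.log z) * (Real.log (n + 1 : ℕ) - Real.log n)| ≤ 4 * C₂ := by
    rw [← sum_sub_distrib]
    refine (abs_sum_le_sum_abs _ _).trans ?_
    have h1 : ∀ n ∈ Ico z h, |(∑ p ∈ PW z n, 1 / (p : ℝ)) * (Real.log (n + 1 : ℕ) - Real.log n) -
        Real.log (Real.log n / Real.log z) * (Real.log (n + 1 : ℕ) - Real.log n)| ≤
        C₂ / Real.log z * (Real.log (n + 1 : ℕ) - Real.log n) := by
      intro n hn
      rw [mem_Ico] at hn
      rw [← sub_mul, abs_mul]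
      have h2 : 0 ≤ Real.log (n + 1 : ℕ) - Real.log n := by
        have : Real.log n ≤ Real.log (n + 1 : ℕ) := by
          apply Real.log_le_log
          · exact_mod_cast (by omega : 0 < n)
          · push_cast; linarith
        linarith
      rw [abs_of_nonneg h2]
      apply mul_le_mul_of_nonneg_right _ h2
      exact hM z n hz hn.1
    refine (sum_le_sum h1).trans ?_
    rw [← mul_sum]
    have h3 : ∑ n ∈ Ico z h, (Real.log (n + 1 : ℕ) - Real.log n) = Real.log h - Real.log z := by
      exact Finset.sum_Ico_sub (fun n : ℕ => Real.log n) hzh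
    rw [h3]
    calc C₂ / Real.log z * (Real.log h - Real.log z) ≤ C₂ / Real.log z * (4 * Real.log z) := by
          apply mul_le_mul_of_nonneg_left _ (by positivity)
          linarith
      _ = 4 * C₂ := by field_simp
  obtain ⟨h4, h5⟩ := phi_sum z h hz hzh
  have h6 := abs_le.mp hT1
  have h7 := abs_le.mp hT2
  rw [abs_le]
  constructor
  · linarith [h6.1, h7.1]
  · linarith [h6.2, h7.2]

/-- the main term in closed form -/
theorem LL_closed : ∃ C : ℝ, 0 < C ∧ ∀ z h : ℕ, 2 ≤ z → 1 ≤ h → h < (z + 1) ^ 2 →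
    |LL (primorial z) h - (VP z - Real.log h + Gp (Real.log h) (Real.log z))| ≤ C := by
  obtain ⟨C₁, hC₁, hup⟩ := H343.PhiSum.totient_upper
  obtain ⟨C₂, hC₂, hT⟩ := T_asymp
  refine ⟨C₁ + C₂, by positivity, ?_⟩
  intro z h hz hh1 hh
  have h1 := split_large z h hh
  have h2 := LL_compl z h
  have h3 : SS' h ≤ Real.log h + C₁ := hup h hh1
  have h4 : Real.log h ≤ SS' h := H343.PhiSum.totient_lower h hh1
  rcases lt_or_ge h z with h5 | h5
  · have h6 : PW z h = ∅ := by
      unfold PW
      rw [Ioc_eq_empty (by omega), filter_empty]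
    rw [h6, sum_empty, add_zero] at h1
    have h7 : Gp (Real.log h) (Real.log z) = 0 := by
      unfold Gp
      rw [if_pos]
      apply Real.log_le_log (by exact_mod_cast hh1)
      exact_mod_cast h5.le
    rw [h7, h2, h1, abs_le]
    constructor <;> linarith
  · have h6 := abs_le.mp (hT z h hz h5 hh)
    have hlz : 0 < Real.log z := Real.log_pos (by exact_mod_cast (by omega : 1 < z))
    have hle : Real.log z ≤ Real.log h := Real.log_le_log (by exact_mod_cast (by omega : 0 < z)) (by exact_mod_cast h5)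
    have h7 : Gp (Real.log h) (Real.log z) =
        Real.log h * Real.log (Real.log h / Real.log z) - Real.log h + Real.log z := by
      unfold Gp
      split_ifs with h8
      · have h9 : Real.log h = Real.log z := le_antisymm h8 hle
        rw [h9, div_self hlz.ne', Real.log_one]
        ring
      · rfl
    rw [h7, h2, abs_le]
    constructor <;> linarith [h6.1, h6.2]

end Pool.Agent.L5helper10.RM
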