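import Pool.Agent.L5helper10.RM.G15

/-! The law in closed form. -/

set_option autoImplicit false
set_option linter.unusedSectionVars false

namespace Pool.Agent.L5helper10.RM

open Finset Filter MeasureTheory

open scoped Topology

lemma Gp_lip_a {l a a' : ℝ} (hl : 0 < l) (haa : a ≤ a') (ha0 : 0 ≤ a) :
    |Gp a' l - Gp a l| ≤ (a' - a) * (a' / l) := by
  have h0 : 0 ≤ (a' - a) * (a' / l) := by
    apply mul_nonneg (by linarith)
    apply div_nonneg _ hl.le; linarith
  unfold Gp
  rcases le_or_gt a' l with h1 | h1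
  · rw [if_pos h1, if_pos (haa.trans h1), sub_self, abs_zero]
    exact h0
  · rw [if_neg (not_le.mpr h1)]
    have hlog : Real.log (a' / l) ≤ a' / l := by
      have := Real.log_le_sub_one_of_pos (show 0 < a' / l by apply div_pos _ hl; linarith)
      linarith
    rcases le_or_gt a l with h2 | h2
    · rw [if_pos h2, sub_zero]
      obtain ⟨h3, h4⟩ := phi_step hl le_rfl h1.le
      rw [div_self hl.ne', Real.log_one] at h3 h4
      have h5 : Real.log (a' / l) * (a' - l) ≤ (a' - a) * (a' / l) := by
        rw [mul_comm]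
        apply mul_le_mul _ hlog (Real.log_nonneg _) (by linarith)
        · linarith
        · rw [one_le_div hl]; exact h1.le
      rw [abs_le]
      constructor <;> linarith
    · rw [if_neg (not_le.mpr h2)]
      obtain ⟨h3, h4⟩ := phi_step hl h2.le haa
      have h5 : 0 ≤ Real.log (a / l) * (a' - a) := by
        apply mul_nonneg (Real.log_nonneg _) (by linarith)
        rw [one_le_div hl]; exact h2.le
      have h6 : Real.log (a' / l) * (a' - a) ≤ (a' - a) * (a' / l) := by
        rw [mul_comm]
        apply mul_le_mul_of_nonneg_left hlog (by linarith)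
      rw [abs_le]
      constructor <;> linarith

lemma Gp_lip_l {l l' a : ℝ} (hl : 0 < l) (hll : l ≤ l') (ha0 : 0 ≤ a) :
    |Gp a l - Gp a l'| ≤ (l' - l) * (a / l) := by
  have h0 : 0 ≤ (l' - l) * (a / l) := by
    apply mul_nonneg (by linarith)
    positivity
  unfold Gp
  rcases le_or_gt a l with h1 | h1
  · rw [if_pos h1, if_pos (h1.trans hll), sub_self, abs_zero]
    exact h0
  · rw [if_neg (not_le.mpr h1)]
    have ha : 0 < a := by linarith
    have hal : 1 ≤ a / l := by rw [one_le_div hl]; exact h1.le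
    rcases le_or_gt a l' with h2 | h2
    · rw [if_pos h2, sub_zero]
      obtain ⟨h3, h4⟩ := phi_step hl le_rfl h1.le
      rw [div_self hl.ne', Real.log_one] at h3 h4
      have hlog : Real.log (a / l) ≤ a / l := by
        have := Real.log_le_sub_one_of_pos (show 0 < a / l by positivity)
        linarith
      have h5 : Real.log (a / l) * (a - l) ≤ (l' - l) * (a / l) := by
        rw [mul_comm]
        apply mul_le_mul _ hlog (Real.log_nonneg hal) (by linarith)
        linarith
      rw [abs_le]
      constructor <;> linarith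
    · rw [if_neg (not_le.mpr h2)]
      have hl' : 0 < l' := by linarith
      have e1 : Real.log (a / l) = Real.log (a / l') + Real.log (l' / l) := by
        rw [← Real.log_mul (by positivity) (by positivity)]
        congr 1
        field_simp
      have h3 := Real.log_le_sub_one_of_pos (show 0 < l' / l by positivity)
      have h4 : 0 ≤ Real.log (l' / l) := Real.log_nonneg (by rw [one_le_div hl]; exact hll)
      have h5 : a * Real.log (l' / l) ≤ (l' - l) * (a / l) := by
        calc a * Real.log (l' / l) ≤ a * (l' / l - 1) := by gcongr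
          _ = _ := by field_simp
      have h6 : l' - l ≤ (l' - l) * (a / l) := by
        apply le_mul_of_one_le_right (by linarith) hal
      have h7 : 0 ≤ a * Real.log (l' / l) := by positivity
      rw [e1, abs_le]
      constructor <;> nlinarith

theorem LL_law (ε : ℝ) (hε : 0 < ε) : ∀ᶠ X : ℝ in atTop, ∀ H : ℝ, 1 ≤ H → H ≤ X →
    |LL (primorial (zR X)) ⌊H⌋₊ - (Real.log X - Real.log H + Gp (Real.log H) (kap * Real.log X))| ≤ ε * Real.log X := by
  obtain ⟨C, hC, hL⟩ := LL_closed
  have hkg := kap_gt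
  have hkl := kap_lt
  obtain ⟨η, hη⟩ : ∃ η, η = min (ε / 4) (1 / 100) := ⟨_, rfl⟩
  have hη0 : 0 < η := by rw [hη]; exact lt_min (by positivity) (by norm_num)
  have hη1 : η ≤ ε / 4 := by rw [hη]; exact min_le_left _ _
  have hη2 : η ≤ 1 / 100 := by rw [hη]; exact min_le_right _ _
  have hlog : ∀ᶠ X : ℝ in atTop, (C + 4) * 2 / ε ≤ Real.log X := Real.tendsto_log_atTop.eventually (eventually_ge_atTop _)
  filter_upwards [zR_lower (kap - η) (by linarith) (by linarith), zR_upper (kap + η) (by linarith), VP_zR_ge,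
    zR_tendsto.eventually (eventually_ge_atTop 2), hlog, eventually_ge_atTop 3] with X h1 h2 h3 h4 h5 hX
  intro H hH1 hH2
  have hX0 : (0 : ℝ) < X := by linarith
  have hX1 : (1 : ℝ) ≤ X := by linarith
  have hH0 : 0 < H := by linarith
  have hlX : 0 < Real.log X := Real.log_pos (by linarith)
  have hlH0 : 0 ≤ Real.log H := Real.log_nonneg hH1
  have hlHX : Real.log H ≤ Real.log X := Real.log_le_log hH0 hH2
  have h6 := VP_zR_le X hX
  obtain ⟨z, hz⟩ : ∃ z, z = zR X := ⟨_, rfl⟩
  rw [← hz] at h1 h2 h3 h4 h6 ⊢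
  have hzr : (2 : ℝ) ≤ z := by exact_mod_cast h4
  obtain ⟨h, hh⟩ : ∃ h, h = ⌊H⌋₊ := ⟨_, rfl⟩
  have hhH : (h : ℝ) ≤ H := by rw [hh]; exact Nat.floor_le hH0.le
  have hHh : H < h + 1 := by rw [hh]; exact Nat.lt_floor_add_one H
  have hh0 : 1 ≤ h := by rw [hh]; exact Nat.le_floor (by exact_mod_cast hH1)
  have hh0r : (1 : ℝ) ≤ h := by exact_mod_cast hh0
  have hhz : h < (z + 1) ^ 2 := by
    have h7 : X ≤ (z : ℝ) ^ 2 := by
      calc X = X ^ (1 : ℝ) := (Real.rpow_one X).symm
        _ ≤ X ^ ((kap - η) * 2) := Real.rpow_le_rpow_of_exponent_le hX1 (by linarith)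
        _ = (X ^ (kap - η)) ^ (2 : ℝ) := by rw [Real.rpow_mul hX0.le]
        _ = (X ^ (kap - η)) ^ (2 : ℕ) := by rw [← Real.rpow_natCast]; norm_num
        _ ≤ (z : ℝ) ^ 2 := by gcongr
    have h8 : (h : ℝ) < ((z : ℝ) + 1) ^ 2 := by
      have : (z : ℝ) ^ 2 < ((z : ℝ) + 1) ^ 2 := by nlinarith
      linarith
    exact_mod_cast h8
  rw [← hh]
  have h7 := abs_le.mp (hL z h h4 hh0 hhz)
  have hlz1 : (kap - η) * Real.log X ≤ Real.log z := by
    rw [← Real.log_rpow hX0]
    exact Real.log_le_log (by positivity) h1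
  have hlz2 : Real.log z ≤ (kap + η) * Real.log X := by
    rw [← Real.log_rpow hX0]
    exact Real.log_le_log (by positivity) h2
  have hlz3 : 1 / 2 * Real.log X ≤ Real.log z := by nlinarith
  have hlz0 : 0 < Real.log z := by linarith
  have hkX : 1 / 2 * Real.log X ≤ kap * Real.log X := by nlinarith
  have hkX0 : 0 < kap * Real.log X := by linarith
  -- floor
  have hlh0 : 0 ≤ Real.log h := Real.log_nonneg hh0r
  have hlhH : Real.log h ≤ Real.log H := Real.log_le_log (by linarith) hhH
  have hlHh : Real.log H ≤ Real.log h + 1 := by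
    have h8 : Real.log H ≤ Real.log (2 * h) := Real.log_le_log hH0 (by linarith)
    rw [Real.log_mul (by norm_num) (by linarith)] at h8
    have := Real.log_two_lt_d9
    linarith
  have hg1 := Gp_lip_a hlz0 hlhH hlh0
  have hr1 : Real.log H / Real.log z ≤ 2 := by
    rw [div_le_iff₀ hlz0]; linarith
  have hg1' : (Real.log H - Real.log h) * (Real.log H / Real.log z) ≤ 1 * 2 := by
    apply mul_le_mul _ hr1 (by positivity) (by norm_num)
    linarith
  have hg2 : |Gp (Real.log H) (Real.log z) - Gp (Real.log H) (kap * Real.log X)| ≤ η * Real.log X * 2 := by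
    rcases le_total (Real.log z) (kap * Real.log X) with h8 | h8
    · refine (Gp_lip_l hlz0 h8 hlH0).trans ?_
      apply mul_le_mul _ hr1 (by positivity) (by positivity)
      linarith
    · rw [abs_sub_comm]
      refine (Gp_lip_l hkX0 h8 hlH0).trans ?_
      have hr2 : Real.log H / (kap * Real.log X) ≤ 2 := by
        rw [div_le_iff₀ hkX0]; linarith
      apply mul_le_mul _ hr2 (by positivity) (by positivity)
      linarith
  have hg3 := abs_le.mp (hg1.trans hg1')
  have hg4 := abs_le.mp hg2
  rw [div_le_iff₀ hε] at h5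
  have h9 : η * Real.log X * 2 ≤ ε / 2 * Real.log X := by nlinarith
  rw [abs_le]
  constructor
  · linarith [h7.1, hg3.1, hg4.1]
  · linarith [h7.2, hg3.2, hg4.2]

/-- the limiting function -/
noncomputable def Fk (θ : ℝ) : ℝ :=
  if θ ≤ kap then 1 - θ else 1 + kap - 2 * θ + θ * (Real.eulerMascheroniConstant + Real.log θ)

lemma Fk_eq {L a : ℝ} (hL : 0 < L) (_ha : 0 ≤ a) : L * Fk (a / L) = L - a + Gp a (kap * L) := by
  unfold Fk Gp
  have hk := kap_pos
  by_cases h : a ≤ kap * L
  · have h1 : a / L ≤ kap := by rw [div_le_iff₀ hL]; exact h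
    rw [if_pos h, if_pos h1]
    field_simp
    ring
  · have h1 : ¬ a / L ≤ kap := by rw [div_le_iff₀ hL]; exact h
    rw [if_neg h, if_neg h1]
    push Not at h
    have ha0 : 0 < a := lt_trans (by positivity) h
    have h2 : Real.log (a / (kap * L)) = Real.eulerMascheroniConstant + Real.log (a / L) := by
      have h3 : a / (kap * L) = (a / L) / kap := by field_simp
      rw [h3, Real.log_div (by positivity) hk.ne']
      unfold kap
      rw [Real.log_exp]
      ring
    rw [h2]
    field_simp
    ring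

/-- the law in closed form -/
theorem J_closed {α : ℕ → ℕ} (hA : Law α) (ε : ℝ) (hε : 0 < ε) :
    ∀ᶠ X : ℝ in atTop, ∀ H : ℝ, X ^ ε ≤ H → H ≤ X ^ (1 - ε) →
      |JR α X H - H * Real.log X * Fk (Real.log H / Real.log X)| ≤ ε * (H * Real.log X) := by
  filter_upwards [J_law' hA ε hε (ε / 2) (by positivity), LL_law (ε / 2) (by positivity), eventually_ge_atTop 3] with X h1 h2 hX
  intro H hH1 hH2
  have hX0 : (0 : ℝ) < X := by linarith
  have hX1 : (1 : ℝ) ≤ X := by linarith
  have hlX : 0 < Real.log X := Real.log_pos (by linarith)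
  have hHone : 1 ≤ H := le_trans (Real.one_le_rpow hX1 hε.le) hH1
  have hHX : H ≤ X := by
    refine hH2.trans ?_
    calc X ^ (1 - ε) ≤ X ^ (1 : ℝ) := Real.rpow_le_rpow_of_exponent_le hX1 (by linarith)
      _ = X := Real.rpow_one X
  have hH0 : 0 < H := by linarith
  have h3 := h1 H hH1 hH2
  have h4 := h2 H hHone hHX
  rw [← Fk_eq hlX (Real.log_nonneg hHone)] at h4
  have e1 : JR α X H - H * Real.log X * Fk (Real.log H / Real.log X) = (JR α X H - H * LL (primorial (zR X)) ⌊H⌋₊) +
      H * (LL (primorial (zR X)) ⌊H⌋₊ - Real.log X * Fk (Real.log H / Real.log X)) := by ring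
  rw [e1]
  refine (abs_add_le _ _).trans ?_
  rw [abs_mul, abs_of_pos hH0]
  have h5 : H * |LL (primorial (zR X)) ⌊H⌋₊ - Real.log X * Fk (Real.log H / Real.log X)| ≤ H * (ε / 2 * Real.log X) := by
    gcongr
  linarith

end Pool.Agent.L5helper10.RM
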