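import Pool.Agent.L5helper10.RM.G1
import Pool.Agent.H305R2.MertensE

/-! The levels of the random sieve. -/

set_option autoImplicit false
set_option linter.unusedSectionVars false

namespace Pool.Agent.L5helper10.RM

open Finset Filter

open scoped Topology

/-- `∏_{p ≤ z} (1 - 1/p)⁻¹` -/
noncomputable def VP (z : ℕ) : ℝ := ∏ p ∈ (Icc 1 z).filter Nat.Prime, (1 - (p : ℝ)⁻¹)⁻¹

lemma fac_ge_one {p : ℕ} (hp : p.Prime) : 1 ≤ (1 - (p : ℝ)⁻¹)⁻¹ := by
  have h2 : (2 : ℝ) ≤ p := by exact_mod_cast hp.two_le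
  have h1 : (p : ℝ)⁻¹ ≤ 1 / 2 := by
    rw [inv_le_comm₀ (by linarith) (by norm_num)]; norm_num; exact_mod_cast hp.two_le
  have h0 : 0 < (p : ℝ)⁻¹ := by positivity
  exact one_le_inv_iff₀.2 ⟨by linarith, by linarith⟩

lemma VP_mono {a b : ℕ} (h : a ≤ b) : VP a ≤ VP b := by
  unfold VP
  have hsub : (Icc 1 a).filter Nat.Prime ⊆ (Icc 1 b).filter Nat.Prime :=
    filter_subset_filter _ (Icc_subset_Icc_right h)
  rw [← prod_sdiff hsub]
  have h1 : 1 ≤ ∏ p ∈ (Icc 1 b).filter Nat.Prime \ (Icc 1 a).filter Nat.Prime, (1 - (p : ℝ)⁻¹)⁻¹ := by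
    have h3 : ∏ p ∈ (Icc 1 b).filter Nat.Prime \ (Icc 1 a).filter Nat.Prime, (1 : ℝ) ≤
        ∏ p ∈ (Icc 1 b).filter Nat.Prime \ (Icc 1 a).filter Nat.Prime, (1 - (p : ℝ)⁻¹)⁻¹ := by
      apply Finset.prod_le_prod
      · intro _ _; norm_num
      · intro p hp
        exact fac_ge_one (mem_filter.mp (mem_sdiff.mp hp).1).2
    rwa [prod_const_one] at h3
  have h2 : 0 ≤ ∏ p ∈ (Icc 1 a).filter Nat.Prime, (1 - (p : ℝ)⁻¹)⁻¹ := by
    apply prod_nonneg
    intro p hp
    have := fac_ge_one (mem_filter.mp hp).2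
    linarith
  nlinarith

lemma one_le_VP (z : ℕ) : 1 ≤ VP z := by
  have h := VP_mono (Nat.zero_le z)
  have h0 : VP 0 = 1 := by unfold VP; simp
  rwa [h0] at h

lemma VP_succ_le (z : ℕ) (hz : 1 ≤ z) : VP (z + 1) ≤ VP z * (1 + 1 / z) := by
  have hz0 : (0 : ℝ) < z := by exact_mod_cast hz
  have h1 := one_le_VP z
  by_cases hp : (z + 1).Prime
  · have e : (Icc 1 (z + 1)).filter Nat.Prime = insert (z + 1) ((Icc 1 z).filter Nat.Prime) := by
      ext p
      rw [mem_filter, mem_insert, mem_filter, mem_Icc, mem_Icc]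
      constructor
      · rintro ⟨⟨a, b⟩, c⟩
        by_cases h : p = z + 1
        · exact Or.inl h
        · exact Or.inr ⟨⟨a, by omega⟩, c⟩
      · rintro (rfl | ⟨⟨a, b⟩, c⟩)
        · exact ⟨⟨by omega, le_rfl⟩, hp⟩
        · exact ⟨⟨a, by omega⟩, c⟩
    have e2 : VP (z + 1) = (1 - ((z + 1 : ℕ) : ℝ)⁻¹)⁻¹ * VP z := by
      unfold VP
      rw [e, prod_insert]
      rw [mem_filter, mem_Icc]; omega
    rw [e2, mul_comm]
    apply mul_le_mul_of_nonneg_left _ (by linarith)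
    apply le_of_eq
    push_cast
    rw [inv_eq_iff_eq_inv]
    field_simp
    ring
  · have e : (Icc 1 (z + 1)).filter Nat.Prime = (Icc 1 z).filter Nat.Prime := by
      ext p
      rw [mem_filter, mem_filter, mem_Icc, mem_Icc]
      constructor
      · rintro ⟨⟨a, b⟩, c⟩
        have : p ≠ z + 1 := by rintro rfl; exact hp c
        exact ⟨⟨a, by omega⟩, c⟩
      · rintro ⟨⟨a, b⟩, c⟩
        exact ⟨⟨a, by omega⟩, c⟩
    have e2 : VP (z + 1) = VP z := by unfold VP; rw [e]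
    rw [e2]
    have : (0 : ℝ) < 1 / z := by positivity
    nlinarith

lemma VP_tendsto : Tendsto VP atTop atTop := by
  have h := Pool.Agent.H305R2.mertens_three
  have h2 : Tendsto (fun N : ℕ => VP N / Real.log N * Real.log N) atTop atTop :=
    Tendsto.pos_mul_atTop (Real.exp_pos _) h (Real.tendsto_log_atTop.comp tendsto_natCast_atTop_atTop)
  refine h2.congr' ?_
  filter_upwards [eventually_ge_atTop 2] with N hN
  have : 0 < Real.log N := Real.log_pos (by exact_mod_cast hN)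
  field_simp

/-- the level of the integer `n` -/
noncomputable def zz (n : ℕ) : ℕ := sInf {z | Real.log n < VP (z + 1)}

lemma zz_mem (n : ℕ) : Real.log n < VP (zz n + 1) := by
  have hne : {z | Real.log n < VP (z + 1)}.Nonempty := by
    have h := (VP_tendsto.comp (tendsto_add_atTop_nat 1)).eventually (eventually_gt_atTop (Real.log n))
    obtain ⟨z, hz⟩ := h.exists
    exact ⟨z, hz⟩
  exact Nat.sInf_mem hne

lemma VP_zz_le (n : ℕ) (hn : 3 ≤ n) : VP (zz n) ≤ Real.log n := by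
  rcases Nat.eq_zero_or_pos (zz n) with h | h
  · rw [h]
    have h0 : VP 0 = 1 := by unfold VP; simp
    rw [h0]
    rw [Real.le_log_iff_exp_le (by exact_mod_cast (by omega : 0 < n))]
    have h3 : (3 : ℝ) ≤ n := by exact_mod_cast hn
    have := Real.exp_one_lt_d9
    linarith
  · have h1 : zz n - 1 ∉ {z | Real.log n < VP (z + 1)} := Nat.notMem_of_lt_sInf (by unfold zz at h ⊢; omega)
    rw [Set.mem_ofPred_eq, not_lt, Nat.sub_add_cancel h] at h1
    exact h1

lemma zz_mono {m n : ℕ} (hm : 1 ≤ m) (h : m ≤ n) : zz m ≤ zz n := by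
  apply Nat.sInf_le
  rw [Set.mem_ofPred_eq]
  have h1 : Real.log m ≤ Real.log n := Real.log_le_log (by exact_mod_cast hm) (by exact_mod_cast h)
  exact lt_of_le_of_lt h1 (zz_mem n)

lemma le_zz_iff (n : ℕ) (hn : 3 ≤ n) (p : ℕ) : VP p ≤ Real.log n ↔ p ≤ zz n := by
  constructor
  · intro h
    by_contra hp
    push Not at hp
    have h1 := VP_mono (show zz n + 1 ≤ p from hp)
    have h2 := zz_mem n
    linarith
  · intro h
    exact (VP_mono h).trans (VP_zz_le n hn)

lemma log_sub_VP (n : ℕ) (hn : 3 ≤ n) (hz : 1 ≤ zz n) : Real.log n - VP (zz n) ≤ Real.log n / zz n := by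
  have hz0 : (0 : ℝ) < zz n := by exact_mod_cast hz
  have h1 := zz_mem n
  have h2 := VP_succ_le (zz n) hz
  have h3 := VP_zz_le n hn
  have h4 : VP (zz n) / zz n ≤ Real.log n / zz n := by gcongr
  have e : VP (zz n) * (1 + 1 / (zz n : ℝ)) = VP (zz n) + VP (zz n) / zz n := by ring
  linarith

/-- the exponent `e^{-γ}` -/
noncomputable def kap : ℝ := Real.exp (-Real.eulerMascheroniConstant)

lemma kap_pos : 0 < kap := Real.exp_pos _

lemma kap_gt : (0.513 : ℝ) < kap := by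
  unfold kap
  have h := Real.eulerMascheroniConstant_lt_two_thirds
  have h1 : Real.exp (-(2 / 3 : ℝ)) < Real.exp (-Real.eulerMascheroniConstant) := by
    apply Real.exp_lt_exp.mpr; linarith
  have h2 : (0.513 : ℝ) ≤ Real.exp (-(2 / 3 : ℝ)) := by
    have h3 : Real.exp (-(2 / 3 : ℝ)) ^ 3 = Real.exp (-1) ^ 2 := by
      rw [← Real.exp_nat_mul, ← Real.exp_nat_mul]; congr 1; norm_num
    have h4 : (0.3678794411 : ℝ) < Real.exp (-1) := by
      have := Real.exp_neg_one_gt_d9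
      linarith
    have h5 : (0.513 : ℝ) ^ 3 ≤ Real.exp (-(2 / 3 : ℝ)) ^ 3 := by
      rw [h3]
      have : (0.3678794411 : ℝ) ^ 2 ≤ Real.exp (-1) ^ 2 := by gcongr
      norm_num at this ⊢
      linarith
    exact le_of_pow_le_pow_left₀ (by norm_num) (Real.exp_pos _).le h5
  linarith

lemma kap_lt : kap < 1 := by
  unfold kap
  rw [Real.exp_lt_one_iff]
  have := Real.one_half_lt_eulerMascheroniConstant
  linarith

lemma VP_upper (δ : ℝ) (hδ : 0 < δ) : ∀ᶠ N : ℕ in atTop, VP N ≤ (kap⁻¹ + δ) * Real.log N := by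
  have h := Pool.Agent.H305R2.mertens_three
  have e : Real.exp Real.eulerMascheroniConstant = kap⁻¹ := by unfold kap; rw [← Real.exp_neg, neg_neg]
  rw [e] at h
  filter_upwards [h.eventually (eventually_lt_nhds (show kap⁻¹ < kap⁻¹ + δ by linarith)), eventually_ge_atTop 2] with N h1 hN
  have hl : 0 < Real.log N := Real.log_pos (by exact_mod_cast hN)
  have h2 : VP N / Real.log N < kap⁻¹ + δ := h1
  rw [div_lt_iff₀ hl] at h2
  exact h2.le

lemma VP_lower (δ : ℝ) (hδ : 0 < δ) : ∀ᶠ N : ℕ in atTop, (kap⁻¹ - δ) * Real.log N ≤ VP N := by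
  have h := Pool.Agent.H305R2.mertens_three
  have e : Real.exp Real.eulerMascheroniConstant = kap⁻¹ := by unfold kap; rw [← Real.exp_neg, neg_neg]
  rw [e] at h
  filter_upwards [h.eventually (eventually_gt_nhds (show kap⁻¹ - δ < kap⁻¹ by linarith)), eventually_ge_atTop 2] with N h1 hN
  have hl : 0 < Real.log N := Real.log_pos (by exact_mod_cast hN)
  have h2 : kap⁻¹ - δ < VP N / Real.log N := h1
  rw [lt_div_iff₀ hl] at h2
  exact h2.le

lemma zz_tendsto : Tendsto zz atTop atTop := by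
  rw [tendsto_atTop]
  intro b
  have h := (Real.tendsto_log_atTop.comp tendsto_natCast_atTop_atTop).eventually (eventually_ge_atTop (VP b))
  filter_upwards [h, eventually_ge_atTop 3] with n hn hn3
  exact (le_zz_iff n hn3 b).mp hn

lemma zz_lower (c : ℝ) (hc : c < kap) : ∀ᶠ n : ℕ in atTop, (n : ℝ) ^ c ≤ zz n := by
  -- choose an intermediate exponent
  obtain ⟨c', hc1, hc2⟩ : ∃ c', max c 0 < c' ∧ c' < kap := exists_between (max_lt hc kap_pos)
  have hc'0 : 0 < c' := lt_of_le_of_lt (le_max_right c 0) hc1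
  have hcc' : c < c' := lt_of_le_of_lt (le_max_left c 0) hc1
  have hδ : 0 < c'⁻¹ - kap⁻¹ := by
    have := (inv_lt_inv₀ kap_pos hc'0).mpr hc2
    linarith
  have h1 := (zz_tendsto.comp tendsto_id).eventually ((tendsto_add_atTop_nat 1).eventually (VP_upper (c'⁻¹ - kap⁻¹) hδ))
  have h2 : ∀ᶠ n : ℕ in atTop, (n : ℝ) ^ c ≤ (n : ℝ) ^ c' - 1 := by
    have h3 : Tendsto (fun n : ℕ => ((n : ℝ)) ^ (c' - max c 0)) atTop atTop :=
      (tendsto_rpow_atTop (by linarith)).comp tendsto_natCast_atTop_atTop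
    filter_upwards [h3.eventually (eventually_ge_atTop 2), eventually_ge_atTop 1] with n hn hn1
    have hnr : (1 : ℝ) ≤ n := by exact_mod_cast hn1
    have h4 : (n : ℝ) ^ c' = (n : ℝ) ^ (max c 0) * (n : ℝ) ^ (c' - max c 0) := by
      rw [← Real.rpow_add (by linarith)]; congr 1; ring
    have h5 : (1 : ℝ) ≤ (n : ℝ) ^ (max c 0) := Real.one_le_rpow hnr (le_max_right _ _)
    have h6 : (n : ℝ) ^ c ≤ (n : ℝ) ^ (max c 0) := Real.rpow_le_rpow_of_exponent_le hnr (le_max_left _ _)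
    rw [h4]
    nlinarith
  filter_upwards [h1, h2, eventually_ge_atTop 3] with n h3 h4 hn3
  simp only [Function.comp, id] at h3
  have h5 := zz_mem n
  have h6 : Real.log n < c'⁻¹ * Real.log ((zz n + 1 : ℕ) : ℝ) := by
    have : kap⁻¹ + (c'⁻¹ - kap⁻¹) = c'⁻¹ := by ring
    rw [this] at h3
    linarith
  have hn0 : (0 : ℝ) < n := by exact_mod_cast (by omega : 0 < n)
  have h7 : c' * Real.log n < Real.log ((zz n + 1 : ℕ) : ℝ) := by
    have := mul_lt_mul_of_pos_left h6 hc'0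
    rwa [← mul_assoc, mul_inv_cancel₀ hc'0.ne', one_mul] at this
  rw [← Real.log_rpow hn0, Real.log_lt_log_iff (by positivity) (by positivity)] at h7
  push_cast at h7
  linarith

lemma zz_upper (c : ℝ) (hc : kap < c) : ∀ᶠ n : ℕ in atTop, (zz n : ℝ) ≤ (n : ℝ) ^ c := by
  have hc0 : 0 < c := kap_pos.trans hc
  have hδ : 0 < kap⁻¹ - c⁻¹ := by
    have := (inv_lt_inv₀ hc0 kap_pos).mpr hc
    linarith
  filter_upwards [zz_tendsto.eventually (VP_lower (kap⁻¹ - c⁻¹) hδ), zz_tendsto.eventually (eventually_ge_atTop 1), eventually_ge_atTop 3] with n h1 h2 hn3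
  have h3 := VP_zz_le n hn3
  have e : kap⁻¹ - (kap⁻¹ - c⁻¹) = c⁻¹ := by ring
  rw [e] at h1
  have hn0 : (0 : ℝ) < n := by exact_mod_cast (by omega : 0 < n)
  have hz0 : (0 : ℝ) < zz n := by exact_mod_cast h2
  have h4 : Real.log (zz n) ≤ c * Real.log n := by
    have := mul_le_mul_of_nonneg_left (h1.trans h3) hc0.le
    rwa [← mul_assoc, mul_inv_cancel₀ hc0.ne', one_mul] at this
  rwa [← Real.log_rpow hn0, Real.log_le_log_iff hz0 (by positivity)] at h4

lemma VP_sq_diff (x L : ℕ) (hx : 3 ≤ x) (hL : L ≤ x) (hz : 1 ≤ zz x) :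
    VP (zz (x + 2 * L)) ^ 2 - VP (zz x) ^ 2 ≤ 4 * Real.log (3 * x) ^ 2 * ((L : ℝ) / x + 1 / zz x) := by
  have hx0 : (0 : ℝ) < x := by exact_mod_cast (by omega : 0 < x)
  have hz0 : (0 : ℝ) < zz x := by exact_mod_cast hz
  have hLr : (L : ℝ) ≤ x := by exact_mod_cast hL
  have hL0 : (0 : ℝ) ≤ L := Nat.cast_nonneg L
  obtain ⟨A, hA⟩ : ∃ A : ℝ, A = Real.log (3 * x) := ⟨_, rfl⟩
  have hx3 : (3 : ℝ) ≤ x := by exact_mod_cast hx
  have hA1 : 1 ≤ A := by
    rw [hA, Real.le_log_iff_exp_le (by positivity)]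
    have := Real.exp_one_lt_d9
    linarith
  have h1 := VP_zz_le (x + 2 * L) (by omega)
  have h2 := VP_zz_le x hx
  have h3 := log_sub_VP x hx hz
  have h4 : Real.log ((x + 2 * L : ℕ) : ℝ) ≤ A := by
    rw [hA]; apply Real.log_le_log (by positivity)
    push_cast; linarith
  have h5 : Real.log (x : ℝ) ≤ A := by
    rw [hA]; apply Real.log_le_log hx0; linarith
  have h6 : Real.log ((x + 2 * L : ℕ) : ℝ) - Real.log x ≤ 2 * (L / x) := by
    rw [← Real.log_div (by positivity) hx0.ne']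
    have h7 := Real.log_le_sub_one_of_pos (x := ((x + 2 * L : ℕ) : ℝ) / x) (by positivity)
    refine h7.trans (le_of_eq ?_)
    push_cast
    field_simp
    ring
  have h8 := one_le_VP (zz x)
  have h9 := one_le_VP (zz (x + 2 * L))
  have h10 : Real.log (x : ℝ) / zz x ≤ A * (1 / zz x) := by
    rw [mul_one_div]; gcongr
  have h11 : 0 ≤ (L : ℝ) / x := by positivity
  have h12 : 0 ≤ 1 / (zz x : ℝ) := by positivity
  have h13 : VP (zz (x + 2 * L)) - VP (zz x) ≤ 2 * (L / x) + A * (1 / zz x) := by linarith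
  have h14 : VP (zz (x + 2 * L)) + VP (zz x) ≤ 2 * A := by linarith
  have h15 : VP (zz x) ≤ VP (zz (x + 2 * L)) := VP_mono (zz_mono (by omega) (by omega))
  rw [← hA]
  calc VP (zz (x + 2 * L)) ^ 2 - VP (zz x) ^ 2 = (VP (zz (x + 2 * L)) - VP (zz x)) * (VP (zz (x + 2 * L)) + VP (zz x)) := by ring
    _ ≤ (2 * (L / x) + A * (1 / zz x)) * (2 * A) := by
        apply mul_le_mul h13 h14 (by linarith) (by positivity)
    _ ≤ 4 * A ^ 2 * ((L : ℝ) / x + 1 / zz x) := by
        have : A * (L / x) ≤ A ^ 2 * (L / x) := mul_le_mul_of_nonneg_right (by nlinarith) h11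
        have : 0 ≤ A ^ 2 * (1 / (zz x : ℝ)) := by positivity
        nlinarith

/-- the modulus of the level `z` -/
lemma VP_eq (z : ℕ) : ((primorial z : ℕ) : ℝ) / (Nat.totient (primorial z) : ℝ) = VP z := by
  have h0 : ((primorial z : ℕ) : ℝ) ≠ 0 := by exact_mod_cast primorial_ne_zero z
  have h3 : (Nat.totient (primorial z) : ℝ) = (primorial z : ℕ) * ∏ p ∈ (primorial z).primeFactors, (1 - (p : ℝ)⁻¹) := by
    have := congrArg (fun q : ℚ => (q : ℝ)) (Nat.totient_eq_mul_prod_factors (primorial z))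
    push_cast at this
    exact this
  have h4 : (primorial z).primeFactors = (Icc 1 z).filter Nat.Prime := by
    ext p
    rw [Nat.mem_primeFactors, mem_filter, mem_Icc]
    constructor
    · rintro ⟨hp, h, -⟩
      exact ⟨⟨hp.pos, hp.dvd_primorial_iff.mp h⟩, hp⟩
    · rintro ⟨⟨h1, h2⟩, hp⟩
      exact ⟨hp, hp.dvd_primorial_iff.mpr h2, primorial_ne_zero z⟩
  rw [h3, h4]
  unfold VP
  rw [prod_inv_distrib]
  field_simp

end Pool.Agent.L5helper10.RM
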