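import Pool.Agent.L5helper10.RM.G2

/-! The random residues. -/

set_option autoImplicit false
set_option linter.unusedSectionVars false

namespace Pool.Agent.L5helper10.RM

open Finset MeasureTheory ProbabilityTheory

instance primorial_neZero (z : ℕ) : NeZero (primorial z) := ⟨primorial_ne_zero z⟩

variable {Ω : Type} [MeasurableSpace Ω]

/-- independent, uniformly distributed residues -/
structure Rnd (P : Measure Ω) (a : ℕ → Ω → ℕ) : Prop where
  prob : IsProbabilityMeasure P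
  meas : ∀ p, Measurable (a p)
  ind : iIndepFun (fun p : Nat.Primes => a p) P
  unif : ∀ p r : ℕ, p.Prime → r < p → P.real {ω | a p ω = r} = 1 / p

variable {P : Measure Ω} {a : ℕ → Ω → ℕ}

lemma Rnd.ge_zero (h : Rnd P a) {p : ℕ} (hp : p.Prime) : P.real {ω | p ≤ a p ω} = 0 := by
  have := h.prob
  have h1 : P.real {ω | a p ω < p} = 1 := by
    have e : {ω | a p ω < p} = ⋃ r ∈ range p, {ω | a p ω = r} := by
      ext ω
      simp
    rw [e, measureReal_biUnion_finset]
    · rw [sum_congr rfl fun r hr => h.unif p r hp (mem_range.1 hr), sum_const, card_range, nsmul_eq_mul,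
        mul_one_div, div_self]
      exact_mod_cast hp.ne_zero
    · intro i _ j _ hij
      rw [Function.onFun, Set.disjoint_left]
      intro ω h1 h2
      exact hij (h1.symm.trans h2)
    · intro r _
      exact h.meas p (MeasurableSet.of_discrete (s := {r}))
  have e : {ω | p ≤ a p ω} = {ω | a p ω < p}ᶜ := by
    ext ω
    simp
  have hm : MeasurableSet {ω | a p ω < p} := h.meas p (MeasurableSet.of_discrete (s := {x | x < p}))
  rw [e, probReal_compl_eq_one_sub hm, h1, sub_self]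

lemma Rnd.law1 (h : Rnd P a) {p : ℕ} (hp : p.Prime) (c : ℕ) : P.real {ω | a p ω ≡ c [MOD p]} = 1 / p := by
  have := h.prob
  rw [← h.unif p (c % p) hp (Nat.mod_lt _ hp.pos)]
  refine le_antisymm ?_ ?_
  · have hsub : {ω | a p ω ≡ c [MOD p]} ⊆ {ω | a p ω = c % p} ∪ {ω | p ≤ a p ω} := by
      intro ω hω
      by_cases hx : p ≤ a p ω
      · exact Or.inr hx
      · left
        have h1 : a p ω % p = c % p := hω
        rwa [Nat.mod_eq_of_lt (by omega)] at h1
    calc P.real {ω | a p ω ≡ c [MOD p]} ≤ P.real ({ω | a p ω = c % p} ∪ {ω | p ≤ a p ω}) :=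
          measureReal_mono hsub
      _ ≤ P.real {ω | a p ω = c % p} + P.real {ω | p ≤ a p ω} := measureReal_union_le _ _
      _ = _ := by rw [h.ge_zero hp, add_zero]
  · refine measureReal_mono (fun ω hω => ?_)
    have h1 : a p ω = c % p := hω
    show a p ω % p = c % p
    rw [h1, Nat.mod_mod]

/-- the event that the residues are those of `c` -/
def EvE (a : ℕ → Ω → ℕ) (z c : ℕ) : Set Ω := {ω | ∀ p ≤ z, p.Prime → a p ω ≡ c [MOD p]}

def mkP (q : ℕ) (hq : q.Prime) : Nat.Primes := ⟨q, hq⟩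

lemma primes_fin (z : ℕ) : ∃ s : Finset Nat.Primes, (∀ q : Nat.Primes, q ∈ s ↔ (q : ℕ) ≤ z) ∧
    ∏ q ∈ s, (1 / ((q : ℕ) : ℝ)) = 1 / (primorial z : ℕ) := by
  classical
  refine ⟨((range (z + 1)).filter Nat.Prime).attach.image
    (fun q => mkP q.1 (mem_filter.mp q.2).2), ?_, ?_⟩
  · intro q
    rw [mem_image]
    constructor
    · rintro ⟨r, -, rfl⟩
      have := (mem_filter.mp r.2).1
      rw [mem_range] at this
      show r.1 ≤ z
      omega
    · intro hq
      exact ⟨⟨q.1, mem_filter.mpr ⟨mem_range.mpr (by have : q.1 ≤ z := hq; omega), q.2⟩⟩, mem_attach _ _, rfl⟩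
  · rw [prod_image]
    · have h1 : ∀ q ∈ ((range (z + 1)).filter Nat.Prime).attach,
          (1 : ℝ) / ((mkP q.1 (mem_filter.mp q.2).2 : ℕ) : ℝ) = 1 / ((q.1 : ℕ) : ℝ) := fun _ _ => rfl
      rw [prod_congr rfl h1, prod_attach ((range (z + 1)).filter Nat.Prime) (fun q => (1 : ℝ) / ((q : ℕ) : ℝ))]
      unfold primorial
      rw [prod_div_distrib, prod_const_one]
      push_cast
      rfl
    · intro q _ r _ hqr
      have : q.1 = r.1 := congrArg (fun x : Nat.Primes => (x : ℕ)) hqr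
      exact Subtype.ext this

lemma Rnd.lawE (h : Rnd P a) (z c : ℕ) : MeasurableSet (EvE a z c) ∧ P.real (EvE a z c) = 1 / (primorial z : ℕ) := by
  obtain ⟨s, hs1, hs2⟩ := primes_fin z
  have e : EvE a z c = ⋂ q ∈ s, (a (q : ℕ)) ⁻¹' {x | x ≡ c [MOD (q : ℕ)]} := by
    ext ω
    unfold EvE
    rw [Set.mem_iInter₂]
    constructor
    · intro h1 q hq
      exact h1 q ((hs1 q).mp hq) q.2
    · intro h1 p hp hpp
      exact h1 ⟨p, hpp⟩ ((hs1 ⟨p, hpp⟩).mpr hp)
  constructor
  · rw [e]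
    exact s.measurableSet_biInter fun q _ => h.meas q MeasurableSet.of_discrete
  · have h2 := h.ind.measure_inter_preimage_eq_mul s (sets := fun q => {x | x ≡ c [MOD (q : ℕ)]})
      fun i _ => MeasurableSet.of_discrete
    rw [measureReal_def, e]
    have h3 : P (⋂ q ∈ s, (a (q : ℕ)) ⁻¹' {x | x ≡ c [MOD (q : ℕ)]}) =
      ∏ q ∈ s, P ((a (q : ℕ)) ⁻¹' {x | x ≡ c [MOD (q : ℕ)]}) := h2
    rw [h3, ENNReal.toReal_prod, ← hs2]
    refine prod_congr rfl fun q _ => ?_
    exact h.law1 q.2 c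

/-- the class of a system of residues -/
lemma exists_cl (z : ℕ) (α : ℕ → ℕ) : ∃ c : ℕ, ∀ p ≤ z, p.Prime → c ≡ α p [MOD p] := by
  classical
  have h := Nat.chineseRemainderOfFinset α (fun p => p) ((range (z + 1)).filter Nat.Prime)
    (fun i hi => (mem_filter.mp hi).2.ne_zero)
    (by
      intro i hi j hj hij
      exact (Nat.coprime_primes (mem_filter.mp hi).2 (mem_filter.mp hj).2).mpr hij)
  obtain ⟨c, hc⟩ := h
  exact ⟨c, fun p hp hpp => hc p (mem_filter.mpr ⟨mem_range.mpr (by omega), hpp⟩)⟩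

noncomputable def cl (z : ℕ) (α : ℕ → ℕ) : ZMod (primorial z) := ((exists_cl z α).choose : ZMod (primorial z))

lemma val_dvd_iff {Q : ℕ} [NeZero Q] {p : ℕ} (hp : p ∣ Q) (n c : ℕ) :
    p ∣ ((n : ZMod Q) - (c : ZMod Q)).val ↔ n ≡ c [MOD p] := by
  have h1 : (((n : ZMod Q) - (c : ZMod Q)).val : ZMod p) = (n : ZMod p) - (c : ZMod p) := by
    rw [← ZMod.cast_eq_val, ZMod.cast_sub hp, ZMod.cast_natCast hp, ZMod.cast_natCast hp]
  rw [← ZMod.natCast_eq_zero_iff, h1, sub_eq_zero, ZMod.natCast_eq_natCast_iff]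

lemma WR_cl {z₀ z : ℕ} (hz : z₀ ≤ z) (α : ℕ → ℕ) (n : ℕ) [Decidable (∀ p ≤ z₀, p.Prime → ¬ n ≡ α p [MOD p])] :
    WR (primorial z₀) ((n : ZMod (primorial z)) - cl z α) =
      if (∀ p ≤ z₀, p.Prime → ¬ n ≡ α p [MOD p]) then VP z₀ else 0 := by
  have hc := (exists_cl z α).choose_spec
  unfold WR cl
  have h1 : Nat.gcd (primorial z₀) ((n : ZMod (primorial z)) - ((exists_cl z α).choose : ZMod (primorial z))).val = 1 ↔
      (∀ p ≤ z₀, p.Prime → ¬ n ≡ α p [MOD p]) := by
    rw [← Nat.coprime_iff_gcd_eq_one, ← not_iff_not, Nat.Prime.not_coprime_iff_dvd]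
    push Not
    constructor
    · rintro ⟨p, hp, h1, h2⟩
      have hpz := hp.dvd_primorial_iff.mp h1
      refine ⟨p, hpz, hp, ?_⟩
      rw [val_dvd_iff (hp.dvd_primorial_iff.mpr (hpz.trans hz))] at h2
      exact h2.trans (hc p (hpz.trans hz) hp)
    · rintro ⟨p, hpz, hp, h2⟩
      refine ⟨p, hp, hp.dvd_primorial_iff.mpr hpz, ?_⟩
      rw [val_dvd_iff (hp.dvd_primorial_iff.mpr (hpz.trans hz))]
      exact h2.trans (hc p (hpz.trans hz) hp).symm
  rw [VP_eq]
  by_cases h2 : (∀ p ≤ z₀, p.Prime → ¬ n ≡ α p [MOD p])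
  · rw [if_pos h2, if_pos (h1.mpr h2)]
  · rw [if_neg h2, if_neg (fun h => h2 (h1.mp h))]

lemma mem_EvE (z : ℕ) (ω : Ω) : ω ∈ EvE a z (cl z (fun p => a p ω)).val := by
  intro p hp hpp
  have hc := (exists_cl z (fun p => a p ω)).choose_spec p hp hpp
  unfold cl
  rw [ZMod.val_natCast]
  have h1 : (exists_cl z (fun p => a p ω)).choose % primorial z ≡ (exists_cl z (fun p => a p ω)).choose [MOD p] :=
    (Nat.mod_modEq _ _).of_dvd (hpp.dvd_primorial_iff.mpr hp)
  exact (h1.trans hc).symm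

/-- Markov's inequality for sums of functions of the classes -/
theorem Rnd.markov (h : Rnd P a) {ι : Type} (J : Finset ι) (z : ι → ℕ)
    (f : ∀ i, ZMod (primorial (z i)) → ℝ) (hf : ∀ i ∈ J, ∀ c, 0 ≤ f i c) (t : ℝ) (ht : 0 < t) :
    P.real {ω | t ≤ ∑ i ∈ J, f i (cl (z i) (fun p => a p ω))} ≤
      (∑ i ∈ J, (∑ c, f i c) / (primorial (z i) : ℕ)) / t := by
  classical
  have := h.prob
  obtain ⟨F, hF⟩ : ∃ F : Ω → ℝ, F = fun ω => ∑ i ∈ J, ∑ c : ZMod (primorial (z i)),
      (EvE a (z i) c.val).indicator (fun _ => f i c) ω := ⟨_, rfl⟩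
  have hint : ∀ i ∈ J, ∀ c : ZMod (primorial (z i)), Integrable ((EvE a (z i) c.val).indicator (fun _ => f i c)) P := by
    intro i _ c
    exact (integrable_const _).indicator (h.lawE (z i) c.val).1
  have hFint : Integrable F P := by
    rw [hF]
    apply integrable_finsetSum
    intro i hi
    apply integrable_finsetSum
    intro c _
    exact hint i hi c
  have hF0 : ∀ ω, 0 ≤ F ω := by
    intro ω
    rw [hF]
    refine sum_nonneg fun i hi => sum_nonneg fun c _ => ?_
    exact Set.indicator_nonneg (fun _ _ => hf i hi c) ω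
  have h1 : ∀ ω, ∑ i ∈ J, f i (cl (z i) (fun p => a p ω)) ≤ F ω := by
    intro ω
    rw [hF]
    refine sum_le_sum fun i hi => ?_
    have h2 := single_le_sum (s := (univ : Finset (ZMod (primorial (z i)))))
      (f := fun c => (EvE a (z i) c.val).indicator (fun _ => f i c) ω)
      (fun c _ => Set.indicator_nonneg (fun _ _ => hf i hi c) ω) (mem_univ (cl (z i) (fun p => a p ω)))
    refine le_trans (le_of_eq ?_) h2
    rw [Set.indicator_of_mem (mem_EvE (z i) ω)]
  have h2 : ∫ ω, F ω ∂P = ∑ i ∈ J, (∑ c, f i c) / (primorial (z i) : ℕ) := by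
    rw [hF, integral_finsetSum _ (fun i hi => integrable_finsetSum _ fun c _ => hint i hi c)]
    refine sum_congr rfl fun i hi => ?_
    rw [integral_finsetSum _ (fun c _ => hint i hi c), sum_div]
    refine sum_congr rfl fun c _ => ?_
    rw [integral_indicator_const _ (h.lawE (z i) c.val).1, (h.lawE (z i) c.val).2, smul_eq_mul]
    ring
  have h3 := mul_meas_ge_le_integral_of_nonneg (Filter.Eventually.of_forall hF0) hFint t
  rw [h2] at h3
  rw [le_div_iff₀ ht, mul_comm]
  refine le_trans ?_ h3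
  apply mul_le_mul_of_nonneg_left _ ht.le
  exact measureReal_mono (fun ω hω => le_trans hω (h1 ω))

end Pool.Agent.L5helper10.RM
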