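import Pool.Agent.L5helper10.RM.G3

/-! The probabilities of the exceptional events at the scale `2^k`. -/

set_option autoImplicit false
set_option linter.unusedSectionVars false

namespace Pool.Agent.L5helper10.RM

open Finset MeasureTheory ProbabilityTheory

variable {Ω : Type} [MeasurableSpace Ω] {P : Measure Ω} {a : ℕ → Ω → ℕ}

lemma zz_mono' {m n : ℕ} (h : m ≤ n) : zz m ≤ zz n := by
  rcases Nat.eq_zero_or_pos m with h0 | h0
  · subst h0
    have : zz 0 = 0 := by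
      unfold zz
      apply Nat.sInf_eq_zero.mpr
      left
      rw [Set.mem_ofPred_eq]
      have := one_le_VP (0 + 1)
      simp only [Nat.cast_zero, Real.log_zero]
      linarith
    rw [this]; exact Nat.zero_le _
  · exact zz_mono h0 h

/-- the left end of the `j`-th block -/
def xb (k q j : ℕ) : ℕ := 2 ^ k + j * 2 ^ (k - q)

lemma xb_ge (k q j : ℕ) : 2 ^ k ≤ xb k q j := Nat.le_add_right _ _

lemma xb_le {k q j : ℕ} (hq : q ≤ k) (hj : j < 2 ^ q) : xb k q j + 2 ^ (k - q) ≤ 2 ^ (k + 1) := by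
  unfold xb
  have h1 : (j + 1) * 2 ^ (k - q) ≤ 2 ^ q * 2 ^ (k - q) := Nat.mul_le_mul_right _ hj
  rw [← pow_add, Nat.add_sub_cancel' hq] at h1
  have h2 : 2 ^ (k + 1) = 2 ^ k + 2 ^ k := by ring
  rw [h2, add_assoc]
  have h3 : j * 2 ^ (k - q) + 2 ^ (k - q) = (j + 1) * 2 ^ (k - q) := by ring
  omega

noncomputable def FV (k q H : ℕ) (α : ℕ → ℕ) : ℝ :=
  ∑ j ∈ range (2 ^ q), (VV (2 ^ (k - q)) H (cl (zz (xb k q j)) α - ((xb k q j : ℕ) : ZMod (primorial (zz (xb k q j))))) -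
    EV (primorial (zz (xb k q j))) H) ^ 2

noncomputable def UF (z₀ z₁ m H : ℕ) (c : ZMod (primorial z₁)) : ℝ :=
  ∑ h ∈ Icc 1 H, (WR (primorial (zz (m + h))) (((m + h : ℕ) : ZMod (primorial z₁)) - c) -
    WR (primorial z₀) (((m + h : ℕ) : ZMod (primorial z₁)) - c))

noncomputable def FU (k q H : ℕ) (α : ℕ → ℕ) : ℝ :=
  ∑ j ∈ range (2 ^ q), ∑ x ∈ Icc 1 (2 ^ (k - q)),
    (UF (zz (xb k q j)) (zz (xb k q j + 2 * 2 ^ (k - q))) (xb k q j + x) H
      (cl (zz (xb k q j + 2 * 2 ^ (k - q))) α)) ^ 2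

lemma log_two_pow (k : ℕ) : Real.log ((2 ^ k : ℕ) : ℝ) ≤ k := by
  push_cast
  rw [Real.log_pow]
  have h := Real.log_two_lt_d9
  have : (0 : ℝ) ≤ k := Nat.cast_nonneg k
  nlinarith

lemma two_pow_ge {k : ℕ} (hk : 2 ≤ k) : 3 ≤ 2 ^ k := by
  calc 3 ≤ 2 ^ 2 := by norm_num
    _ ≤ 2 ^ k := Nat.pow_le_pow_right (by norm_num) hk

/-- the bound for the factor of the variance -/
noncomputable def BB (k : ℕ) (Tm : ℝ) : ℝ :=
  ((k : ℝ) + 1) ^ 8 * (2 * ((k : ℝ) + 1) ^ 44 + Tm ^ 4 * ((k : ℝ) + 1) ^ 12 * (1 + 2 * k) ^ 5)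

theorem Rnd.probV (h : Rnd P a) (k q H : ℕ) (hk : 2 ≤ k) (hq : q ≤ k) (hH1 : 1 ≤ H) (hH : H ≤ 2 ^ (k - q))
    (Tm : ℝ) (hT0 : 0 ≤ Tm) (hTm : ∀ n : ℕ, 1 ≤ n → n ≤ 2 * (2 ^ (k - q)) ^ 3 → tau n ≤ Tm) :
    P.real {ω | (H : ℝ) ^ 2 ≤ FV k q H (fun p => a p ω)} ≤ 2 ^ q * (BB k Tm * (H / 2 ^ (k - q))) := by
  have hHr : (1 : ℝ) ≤ H := by exact_mod_cast hH1
  have hH0 : (0 : ℝ) < H := by linarith
  have h1 := h.markov (range (2 ^ q)) (fun j => zz (xb k q j))
    (fun j c => (VV (2 ^ (k - q)) H (c - ((xb k q j : ℕ) : ZMod (primorial (zz (xb k q j))))) -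
      EV (primorial (zz (xb k q j))) H) ^ 2) (fun _ _ _ => sq_nonneg _) ((H : ℝ) ^ 2) (by positivity)
  refine h1.trans ?_
  rw [div_le_iff₀ (by positivity)]
  have h2 : ∀ j ∈ range (2 ^ q), (∑ c : ZMod (primorial (zz (xb k q j))),
      (VV (2 ^ (k - q)) H (c - ((xb k q j : ℕ) : ZMod (primorial (zz (xb k q j))))) -
      EV (primorial (zz (xb k q j))) H) ^ 2) / (primorial (zz (xb k q j)) : ℕ) ≤ BB k Tm * (H / 2 ^ (k - q)) * H ^ 2 := by
    intro j hj
    rw [mem_range] at hj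
    have e1 : ∑ c : ZMod (primorial (zz (xb k q j))),
      (VV (2 ^ (k - q)) H (c - ((xb k q j : ℕ) : ZMod (primorial (zz (xb k q j))))) -
      EV (primorial (zz (xb k q j))) H) ^ 2 = ∑ c : ZMod (primorial (zz (xb k q j))),
      (VV (2 ^ (k - q)) H c - EV (primorial (zz (xb k q j))) H) ^ 2 :=
      Fintype.sum_equiv (Equiv.subRight (((xb k q j : ℕ) : ZMod (primorial (zz (xb k q j)))))) _ _ (fun _ => rfl)
    rw [e1]
    have hQ0 : (0 : ℝ) < (primorial (zz (xb k q j)) : ℕ) := by exact_mod_cast primorial_pos _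
    have hV : ((primorial (zz (xb k q j)) : ℕ) : ℝ) / (Nat.totient (primorial (zz (xb k q j))) : ℝ) ≤ (k : ℝ) + 1 := by
      rw [VP_eq]
      have h3 := VP_zz_le (xb k q j) ((two_pow_ge hk).trans (xb_ge k q j))
      refine h3.trans ?_
      have h4 := xb_le hq hj
      have h5 : Real.log (xb k q j : ℝ) ≤ Real.log ((2 ^ (k + 1) : ℕ) : ℝ) := by
        apply Real.log_le_log
        · exact_mod_cast lt_of_lt_of_le (by positivity) (xb_ge k q j)
        · exact_mod_cast (by omega : xb k q j ≤ 2 ^ (k + 1))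
      have h6 := log_two_pow (k + 1)
      push_cast at h6 h5 ⊢
      linarith
    have h3 := variance_bound (squarefree_primorial (zz (xb k q j))) (2 ^ (k - q)) H Nat.one_le_two_pow hH hV
      (by have : (0 : ℝ) ≤ k := Nat.cast_nonneg k; linarith) Tm hT0 hTm
    rw [div_le_iff₀ hQ0]
    refine h3.trans ?_
    have hL0 : (0 : ℝ) < 2 ^ (k - q) := by positivity
    have hlog : Real.log ((2 ^ (k - q) : ℕ) : ℝ) ≤ k := by
      refine (log_two_pow (k - q)).trans ?_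
      exact_mod_cast Nat.sub_le k q
    have hlog0 : 0 ≤ Real.log ((2 ^ (k - q) : ℕ) : ℝ) := Real.log_natCast_nonneg _
    have h7 : (1 + 2 * Real.log ((2 ^ (k - q) : ℕ) : ℝ)) ^ 5 ≤ (1 + 2 * (k : ℝ)) ^ 5 := by gcongr
    have hk0 : (0 : ℝ) ≤ k := Nat.cast_nonneg k
    calc ((primorial (zz (xb k q j)) : ℕ) : ℝ) * (((k : ℝ) + 1) ^ 8 * ((H : ℝ) ^ 3 / ((2 ^ (k - q) : ℕ) : ℝ) *
          (2 * ((k : ℝ) + 1) ^ 44 + Tm ^ 4 * ((k : ℝ) + 1) ^ 12 * (1 + 2 * Real.log ((2 ^ (k - q) : ℕ) : ℝ)) ^ 5)))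
        ≤ ((primorial (zz (xb k q j)) : ℕ) : ℝ) * (((k : ℝ) + 1) ^ 8 * ((H : ℝ) ^ 3 / ((2 ^ (k - q) : ℕ) : ℝ) *
          (2 * ((k : ℝ) + 1) ^ 44 + Tm ^ 4 * ((k : ℝ) + 1) ^ 12 * (1 + 2 * (k : ℝ)) ^ 5))) := by gcongr
      _ = _ := by unfold BB; push_cast; ring
  refine (sum_le_sum h2).trans ?_
  rw [sum_const, card_range, nsmul_eq_mul]
  push_cast
  apply le_of_eq
  ring

theorem Rnd.probU (h : Rnd P a) (k q H : ℕ) (hk : 2 ≤ k) (hq : q ≤ k) (hH : H ≤ 2 ^ (k - q)) (hz : 1 ≤ zz (2 ^ k))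
    (t : ℝ) (ht : 0 < t) :
    P.real {ω | t ≤ FU k q H (fun p => a p ω)} ≤
      (2 ^ k * (H * (4 * ((k : ℝ) + 3) ^ 2 * (1 / 2 ^ q + 1 / zz (2 ^ k))))) / t := by
  have hzr : (0 : ℝ) < zz (2 ^ k) := by exact_mod_cast hz
  have h1 := h.markov (range (2 ^ q)) (fun j => zz (xb k q j + 2 * 2 ^ (k - q)))
    (fun j c => ∑ x ∈ Icc 1 (2 ^ (k - q)),
    (UF (zz (xb k q j)) (zz (xb k q j + 2 * 2 ^ (k - q))) (xb k q j + x) H c) ^ 2)
    (fun _ _ _ => sum_nonneg fun _ _ => sq_nonneg _) t ht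
  refine h1.trans ?_
  apply div_le_div_of_nonneg_right _ ht.le
  have h2 : ∀ j ∈ range (2 ^ q), (∑ c : ZMod (primorial (zz (xb k q j + 2 * 2 ^ (k - q)))), ∑ x ∈ Icc 1 (2 ^ (k - q)),
    (UF (zz (xb k q j)) (zz (xb k q j + 2 * 2 ^ (k - q))) (xb k q j + x) H c) ^ 2) /
      (primorial (zz (xb k q j + 2 * 2 ^ (k - q))) : ℕ) ≤
      2 ^ (k - q) * (H * (4 * ((k : ℝ) + 3) ^ 2 * (1 / 2 ^ q + 1 / zz (2 ^ k)))) := by
    intro j hj
    rw [mem_range] at hj
    have hQ0 : (0 : ℝ) < (primorial (zz (xb k q j + 2 * 2 ^ (k - q))) : ℕ) := by exact_mod_cast primorial_pos _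
    rw [sum_comm, div_le_iff₀ hQ0]
    have hx3 : 3 ≤ xb k q j := (two_pow_ge hk).trans (xb_ge k q j)
    have hzx : zz (2 ^ k) ≤ zz (xb k q j) := zz_mono' (xb_ge k q j)
    have hLx : 2 ^ (k - q) ≤ xb k q j := by
      have := xb_ge k q j
      have : 2 ^ (k - q) ≤ 2 ^ k := Nat.pow_le_pow_right (by norm_num) (Nat.sub_le k q)
      omega
    have h3 : ∀ x ∈ Icc 1 (2 ^ (k - q)), ∑ c : ZMod (primorial (zz (xb k q j + 2 * 2 ^ (k - q)))),
        (UF (zz (xb k q j)) (zz (xb k q j + 2 * 2 ^ (k - q))) (xb k q j + x) H c) ^ 2 ≤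
        (primorial (zz (xb k q j + 2 * 2 ^ (k - q))) : ℕ) * (H * (4 * ((k : ℝ) + 3) ^ 2 * (1 / 2 ^ q + 1 / zz (2 ^ k)))) := by
      intro x hx
      rw [mem_Icc] at hx
      have h4 := level_bound (squarefree_primorial (zz (xb k q j + 2 * 2 ^ (k - q)))) (fun n => primorial (zz n))
        (primorial (zz (xb k q j))) (xb k q j + x) H
        (by
          intro h
          by_cases hh : H < h
          · exact Or.inr hh
          · left
            apply primorial_dvd_primorial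
            apply zz_mono'
            omega)
        (by
          intro h
          apply primorial_dvd_primorial
          apply zz_mono'
          omega)
        (by
          apply primorial_dvd_primorial
          apply zz_mono'
          omega)
        (by
          intro i j hij
          apply primorial_dvd_primorial
          exact zz_mono' hij)
      refine h4.trans ?_
      apply mul_le_mul_of_nonneg_left _ hQ0.le
      apply mul_le_mul_of_nonneg_left _ (Nat.cast_nonneg H)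
      rw [VP_eq, VP_eq]
      have h5 := VP_sq_diff (xb k q j) (2 ^ (k - q)) hx3 hLx (hz.trans hzx)
      refine h5.trans ?_
      have h6 := xb_le hq hj
      have hxr : (0 : ℝ) < xb k q j := by exact_mod_cast (by omega : 0 < xb k q j)
      have h7 : Real.log (3 * (xb k q j : ℝ)) ≤ (k : ℝ) + 3 := by
        have h8 : (3 : ℝ) * (xb k q j : ℝ) ≤ ((2 ^ (k + 3) : ℕ) : ℝ) := by
          have : 3 * xb k q j ≤ 2 ^ (k + 3) := by
            have : 2 ^ (k + 3) = 4 * 2 ^ (k + 1) := by ring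
            omega
          exact_mod_cast this
        have h9 := log_two_pow (k + 3)
        have h10 := Real.log_le_log (by positivity) h8
        push_cast at h9 h10 ⊢
        linarith
      have h7' : 0 ≤ Real.log (3 * (xb k q j : ℝ)) := by
        apply Real.log_nonneg
        have : (3 : ℝ) ≤ xb k q j := by exact_mod_cast hx3
        linarith
      have h8 : ((2 ^ (k - q) : ℕ) : ℝ) / (xb k q j : ℝ) ≤ 1 / 2 ^ q := by
        rw [div_le_div_iff₀ hxr (by positivity)]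
        have : 2 ^ (k - q) * 2 ^ q ≤ 1 * xb k q j := by
          rw [← pow_add, Nat.sub_add_cancel hq, one_mul]
          exact xb_ge k q j
        exact_mod_cast this
      have h9 : 1 / (zz (xb k q j) : ℝ) ≤ 1 / zz (2 ^ k) := by
        apply one_div_le_one_div_of_le hzr
        exact_mod_cast hzx
      have h10 : 0 ≤ ((2 ^ (k - q) : ℕ) : ℝ) / (xb k q j : ℝ) + 1 / (zz (xb k q j) : ℝ) := by positivity
      gcongr
    refine (sum_le_sum h3).trans (le_of_eq ?_)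
    rw [sum_const, Nat.card_Icc, Nat.add_sub_cancel, nsmul_eq_mul]
    push_cast
    ring
  refine (sum_le_sum h2).trans (le_of_eq ?_)
  rw [sum_const, card_range, nsmul_eq_mul]
  push_cast
  rw [← mul_assoc, ← pow_add, Nat.add_sub_cancel' hq]

end Pool.Agent.L5helper10.RM
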