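import Pool.Agent.L5helper10.RM.G4

/-! The deterministic part at the scale `2^k`, for the lengths of the grid. -/

set_option autoImplicit false
set_option linter.unusedSectionVars false

namespace Pool.Agent.L5helper10.RM

open Finset ArithmeticFunction

/-- membership in the random set -/
def inR (α : ℕ → ℕ) (n : ℕ) : Prop := ∀ p, p.Prime → VP p ≤ Real.log n → ¬ n ≡ α p [MOD p]

open Classical in
/-- the weight `log n` on the random set -/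
noncomputable def lw (α : ℕ → ℕ) (n : ℕ) : ℝ := if inR α n then Real.log n else 0

open Classical in
/-- the weight `V(z(n))` on the random set -/
noncomputable def vw (α : ℕ → ℕ) (n : ℕ) : ℝ := if inR α n then VP (zz n) else 0

/-- the centred number of the elements of the random set in `(m, m + H]` -/
noncomputable def TT (α : ℕ → ℕ) (m H : ℕ) : ℝ := ∑ h ∈ Icc 1 H, (lw α (m + h) - 1)

lemma inR_iff (α : ℕ → ℕ) {n : ℕ} (hn : 3 ≤ n) : inR α n ↔ ∀ p ≤ zz n, p.Prime → ¬ n ≡ α p [MOD p] := by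
  unfold inR
  constructor
  · intro h p hp hpp
    exact h p hpp ((le_zz_iff n hn p).mpr hp)
  · intro h p hpp hp
    exact h p ((le_zz_iff n hn p).mp hp) hpp

lemma sum_inv_tot {Q : ℕ} (hQ : Squarefree Q) : ∑ d ∈ Q.divisors, 1 / (d.totient : ℝ) = (Q : ℝ) / Q.totient := by
  have hmul : IsMultiplicative (⟨fun d => 1 / (d.totient : ℝ), by simp⟩ : ArithmeticFunction ℝ) := by
    refine ⟨by simp, ?_⟩
    intro m n hmn
    simp only [coe_mk]
    rw [Nat.totient_mul hmn]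
    push_cast
    rw [one_div_mul_one_div]
  have h1 := hmul.prodPrimeFactors_one_add_of_squarefree hQ
  simp only [coe_mk] at h1
  rw [← h1]
  have hd0 : (Q : ℝ) ≠ 0 := by exact_mod_cast hQ.ne_zero
  have h3 : (Q.totient : ℝ) = Q * ∏ p ∈ Q.primeFactors, (1 - (p : ℝ)⁻¹) := by
    have := congrArg (fun q : ℚ => (q : ℝ)) (Nat.totient_eq_mul_prod_factors Q)
    push_cast at this
    exact this
  have h4 : (Q : ℝ) / Q.totient = ∏ p ∈ Q.primeFactors, (1 - (p : ℝ)⁻¹)⁻¹ := by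
    rw [h3, prod_inv_distrib]
    field_simp
  rw [h4]
  refine prod_congr rfl fun p hp => ?_
  have hprime := Nat.prime_of_mem_primeFactors hp
  have h2 : (2 : ℝ) ≤ p := by exact_mod_cast hprime.two_le
  rw [Nat.totient_prime hprime, Nat.cast_sub hprime.one_le]
  have h5 : (p : ℝ) - 1 ≠ 0 := by linarith
  have h6 : (p : ℝ) ≠ 0 := by linarith
  have h7 : (1 - (p : ℝ)⁻¹)⁻¹ = (p : ℝ) / (p - 1) := by
    rw [inv_eq_iff_eq_inv, inv_div]
    field_simp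
  rw [h7]
  push_cast
  field_simp
  ring

lemma LL_nonneg (Q H : ℕ) : 0 ≤ LL Q H := sum_nonneg fun _ _ => by positivity

lemma LL_le {Q : ℕ} (hQ : Squarefree Q) (H : ℕ) : LL Q H ≤ (Q : ℝ) / Q.totient := by
  rw [← sum_inv_tot hQ]
  unfold LL
  exact sum_le_sum_of_subset_of_nonneg (filter_subset _ _) fun _ _ _ => by positivity

lemma LL_diff {Q D : ℕ} (hQ : Squarefree Q) (hD : D ∣ Q) (H : ℕ) :
    LL D H ≤ LL Q H ∧ LL Q H - LL D H ≤ (Q : ℝ) / Q.totient - (D : ℝ) / D.totient := by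
  have hDs : Squarefree D := hQ.squarefree_of_dvd hD
  have hsub : D.divisors ⊆ Q.divisors := Nat.divisors_subset_of_dvd hQ.ne_zero hD
  constructor
  · unfold LL
    exact sum_le_sum_of_subset_of_nonneg (filter_subset_filter _ hsub) fun _ _ _ => by positivity
  · rw [← sum_inv_tot hQ, ← sum_inv_tot hDs]
    have e1 := sum_sdiff (f := fun d : ℕ => 1 / (d.totient : ℝ)) (filter_subset_filter (fun d => H < d) hsub)
    have e2 := sum_sdiff (f := fun d : ℕ => 1 / (d.totient : ℝ)) hsub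
    have e3 : ∑ d ∈ Q.divisors.filter (fun d => H < d) \ D.divisors.filter (fun d => H < d), 1 / (d.totient : ℝ) ≤
        ∑ d ∈ Q.divisors \ D.divisors, 1 / (d.totient : ℝ) := by
      apply sum_le_sum_of_subset_of_nonneg
      · intro d hd
        rw [mem_sdiff, mem_filter, mem_filter] at hd
        rw [mem_sdiff]
        exact ⟨hd.1.1, fun h => hd.2 ⟨h, hd.1.2⟩⟩
      · intro _ _ _; positivity
    unfold LL
    linarith

/-- the main term at the scale `2^k` -/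
noncomputable def Lam (k H : ℕ) : ℝ := LL (primorial (zz (2 ^ k))) H

/-- the error term -/
noncomputable def Ek (k : ℕ) : ℝ := 4 * Real.exp 12 * (1 + 20 * Real.log ((k : ℝ) + 1)) + 3

lemma Ek_nonneg (k : ℕ) : 0 ≤ Ek k := by
  unfold Ek
  have : 0 ≤ Real.log ((k : ℝ) + 1) := Real.log_nonneg (by have : (0 : ℝ) ≤ k := Nat.cast_nonneg k; linarith)
  positivity

lemma Lam_le (k H : ℕ) (hk : 2 ≤ k) : Lam k H ≤ (k : ℝ) + 1 := by
  unfold Lam
  refine (LL_le (squarefree_primorial _) H).trans ?_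
  rw [VP_eq]
  have h3 := VP_zz_le (2 ^ k) (two_pow_ge hk)
  have h6 := log_two_pow k
  linarith

lemma xb_le' {k q j : ℕ} (hq : q ≤ k) (hj : j < 2 ^ q) : xb k q j ≤ 2 ^ (k + 1) :=
  (Nat.le_add_right _ _).trans (xb_le hq hj)

lemma VP_xb_le (k q j : ℕ) (hk : 2 ≤ k) (hq : q ≤ k) (hj : j < 2 ^ q) : VP (zz (xb k q j)) ≤ (k : ℝ) + 1 := by
  have h3 := VP_zz_le (xb k q j) ((two_pow_ge hk).trans (xb_ge k q j))
  refine h3.trans ?_
  have h4 := xb_le hq hj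
  have h5 : Real.log (xb k q j : ℝ) ≤ Real.log ((2 ^ (k + 1) : ℕ) : ℝ) := by
    apply Real.log_le_log
    · exact_mod_cast lt_of_lt_of_le (by positivity) (xb_ge k q j)
    · exact_mod_cast xb_le' hq hj
  have h6 := log_two_pow (k + 1)
  push_cast at h6 h5 ⊢
  linarith

lemma VP_xb_sub (k q j : ℕ) (hk : 2 ≤ k) (hq : q ≤ k) (hj : j < 2 ^ q) (hz : (k : ℝ) ≤ zz (2 ^ k)) :
    VP (zz (xb k q j)) - VP (zz (2 ^ k)) ≤ 2 := by
  have hk0 : (0 : ℝ) < k := by exact_mod_cast (by omega : 0 < k)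
  have hzr : (0 : ℝ) < zz (2 ^ k) := hk0.trans_le hz
  have hz1 : 1 ≤ zz (2 ^ k) := by exact_mod_cast hzr
  have h3 := VP_zz_le (xb k q j) ((two_pow_ge hk).trans (xb_ge k q j))
  have h4 := xb_le hq hj
  have h5 : Real.log (xb k q j : ℝ) ≤ Real.log ((2 ^ (k + 1) : ℕ) : ℝ) := by
    apply Real.log_le_log
    · exact_mod_cast lt_of_lt_of_le (by positivity) (xb_ge k q j)
    · exact_mod_cast xb_le' hq hj
  have h6 := log_sub_VP (2 ^ k) (two_pow_ge hk) hz1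
  have h7 : Real.log ((2 ^ (k + 1) : ℕ) : ℝ) = Real.log ((2 ^ k : ℕ) : ℝ) + Real.log 2 := by
    push_cast
    rw [pow_succ, Real.log_mul (by positivity) (by norm_num)]
  have h8 : Real.log ((2 ^ k : ℕ) : ℝ) / zz (2 ^ k) ≤ 1 := by
    rw [div_le_one hzr]
    exact (log_two_pow k).trans hz
  have h9 := Real.log_two_lt_d9
  linarith

/-- the second moment over a block -/
lemma block_VV (k q j H : ℕ) (α : ℕ → ℕ) :
    ∑ x ∈ Icc 1 (2 ^ (k - q)), DD H (((xb k q j + x : ℕ) : ZMod (primorial (zz (xb k q j)))) - cl (zz (xb k q j)) α) ^ 2 =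
      2 ^ (k - q) * VV (2 ^ (k - q)) H (cl (zz (xb k q j)) α - ((xb k q j : ℕ) : ZMod (primorial (zz (xb k q j))))) := by
  unfold VV
  push_cast
  have h2 : ((2 : ℝ) ^ (k - q)) ≠ 0 := by positivity
  rw [mul_div_assoc', mul_comm, mul_div_assoc, div_self h2, mul_one]
  refine sum_congr rfl fun x _ => ?_
  congr 2
  ring

lemma block_main (k q j H : ℕ) (α : ℕ → ℕ) (hk : 2 ≤ k) (hq : q ≤ k) (hj : j < 2 ^ q) (hH1 : 1 ≤ H)
    (hz : (k : ℝ) ≤ zz (2 ^ k)) (hFV : FV k q H α ≤ (H : ℝ) ^ 2) :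
    |∑ x ∈ Icc 1 (2 ^ (k - q)), DD H (((xb k q j + x : ℕ) : ZMod (primorial (zz (xb k q j)))) - cl (zz (xb k q j)) α) ^ 2 -
      2 ^ (k - q) * (H * Lam k H)| ≤ 2 ^ (k - q) * (H * Ek k) := by
  have hH0 : (0 : ℝ) < H := by exact_mod_cast hH1
  rw [block_VV, ← mul_sub, abs_mul, abs_of_pos (by positivity : (0 : ℝ) < 2 ^ (k - q))]
  apply mul_le_mul_of_nonneg_left _ (by positivity)
  -- the three steps
  have h1 : |VV (2 ^ (k - q)) H (cl (zz (xb k q j)) α - ((xb k q j : ℕ) : ZMod (primorial (zz (xb k q j))))) -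
      EV (primorial (zz (xb k q j))) H| ≤ H := by
    apply abs_le_of_sq_le_sq _ hH0.le
    refine le_trans ?_ hFV
    unfold FV
    exact single_le_sum (f := fun j => (VV (2 ^ (k - q)) H (cl (zz (xb k q j)) α - ((xb k q j : ℕ) : ZMod (primorial (zz (xb k q j))))) -
      EV (primorial (zz (xb k q j))) H) ^ 2) (fun _ _ => sq_nonneg _) (mem_range.mpr hj)
  have hVP : ((primorial (zz (xb k q j)) : ℕ) : ℝ) / (Nat.totient (primorial (zz (xb k q j))) : ℝ) ≤ (k : ℝ) + 1 := by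
    rw [VP_eq]; exact VP_xb_le k q j hk hq hj
  have hk0 : (0 : ℝ) ≤ k := Nat.cast_nonneg k
  have h2 := EV_main (squarefree_primorial (zz (xb k q j))) hVP (by linarith) H hH1
  have h3 := LL_diff (squarefree_primorial (zz (xb k q j))) (primorial_dvd_primorial (zz_mono' (xb_ge k q j))) H
  rw [VP_eq, VP_eq] at h3
  have h4 := VP_xb_sub k q j hk hq hj hz
  have h5 : |(H : ℝ) * LL (primorial (zz (xb k q j))) H - H * Lam k H| ≤ H * 2 := by
    unfold Lam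
    rw [← mul_sub, abs_mul, abs_of_pos hH0]
    apply mul_le_mul_of_nonneg_left _ hH0.le
    rw [abs_le]
    constructor <;> linarith [h3.1, h3.2]
  have h6 := abs_add_three (VV (2 ^ (k - q)) H (cl (zz (xb k q j)) α - ((xb k q j : ℕ) : ZMod (primorial (zz (xb k q j))))) -
      EV (primorial (zz (xb k q j))) H) (EV (primorial (zz (xb k q j))) H - H * LL (primorial (zz (xb k q j))) H)
      ((H : ℝ) * LL (primorial (zz (xb k q j))) H - H * Lam k H)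
  have e : VV (2 ^ (k - q)) H (cl (zz (xb k q j)) α - ((xb k q j : ℕ) : ZMod (primorial (zz (xb k q j))))) - H * Lam k H =
      (VV (2 ^ (k - q)) H (cl (zz (xb k q j)) α - ((xb k q j : ℕ) : ZMod (primorial (zz (xb k q j))))) -
      EV (primorial (zz (xb k q j))) H) + (EV (primorial (zz (xb k q j))) H - H * LL (primorial (zz (xb k q j))) H) +
      ((H : ℝ) * LL (primorial (zz (xb k q j))) H - H * Lam k H) := by ring
  rw [e]
  refine h6.trans ?_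
  have e2 : (H : ℝ) * Ek k = H + H * (4 * Real.exp 12 * (1 + 20 * Real.log ((k : ℝ) + 1))) + H * 2 := by
    unfold Ek; ring
  rw [e2]
  linarith

/-- the remainder -/
noncomputable def RR' (α : ℕ → ℕ) (k q j x H : ℕ) : ℝ :=
  TT α (xb k q j + x) H - DD H (((xb k q j + x : ℕ) : ZMod (primorial (zz (xb k q j)))) - cl (zz (xb k q j)) α)

open Classical in
lemma RR'_eq (α : ℕ → ℕ) (k q j x H : ℕ) (hk : 2 ≤ k) (hx : x ≤ 2 ^ (k - q)) (hH : H ≤ 2 ^ (k - q)) :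
    RR' α k q j x H = UF (zz (xb k q j)) (zz (xb k q j + 2 * 2 ^ (k - q))) (xb k q j + x) H
      (cl (zz (xb k q j + 2 * 2 ^ (k - q))) α) + ∑ h ∈ Icc 1 H, (lw α (xb k q j + x + h) - vw α (xb k q j + x + h)) := by
  unfold RR' TT DD UF
  rw [← sum_sub_distrib, ← sum_add_distrib]
  refine sum_congr rfl fun h hh => ?_
  rw [mem_Icc] at hh
  have hn3 : 3 ≤ xb k q j + x + h := by
    have := (two_pow_ge hk).trans (xb_ge k q j)
    omega
  have e1 : ((xb k q j + x : ℕ) : ZMod (primorial (zz (xb k q j)))) - cl (zz (xb k q j)) α + (h : ZMod (primorial (zz (xb k q j)))) =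
      ((xb k q j + x + h : ℕ) : ZMod (primorial (zz (xb k q j)))) - cl (zz (xb k q j)) α := by
    push_cast; ring
  rw [e1, ← WR_self, WR_cl (le_refl _), WR_cl (zz_mono' (by omega)), WR_cl (zz_mono' (by omega))]
  unfold vw
  have e2 : (if inR α (xb k q j + x + h) then VP (zz (xb k q j + x + h)) else 0) =
      (if (∀ p ≤ zz (xb k q j + x + h), p.Prime → ¬ xb k q j + x + h ≡ α p [MOD p]) then VP (zz (xb k q j + x + h)) else 0) := by
    by_cases c : inR α (xb k q j + x + h)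
    · rw [if_pos c, if_pos ((inR_iff α hn3).mp c)]
    · rw [if_neg c, if_neg (fun h => c ((inR_iff α hn3).mpr h))]
  rw [e2]
  ring

lemma lw_sub_vw (α : ℕ → ℕ) (k n : ℕ) (hk : 2 ≤ k) (hn : 2 ^ k ≤ n) (hn2 : n ≤ 2 ^ (k + 3)) (hz : 1 ≤ zz (2 ^ k)) :
    |lw α n - vw α n| ≤ ((k : ℝ) + 3) / zz (2 ^ k) := by
  have hzr : (0 : ℝ) < zz (2 ^ k) := by exact_mod_cast hz
  have hk0 : (0 : ℝ) ≤ k := Nat.cast_nonneg k
  unfold lw vw
  split_ifs
  · have hn3 : 3 ≤ n := (two_pow_ge hk).trans hn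
    have hzn : zz (2 ^ k) ≤ zz n := zz_mono' hn
    have h1 := VP_zz_le n hn3
    have h2 := log_sub_VP n hn3 (hz.trans hzn)
    rw [abs_of_nonneg (by linarith)]
    refine h2.trans ?_
    have hn0 : (0 : ℝ) < n := by exact_mod_cast (by omega : 0 < n)
    have h3 : Real.log (n : ℝ) ≤ (k : ℝ) + 3 := by
      have h4 := Real.log_le_log hn0 (show (n : ℝ) ≤ ((2 ^ (k + 3) : ℕ) : ℝ) by exact_mod_cast hn2)
      have h5 := log_two_pow (k + 3)
      push_cast at h4 h5 ⊢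
      linarith
    have h6 : (zz (2 ^ k) : ℝ) ≤ zz n := by exact_mod_cast hzn
    gcongr
  · rw [sub_zero, abs_zero]; positivity

lemma RR'_sum (α : ℕ → ℕ) (k q H : ℕ) (hk : 2 ≤ k) (hq : q ≤ k) (hH : H ≤ 2 ^ (k - q)) (hz : 1 ≤ zz (2 ^ k)) :
    ∑ j ∈ range (2 ^ q), ∑ x ∈ Icc 1 (2 ^ (k - q)), RR' α k q j x H ^ 2 ≤
      2 * FU k q H α + 2 * (2 ^ k * (H * (H * ((k : ℝ) + 3) ^ 2 / zz (2 ^ k) ^ 2))) := by
  have hzr : (0 : ℝ) < zz (2 ^ k) := by exact_mod_cast hz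
  have h1 : ∀ j ∈ range (2 ^ q), ∀ x ∈ Icc 1 (2 ^ (k - q)), RR' α k q j x H ^ 2 ≤
      2 * (UF (zz (xb k q j)) (zz (xb k q j + 2 * 2 ^ (k - q))) (xb k q j + x) H
      (cl (zz (xb k q j + 2 * 2 ^ (k - q))) α)) ^ 2 + 2 * (H * (H * ((k : ℝ) + 3) ^ 2 / zz (2 ^ k) ^ 2)) := by
    intro j hj x hx
    rw [mem_range] at hj
    rw [mem_Icc] at hx
    rw [RR'_eq α k q j x H hk hx.2 hH]
    have h2 : |∑ h ∈ Icc 1 H, (lw α (xb k q j + x + h) - vw α (xb k q j + x + h))| ≤ H * (((k : ℝ) + 3) / zz (2 ^ k)) := by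
      refine (abs_sum_le_sum_abs _ _).trans ?_
      have h3 : ∀ h ∈ Icc 1 H, |lw α (xb k q j + x + h) - vw α (xb k q j + x + h)| ≤ ((k : ℝ) + 3) / zz (2 ^ k) := by
        intro h hh
        rw [mem_Icc] at hh
        apply lw_sub_vw α k _ hk _ _ hz
        · have := xb_ge k q j; omega
        · have h4 := xb_le hq hj
          have h5 : 2 ^ (k - q) ≤ 2 ^ k := Nat.pow_le_pow_right (by norm_num) (Nat.sub_le k q)
          have h6 : 2 ^ (k + 3) = 4 * 2 ^ (k + 1) := by ring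
          have h7 : 2 ^ (k + 1) = 2 * 2 ^ k := by ring
          omega
      refine (sum_le_sum h3).trans (le_of_eq ?_)
      rw [sum_const, Nat.card_Icc, Nat.add_sub_cancel, nsmul_eq_mul]
    obtain ⟨A, hA⟩ : ∃ A, A = UF (zz (xb k q j)) (zz (xb k q j + 2 * 2 ^ (k - q))) (xb k q j + x) H
      (cl (zz (xb k q j + 2 * 2 ^ (k - q))) α) := ⟨_, rfl⟩
    obtain ⟨B, hB⟩ : ∃ B, B = ∑ h ∈ Icc 1 H, (lw α (xb k q j + x + h) - vw α (xb k q j + x + h)) := ⟨_, rfl⟩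
    rw [← hA, ← hB]
    rw [← hB] at h2
    have h3 : B ^ 2 ≤ (H * (((k : ℝ) + 3) / zz (2 ^ k))) ^ 2 := by
      rw [← sq_abs]; gcongr
    have h4 : (H * (((k : ℝ) + 3) / zz (2 ^ k))) ^ 2 = H * (H * ((k : ℝ) + 3) ^ 2 / zz (2 ^ k) ^ 2) := by
      field_simp
    nlinarith [sq_nonneg (A - B)]
  refine (sum_le_sum fun j hj => sum_le_sum (h1 j hj)).trans (le_of_eq ?_)
  simp only [sum_add_distrib, ← mul_sum]
  rw [sum_const, sum_const, card_range, Nat.card_Icc, Nat.add_sub_cancel, nsmul_eq_mul, nsmul_eq_mul]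
  unfold FU
  congr 1
  push_cast
  have e : (2 : ℝ) ^ k = 2 ^ q * 2 ^ (k - q) := by rw [← pow_add, Nat.add_sub_cancel' hq]
  rw [e]
  ring

lemma block_sum (k q : ℕ) (g : ℕ → ℝ) (J : ℕ) :
    ∑ x ∈ Ioc (2 ^ k) (xb k q J), g x = ∑ j ∈ range J, ∑ x ∈ Icc 1 (2 ^ (k - q)), g (xb k q j + x) := by
  induction J with
  | zero => unfold xb; simp
  | succ J ih =>
    rw [sum_range_succ, ← ih]
    have h1 : xb k q (J + 1) = xb k q J + 2 ^ (k - q) := by unfold xb; ring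
    have h2 : Ioc (2 ^ k) (xb k q (J + 1)) = Ioc (2 ^ k) (xb k q J) ∪ Ioc (xb k q J) (xb k q (J + 1)) :=
      (Ioc_union_Ioc_eq_Ioc (xb_ge k q J) (by rw [h1]; exact Nat.le_add_right _ _)).symm
    rw [h2, sum_union (Ioc_disjoint_Ioc_of_le le_rfl)]
    congr 1
    refine (sum_bij (fun x _ => xb k q J + x) ?_ ?_ ?_ ?_).symm
    · intro x hx
      rw [mem_Icc] at hx
      rw [mem_Ioc]
      omega
    · intro a _ b _ hab
      omega
    · intro b hb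
      rw [mem_Ioc] at hb
      exact ⟨b - xb k q J, mem_Icc.mpr ⟨by omega, by omega⟩, by omega⟩
    · intro _ _; rfl

theorem scale_blocks (α : ℕ → ℕ) (k q H : ℕ) (hk : 2 ≤ k) (hq : q ≤ k) (hH1 : 1 ≤ H) (hH : H ≤ 2 ^ (k - q))
    (hz : (k : ℝ) ≤ zz (2 ^ k)) (hFV : FV k q H α ≤ (H : ℝ) ^ 2) (θ η t : ℝ)
    (hFU : FU k q H α ≤ 2 ^ k * (H * θ)) (hη : 2 * θ + 2 * (H * ((k : ℝ) + 3) ^ 2 / zz (2 ^ k) ^ 2) ≤ η)
    (ht : 0 < t) (h1 : t * ((k : ℝ) + 1 + Ek k) ≤ 1) (h2 : (1 + 1 / t) * η ≤ 1) (J : ℕ) (hJ : J ≤ 2 ^ q) :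
    |∑ x ∈ Ioc (2 ^ k) (xb k q J), TT α x H ^ 2 - J * (2 ^ (k - q) * (H * Lam k H))| ≤ 2 ^ k * (H * (Ek k + 2)) := by
  have hk0 : (0 : ℝ) < k := by exact_mod_cast (by omega : 0 < k)
  have hz1 : 1 ≤ zz (2 ^ k) := by
    have : (0 : ℝ) < zz (2 ^ k) := hk0.trans_le hz
    exact_mod_cast this
  have hH0 : (0 : ℝ) < H := by exact_mod_cast hH1
  have hE := Ek_nonneg k
  have hΛ := Lam_le k H hk
  rw [block_sum]
  have e1 : ∑ j ∈ range J, ∑ x ∈ Icc 1 (2 ^ (k - q)), TT α (xb k q j + x) H ^ 2 - J * (2 ^ (k - q) * (H * Lam k H)) =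
      ∑ j ∈ range J, (∑ x ∈ Icc 1 (2 ^ (k - q)), TT α (xb k q j + x) H ^ 2 - 2 ^ (k - q) * (H * Lam k H)) := by
    rw [sum_sub_distrib, sum_const, card_range, nsmul_eq_mul]
  rw [e1]
  refine (abs_sum_le_sum_abs _ _).trans ?_
  have h3 : ∀ j ∈ range J, |∑ x ∈ Icc 1 (2 ^ (k - q)), TT α (xb k q j + x) H ^ 2 - 2 ^ (k - q) * (H * Lam k H)| ≤
      t * (2 ^ (k - q) * (H * ((k : ℝ) + 1 + Ek k))) + (1 + 1 / t) * ∑ x ∈ Icc 1 (2 ^ (k - q)), RR' α k q j x H ^ 2 +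
      2 ^ (k - q) * (H * Ek k) := by
    intro j hj
    rw [mem_range] at hj
    have hb := block_main k q j H α hk hq (by omega) hH1 hz hFV
    obtain ⟨D, hD⟩ : ∃ D : ℕ → ℝ, D = fun x => DD H (((xb k q j + x : ℕ) : ZMod (primorial (zz (xb k q j)))) - cl (zz (xb k q j)) α) :=
      ⟨_, rfl⟩
    have hTD : ∀ x, TT α (xb k q j + x) H = D x + RR' α k q j x H := by
      intro x; rw [hD]; unfold RR'; ring
    have hb' : |∑ x ∈ Icc 1 (2 ^ (k - q)), D x ^ 2 - 2 ^ (k - q) * (H * Lam k H)| ≤ 2 ^ (k - q) * (H * Ek k) := by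
      rw [hD]; exact hb
    have h4 : |∑ x ∈ Icc 1 (2 ^ (k - q)), TT α (xb k q j + x) H ^ 2 - ∑ x ∈ Icc 1 (2 ^ (k - q)), D x ^ 2| ≤
        t * ∑ x ∈ Icc 1 (2 ^ (k - q)), D x ^ 2 + (1 + 1 / t) * ∑ x ∈ Icc 1 (2 ^ (k - q)), RR' α k q j x H ^ 2 := by
      rw [← sum_sub_distrib, mul_sum, mul_sum, ← sum_add_distrib]
      refine (abs_sum_le_sum_abs _ _).trans (sum_le_sum fun x _ => ?_)
      rw [hTD]
      obtain ⟨R, hR⟩ : ∃ R, R = RR' α k q j x H := ⟨_, rfl⟩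
      rw [← hR]
      have h5 : |2 * (D x * R)| ≤ t * D x ^ 2 + 1 / t * R ^ 2 := by
        have h6 : 0 ≤ (t * D x - R) ^ 2 / t := by positivity
        have h7 : 0 ≤ (t * D x + R) ^ 2 / t := by positivity
        have e6 : (t * D x - R) ^ 2 / t = t * D x ^ 2 - 2 * (D x * R) + 1 / t * R ^ 2 := by field_simp; ring
        have e7 : (t * D x + R) ^ 2 / t = t * D x ^ 2 + 2 * (D x * R) + 1 / t * R ^ 2 := by field_simp; ring
        rw [abs_le]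
        constructor <;> linarith
      have e8 : (D x + R) ^ 2 - D x ^ 2 = 2 * (D x * R) + R ^ 2 := by ring
      rw [e8]
      calc |2 * (D x * R) + R ^ 2| ≤ |2 * (D x * R)| + |R ^ 2| := abs_add_le _ _
        _ = |2 * (D x * R)| + R ^ 2 := by rw [abs_of_nonneg (sq_nonneg R)]
        _ ≤ _ := by linarith
    have h5 : ∑ x ∈ Icc 1 (2 ^ (k - q)), D x ^ 2 ≤ 2 ^ (k - q) * (H * ((k : ℝ) + 1 + Ek k)) := by
      have := (abs_le.mp hb').2
      have h6 : 2 ^ (k - q) * ((H : ℝ) * Lam k H) ≤ 2 ^ (k - q) * (H * ((k : ℝ) + 1)) := by gcongr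
      calc _ ≤ 2 ^ (k - q) * ((H : ℝ) * Lam k H) + 2 ^ (k - q) * (H * Ek k) := by linarith
        _ ≤ 2 ^ (k - q) * (H * ((k : ℝ) + 1)) + 2 ^ (k - q) * (H * Ek k) := by linarith
        _ = _ := by ring
    have h6 := abs_sub_le (∑ x ∈ Icc 1 (2 ^ (k - q)), TT α (xb k q j + x) H ^ 2) (∑ x ∈ Icc 1 (2 ^ (k - q)), D x ^ 2)
      (2 ^ (k - q) * (H * Lam k H))
    have h7 : t * ∑ x ∈ Icc 1 (2 ^ (k - q)), D x ^ 2 ≤ t * (2 ^ (k - q) * (H * ((k : ℝ) + 1 + Ek k))) := by gcongr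
    linarith
  refine (sum_le_sum h3).trans ?_
  rw [sum_add_distrib, sum_add_distrib, sum_const, sum_const, card_range, nsmul_eq_mul, nsmul_eq_mul, ← mul_sum]
  have hJr : (J : ℝ) ≤ 2 ^ q := by exact_mod_cast hJ
  have e : (2 : ℝ) ^ k = 2 ^ q * 2 ^ (k - q) := by rw [← pow_add, Nat.add_sub_cancel' hq]
  have h4 : ∑ j ∈ range J, ∑ x ∈ Icc 1 (2 ^ (k - q)), RR' α k q j x H ^ 2 ≤ 2 ^ k * (H * η) := by
    have h5 : ∑ j ∈ range J, ∑ x ∈ Icc 1 (2 ^ (k - q)), RR' α k q j x H ^ 2 ≤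
        ∑ j ∈ range (2 ^ q), ∑ x ∈ Icc 1 (2 ^ (k - q)), RR' α k q j x H ^ 2 := by
      apply sum_le_sum_of_subset_of_nonneg
      · exact range_subset_range.mpr hJ
      · intro _ _ _
        exact sum_nonneg fun _ _ => sq_nonneg _
    have h6 := RR'_sum α k q H hk hq hH hz1
    calc _ ≤ 2 * FU k q H α + 2 * (2 ^ k * (H * (H * ((k : ℝ) + 3) ^ 2 / zz (2 ^ k) ^ 2))) := h5.trans h6
      _ ≤ 2 * (2 ^ k * (H * θ)) + 2 * (2 ^ k * (H * (H * ((k : ℝ) + 3) ^ 2 / zz (2 ^ k) ^ 2))) := by gcongr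
      _ = 2 ^ k * (H * (2 * θ + 2 * (H * ((k : ℝ) + 3) ^ 2 / zz (2 ^ k) ^ 2))) := by ring
      _ ≤ _ := by gcongr
  have ht1 : 0 < 1 + 1 / t := by positivity
  have hY : (0 : ℝ) < 2 ^ k := by positivity
  have h5 : (J : ℝ) * (t * (2 ^ (k - q) * (H * ((k : ℝ) + 1 + Ek k)))) ≤ 2 ^ k * H := by
    calc (J : ℝ) * (t * (2 ^ (k - q) * (H * ((k : ℝ) + 1 + Ek k)))) ≤
        2 ^ q * (t * (2 ^ (k - q) * (H * ((k : ℝ) + 1 + Ek k)))) := by gcongr
      _ = 2 ^ k * H * (t * ((k : ℝ) + 1 + Ek k)) := by rw [e]; ring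
      _ ≤ 2 ^ k * H * 1 := by gcongr
      _ = _ := by ring
  have h6 : (1 + 1 / t) * ∑ j ∈ range J, ∑ x ∈ Icc 1 (2 ^ (k - q)), RR' α k q j x H ^ 2 ≤ 2 ^ k * H := by
    calc _ ≤ (1 + 1 / t) * (2 ^ k * (H * η)) := by gcongr
      _ = 2 ^ k * H * ((1 + 1 / t) * η) := by ring
      _ ≤ 2 ^ k * H * 1 := by gcongr
      _ = _ := by ring
  have h7 : (J : ℝ) * (2 ^ (k - q) * (H * Ek k)) ≤ 2 ^ k * (H * Ek k) := by
    calc (J : ℝ) * (2 ^ (k - q) * (H * Ek k)) ≤ 2 ^ q * (2 ^ (k - q) * (H * Ek k)) := by gcongr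
      _ = _ := by rw [e]; ring
  have e9 : (2 : ℝ) ^ k * (H * (Ek k + 2)) = 2 ^ k * H + 2 ^ k * H + 2 ^ k * (H * Ek k) := by ring
  rw [e9]
  linarith

theorem scale_grid (α : ℕ → ℕ) (k q H : ℕ) (hk : 2 ≤ k) (hq : q ≤ k) (hH1 : 1 ≤ H) (hH : H ≤ 2 ^ (k - q))
    (hz : (k : ℝ) ≤ zz (2 ^ k)) (hFV : FV k q H α ≤ (H : ℝ) ^ 2) (θ η t : ℝ)
    (hFU : FU k q H α ≤ 2 ^ k * (H * θ)) (hη : 2 * θ + 2 * (H * ((k : ℝ) + 3) ^ 2 / zz (2 ^ k) ^ 2) ≤ η)
    (ht : 0 < t) (h1 : t * ((k : ℝ) + 1 + Ek k) ≤ 1) (h2 : (1 + 1 / t) * η ≤ 1) (h3 : (k : ℝ) + 1 ≤ 2 ^ q)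
    (N : ℕ) (hN1 : 2 ^ k ≤ N) (hN2 : N ≤ 2 ^ (k + 1)) :
    |∑ x ∈ Ioc (2 ^ k) N, TT α x H ^ 2 - (N - 2 ^ k) * (H * Lam k H)| ≤ 2 ^ k * (H * (Ek k + 3)) := by
  have hH0 : (0 : ℝ) < H := by exact_mod_cast hH1
  have hE := Ek_nonneg k
  have hΛ := Lam_le k H hk
  have hΛ0 : 0 ≤ Lam k H := LL_nonneg _ _
  have hL0 : 0 < 2 ^ (k - q) := by positivity
  have e : 2 ^ q * 2 ^ (k - q) = 2 ^ k := by rw [← pow_add, Nat.add_sub_cancel' hq]
  have er : (2 : ℝ) ^ q * 2 ^ (k - q) = 2 ^ k := by rw [← pow_add, Nat.add_sub_cancel' hq]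
  obtain ⟨J, hJ⟩ : ∃ J, J = (N - 2 ^ k) / 2 ^ (k - q) := ⟨_, rfl⟩
  have hJ1 : J * 2 ^ (k - q) ≤ N - 2 ^ k := by rw [hJ]; exact Nat.div_mul_le_self _ _
  have hJ2 : N - 2 ^ k < (J + 1) * 2 ^ (k - q) := by
    rw [hJ]
    exact (Nat.div_lt_iff_lt_mul hL0).mp (Nat.lt_succ_self _)
  have hJ3 : J ≤ 2 ^ q := by
    have h4 : J * 2 ^ (k - q) ≤ 2 ^ q * 2 ^ (k - q) := by
      rw [e]
      have : 2 ^ (k + 1) = 2 ^ k + 2 ^ k := by ring
      omega
    exact Nat.le_of_mul_le_mul_right h4 hL0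
  have hxJ : xb k q J ≤ N := by unfold xb; omega
  have hbJ := abs_le.mp (scale_blocks α k q H hk hq hH1 hH hz hFV θ η t hFU hη ht h1 h2 J hJ3)
  have hmono : ∑ x ∈ Ioc (2 ^ k) (xb k q J), TT α x H ^ 2 ≤ ∑ x ∈ Ioc (2 ^ k) N, TT α x H ^ 2 := by
    apply sum_le_sum_of_subset_of_nonneg
    · exact Ioc_subset_Ioc_right hxJ
    · intro _ _ _; exact sq_nonneg _
  have hNr : ((N - 2 ^ k : ℕ) : ℝ) = (N : ℝ) - 2 ^ k := by
    rw [Nat.cast_sub hN1]; push_cast; rfl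
  have hJ1r : (J : ℝ) * 2 ^ (k - q) ≤ (N : ℝ) - 2 ^ k := by rw [← hNr]; exact_mod_cast hJ1
  have hJ2r : (N : ℝ) - 2 ^ k ≤ (J + 1) * 2 ^ (k - q) := by rw [← hNr]; exact_mod_cast hJ2.le
  have hLΛ : (2 : ℝ) ^ (k - q) * (H * Lam k H) ≤ 2 ^ k * H := by
    calc (2 : ℝ) ^ (k - q) * (H * Lam k H) ≤ 2 ^ (k - q) * (H * 2 ^ q) := by
          gcongr; linarith
      _ = 2 ^ q * 2 ^ (k - q) * H := by ring
      _ = _ := by rw [er]
  have hHΛ : 0 ≤ (H : ℝ) * Lam k H := by positivity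
  have h5 : (J : ℝ) * (2 ^ (k - q) * (H * Lam k H)) ≤ ((N : ℝ) - 2 ^ k) * (H * Lam k H) := by
    rw [← mul_assoc]; exact mul_le_mul_of_nonneg_right hJ1r hHΛ
  have h6 : ((N : ℝ) - 2 ^ k) * (H * Lam k H) ≤ (J : ℝ) * (2 ^ (k - q) * (H * Lam k H)) + 2 ^ (k - q) * (H * Lam k H) := by
    calc ((N : ℝ) - 2 ^ k) * (H * Lam k H) ≤ (((J : ℝ) + 1) * 2 ^ (k - q)) * (H * Lam k H) :=
          mul_le_mul_of_nonneg_right hJ2r hHΛ
      _ = _ := by ring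
  have e9 : (2 : ℝ) ^ k * (H * (Ek k + 3)) = 2 ^ k * (H * (Ek k + 2)) + 2 ^ k * H := by ring
  rw [e9, abs_le]
  constructor
  · linarith [hbJ.1]
  · rcases Nat.lt_or_ge J (2 ^ q) with hlt | hge
    · have hbJ' := abs_le.mp (scale_blocks α k q H hk hq hH1 hH hz hFV θ η t hFU hη ht h1 h2 (J + 1) hlt)
      have hxJ' : N ≤ xb k q (J + 1) := by unfold xb; omega
      have hmono' : ∑ x ∈ Ioc (2 ^ k) N, TT α x H ^ 2 ≤ ∑ x ∈ Ioc (2 ^ k) (xb k q (J + 1)), TT α x H ^ 2 := by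
        apply sum_le_sum_of_subset_of_nonneg
        · exact Ioc_subset_Ioc_right hxJ'
        · intro _ _ _; exact sq_nonneg _
      have e10 : ((J + 1 : ℕ) : ℝ) * (2 ^ (k - q) * (H * Lam k H)) =
          (J : ℝ) * (2 ^ (k - q) * (H * Lam k H)) + 2 ^ (k - q) * (H * Lam k H) := by push_cast; ring
      rw [e10] at hbJ'
      linarith [hbJ'.2]
    · have hJeq : J = 2 ^ q := le_antisymm hJ3 hge
      have hNeq : xb k q J = N := by
        apply le_antisymm hxJ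
        unfold xb
        rw [hJeq, e]
        have : 2 ^ (k + 1) = 2 ^ k + 2 ^ k := by ring
        omega
      rw [hNeq] at hbJ
      linarith [hbJ.2, mul_nonneg (by positivity : (0 : ℝ) ≤ 2 ^ k) hH0.le]

end Pool.Agent.L5helper10.RM
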