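import Pool.Agent.L5helper10.RM.G5

/-! Chaining: from the lengths of the grid to all lengths. -/

set_option autoImplicit false
set_option linter.unusedSectionVars false

namespace Pool.Agent.L5helper10.RM

open Finset

lemma TT_add (α : ℕ → ℕ) (m H₁ H₂ : ℕ) : TT α m (H₁ + H₂) = TT α m H₁ + TT α (m + H₁) H₂ := by
  unfold TT
  have h1 : Icc 1 (H₁ + H₂) = Icc 1 H₁ ∪ (Icc 1 H₂).image (fun h => H₁ + h) := by
    ext h
    rw [mem_union, mem_image, mem_Icc, mem_Icc]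
    constructor
    · rintro ⟨a, b⟩
      by_cases c : h ≤ H₁
      · exact Or.inl ⟨a, c⟩
      · exact Or.inr ⟨h - H₁, mem_Icc.mpr ⟨by omega, by omega⟩, by omega⟩
    · rintro (⟨a, b⟩ | ⟨h', h1, rfl⟩)
      · omega
      · rw [mem_Icc] at h1; omega
  have h2 : Disjoint (Icc 1 H₁) ((Icc 1 H₂).image (fun h => H₁ + h)) := by
    rw [disjoint_left]
    intro h h3 h4
    rw [mem_image] at h4
    obtain ⟨h', h5, rfl⟩ := h4
    rw [mem_Icc] at h3 h5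
    omega
  rw [h1, sum_union h2, sum_image (by intro a _ b _ h; simpa using h)]
  congr 1
  refine sum_congr rfl fun h _ => ?_
  rw [add_assoc]

lemma TT_zero (α : ℕ → ℕ) (m : ℕ) : TT α m 0 = 0 := by unfold TT; simp

/-- the grid of the lengths -/
def Grid (r k H : ℕ) : Prop := ∃ m i, m < 2 ^ (r + 1) ∧ i ≤ k ∧ H = m * 2 ^ i

/-- the asymptotic formula with the error `E` -/
def Asy (α : ℕ → ℕ) (k H : ℕ) (E : ℝ) : Prop :=
  ∀ N : ℕ, 2 ^ k ≤ N → N ≤ 2 ^ (k + 1) →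
    |∑ x ∈ Ioc (2 ^ k) N, TT α x H ^ 2 - (N - 2 ^ k) * (H * Lam k H)| ≤ 2 ^ k * (H * E)

lemma Asy.full {α : ℕ → ℕ} {k H : ℕ} {E : ℝ} (h : Asy α k H E) (hk : 2 ≤ k) :
    ∑ x ∈ Ioc (2 ^ k) (2 ^ (k + 1)), TT α x H ^ 2 ≤ 2 ^ k * (H * ((k : ℝ) + 1 + E)) := by
  have h1 := (abs_le.mp (h (2 ^ (k + 1)) (Nat.pow_le_pow_right (by norm_num) (by omega)) le_rfl)).2
  have h2 := Lam_le k H hk
  push_cast at h1
  have e1 : (2 : ℝ) ^ (k + 1) - 2 ^ k = 2 ^ k := by ring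
  rw [e1] at h1
  have h3 : (2 : ℝ) ^ k * (H * Lam k H) ≤ 2 ^ k * (H * ((k : ℝ) + 1)) := by gcongr
  calc _ ≤ (2 : ℝ) ^ k * (H * Lam k H) + 2 ^ k * (H * E) := by linarith
    _ ≤ 2 ^ k * (H * ((k : ℝ) + 1)) + 2 ^ k * (H * E) := by linarith
    _ = _ := by ring

/-- chaining over the binary digits -/
lemma chain_bits (α : ℕ → ℕ) (k I : ℕ) (M : ℝ) (hM : 0 ≤ M)
    (h : ∀ i < I, ∑ x ∈ Ioc (2 ^ k) (2 ^ (k + 2)), TT α x (2 ^ i) ^ 2 ≤ M * 2 ^ i) (j : ℕ) (hj : j ≤ I) :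
    ∀ s, s + 2 ^ j ≤ 2 ^ (k + 1) → ∀ H', H' < 2 ^ j →
      ∑ x ∈ Ioc (2 ^ k) (2 ^ (k + 1)), TT α (x + s) H' ^ 2 ≤ 6 * M * 2 ^ j := by
  induction j with
  | zero =>
    intro s _ H' hH'
    have : H' = 0 := by simpa using hH'
    subst this
    simp only [TT_zero]
    have : (0 : ℝ) ≤ 6 * M * 2 ^ 0 := by positivity
    simpa using this
  | succ j ih =>
    intro s hs H' hH'
    have hpow : 2 ^ (j + 1) = 2 ^ j + 2 ^ j := by ring
    have hpos : 0 < 2 ^ j := by positivity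
    by_cases c : H' < 2 ^ j
    · refine (ih (by omega) s (by omega) H' c).trans ?_
      gcongr
      · norm_num
      · omega
    · push Not at c
      obtain ⟨H'', rfl⟩ := Nat.exists_eq_add_of_le c
      have h1 := ih (by omega) (s + 2 ^ j) (by omega) H'' (by omega)
      have h2 : ∑ x ∈ Ioc (2 ^ k) (2 ^ (k + 1)), TT α (x + s) (2 ^ j) ^ 2 ≤ M * 2 ^ j := by
        refine le_trans ?_ (h j (by omega))
        have e1 : ∑ x ∈ Ioc (2 ^ k) (2 ^ (k + 1)), TT α (x + s) (2 ^ j) ^ 2 =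
            ∑ x ∈ (Ioc (2 ^ k) (2 ^ (k + 1))).image (fun x => x + s), TT α x (2 ^ j) ^ 2 := by
          rw [sum_image (by intro a _ b _ h; simpa using h)]
        rw [e1]
        apply sum_le_sum_of_subset_of_nonneg
        · intro x hx
          rw [mem_image] at hx
          obtain ⟨y, hy, rfl⟩ := hx
          rw [mem_Ioc] at hy ⊢
          have : 2 ^ (k + 2) = 2 ^ (k + 1) + 2 ^ (k + 1) := by ring
          omega
        · intro _ _ _; exact sq_nonneg _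
      have h3 : ∀ x, TT α (x + s) (2 ^ j + H'') ^ 2 ≤ 3 * TT α (x + s) (2 ^ j) ^ 2 + 3 / 2 * TT α (x + (s + 2 ^ j)) H'' ^ 2 := by
        intro x
        rw [TT_add, add_assoc x s]
        nlinarith [sq_nonneg (2 * TT α (x + s) (2 ^ j) - TT α (x + (s + 2 ^ j)) H'')]
      calc ∑ x ∈ Ioc (2 ^ k) (2 ^ (k + 1)), TT α (x + s) (2 ^ j + H'') ^ 2
          ≤ ∑ x ∈ Ioc (2 ^ k) (2 ^ (k + 1)), (3 * TT α (x + s) (2 ^ j) ^ 2 + 3 / 2 * TT α (x + (s + 2 ^ j)) H'' ^ 2) :=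
            sum_le_sum fun x _ => h3 x
        _ = 3 * ∑ x ∈ Ioc (2 ^ k) (2 ^ (k + 1)), TT α (x + s) (2 ^ j) ^ 2 +
            3 / 2 * ∑ x ∈ Ioc (2 ^ k) (2 ^ (k + 1)), TT α (x + (s + 2 ^ j)) H'' ^ 2 := by
            rw [sum_add_distrib, mul_sum, mul_sum]
        _ ≤ 3 * (M * 2 ^ j) + 3 / 2 * (6 * M * 2 ^ j) := by linarith
        _ = 6 * M * 2 ^ (j + 1) := by ring

/-- comparison of the squares -/
lemma sq_compare (s : Finset ℕ) (f g : ℕ → ℝ) (t : ℝ) (ht : 0 < t) :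
    |∑ x ∈ s, (f x + g x) ^ 2 - ∑ x ∈ s, f x ^ 2| ≤ t * ∑ x ∈ s, f x ^ 2 + (1 + 1 / t) * ∑ x ∈ s, g x ^ 2 := by
  rw [← sum_sub_distrib, mul_sum, mul_sum, ← sum_add_distrib]
  refine (abs_sum_le_sum_abs _ _).trans (sum_le_sum fun x _ => ?_)
  obtain ⟨D, hD⟩ : ∃ D, D = f x := ⟨_, rfl⟩
  obtain ⟨R, hR⟩ : ∃ R, R = g x := ⟨_, rfl⟩
  rw [← hR, ← hD]
  have h5 : |2 * (D * R)| ≤ t * D ^ 2 + 1 / t * R ^ 2 := by
    have h6 : 0 ≤ (t * D - R) ^ 2 / t := by positivity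
    have h7 : 0 ≤ (t * D + R) ^ 2 / t := by positivity
    have e6 : (t * D - R) ^ 2 / t = t * D ^ 2 - 2 * (D * R) + 1 / t * R ^ 2 := by field_simp; ring
    have e7 : (t * D + R) ^ 2 / t = t * D ^ 2 + 2 * (D * R) + 1 / t * R ^ 2 := by field_simp; ring
    rw [abs_le]
    constructor <;> linarith
  have e8 : (D + R) ^ 2 - D ^ 2 = 2 * (D * R) + R ^ 2 := by ring
  rw [e8]
  calc |2 * (D * R) + R ^ 2| ≤ |2 * (D * R)| + |R ^ 2| := abs_add_le _ _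
    _ = |2 * (D * R)| + R ^ 2 := by rw [abs_of_nonneg (sq_nonneg R)]
    _ ≤ _ := by linarith

lemma LL_step {Q : ℕ} (hQ : Squarefree Q) (H₀ H : ℕ) (h0 : 1 ≤ H₀) (h1 : H₀ ≤ H) (h2 : H ≤ 2 * H₀) :
    LL Q H ≤ LL Q H₀ ∧ LL Q H₀ - LL Q H ≤ 2 * Real.exp 12 := by
  have h0r : (0 : ℝ) < H₀ := by exact_mod_cast h0
  have h1r : (H₀ : ℝ) ≤ H := by exact_mod_cast h1
  have h2r : (H : ℝ) ≤ 2 * H₀ := by exact_mod_cast h2
  have hsub : Q.divisors.filter (fun d => H < d) ⊆ Q.divisors.filter (fun d => H₀ < d) := by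
    intro d hd
    rw [mem_filter] at hd ⊢
    exact ⟨hd.1, by omega⟩
  constructor
  · unfold LL
    exact sum_le_sum_of_subset_of_nonneg hsub fun _ _ _ => by positivity
  · have e1 := sum_sdiff (f := fun d : ℕ => 1 / (d.totient : ℝ)) hsub
    have h3 := window_sum hQ (H₀ : ℝ) (H : ℝ) h0r h1r
    have h4 : ∑ d ∈ Q.divisors.filter (fun d => H₀ < d) \ Q.divisors.filter (fun d => H < d), 1 / (d.totient : ℝ) ≤
        ∑ d ∈ Q.divisors.filter (fun d : ℕ => (H₀ : ℝ) < d ∧ (d : ℝ) ≤ H), (d : ℝ) / (d.totient : ℝ) ^ 2 := by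
      have h5 : Q.divisors.filter (fun d => H₀ < d) \ Q.divisors.filter (fun d => H < d) =
          Q.divisors.filter (fun d : ℕ => (H₀ : ℝ) < d ∧ (d : ℝ) ≤ H) := by
        ext d
        rw [mem_sdiff, mem_filter, mem_filter, mem_filter]
        constructor
        · rintro ⟨⟨a, b⟩, c⟩
          refine ⟨a, by exact_mod_cast b, ?_⟩
          have : d ≤ H := by
            by_contra h
            push Not at h
            exact c ⟨a, h⟩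
          exact_mod_cast this
        · rintro ⟨a, b, c⟩
          refine ⟨⟨a, by exact_mod_cast b⟩, ?_⟩
          rintro ⟨-, h⟩
          have : d ≤ H := by exact_mod_cast c
          omega
      rw [h5]
      refine sum_le_sum fun d hd => ?_
      have hd0 := Nat.pos_of_mem_divisors (mem_filter.mp hd).1
      have hφ0 : (0 : ℝ) < d.totient := by exact_mod_cast Nat.totient_pos.mpr hd0
      have hφd : (d.totient : ℝ) ≤ d := by exact_mod_cast Nat.totient_le d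
      rw [div_le_div_iff₀ hφ0 (by positivity)]
      nlinarith
    have h6 : Real.log ((H : ℝ) / H₀) ≤ 1 := by
      have h7 : (H : ℝ) / H₀ ≤ 2 := by rw [div_le_iff₀ h0r]; exact h2r
      have h8 : (0 : ℝ) < (H : ℝ) / H₀ := div_pos (h0r.trans_le h1r) h0r
      have h9 := Real.log_le_log h8 h7
      have := Real.log_two_lt_d9
      linarith
    have h7 : Real.exp 12 * (1 + Real.log ((H : ℝ) / H₀)) ≤ Real.exp 12 * 2 := by gcongr; linarith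
    unfold LL
    linarith

/-- from the grid to all the lengths -/
theorem chain (α : ℕ → ℕ) (k u : ℕ) (B : ℝ) (hB : B ≤ 2 ^ k) (hk : 2 ≤ k) (E : ℝ) (hE0 : 0 ≤ E) (hE : E ≤ (k : ℝ) + 1)
    (h1 : ∀ H : ℕ, 1 ≤ H → (H : ℝ) ≤ B → Grid (2 * u) k H → Asy α k H E)
    (h2 : ∀ H : ℕ, 1 ≤ H → (H : ℝ) ≤ B → Grid (2 * u) (k + 1) H → Asy α (k + 1) H E)
    (H : ℕ) (hH1 : 1 ≤ H) (hH : (H : ℝ) ≤ B) :
    Asy α k H (E + 2 * Real.exp 12 + 300 * ((k : ℝ) / 2 ^ u)) := by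
  have hk0 : (2 : ℝ) ≤ k := by exact_mod_cast hk
  have hu : (0 : ℝ) < 2 ^ u := by positivity
  have hnn : 0 ≤ 2 * Real.exp 12 + 300 * ((k : ℝ) / 2 ^ u) := by positivity
  have hHN : H ≤ 2 ^ k := by exact_mod_cast (hH.trans hB)
  rcases Nat.lt_or_ge H (2 ^ (2 * u + 1)) with hsm | hlg
  · have h3 := h1 H hH1 hH ⟨H, 0, hsm, Nat.zero_le _, by simp⟩
    intro N hN1 hN2
    refine (h3 N hN1 hN2).trans ?_
    gcongr
    linarith
  -- the decomposition of `H`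
  obtain ⟨l, hl⟩ : ∃ l, l = Nat.log 2 H := ⟨_, rfl⟩
  have hl1 : 2 ^ l ≤ H := by rw [hl]; exact Nat.pow_log_le_self 2 (by omega)
  have hl2 : H < 2 ^ (l + 1) := by rw [hl]; exact Nat.lt_pow_succ_log_self (by norm_num) H
  have hlu : 2 * u + 1 ≤ l := by
    by_contra h
    push Not at h
    have : 2 ^ (l + 1) ≤ 2 ^ (2 * u + 1) := Nat.pow_le_pow_right (by norm_num) (by omega)
    omega
  obtain ⟨i, hi⟩ : ∃ i, l = i + 2 * u := ⟨l - 2 * u, by omega⟩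
  obtain ⟨m, hm⟩ : ∃ m, m = H / 2 ^ i := ⟨_, rfl⟩
  obtain ⟨H', hH'⟩ : ∃ H', H' = H % 2 ^ i := ⟨_, rfl⟩
  have hi0 : 0 < 2 ^ i := by positivity
  have hHdec : H = m * 2 ^ i + H' := by rw [hm, hH', mul_comm]; exact (Nat.div_add_mod H (2 ^ i)).symm
  have hH'lt : H' < 2 ^ i := by rw [hH']; exact Nat.mod_lt _ hi0
  have hmlt : m < 2 ^ (2 * u + 1) := by
    rw [hm, Nat.div_lt_iff_lt_mul hi0, ← pow_add]
    have : 2 * u + 1 + i = l + 1 := by omega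
    rw [this]; exact hl2
  have hmge : 2 ^ (2 * u) ≤ m := by
    rw [hm, Nat.le_div_iff_mul_le hi0, ← pow_add]
    have : 2 * u + i = l := by omega
    rw [this]; exact hl1
  have hlk : l ≤ k := by
    by_contra h
    push Not at h
    have : 2 ^ (k + 1) ≤ 2 ^ l := Nat.pow_le_pow_right (by norm_num) h
    have : 2 ^ (k + 1) = 2 * 2 ^ k := by ring
    have : 0 < 2 ^ k := by positivity
    omega
  obtain ⟨H₀, hH₀⟩ : ∃ H₀, H₀ = m * 2 ^ i := ⟨_, rfl⟩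
  have hH₀H : H₀ ≤ H := by omega
  have h2i : 2 ^ i ≤ H₀ := by
    rw [hH₀]
    have : 1 ≤ m := le_trans Nat.one_le_two_pow hmge
    exact Nat.le_mul_of_pos_left _ this
  have hH₀1 : 1 ≤ H₀ := le_trans Nat.one_le_two_pow h2i
  have hH₀B : (H₀ : ℝ) ≤ B := le_trans (by exact_mod_cast hH₀H) hH
  have hH₀r : (H₀ : ℝ) ≤ H := by exact_mod_cast hH₀H
  have hgrid : Grid (2 * u) k H₀ := ⟨m, i, hmlt, by omega, hH₀⟩
  have hA₀ := h1 H₀ hH₀1 hH₀B hgrid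
  have hH0 : (0 : ℝ) < H := by exact_mod_cast hH1
  have h2ir : (2 : ℝ) ^ i * 2 ^ (2 * u) ≤ H := by
    have : 2 ^ i * 2 ^ (2 * u) ≤ H := by rw [← pow_add, ← hi]; exact hl1
    exact_mod_cast this
  have h2ir' : (2 : ℝ) ^ i ≤ H / 2 ^ (2 * u) := by
    rw [le_div_iff₀ (by positivity)]; exact h2ir
  -- the bound for the powers of two
  have hpow : ∀ i' < i, ∑ x ∈ Ioc (2 ^ k) (2 ^ (k + 2)), TT α x (2 ^ i') ^ 2 ≤ (2 ^ k * (16 * (k : ℝ))) * 2 ^ i' := by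
    intro i' hi'
    have hle : 2 ^ i' ≤ H₀ := (Nat.pow_le_pow_right (by norm_num) hi'.le).trans h2i
    have hleB : ((2 ^ i' : ℕ) : ℝ) ≤ B := le_trans (by exact_mod_cast hle) hH₀B
    have h3 := (h1 (2 ^ i') Nat.one_le_two_pow hleB ⟨1, i', by
      have : 2 ^ 1 ≤ 2 ^ (2 * u + 1) := Nat.pow_le_pow_right (by norm_num) (by omega)
      omega, by omega, by simp⟩).full hk
    have h4 := (h2 (2 ^ i') Nat.one_le_two_pow hleB ⟨1, i', by
      have : 2 ^ 1 ≤ 2 ^ (2 * u + 1) := Nat.pow_le_pow_right (by norm_num) (by omega)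
      omega, by omega, by simp⟩).full (by omega)
    have e1 : Ioc (2 ^ k) (2 ^ (k + 2)) = Ioc (2 ^ k) (2 ^ (k + 1)) ∪ Ioc (2 ^ (k + 1)) (2 ^ (k + 2)) :=
      (Ioc_union_Ioc_eq_Ioc (Nat.pow_le_pow_right (by norm_num) (by omega))
        (Nat.pow_le_pow_right (by norm_num) (by omega))).symm
    rw [e1, sum_union (Ioc_disjoint_Ioc_of_le le_rfl)]
    push_cast at h3 h4 ⊢
    have h5 : (2 : ℝ) ^ k * (2 ^ i' * ((k : ℝ) + 1 + E)) ≤ 2 ^ k * (2 ^ i' * (2 * (k : ℝ) + 2)) :=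
      mul_le_mul_of_nonneg_left (mul_le_mul_of_nonneg_left (by linarith) (by positivity)) (by positivity)
    have h6 : (2 : ℝ) ^ (k + 1) * (2 ^ i' * ((k : ℝ) + 1 + 1 + E)) ≤ 2 ^ (k + 1) * (2 ^ i' * (2 * (k : ℝ) + 3)) :=
      mul_le_mul_of_nonneg_left (mul_le_mul_of_nonneg_left (by linarith) (by positivity)) (by positivity)
    have h7 : (2 : ℝ) ^ k * (2 ^ i' * (2 * (k : ℝ) + 2)) + 2 ^ (k + 1) * (2 ^ i' * (2 * (k : ℝ) + 3)) =
        2 ^ k * 2 ^ i' * (6 * k + 8) := by ring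
    have h8 : (2 : ℝ) ^ k * 2 ^ i' * (6 * k + 8) ≤ 2 ^ k * 2 ^ i' * (16 * k) := by
      gcongr; linarith
    have h9 : (2 : ℝ) ^ k * (16 * k) * 2 ^ i' = 2 ^ k * 2 ^ i' * (16 * k) := by ring
    rw [h9]
    linarith
  have hbits := chain_bits α k i (2 ^ k * (16 * (k : ℝ))) (by positivity) hpow i le_rfl H₀
    (by
      have : 2 ^ (k + 1) = 2 ^ k + 2 ^ k := by ring
      omega) H' hH'lt
  intro N hN1 hN2
  have hdec : ∀ x, TT α x H = TT α x H₀ + TT α (x + H₀) H' := by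
    intro x
    have : H = H₀ + H' := by omega
    rw [this, TT_add]
  have hcmp := sq_compare (Ioc (2 ^ k) N) (fun x => TT α x H₀) (fun x => TT α (x + H₀) H') (1 / 2 ^ u) (by positivity)
  simp only [← hdec] at hcmp
  have hfull := hA₀.full hk
  have hsub1 : ∑ x ∈ Ioc (2 ^ k) N, TT α x H₀ ^ 2 ≤ 2 ^ k * (H₀ * ((k : ℝ) + 1 + E)) := by
    refine le_trans ?_ hfull
    exact sum_le_sum_of_subset_of_nonneg (Ioc_subset_Ioc_right hN2) fun _ _ _ => sq_nonneg _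
  have hsub2 : ∑ x ∈ Ioc (2 ^ k) N, TT α (x + H₀) H' ^ 2 ≤ 6 * (2 ^ k * (16 * (k : ℝ))) * 2 ^ i := by
    refine le_trans ?_ hbits
    exact sum_le_sum_of_subset_of_nonneg (Ioc_subset_Ioc_right hN2) fun _ _ _ => sq_nonneg _
  have hcmp2 : |∑ x ∈ Ioc (2 ^ k) N, TT α x H ^ 2 - ∑ x ∈ Ioc (2 ^ k) N, TT α x H₀ ^ 2| ≤
      2 ^ k * (H * (200 * ((k : ℝ) / 2 ^ u))) := by
    refine hcmp.trans ?_
    have h3 : 1 / 2 ^ u * ∑ x ∈ Ioc (2 ^ k) N, TT α x H₀ ^ 2 ≤ 2 ^ k * (H * (4 * ((k : ℝ) / 2 ^ u))) := by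
      calc 1 / 2 ^ u * ∑ x ∈ Ioc (2 ^ k) N, TT α x H₀ ^ 2 ≤ 1 / 2 ^ u * (2 ^ k * (H₀ * ((k : ℝ) + 1 + E))) := by gcongr
        _ ≤ 1 / 2 ^ u * (2 ^ k * (H * (4 * (k : ℝ)))) := by
            gcongr; linarith
        _ = _ := by ring
    have h4 : (1 + 1 / (1 / 2 ^ u)) * ∑ x ∈ Ioc (2 ^ k) N, TT α (x + H₀) H' ^ 2 ≤ 2 ^ k * (H * (192 * ((k : ℝ) / 2 ^ u))) := by
      have h5 : (1 : ℝ) + 1 / (1 / 2 ^ u) ≤ 2 * 2 ^ u := by
        rw [one_div_one_div]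
        have : (1 : ℝ) ≤ 2 ^ u := one_le_pow₀ (by norm_num)
        linarith
      calc (1 + 1 / (1 / 2 ^ u)) * ∑ x ∈ Ioc (2 ^ k) N, TT α (x + H₀) H' ^ 2
          ≤ (2 * 2 ^ u) * (6 * (2 ^ k * (16 * (k : ℝ))) * 2 ^ i) := by
            apply mul_le_mul h5 hsub2 (sum_nonneg fun _ _ => sq_nonneg _) (by positivity)
        _ ≤ (2 * 2 ^ u) * (6 * (2 ^ k * (16 * (k : ℝ))) * (H / 2 ^ (2 * u))) := by gcongr
        _ = _ := by
            have : (2 : ℝ) ^ (2 * u) = 2 ^ u * 2 ^ u := by rw [two_mul, pow_add]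
            rw [this]
            field_simp
            ring
    have e9 : (2 : ℝ) ^ k * (H * (200 * ((k : ℝ) / 2 ^ u))) = 2 ^ k * (H * (4 * ((k : ℝ) / 2 ^ u))) +
      2 ^ k * (H * (192 * ((k : ℝ) / 2 ^ u))) + 2 ^ k * (H * (4 * ((k : ℝ) / 2 ^ u))) := by ring
    rw [e9]
    have : 0 ≤ (2 : ℝ) ^ k * (H * (4 * ((k : ℝ) / 2 ^ u))) := by positivity
    linarith
  -- the main terms
  have hstep := LL_step (squarefree_primorial (zz (2 ^ k))) H₀ H hH₀1 hH₀H (by omega)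
  have hΛ := Lam_le k H hk
  have hΛ0 : 0 ≤ Lam k H := LL_nonneg _ _
  have hmain : |(H₀ : ℝ) * Lam k H₀ - H * Lam k H| ≤ H * (2 * Real.exp 12 + 2 * ((k : ℝ) / 2 ^ u)) := by
    have e1 : (H₀ : ℝ) * Lam k H₀ - H * Lam k H = H₀ * (Lam k H₀ - Lam k H) - (H - H₀) * Lam k H := by ring
    have h3 : (H : ℝ) - H₀ ≤ 2 ^ i := by
      have : H ≤ H₀ + 2 ^ i := by omega
      have : (H : ℝ) ≤ H₀ + 2 ^ i := by exact_mod_cast this
      linarith
    have h4 : (H : ℝ) / 2 ^ (2 * u) ≤ H / 2 ^ u := by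
      gcongr
      · norm_num
      · omega
    have h5 : ((H : ℝ) - H₀) * Lam k H ≤ H / 2 ^ u * (2 * k) := by
      apply mul_le_mul (h3.trans (h2ir'.trans h4)) (by linarith) hΛ0 (by positivity)
    have h6 : 0 ≤ ((H : ℝ) - H₀) * Lam k H := mul_nonneg (by linarith) hΛ0
    have h7 : (H₀ : ℝ) * (Lam k H₀ - Lam k H) ≤ H * (2 * Real.exp 12) := by
      apply mul_le_mul hH₀r _ _ hH0.le
      · exact hstep.2
      · have := hstep.1
        unfold Lam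
        linarith
    have h8 : 0 ≤ (H₀ : ℝ) * (Lam k H₀ - Lam k H) := by
      apply mul_nonneg (Nat.cast_nonneg _)
      have := hstep.1
      unfold Lam
      linarith
    have e2 : (H : ℝ) * (2 * Real.exp 12 + 2 * ((k : ℝ) / 2 ^ u)) = H * (2 * Real.exp 12) + H / 2 ^ u * (2 * k) := by ring
    rw [e1, e2, abs_le]
    constructor
    · have : 0 ≤ H * (2 * Real.exp 12) := by positivity
      linarith
    · have : 0 ≤ (H : ℝ) / 2 ^ u * (2 * k) := by positivity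
      linarith
  have hN1r : (2 : ℝ) ^ k ≤ N := by exact_mod_cast hN1
  have hN2r : (N : ℝ) - 2 ^ k ≤ 2 ^ k := by
    have h3 : (N : ℝ) ≤ 2 ^ (k + 1) := by exact_mod_cast hN2
    have : (2 : ℝ) ^ (k + 1) = 2 ^ k + 2 ^ k := by ring
    linarith
  have hmain2 : |((N : ℝ) - 2 ^ k) * (H₀ * Lam k H₀) - (N - 2 ^ k) * (H * Lam k H)| ≤
      2 ^ k * (H * (2 * Real.exp 12 + 2 * ((k : ℝ) / 2 ^ u))) := by
    rw [← mul_sub, abs_mul, abs_of_nonneg (by linarith : (0 : ℝ) ≤ N - 2 ^ k)]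
    apply mul_le_mul hN2r hmain (abs_nonneg _) (by positivity)
  have hA := hA₀ N hN1 hN2
  have hA' : |∑ x ∈ Ioc (2 ^ k) N, TT α x H₀ ^ 2 - (N - 2 ^ k) * (H₀ * Lam k H₀)| ≤ 2 ^ k * (H * E) :=
    hA.trans (by gcongr)
  have e3 : (2 : ℝ) ^ k * (H * (E + 2 * Real.exp 12 + 300 * ((k : ℝ) / 2 ^ u))) =
      2 ^ k * (H * (200 * ((k : ℝ) / 2 ^ u))) + 2 ^ k * (H * E) +
      2 ^ k * (H * (2 * Real.exp 12 + 2 * ((k : ℝ) / 2 ^ u))) + 2 ^ k * (H * (98 * ((k : ℝ) / 2 ^ u))) := by ring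
  have h10 : 0 ≤ (2 : ℝ) ^ k * (H * (98 * ((k : ℝ) / 2 ^ u))) := by positivity
  rw [e3]
  rw [abs_le] at hcmp2 hA' hmain2 ⊢
  constructor <;> linarith [hcmp2.1, hcmp2.2, hA'.1, hA'.2, hmain2.1, hmain2.2]

end Pool.Agent.L5helper10.RM
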