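import Pool.Agent.L5helper10.RM.G6
import Pool.Agent.H510R2.Div

/-! Almost surely all the exceptional events fail from some scale on. -/

set_option autoImplicit false
set_option linter.unusedSectionVars false

namespace Pool.Agent.L5helper10.RM

open Finset MeasureTheory ProbabilityTheory Filter

open scoped Topology

variable {Ω : Type} [MeasurableSpace Ω] {P : Measure Ω} {a : ℕ → Ω → ℕ}

lemma polyexp (n : ℕ) (b : ℝ) (hb : 0 < b) (C : ℝ) : ∀ᶠ k : ℕ in atTop, C * ((k : ℝ) + 3) ^ n ≤ (2 : ℝ) ^ (b * k) := by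
  have hr : (1 : ℝ) < (2 : ℝ) ^ b := Real.one_lt_rpow (by norm_num) hb
  have h1 := tendsto_pow_const_div_const_pow_of_one_lt n hr
  have h2 : Tendsto (fun k : ℕ => |C| * 4 ^ n * ((k : ℝ) ^ n / ((2 : ℝ) ^ b) ^ k)) atTop (𝓝 (|C| * 4 ^ n * 0)) :=
    h1.const_mul _
  rw [mul_zero] at h2
  filter_upwards [h2.eventually (eventually_lt_nhds (show (0 : ℝ) < 1 by norm_num)), eventually_ge_atTop 1] with k hk hk1
  have hk1r : (1 : ℝ) ≤ k := by exact_mod_cast hk1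
  have e : ((2 : ℝ) ^ b) ^ k = (2 : ℝ) ^ (b * k) := by rw [Real.rpow_mul (by norm_num), Real.rpow_natCast]
  rw [e] at hk
  have hp : (0 : ℝ) < (2 : ℝ) ^ (b * k) := by positivity
  have h3 : |C| * 4 ^ n * (k : ℝ) ^ n ≤ (2 : ℝ) ^ (b * k) := by
    rw [← mul_div_assoc, div_lt_one hp] at hk
    exact hk.le
  refine le_trans ?_ h3
  calc C * ((k : ℝ) + 3) ^ n ≤ |C| * ((k : ℝ) + 3) ^ n := by
        apply mul_le_mul_of_nonneg_right (le_abs_self C) (by positivity)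
    _ ≤ |C| * (4 * k) ^ n := by gcongr; linarith
    _ = _ := by rw [mul_pow]; ring

lemma Ek_small (δ : ℝ) (hδ : 0 < δ) : ∀ᶠ k : ℕ in atTop, Ek k + 3 ≤ δ * k := by
  have hlo := Real.isLittleO_log_id_atTop.def (show 0 < δ / (400 * Real.exp 12) by positivity)
  have ht : Tendsto (fun k : ℕ => (k : ℝ) + 1) atTop atTop :=
    tendsto_atTop_add_const_right _ _ tendsto_natCast_atTop_atTop
  have h2 : ∀ᶠ k : ℕ in atTop, (4 * Real.exp 12 + 6 + δ) * 2 / δ ≤ (k : ℝ) :=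
    tendsto_natCast_atTop_atTop.eventually (eventually_ge_atTop _)
  filter_upwards [ht.eventually hlo, h2] with k h3 h4
  have hk0 : (0 : ℝ) ≤ k := Nat.cast_nonneg k
  rw [Real.norm_eq_abs, id, Real.norm_eq_abs, abs_of_pos (by linarith : (0 : ℝ) < k + 1)] at h3
  have h5 := (le_abs_self _).trans h3
  rw [div_le_iff₀ hδ] at h4
  unfold Ek
  have hexp : 0 < Real.exp 12 := Real.exp_pos _
  have h6 : 80 * Real.exp 12 * Real.log ((k : ℝ) + 1) ≤ 80 * Real.exp 12 * (δ / (400 * Real.exp 12) * (k + 1)) := by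
    gcongr
  have h7 : 80 * Real.exp 12 * (δ / (400 * Real.exp 12) * ((k : ℝ) + 1)) = δ / 5 * (k + 1) := by
    field_simp; ring
  rw [h7] at h6
  have e8 : 4 * Real.exp 12 * (1 + 20 * Real.log ((k : ℝ) + 1)) = 4 * Real.exp 12 + 80 * Real.exp 12 * Real.log ((k : ℝ) + 1) := by ring
  rw [e8]
  nlinarith

lemma rpow_two_nat (k : ℕ) : (2 : ℝ) ^ (k : ℝ) = 2 ^ k := Real.rpow_natCast 2 k

/-- the level is large -/
lemma zz_pow : ∀ᶠ k : ℕ in atTop, (2 : ℝ) ^ ((k : ℝ) / 2) ≤ zz (2 ^ k) := by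
  have h1 := zz_lower (1 / 2) (by have := kap_gt; linarith)
  have ht : Tendsto (fun k : ℕ => 2 ^ k) atTop atTop := tendsto_pow_atTop_atTop_of_one_lt (by norm_num)
  filter_upwards [ht.eventually h1] with k hk
  refine le_trans (le_of_eq ?_) hk
  push_cast
  rw [← rpow_two_nat, ← Real.rpow_mul (by norm_num)]
  congr 1; ring

/-- the bad event at the scale `2^k` -/
def Bad (a : ℕ → Ω → ℕ) (ε : ℝ) (r k : ℕ) : Set Ω :=
  ⋃ m ∈ range (2 ^ (r + 1)), ⋃ i ∈ range (k + 1),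
    {ω | 1 ≤ m * 2 ^ i ∧ ((m * 2 ^ i : ℕ) : ℝ) ≤ (2 : ℝ) ^ ((1 - ε) * k) ∧
      (((m * 2 ^ i : ℕ) : ℝ) ^ 2 ≤ FV k ⌊ε / 4 * k⌋₊ (m * 2 ^ i) (fun p => a p ω) ∨
        2 ^ k * (((m * 2 ^ i : ℕ) : ℝ) * (2 : ℝ) ^ (-(ε / 8) * k)) ≤ FU k ⌊ε / 4 * k⌋₊ (m * 2 ^ i) (fun p => a p ω))}

lemma floor_facts (ε : ℝ) (hε : 0 < ε) (hε1 : ε ≤ 1) (k : ℕ) : ⌊ε / 4 * k⌋₊ ≤ k ∧
    (2 : ℝ) ^ ⌊ε / 4 * k⌋₊ ≤ (2 : ℝ) ^ (ε / 4 * k) ∧ (2 : ℝ) ^ (ε / 4 * k) ≤ 2 * (2 : ℝ) ^ ⌊ε / 4 * k⌋₊ := by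
  have hk0 : (0 : ℝ) ≤ k := Nat.cast_nonneg k
  have h1 : (⌊ε / 4 * k⌋₊ : ℝ) ≤ ε / 4 * k := Nat.floor_le (by positivity)
  have h2 : ε / 4 * k < ⌊ε / 4 * k⌋₊ + 1 := Nat.lt_floor_add_one _
  refine ⟨?_, ?_, ?_⟩
  · have : (⌊ε / 4 * k⌋₊ : ℝ) ≤ k := by nlinarith
    exact_mod_cast this
  · rw [← Real.rpow_natCast]
    exact Real.rpow_le_rpow_of_exponent_le (by norm_num) h1
  · have e : (2 : ℝ) * (2 : ℝ) ^ ⌊ε / 4 * k⌋₊ = (2 : ℝ) ^ ((⌊ε / 4 * k⌋₊ : ℝ) + 1) := by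
      rw [Real.rpow_add (by norm_num), Real.rpow_natCast, Real.rpow_one]; ring
    rw [e]
    exact Real.rpow_le_rpow_of_exponent_le (by norm_num) h2.le

lemma H_le_of {ε : ℝ} (hε : 0 < ε) (hε1 : ε ≤ 1) {k H : ℕ} (hH : (H : ℝ) ≤ (2 : ℝ) ^ ((1 - ε) * k)) :
    H ≤ 2 ^ (k - ⌊ε / 4 * k⌋₊) := by
  obtain ⟨h1, h2, h3⟩ := floor_facts ε hε hε1 k
  have hk0 : (0 : ℝ) ≤ k := Nat.cast_nonneg k
  have h4 : (2 : ℝ) ^ ((1 - ε) * k) ≤ (2 : ℝ) ^ (k - ⌊ε / 4 * k⌋₊) := by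
    rw [← Real.rpow_natCast, Nat.cast_sub h1]
    apply Real.rpow_le_rpow_of_exponent_le (by norm_num)
    have : (⌊ε / 4 * k⌋₊ : ℝ) ≤ ε / 4 * k := Nat.floor_le (by positivity)
    nlinarith
  exact_mod_cast hH.trans h4

/-- the bound for the first exceptional event -/
lemma BB_small (ε : ℝ) (hε : 0 < ε) (hε1 : ε ≤ 1) : ∃ T : ℕ → ℝ, (∀ k, 0 ≤ T k) ∧
    (∀ k n : ℕ, 1 ≤ n → n ≤ 2 * (2 ^ k) ^ 3 → tau n ≤ T k) ∧
    ∀ᶠ k : ℕ in atTop, BB k (T k) ≤ (2 : ℝ) ^ (ε / 8 * k) := by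
  obtain ⟨C, hC0, hC⟩ := Pool.Agent.H510R2.divisor_bound (ε / 400) (by positivity)
  refine ⟨fun k => C * (2 : ℝ) ^ ((3 * k + 1) * (ε / 400)), fun k => by positivity, ?_, ?_⟩
  · intro k n hn1 hn2
    refine (hC n hn1).trans ?_
    apply mul_le_mul_of_nonneg_left _ hC0.le
    rw [Real.rpow_mul (by norm_num)]
    apply Real.rpow_le_rpow (Nat.cast_nonneg _) _ (by positivity)
    have h1 : (n : ℝ) ≤ 2 * (2 ^ k) ^ 3 := by exact_mod_cast hn2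
    refine h1.trans (le_of_eq ?_)
    rw [Real.rpow_add (by norm_num), Real.rpow_one, Real.rpow_mul (by norm_num)]
    rw [mul_comm]
    congr 1
    rw [← rpow_two_nat, ← Real.rpow_natCast, ← Real.rpow_mul (by norm_num), ← Real.rpow_mul (by norm_num)]
    congr 1
    push_cast; ring
  · have h1 := polyexp 52 (ε / 8) (by positivity) 4
    have h2 := polyexp 25 (ε / 20) (by positivity) (128 * C ^ 4)
    filter_upwards [h1, h2] with k h3 h4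
    have hk0 : (0 : ℝ) ≤ k := Nat.cast_nonneg k
    have h5 : BB k (C * (2 : ℝ) ^ ((3 * k + 1) * (ε / 400))) ≤ 2 * ((k : ℝ) + 3) ^ 52 +
        32 * C ^ 4 * ((k : ℝ) + 3) ^ 25 * (2 : ℝ) ^ ((3 * k + 1) * (ε / 100)) := by
      unfold BB
      have e1 : (C * (2 : ℝ) ^ ((3 * (k : ℝ) + 1) * (ε / 400))) ^ 4 = C ^ 4 * (2 : ℝ) ^ ((3 * k + 1) * (ε / 100)) := by
        rw [mul_pow]
        congr 1
        rw [← Real.rpow_natCast, ← Real.rpow_mul (by norm_num)]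
        congr 1; push_cast; ring
      rw [e1]
      have h6 : (1 + 2 * (k : ℝ)) ^ 5 ≤ (2 * ((k : ℝ) + 3)) ^ 5 := by gcongr; linarith
      calc ((k : ℝ) + 1) ^ 8 * (2 * ((k : ℝ) + 1) ^ 44 + C ^ 4 * (2 : ℝ) ^ ((3 * k + 1) * (ε / 100)) * ((k : ℝ) + 1) ^ 12 * (1 + 2 * k) ^ 5)
          ≤ ((k : ℝ) + 3) ^ 8 * (2 * ((k : ℝ) + 3) ^ 44 + C ^ 4 * (2 : ℝ) ^ ((3 * k + 1) * (ε / 100)) * ((k : ℝ) + 3) ^ 12 * (2 * ((k : ℝ) + 3)) ^ 5) := by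
            gcongr <;> linarith
        _ = _ := by ring
    refine h5.trans ?_
    have h6 : (2 : ℝ) ^ ((3 * (k : ℝ) + 1) * (ε / 100)) ≤ 2 * (2 : ℝ) ^ (ε * 3 / 100 * k) := by
      have e2 : (3 * (k : ℝ) + 1) * (ε / 100) = ε * 3 / 100 * k + ε / 100 := by ring
      rw [e2, Real.rpow_add (by norm_num), mul_comm]
      apply mul_le_mul_of_nonneg_right _ (by positivity)
      calc (2 : ℝ) ^ (ε / 100) ≤ (2 : ℝ) ^ (1 : ℝ) := Real.rpow_le_rpow_of_exponent_le (by norm_num) (by linarith)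
        _ = 2 := Real.rpow_one 2
    have h7 : 32 * C ^ 4 * ((k : ℝ) + 3) ^ 25 * (2 : ℝ) ^ ((3 * (k : ℝ) + 1) * (ε / 100)) ≤ 1 / 2 * (2 : ℝ) ^ (ε / 8 * k) := by
      calc 32 * C ^ 4 * ((k : ℝ) + 3) ^ 25 * (2 : ℝ) ^ ((3 * (k : ℝ) + 1) * (ε / 100))
          ≤ 32 * C ^ 4 * ((k : ℝ) + 3) ^ 25 * (2 * (2 : ℝ) ^ (ε * 3 / 100 * k)) := by gcongr
        _ = 1 / 2 * ((128 * C ^ 4 * ((k : ℝ) + 3) ^ 25) * (2 : ℝ) ^ (ε * 3 / 100 * k)) := by ring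
        _ ≤ 1 / 2 * ((2 : ℝ) ^ (ε / 20 * k) * (2 : ℝ) ^ (ε * 3 / 100 * k)) := by gcongr
        _ = 1 / 2 * (2 : ℝ) ^ (ε / 20 * k + ε * 3 / 100 * k) := by rw [Real.rpow_add (by norm_num)]
        _ ≤ 1 / 2 * (2 : ℝ) ^ (ε / 8 * k) := by
            apply mul_le_mul_of_nonneg_left _ (by norm_num)
            apply Real.rpow_le_rpow_of_exponent_le (by norm_num)
            nlinarith [mul_nonneg hε.le hk0]
    linarith

lemma two_rpow_neg_mul (x y : ℝ) : (2 : ℝ) ^ (-x * y) = ((2 : ℝ) ^ (x * y))⁻¹ := by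
  rw [neg_mul, Real.rpow_neg (by norm_num)]

theorem Rnd.prob_bad (h : Rnd P a) (ε : ℝ) (hε : 0 < ε) (hε1 : ε ≤ 1) (r : ℕ) :
    ∀ᶠ k : ℕ in atTop, P.real (Bad a ε r k) ≤ (2 : ℝ) ^ (-(ε / 32) * k) := by
  have hprob := h.prob
  obtain ⟨T, hT0, hT, hTB⟩ := BB_small ε hε hε1
  have hp1 := polyexp 2 (ε / 16) (by positivity) 12
  have hp2 := polyexp 1 (ε / 32) (by positivity) (2 ^ (r + 1) * 2)
  filter_upwards [hTB, hp1, hp2, zz_pow, eventually_ge_atTop 2] with k h1 h2 h3 h4 hk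
  have hk0 : (0 : ℝ) ≤ k := Nat.cast_nonneg k
  obtain ⟨hq, hq2, hq3⟩ := floor_facts ε hε hε1 k
  obtain ⟨q, hqd⟩ : ∃ q, q = ⌊ε / 4 * k⌋₊ := ⟨_, rfl⟩
  -- each event of the grid
  have hev : ∀ m ∈ range (2 ^ (r + 1)), ∀ i ∈ range (k + 1), P.real
      {ω | 1 ≤ m * 2 ^ i ∧ ((m * 2 ^ i : ℕ) : ℝ) ≤ (2 : ℝ) ^ ((1 - ε) * k) ∧
      (((m * 2 ^ i : ℕ) : ℝ) ^ 2 ≤ FV k ⌊ε / 4 * k⌋₊ (m * 2 ^ i) (fun p => a p ω) ∨
        2 ^ k * (((m * 2 ^ i : ℕ) : ℝ) * (2 : ℝ) ^ (-(ε / 8) * k)) ≤ FU k ⌊ε / 4 * k⌋₊ (m * 2 ^ i) (fun p => a p ω))} ≤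
      2 * (2 : ℝ) ^ (-(ε / 16) * k) := by
    intro m _ i _
    obtain ⟨H, hHd⟩ : ∃ H, H = m * 2 ^ i := ⟨_, rfl⟩
    rw [← hHd, ← hqd]
    rw [← hqd] at hq hq2 hq3
    by_cases hc : 1 ≤ H ∧ (H : ℝ) ≤ (2 : ℝ) ^ ((1 - ε) * k)
    · obtain ⟨hH1, hH2⟩ := hc
      have hHL : H ≤ 2 ^ (k - q) := by rw [hqd]; exact H_le_of hε hε1 hH2
      have hH0 : (0 : ℝ) < H := by exact_mod_cast hH1
      have hsub : {ω | 1 ≤ H ∧ (H : ℝ) ≤ (2 : ℝ) ^ ((1 - ε) * k) ∧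
          ((H : ℝ) ^ 2 ≤ FV k q H (fun p => a p ω) ∨ 2 ^ k * ((H : ℝ) * (2 : ℝ) ^ (-(ε / 8) * k)) ≤ FU k q H (fun p => a p ω))} ⊆
          {ω | (H : ℝ) ^ 2 ≤ FV k q H (fun p => a p ω)} ∪
          {ω | 2 ^ k * ((H : ℝ) * (2 : ℝ) ^ (-(ε / 8) * k)) ≤ FU k q H (fun p => a p ω)} := by
        rintro ω ⟨_, _, h5 | h5⟩
        · exact Or.inl h5
        · exact Or.inr h5
      have h5 := h.probV k q H hk hq hH1 hHL (T k) (hT0 k) (fun n hn1 hn2 => hT k n hn1 (hn2.trans (by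
        gcongr
        · norm_num
        · omega)))
      have hz0 : (0 : ℝ) < zz (2 ^ k) := lt_of_lt_of_le (by positivity) h4
      have hz1 : 1 ≤ zz (2 ^ k) := by exact_mod_cast hz0
      have h6 := h.probU k q H hk hq hHL hz1 (2 ^ k * ((H : ℝ) * (2 : ℝ) ^ (-(ε / 8) * k))) (by positivity)
      have h7 : (2 : ℝ) ^ q * (BB k (T k) * (H / 2 ^ (k - q))) ≤ (2 : ℝ) ^ (-(ε / 16) * k) := by
        have e1 : (2 : ℝ) ^ (k - q) = 2 ^ k / 2 ^ q := by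
          rw [eq_div_iff (by positivity), ← pow_add, Nat.sub_add_cancel hq]
        have hBB : 0 ≤ BB k (T k) := by
          unfold BB
          have := hT0 k
          positivity
        calc (2 : ℝ) ^ q * (BB k (T k) * (H / 2 ^ (k - q))) = 2 ^ q * 2 ^ q * BB k (T k) * H / 2 ^ k := by
              rw [e1]; field_simp
          _ ≤ (2 : ℝ) ^ (ε / 4 * k) * (2 : ℝ) ^ (ε / 4 * k) * (2 : ℝ) ^ (ε / 8 * k) * (2 : ℝ) ^ ((1 - ε) * k) / 2 ^ k := by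
              gcongr
          _ = (2 : ℝ) ^ (ε / 4 * k + ε / 4 * k + ε / 8 * k + (1 - ε) * k - k) := by
              rw [Real.rpow_sub (by norm_num), Real.rpow_add (by norm_num), Real.rpow_add (by norm_num),
                Real.rpow_add (by norm_num), rpow_two_nat]
          _ ≤ _ := by
              apply Real.rpow_le_rpow_of_exponent_le (by norm_num)
              nlinarith [mul_nonneg hε.le hk0]
      have h8 : (2 ^ k * ((H : ℝ) * (4 * ((k : ℝ) + 3) ^ 2 * (1 / 2 ^ q + 1 / zz (2 ^ k))))) / (2 ^ k * ((H : ℝ) * (2 : ℝ) ^ (-(ε / 8) * k))) ≤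
          (2 : ℝ) ^ (-(ε / 16) * k) := by
        have e1 : (2 ^ k * ((H : ℝ) * (4 * ((k : ℝ) + 3) ^ 2 * (1 / 2 ^ q + 1 / zz (2 ^ k))))) / (2 ^ k * ((H : ℝ) * (2 : ℝ) ^ (-(ε / 8) * k))) =
            4 * ((k : ℝ) + 3) ^ 2 * (1 / 2 ^ q + 1 / zz (2 ^ k)) * (2 : ℝ) ^ (ε / 8 * k) := by
          rw [two_rpow_neg_mul]
          field_simp
        have h9 : (1 : ℝ) / 2 ^ q ≤ 2 * (2 : ℝ) ^ (-(ε / 4) * k) := by
          rw [two_rpow_neg_mul, div_le_iff₀ (by positivity)]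
          rw [mul_assoc, mul_comm ((2 : ℝ) ^ (ε / 4 * (k : ℝ)))⁻¹, ← mul_assoc, ← div_eq_mul_inv, le_div_iff₀ (by positivity), one_mul]
          exact hq3
        have h10 : (1 : ℝ) / zz (2 ^ k) ≤ (2 : ℝ) ^ (-(ε / 4) * k) := by
          rw [two_rpow_neg_mul, one_div]
          apply inv_anti₀ (by positivity)
          refine le_trans ?_ h4
          apply Real.rpow_le_rpow_of_exponent_le (by norm_num)
          nlinarith
        rw [e1]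
        calc 4 * ((k : ℝ) + 3) ^ 2 * (1 / 2 ^ q + 1 / zz (2 ^ k)) * (2 : ℝ) ^ (ε / 8 * k)
            ≤ 4 * ((k : ℝ) + 3) ^ 2 * (2 * (2 : ℝ) ^ (-(ε / 4) * k) + (2 : ℝ) ^ (-(ε / 4) * k)) * (2 : ℝ) ^ (ε / 8 * k) := by
              gcongr
          _ = (12 * ((k : ℝ) + 3) ^ 2) * ((2 : ℝ) ^ (-(ε / 4) * k) * (2 : ℝ) ^ (ε / 8 * k)) := by ring
          _ ≤ (2 : ℝ) ^ (ε / 16 * k) * ((2 : ℝ) ^ (-(ε / 4) * k) * (2 : ℝ) ^ (ε / 8 * k)) := by gcongr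
          _ = (2 : ℝ) ^ (ε / 16 * k + (-(ε / 4) * k + ε / 8 * k)) := by
              rw [Real.rpow_add (by norm_num), Real.rpow_add (by norm_num)]
          _ = _ := by congr 1; ring
      calc P.real _ ≤ P.real _ := measureReal_mono hsub
        _ ≤ _ := measureReal_union_le _ _
        _ ≤ (2 : ℝ) ^ (-(ε / 16) * k) + (2 : ℝ) ^ (-(ε / 16) * k) := add_le_add (h5.trans h7) (h6.trans h8)
        _ = _ := by ring
    · have : {ω | 1 ≤ H ∧ (H : ℝ) ≤ (2 : ℝ) ^ ((1 - ε) * k) ∧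
          ((H : ℝ) ^ 2 ≤ FV k q H (fun p => a p ω) ∨ 2 ^ k * ((H : ℝ) * (2 : ℝ) ^ (-(ε / 8) * k)) ≤ FU k q H (fun p => a p ω))} = ∅ := by
        ext ω
        simp only [Set.mem_ofPred_eq, Set.mem_empty_iff_false, iff_false]
        rintro ⟨b1, b2, -⟩
        exact hc ⟨b1, b2⟩
      rw [this, measureReal_empty]
      positivity
  unfold Bad
  refine (measureReal_biUnion_finset_le _ _).trans ?_
  have h5 : ∀ m ∈ range (2 ^ (r + 1)), P.real (⋃ i ∈ range (k + 1),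
    {ω | 1 ≤ m * 2 ^ i ∧ ((m * 2 ^ i : ℕ) : ℝ) ≤ (2 : ℝ) ^ ((1 - ε) * k) ∧
      (((m * 2 ^ i : ℕ) : ℝ) ^ 2 ≤ FV k ⌊ε / 4 * k⌋₊ (m * 2 ^ i) (fun p => a p ω) ∨
        2 ^ k * (((m * 2 ^ i : ℕ) : ℝ) * (2 : ℝ) ^ (-(ε / 8) * k)) ≤ FU k ⌊ε / 4 * k⌋₊ (m * 2 ^ i) (fun p => a p ω))}) ≤
      ((k : ℝ) + 1) * (2 * (2 : ℝ) ^ (-(ε / 16) * k)) := by
    intro m hm
    refine (measureReal_biUnion_finset_le _ _).trans ?_
    refine (sum_le_sum (hev m hm)).trans (le_of_eq ?_)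
    rw [sum_const, card_range, nsmul_eq_mul]
    push_cast
    ring
  refine (sum_le_sum h5).trans ?_
  rw [sum_const, card_range, nsmul_eq_mul]
  push_cast
  calc (2 : ℝ) ^ (r + 1) * (((k : ℝ) + 1) * (2 * (2 : ℝ) ^ (-(ε / 16) * k)))
      ≤ (2 ^ (r + 1) * 2 * ((k : ℝ) + 3) ^ 1) * (2 : ℝ) ^ (-(ε / 16) * k) := by
        rw [pow_one]
        have : (2 : ℝ) ^ (r + 1) * (((k : ℝ) + 1) * (2 * (2 : ℝ) ^ (-(ε / 16) * k))) = (2 ^ (r + 1) * 2 * ((k : ℝ) + 1)) * (2 : ℝ) ^ (-(ε / 16) * k) := by ring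
        rw [this]
        gcongr
        linarith
    _ ≤ (2 : ℝ) ^ (ε / 32 * k) * (2 : ℝ) ^ (-(ε / 16) * k) := by gcongr
    _ = (2 : ℝ) ^ (ε / 32 * k + -(ε / 16) * k) := by rw [Real.rpow_add (by norm_num)]
    _ = _ := by congr 1; ring

theorem Rnd.ae_not_bad (h : Rnd P a) (ε : ℝ) (hε : 0 < ε) (hε1 : ε ≤ 1) (r : ℕ) :
    ∀ᵐ ω ∂P, ∀ᶠ k : ℕ in atTop, ω ∉ Bad a ε r k := by
  have hprob := h.prob
  obtain ⟨k₀, hk₀⟩ := (h.prob_bad ε hε hε1 r).exists_forall_of_atTop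
  have hsum : Summable (fun k : ℕ => (2 : ℝ) ^ (-(ε / 32) * k)) := by
    have h1 : ∀ k : ℕ, (2 : ℝ) ^ (-(ε / 32) * k) = ((2 : ℝ) ^ (-(ε / 32))) ^ k := by
      intro k; rw [Real.rpow_mul (by norm_num), Real.rpow_natCast]
    simp_rw [h1]
    apply summable_geometric_of_lt_one (by positivity)
    exact Real.rpow_lt_one_of_one_lt_of_neg (by norm_num) (by linarith)
  have h1 : (∑' k, P (if k₀ ≤ k then Bad a ε r k else ∅)) ≠ ⊤ := by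
    refine ne_top_of_le_ne_top hsum.tsum_ofReal_ne_top (ENNReal.tsum_le_tsum fun k => ?_)
    split_ifs with hk
    · have h2 := hk₀ k hk
      rw [measureReal_def] at h2
      rw [← ENNReal.ofReal_toReal (measure_ne_top P (Bad a ε r k))]
      exact ENNReal.ofReal_le_ofReal h2
    · simp
  filter_upwards [ae_eventually_notMem h1] with ω hω
  filter_upwards [hω, eventually_ge_atTop k₀] with k h2 h3
  rwa [if_pos h3] at h2

theorem Rnd.ae_grid (h : Rnd P a) (ε : ℝ) (hε : 0 < ε) (hε1 : ε ≤ 1) (r : ℕ) :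
    ∀ᵐ ω ∂P, ∀ᶠ k : ℕ in atTop, ∀ H : ℕ, 1 ≤ H → (H : ℝ) ≤ (2 : ℝ) ^ ((1 - ε) * k) → Grid r k H →
      Asy (fun p => a p ω) k H (Ek k + 3) := by
  have hp1 := polyexp 2 (ε / 2) (by positivity) 1
  have hp2 := polyexp 1 (ε / 16) (by positivity) 8
  have hp3 := polyexp 1 (ε / 4) (by positivity) 2
  have hp4 := polyexp 1 (1 / 2) (by positivity) 1
  filter_upwards [h.ae_not_bad ε hε hε1 r] with ω hω
  filter_upwards [hω, hp1, hp2, hp3, hp4, zz_pow, eventually_ge_atTop 2, Ek_small 1 one_pos] with k h1 h2 h3 h4 h5 h6 hk h7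
  intro H hH1 hH2 hgrid
  have hk0 : (0 : ℝ) ≤ k := Nat.cast_nonneg k
  obtain ⟨hq, hq2, hq3⟩ := floor_facts ε hε hε1 k
  have hHL := H_le_of hε hε1 hH2
  obtain ⟨q, hqd⟩ : ∃ q, q = ⌊ε / 4 * k⌋₊ := ⟨_, rfl⟩
  obtain ⟨m, i, hm, hi, hHm⟩ := hgrid
  have hnb : ¬ ((H : ℝ) ^ 2 ≤ FV k q H (fun p => a p ω) ∨ 2 ^ k * ((H : ℝ) * (2 : ℝ) ^ (-(ε / 8) * k)) ≤ FU k q H (fun p => a p ω)) := by
    intro hb
    apply h1
    unfold Bad
    rw [Set.mem_iUnion₂]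
    refine ⟨m, mem_range.mpr hm, ?_⟩
    rw [Set.mem_iUnion₂]
    refine ⟨i, mem_range.mpr (by omega), ?_⟩
    rw [← hHm, ← hqd]
    exact ⟨hH1, hH2, hb⟩
  push Not at hnb
  rw [← hqd] at hq hq2 hq3 hHL
  have hH0 : (0 : ℝ) < H := by exact_mod_cast hH1
  have hzk : (k : ℝ) ≤ zz (2 ^ k) := by
    refine le_trans ?_ h6
    have e : (1 : ℝ) / 2 * k = k / 2 := by ring
    rw [e] at h5
    refine le_trans ?_ h5
    rw [pow_one]; linarith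
  have hz0 : (0 : ℝ) < zz (2 ^ k) := lt_of_lt_of_le (by positivity) h6
  have hzsq : (2 : ℝ) ^ k ≤ (zz (2 ^ k) : ℝ) ^ 2 := by
    calc (2 : ℝ) ^ k = ((2 : ℝ) ^ ((k : ℝ) / 2)) ^ 2 := by
          rw [← Real.rpow_natCast ((2 : ℝ) ^ ((k : ℝ) / 2)), ← Real.rpow_mul (by norm_num), ← rpow_two_nat]
          congr 1; push_cast; ring
      _ ≤ _ := by gcongr
  intro N hN1 hN2
  apply scale_grid (fun p => a p ω) k q H hk hq hH1 hHL hzk hnb.1.le ((2 : ℝ) ^ (-(ε / 8) * k)) (4 * (2 : ℝ) ^ (-(ε / 8) * k))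
    ((2 : ℝ) ^ (-(ε / 16) * k)) hnb.2.le ?_ (by positivity) ?_ ?_ ?_ N hN1 hN2
  · have h8 : (H : ℝ) * ((k : ℝ) + 3) ^ 2 / zz (2 ^ k) ^ 2 ≤ (2 : ℝ) ^ (-(ε / 8) * k) := by
      calc (H : ℝ) * ((k : ℝ) + 3) ^ 2 / zz (2 ^ k) ^ 2 ≤ (2 : ℝ) ^ ((1 - ε) * k) * (2 : ℝ) ^ (ε / 2 * k) / 2 ^ k := by
            rw [one_mul] at h2
            gcongr
        _ = (2 : ℝ) ^ ((1 - ε) * k + ε / 2 * k - k) := by
            rw [Real.rpow_sub (by norm_num), Real.rpow_add (by norm_num), rpow_two_nat]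
        _ ≤ _ := by
            apply Real.rpow_le_rpow_of_exponent_le (by norm_num)
            nlinarith [mul_nonneg hε.le hk0]
    linarith
  · have h8 : (2 : ℝ) ^ (-(ε / 16) * k) * ((k : ℝ) + 1 + Ek k) ≤ (2 : ℝ) ^ (-(ε / 16) * k) * (2 : ℝ) ^ (ε / 16 * k) := by
      apply mul_le_mul_of_nonneg_left _ (by positivity)
      refine le_trans ?_ h3
      rw [pow_one]
      linarith
    refine h8.trans (le_of_eq ?_)
    rw [two_rpow_neg_mul, inv_mul_cancel₀ (by positivity)]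
  · have e1 : (1 : ℝ) / (2 : ℝ) ^ (-(ε / 16) * k) = (2 : ℝ) ^ (ε / 16 * k) := by
      rw [two_rpow_neg_mul, one_div, inv_inv]
    rw [e1]
    have h9 : (1 : ℝ) ≤ (2 : ℝ) ^ (ε / 16 * k) := Real.one_le_rpow (by norm_num) (by positivity)
    have h10 : (8 : ℝ) ≤ (2 : ℝ) ^ (ε / 16 * k) := by
      refine le_trans ?_ h3
      rw [pow_one]; linarith
    have e2 : (2 : ℝ) ^ (-(ε / 8) * k) = ((2 : ℝ) ^ (ε / 16 * k))⁻¹ * ((2 : ℝ) ^ (ε / 16 * k))⁻¹ := by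
      rw [two_rpow_neg_mul, ← mul_inv, ← Real.rpow_add (by norm_num)]
      congr 2; ring
    rw [e2]
    obtain ⟨w, hw⟩ : ∃ w, w = (2 : ℝ) ^ (ε / 16 * k) := ⟨_, rfl⟩
    rw [← hw] at h9 h10 ⊢
    have hw0 : 0 < w := by linarith
    have e3 : (1 + w) * (4 * (w⁻¹ * w⁻¹)) = 4 * (1 + w) / (w * w) := by field_simp
    rw [e3, div_le_one (by positivity)]
    nlinarith
  · have h8 : (2 : ℝ) * ((k : ℝ) + 3) ≤ 2 * 2 ^ q := by
      refine le_trans ?_ hq3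
      refine le_trans ?_ h4
      rw [pow_one]
    linarith

/-- **the law of the mean square at all large scales** -/
theorem Rnd.ae_all (h : Rnd P a) : ∀ᵐ ω ∂P, ∀ ε : ℝ, 0 < ε → ∀ δ : ℝ, 0 < δ → ∀ᶠ k : ℕ in atTop, ∀ H : ℕ, 1 ≤ H →
    (H : ℝ) ≤ (2 : ℝ) ^ ((1 - ε) * k) → Asy (fun p => a p ω) k H (δ * k) := by
  have h1 : ∀ᵐ ω ∂P, ∀ n u : ℕ, ∀ᶠ k : ℕ in atTop, ∀ H : ℕ, 1 ≤ H →
      (H : ℝ) ≤ (2 : ℝ) ^ ((1 - 1 / ((n : ℝ) + 1)) * k) → Grid (2 * u) k H → Asy (fun p => a p ω) k H (Ek k + 3) := by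
    rw [ae_all_iff]
    intro n
    rw [ae_all_iff]
    intro u
    apply h.ae_grid (1 / ((n : ℝ) + 1)) (by positivity)
    rw [div_le_one (by positivity)]
    have : (0 : ℝ) ≤ n := Nat.cast_nonneg n
    linarith
  filter_upwards [h1] with ω hω
  intro ε hε δ hδ
  obtain ⟨n, hn⟩ := exists_nat_gt (1 / ε)
  have hn0 : (0 : ℝ) < (n : ℝ) + 1 := by positivity
  have hnε : 1 / ((n : ℝ) + 1) ≤ ε := by
    rw [div_le_iff₀ hn0]
    rw [div_lt_iff₀ hε] at hn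
    nlinarith
  obtain ⟨u, hu⟩ := pow_unbounded_of_one_lt (900 / δ) (show (1 : ℝ) < 2 by norm_num)
  have h2 := hω n u
  have h3 := (tendsto_add_atTop_nat 1).eventually h2
  have h4 : ∀ᶠ k : ℕ in atTop, 2 * Real.exp 12 ≤ δ / 3 * (k : ℝ) := by
    have : Tendsto (fun k : ℕ => δ / 3 * (k : ℝ)) atTop atTop :=
      tendsto_natCast_atTop_atTop.const_mul_atTop (by positivity)
    exact this.eventually (eventually_ge_atTop _)
  filter_upwards [h2, h3, h4, Ek_small (δ / 3) (by positivity), Ek_small (1 / 2) (by norm_num), eventually_ge_atTop 2,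
    (tendsto_add_atTop_nat 1).eventually (Ek_small (1 / 2) (by norm_num)),
    (tendsto_add_atTop_nat 1).eventually (Ek_small (δ / 6) (by positivity))] with k h5 h6 h7 h8 h9 hk h9' h8'
  intro H hH1 hH2
  have hk0 : (0 : ℝ) ≤ k := Nat.cast_nonneg k
  obtain ⟨B, hB⟩ : ∃ B : ℝ, B = (2 : ℝ) ^ ((1 - 1 / ((n : ℝ) + 1)) * k) := ⟨_, rfl⟩
  have hn1 : 1 / ((n : ℝ) + 1) ≤ 1 := by
    rw [div_le_one hn0]
    have : (0 : ℝ) ≤ n := Nat.cast_nonneg n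
    linarith
  have hB1 : B ≤ 2 ^ k := by
    rw [hB, ← rpow_two_nat]
    apply Real.rpow_le_rpow_of_exponent_le (by norm_num)
    have : 0 ≤ 1 / ((n : ℝ) + 1) := by positivity
    nlinarith
  have hHB : (H : ℝ) ≤ B := by
    refine hH2.trans ?_
    rw [hB]
    apply Real.rpow_le_rpow_of_exponent_le (by norm_num)
    nlinarith
  have hEmax : 0 ≤ max (Ek k + 3) (Ek (k + 1) + 3) := le_max_of_le_left (by have := Ek_nonneg k; linarith)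
  have hEle : max (Ek k + 3) (Ek (k + 1) + 3) ≤ (k : ℝ) + 1 := by
    apply max_le
    · linarith
    · push_cast at h9'; linarith
  have hmono : ∀ (k' H' : ℕ) (E E' : ℝ), E ≤ E' → Asy (fun p => a p ω) k' H' E → Asy (fun p => a p ω) k' H' E' := by
    intro k' H' E E' hE hA N hN1 hN2
    refine (hA N hN1 hN2).trans ?_
    gcongr
  have h10 := chain (fun p => a p ω) k u B hB1 hk (max (Ek k + 3) (Ek (k + 1) + 3)) hEmax hEle
    (fun H' hH'1 hH'2 hg => hmono k H' _ _ (le_max_left _ _) (h5 H' hH'1 (by rwa [hB] at hH'2) hg))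
    (fun H' hH'1 hH'2 hg => hmono (k + 1) H' _ _ (le_max_right _ _) (h6 H' hH'1 (by
      refine hH'2.trans ?_
      rw [hB]
      apply Real.rpow_le_rpow_of_exponent_le (by norm_num)
      push_cast
      nlinarith) hg)) H hH1 hHB
  refine hmono k H _ _ ?_ h10
  have hk1 : (2 : ℝ) ≤ k := by exact_mod_cast hk
  have h11 : max (Ek k + 3) (Ek (k + 1) + 3) ≤ δ / 3 * k := by
    apply max_le h8
    push_cast at h8'
    nlinarith
  have h12 : 300 * ((k : ℝ) / 2 ^ u) ≤ δ / 3 * k := by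
    have h13 : (300 : ℝ) / 2 ^ u ≤ δ / 3 := by
      rw [div_le_div_iff₀ (by positivity) (by norm_num)]
      rw [div_lt_iff₀ hδ] at hu
      linarith
    calc 300 * ((k : ℝ) / 2 ^ u) = 300 / 2 ^ u * k := by ring
      _ ≤ _ := by gcongr
  linarith

end Pool.Agent.L5helper10.RM
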