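import Pool.Agent.L5helper10.RM.G7

/-! From the dyadic scales to the sums over `(A, N]`. -/

set_option autoImplicit false
set_option linter.unusedSectionVars false

namespace Pool.Agent.L5helper10.RM

open Finset Filter

open scoped Topology

/-- the law at all large scales -/
def Law (α : ℕ → ℕ) : Prop := ∀ ε : ℝ, 0 < ε → ∀ δ : ℝ, 0 < δ → ∀ᶠ k : ℕ in atTop, ∀ H : ℕ, 1 ≤ H →
    (H : ℝ) ≤ (2 : ℝ) ^ ((1 - ε) * k) → Asy α k H (δ * k)

lemma dyadic_sum (g : ℕ → ℝ) (a b : ℕ) (hab : a ≤ b) :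
    ∑ x ∈ Ioc (2 ^ a) (2 ^ b), g x = ∑ k ∈ Ico a b, ∑ x ∈ Ioc (2 ^ k) (2 ^ (k + 1)), g x := by
  induction b, hab using Nat.le_induction with
  | base => simp
  | succ b hb ih =>
    rw [sum_Ico_succ_top hb, ← ih]
    have e1 : Ioc (2 ^ a) (2 ^ (b + 1)) = Ioc (2 ^ a) (2 ^ b) ∪ Ioc (2 ^ b) (2 ^ (b + 1)) :=
      (Ioc_union_Ioc_eq_Ioc (Nat.pow_le_pow_right (by norm_num) hb)
        (Nat.pow_le_pow_right (by norm_num) (by omega))).symm
    rw [e1, sum_union (Ioc_disjoint_Ioc_of_le le_rfl)]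

lemma TT_pieces (α : ℕ → ℕ) (b q x : ℕ) : TT α x (q * b) = ∑ l ∈ range q, TT α (x + l * b) b := by
  induction q with
  | zero => simp [TT_zero]
  | succ q ih => rw [sum_range_succ, ← ih, add_mul, one_mul, TT_add]

lemma shift_le (α : ℕ → ℕ) (k s b : ℕ) (hs : s ≤ 8 * 2 ^ k) :
    ∑ x ∈ Ioc (2 ^ k) (2 ^ (k + 1)), TT α (x + s) b ^ 2 ≤ ∑ x ∈ Ioc (2 ^ k) (2 ^ (k + 5)), TT α x b ^ 2 := by
  have e1 : ∑ x ∈ Ioc (2 ^ k) (2 ^ (k + 1)), TT α (x + s) b ^ 2 =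
      ∑ x ∈ (Ioc (2 ^ k) (2 ^ (k + 1))).image (fun x => x + s), TT α x b ^ 2 := by
    rw [sum_image (by intro a _ b _ h; simpa using h)]
  rw [e1]
  apply sum_le_sum_of_subset_of_nonneg
  · intro x hx
    rw [mem_image] at hx
    obtain ⟨y, hy, rfl⟩ := hx
    rw [mem_Ioc] at hy ⊢
    have h1 : 2 ^ (k + 5) = 32 * 2 ^ k := by ring
    have h2 : 2 ^ (k + 1) = 2 * 2 ^ k := by ring
    omega
  · intro _ _ _; exact sq_nonneg _

/-- the crude bound for the long intervals -/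
theorem crude {α : ℕ → ℕ} (hA : Law α) (η : ℝ) (hη : 0 < η) (hη1 : η ≤ 1) : ∀ᶠ k : ℕ in atTop, ∀ h : ℕ, 1 ≤ h → h ≤ 8 * 2 ^ k →
    ∑ x ∈ Ioc (2 ^ k) (2 ^ (k + 1)), TT α x h ^ 2 ≤ 2 ^ k * (h * (2 : ℝ) ^ (η * k)) := by
  obtain ⟨k₀, hk₀⟩ := (hA (η / 2) (by positivity) 1 one_pos).exists_forall_of_atTop
  have hp := polyexp 1 (η / 2) (by positivity) 4216
  filter_upwards [eventually_ge_atTop k₀, eventually_ge_atTop 5, hp] with k hk hk5 hp
  have hk0 : (5 : ℝ) ≤ k := by exact_mod_cast hk5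
  obtain ⟨B, hB⟩ : ∃ B : ℝ, B = (2 : ℝ) ^ ((1 - η / 2) * k) := ⟨_, rfl⟩
  have hB1 : 1 ≤ B := by
    rw [hB]; apply Real.one_le_rpow (by norm_num)
    apply mul_nonneg (by linarith) (by linarith)
  -- the bound for the short lengths
  have hshort : ∀ b : ℕ, (b : ℝ) ≤ B → ∑ x ∈ Ioc (2 ^ k) (2 ^ (k + 5)), TT α x b ^ 2 ≤ 2 ^ k * (124 * (k : ℝ)) * b := by
    intro b hb
    rcases Nat.eq_zero_or_pos b with hb0 | hb0
    · subst hb0; simp [TT_zero]
    rw [dyadic_sum _ k (k + 5) (by omega)]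
    have h1 : ∀ k' ∈ Ico k (k + 5), ∑ x ∈ Ioc (2 ^ k') (2 ^ (k' + 1)), TT α x b ^ 2 ≤ 2 ^ k' * (b * (4 * (k : ℝ))) := by
      intro k' hk'
      rw [mem_Ico] at hk'
      have h2 := (hk₀ k' (by omega) b hb0 (by
        refine hb.trans ?_
        rw [hB]
        apply Real.rpow_le_rpow_of_exponent_le (by norm_num)
        apply mul_le_mul_of_nonneg_left _ (by linarith)
        exact_mod_cast hk'.1)).full (by omega)
      refine h2.trans ?_
      have h3 : (k' : ℝ) ≤ k + 4 := by exact_mod_cast (by omega : k' ≤ k + 4)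
      apply mul_le_mul_of_nonneg_left _ (by positivity)
      apply mul_le_mul_of_nonneg_left _ (by positivity)
      rw [one_mul]
      linarith
    refine (sum_le_sum h1).trans (le_of_eq ?_)
    rw [← sum_mul, sum_Ico_eq_sum_range, Nat.add_sub_cancel_left]
    simp only [pow_add, ← mul_sum]
    have : ∑ i ∈ range 5, (2 : ℝ) ^ i = 31 := by simp [sum_range_succ]; norm_num
    rw [this]
    ring
  intro h hh1 hh2
  have hh0 : (0 : ℝ) < h := by exact_mod_cast hh1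
  obtain ⟨b, hb⟩ : ∃ b, b = ⌊B⌋₊ := ⟨_, rfl⟩
  have hb1 : 1 ≤ b := by rw [hb]; exact Nat.le_floor (by exact_mod_cast hB1)
  have hbB : (b : ℝ) ≤ B := by rw [hb]; exact Nat.floor_le (by linarith)
  have hbr : (1 : ℝ) ≤ b := by exact_mod_cast hb1
  have hBb : B ≤ 2 * b := by
    have : B < b + 1 := by rw [hb]; exact Nat.lt_floor_add_one B
    linarith
  obtain ⟨q, hq⟩ : ∃ q, q = h / b := ⟨_, rfl⟩
  obtain ⟨h', hh'⟩ : ∃ h', h' = h % b := ⟨_, rfl⟩
  have hdec : h = q * b + h' := by rw [hq, hh', mul_comm]; exact (Nat.div_add_mod h b).symm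
  have hh'b : h' < b := by rw [hh']; exact Nat.mod_lt _ hb1
  have hqb : q * b ≤ h := by omega
  have hqbr : (q : ℝ) * b ≤ h := by exact_mod_cast hqb
  have hh'r : (h' : ℝ) ≤ h := by exact_mod_cast (by omega : h' ≤ h)
  have h1 : ∀ x, TT α x h ^ 2 ≤ 2 * (q * ∑ l ∈ range q, TT α (x + l * b) b ^ 2) + 2 * TT α (x + q * b) h' ^ 2 := by
    intro x
    have e1 : TT α x h = ∑ l ∈ range q, TT α (x + l * b) b + TT α (x + q * b) h' := by
      rw [← TT_pieces, ← TT_add, ← hdec]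
    have e2 := sq_sum_le_card_mul_sum_sq (s := range q) (f := fun l => TT α (x + l * b) b)
    rw [card_range] at e2
    rw [e1]
    nlinarith [sq_nonneg (∑ l ∈ range q, TT α (x + l * b) b - TT α (x + q * b) h')]
  have h2 : ∑ x ∈ Ioc (2 ^ k) (2 ^ (k + 1)), TT α x h ^ 2 ≤
      2 * (q * (q * (2 ^ k * (124 * (k : ℝ)) * b))) + 2 * (2 ^ k * (124 * (k : ℝ)) * h') := by
    refine (sum_le_sum fun x _ => h1 x).trans ?_
    rw [sum_add_distrib, ← mul_sum, ← mul_sum, ← mul_sum, sum_comm]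
    have h3 : ∑ l ∈ range q, ∑ x ∈ Ioc (2 ^ k) (2 ^ (k + 1)), TT α (x + l * b) b ^ 2 ≤ q * (2 ^ k * (124 * (k : ℝ)) * b) := by
      have h4 : ∀ l ∈ range q, ∑ x ∈ Ioc (2 ^ k) (2 ^ (k + 1)), TT α (x + l * b) b ^ 2 ≤ 2 ^ k * (124 * (k : ℝ)) * b := by
        intro l hl
        rw [mem_range] at hl
        refine (shift_le α k (l * b) b ?_).trans (hshort b hbB)
        have : l * b ≤ q * b := Nat.mul_le_mul_right _ hl.le
        omega
      refine (sum_le_sum h4).trans (le_of_eq ?_)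
      rw [sum_const, card_range, nsmul_eq_mul]
    have h5 : ∑ x ∈ Ioc (2 ^ k) (2 ^ (k + 1)), TT α (x + q * b) h' ^ 2 ≤ 2 ^ k * (124 * (k : ℝ)) * h' := by
      refine (shift_le α k (q * b) h' (by omega)).trans (hshort h' ?_)
      have : (h' : ℝ) ≤ b := by exact_mod_cast hh'b.le
      linarith
    have hq0 : (0 : ℝ) ≤ q := Nat.cast_nonneg q
    have := mul_le_mul_of_nonneg_left h3 hq0
    linarith
  refine h2.trans ?_
  have h3 : (q : ℝ) ≤ 16 * (2 : ℝ) ^ (η / 2 * k) := by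
    have h4 : (q : ℝ) * b ≤ 8 * 2 ^ k := by
      refine hqbr.trans ?_
      exact_mod_cast hh2
    have h5 : (q : ℝ) * B ≤ 16 * 2 ^ k := by
      have : (q : ℝ) * B ≤ q * (2 * b) := by gcongr
      linarith
    have h6 : B * (2 : ℝ) ^ (η / 2 * k) = 2 ^ k := by
      rw [hB, ← Real.rpow_add (by norm_num), ← rpow_two_nat]
      congr 1; ring
    have hB0 : 0 < B := by linarith
    have h7 : (q : ℝ) * B ≤ (16 * (2 : ℝ) ^ (η / 2 * k)) * B := by
      rw [mul_assoc, mul_comm ((2 : ℝ) ^ (η / 2 * (k : ℝ))), h6]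
      exact h5
    exact le_of_mul_le_mul_right h7 hB0
  have h4 : (1 : ℝ) ≤ (2 : ℝ) ^ (η / 2 * k) := Real.one_le_rpow (by norm_num) (by positivity)
  have hq0 : (0 : ℝ) ≤ q := Nat.cast_nonneg q
  calc 2 * ((q : ℝ) * (q * (2 ^ k * (124 * (k : ℝ)) * b))) + 2 * (2 ^ k * (124 * (k : ℝ)) * h')
      = 2 * (2 ^ k * (124 * (k : ℝ))) * (q * (q * b) + h') := by ring
    _ ≤ 2 * (2 ^ k * (124 * (k : ℝ))) * (q * h + h) := by gcongr
    _ = 2 ^ k * (h * (248 * k * (q + 1))) := by ring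
    _ ≤ 2 ^ k * (h * (248 * k * (16 * (2 : ℝ) ^ (η / 2 * k) + (2 : ℝ) ^ (η / 2 * k)))) := by gcongr
    _ = 2 ^ k * (h * ((4216 * k) * (2 : ℝ) ^ (η / 2 * k))) := by ring
    _ ≤ 2 ^ k * (h * ((2 : ℝ) ^ (η / 2 * k) * (2 : ℝ) ^ (η / 2 * k))) := by
        have : 4216 * (k : ℝ) ≤ (2 : ℝ) ^ (η / 2 * k) := by
          refine le_trans ?_ hp
          rw [pow_one]
          linarith
        gcongr
    _ = _ := by
        rw [← Real.rpow_add (by norm_num)]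
        congr 3; ring

lemma sum_pow_lin (K : ℕ) : ∑ k ∈ range K, (2 : ℝ) ^ k * ((K : ℝ) - k + 2) ≤ 4 * 2 ^ K - K - 4 := by
  induction K with
  | zero => norm_num
  | succ K ih =>
    rw [sum_range_succ]
    have h1 : ∑ k ∈ range K, (2 : ℝ) ^ k * (((K + 1 : ℕ) : ℝ) - k + 2) =
        ∑ k ∈ range K, (2 : ℝ) ^ k * ((K : ℝ) - k + 2) + ∑ k ∈ range K, (2 : ℝ) ^ k := by
      rw [← sum_add_distrib]
      refine sum_congr rfl fun k _ => ?_
      push_cast; ring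
    have h2 : ∑ k ∈ range K, (2 : ℝ) ^ k = 2 ^ K - 1 := by
      have := geom_sum_eq (show (2 : ℝ) ≠ 1 by norm_num) K
      rw [this]; norm_num
    rw [h1, h2]
    push_cast
    have h3 : (2 : ℝ) ^ (K + 1) = 2 * 2 ^ K := by ring
    rw [h3]
    nlinarith

/-- comparison of the main terms of two levels -/
lemma Lam_compare (k N h : ℕ) (hk : 2 ≤ k) (hN : 2 ^ k ≤ N) (hz : (k : ℝ) ≤ zz (2 ^ k)) (j : ℝ)
    (hj : Real.log N ≤ Real.log ((2 ^ k : ℕ) : ℝ) + j) :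
    |LL (primorial (zz N)) h - Lam k h| ≤ j + 1 := by
  have hk0 : (0 : ℝ) < k := by exact_mod_cast (by omega : 0 < k)
  have hzr : (0 : ℝ) < zz (2 ^ k) := hk0.trans_le hz
  have hz1 : 1 ≤ zz (2 ^ k) := by exact_mod_cast hzr
  have h1 := LL_diff (squarefree_primorial (zz N)) (primorial_dvd_primorial (zz_mono' hN)) h
  rw [VP_eq, VP_eq] at h1
  have h3 := VP_zz_le N ((two_pow_ge hk).trans hN)
  have h6 := log_sub_VP (2 ^ k) (two_pow_ge hk) hz1
  have h8 : Real.log ((2 ^ k : ℕ) : ℝ) / zz (2 ^ k) ≤ 1 := by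
    rw [div_le_one hzr]
    exact (log_two_pow k).trans hz
  unfold Lam
  rw [abs_of_nonneg (by linarith [h1.1])]
  linarith [h1.2]

end Pool.Agent.L5helper10.RM
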