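import Pool.Agent.L5helper10.RM.G8

/-! The sums over `(A, N]`. -/

set_option autoImplicit false
set_option linter.unusedSectionVars false

namespace Pool.Agent.L5helper10.RM

open Finset Filter

open scoped Topology

lemma zz_ge : ∀ᶠ k : ℕ in atTop, (k : ℝ) ≤ zz (2 ^ k) := by
  have hp := polyexp 1 (1 / 2) (by positivity) 1
  filter_upwards [hp, zz_pow] with k h5 h6
  refine le_trans ?_ h6
  have e : (1 : ℝ) / 2 * k = k / 2 := by ring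
  rw [e] at h5
  refine le_trans ?_ h5
  rw [pow_one]; linarith

theorem sum_law {α : ℕ → ℕ} (hA : Law α) (ε : ℝ) (hε : 0 < ε) (hε1 : ε ≤ 1) (δ : ℝ) (hδ : 0 < δ) :
    ∀ᶠ N : ℕ in atTop, ∀ h : ℕ, (N : ℝ) ^ ε ≤ h → (h : ℝ) ≤ (N : ℝ) ^ (1 - ε) → ∀ A : ℕ, h ≤ 4 * A →
      (A : ℝ) ≤ (N : ℝ) ^ (1 - ε / 2) → A ≤ N →
      |∑ m ∈ Ioc A N, TT α m h ^ 2 - N * (h * LL (primorial (zz N)) h)| ≤ δ * (N * (h * Real.log N)) := by
  obtain ⟨k₁, hk₁⟩ := (hA (ε / 2) (by positivity) (δ / 16) (by positivity)).exists_forall_of_atTop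
  obtain ⟨k₂, hk₂⟩ := (crude hA (ε / 16) (by positivity) (by linarith)).exists_forall_of_atTop
  obtain ⟨k₃, hk₃⟩ := zz_ge.exists_forall_of_atTop
  have hKev : ∀ᶠ K : ℕ in atTop, (16 / δ ≤ (2 : ℝ) ^ (3 * ε / 16 * K)) ∧ (16 / δ ≤ (2 : ℝ) ^ (ε / 4 * K)) ∧
      (96 / δ ≤ (K : ℝ)) ∧ (8 + k₂ ≤ ε * K) ∧ (2 * ((k₁ : ℝ) + k₃ + 2) ≤ K) := by
    have h1 := polyexp 0 (3 * ε / 16) (by positivity) (16 / δ)
    have h2 := polyexp 0 (ε / 4) (by positivity) (16 / δ)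
    have ht : Tendsto (fun k : ℕ => (k : ℝ)) atTop atTop := tendsto_natCast_atTop_atTop
    have h3 := ht.eventually (eventually_ge_atTop (96 / δ))
    have h4 := (ht.const_mul_atTop hε).eventually (eventually_ge_atTop (8 + (k₂ : ℝ)))
    have h5 := ht.eventually (eventually_ge_atTop (2 * ((k₁ : ℝ) + k₃ + 2)))
    filter_upwards [h1, h2, h3, h4, h5] with K a1 a2 a3 a4 a5
    rw [pow_zero, mul_one] at a1 a2
    exact ⟨a1, a2, a3, a4, a5⟩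
  obtain ⟨K₀, hK₀⟩ := hKev.exists_forall_of_atTop
  filter_upwards [eventually_ge_atTop (2 ^ K₀), eventually_ge_atTop 4] with N hN hN4
  obtain ⟨K, hK⟩ : ∃ K, K = Nat.log 2 N := ⟨_, rfl⟩
  have hK1 : 2 ^ K ≤ N := by rw [hK]; exact Nat.pow_log_le_self 2 (by omega)
  have hK2 : N < 2 ^ (K + 1) := by rw [hK]; exact Nat.lt_pow_succ_log_self (by norm_num) N
  have hK3 : K₀ ≤ K := by rw [hK]; exact Nat.le_log_of_pow_le (by norm_num) hN
  obtain ⟨b1, b2, b3, b4, b5⟩ := hK₀ K hK3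
  have hKr : (0 : ℝ) ≤ K := Nat.cast_nonneg K
  have hk₁r : (0 : ℝ) ≤ k₁ := Nat.cast_nonneg k₁
  have hk₂r : (0 : ℝ) ≤ k₂ := Nat.cast_nonneg k₂
  have hk₃r : (0 : ℝ) ≤ k₃ := Nat.cast_nonneg k₃
  have hNr : (2 : ℝ) ^ K ≤ N := by exact_mod_cast hK1
  have hNr2 : (N : ℝ) ≤ (2 : ℝ) ^ ((K : ℝ) + 1) := by
    have : (N : ℝ) ≤ 2 ^ (K + 1) := by exact_mod_cast hK2.le
    refine this.trans (le_of_eq ?_)
    rw [← rpow_two_nat]; congr 1; push_cast; ring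
  have hN0 : (0 : ℝ) < N := lt_of_lt_of_le (by positivity) hNr
  have hlogN : (K : ℝ) / 2 ≤ Real.log N := by
    have h1 := Real.log_le_log (by positivity) hNr
    rw [Real.log_pow] at h1
    have := Real.log_two_gt_d9
    nlinarith
  have hlogN2 : Real.log N ≤ K + 1 := by
    have h1 : Real.log N ≤ Real.log ((2 ^ (K + 1) : ℕ) : ℝ) := Real.log_le_log hN0 (by exact_mod_cast hK2.le)
    have h2 := log_two_pow (K + 1)
    push_cast at h2 h1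
    linarith
  -- the first scale
  obtain ⟨s, hs⟩ : ∃ s, s = ⌊ε / 4 * K⌋₊ := ⟨_, rfl⟩
  obtain ⟨hsK, hs2, hs3⟩ := floor_facts ε hε hε1 K
  rw [← hs] at hsK hs2 hs3
  have hsr : (s : ℝ) ≤ ε / 4 * K := by rw [hs]; exact Nat.floor_le (by positivity)
  have hsr2 : ε / 4 * K < s + 1 := by rw [hs]; exact Nat.lt_floor_add_one _
  obtain ⟨l, hl⟩ : ∃ l, l = K - s := ⟨_, rfl⟩
  have hlr : (l : ℝ) = K - s := by rw [hl, Nat.cast_sub hsK]
  have hl1 : (1 - ε / 4) * K ≤ l := by rw [hlr]; linarith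
  have hlK : l ≤ K := by omega
  have hl2 : (K : ℝ) / 2 ≤ l := by nlinarith
  have hlk₁ : k₁ ≤ l := by
    have : (k₁ : ℝ) ≤ l := by linarith
    exact_mod_cast this
  have hlk₃ : k₃ ≤ l := by
    have : (k₃ : ℝ) ≤ l := by linarith
    exact_mod_cast this
  have hl2' : 2 ≤ l := by
    have : (2 : ℝ) ≤ l := by linarith
    exact_mod_cast this
  intro h hh1 hh2 A hA1 hA2 hAN
  have hN1 : (1 : ℝ) ≤ N := by exact_mod_cast (by omega : 1 ≤ N)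
  have hhr : (1 : ℝ) ≤ h := le_trans (Real.one_le_rpow hN1 hε.le) hh1
  have hh0 : (0 : ℝ) < h := by linarith
  have hhn : 1 ≤ h := by exact_mod_cast hhr
  have hA0 : 0 < A := by omega
  -- the bounds for `A` and `h`
  have hA3 : A ≤ 2 ^ l := by
    have h1 : (A : ℝ) ≤ (2 : ℝ) ^ (l : ℝ) := by
      refine hA2.trans ?_
      calc (N : ℝ) ^ (1 - ε / 2) ≤ ((2 : ℝ) ^ ((K : ℝ) + 1)) ^ (1 - ε / 2) := Real.rpow_le_rpow hN0.le hNr2 (by linarith)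
        _ = (2 : ℝ) ^ (((K : ℝ) + 1) * (1 - ε / 2)) := by rw [← Real.rpow_mul (by norm_num)]
        _ ≤ _ := by
            apply Real.rpow_le_rpow_of_exponent_le (by norm_num)
            nlinarith
    rw [rpow_two_nat] at h1
    exact_mod_cast h1
  have hhk : ∀ k : ℕ, l ≤ k → (h : ℝ) ≤ (2 : ℝ) ^ ((1 - ε / 2) * k) := by
    intro k hk
    refine hh2.trans ?_
    have hkr : (l : ℝ) ≤ k := by exact_mod_cast hk
    calc (N : ℝ) ^ (1 - ε) ≤ ((2 : ℝ) ^ ((K : ℝ) + 1)) ^ (1 - ε) := Real.rpow_le_rpow hN0.le hNr2 (by linarith)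
      _ = (2 : ℝ) ^ (((K : ℝ) + 1) * (1 - ε)) := by rw [← Real.rpow_mul (by norm_num)]
      _ ≤ _ := by
          apply Real.rpow_le_rpow_of_exponent_le (by norm_num)
          have h1 : (1 - ε / 2) * ((1 - ε / 4) * K) ≤ (1 - ε / 2) * k :=
            mul_le_mul_of_nonneg_left (hl1.trans hkr) (by linarith)
          nlinarith [mul_nonneg (mul_nonneg hε.le hε.le) hKr]
  obtain ⟨k₀, hk₀⟩ : ∃ k₀, k₀ = Nat.log 2 A := ⟨_, rfl⟩
  have hk₀1 : 2 ^ k₀ ≤ A := by rw [hk₀]; exact Nat.pow_log_le_self 2 (by omega)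
  have hk₀2 : A < 2 ^ (k₀ + 1) := by rw [hk₀]; exact Nat.lt_pow_succ_log_self (by norm_num) A
  have hk₀l : k₀ ≤ l := by
    have : 2 ^ k₀ ≤ 2 ^ l := hk₀1.trans hA3
    exact (Nat.pow_le_pow_iff_right (by norm_num)).mp this
  have hk₀k₂ : k₂ ≤ k₀ := by
    have h1 : (2 : ℝ) ^ (ε * K) ≤ (2 : ℝ) ^ ((k₀ : ℝ) + 3) := by
      calc (2 : ℝ) ^ (ε * K) = ((2 : ℝ) ^ K) ^ ε := by
            rw [← rpow_two_nat, ← Real.rpow_mul (by norm_num), mul_comm]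
        _ ≤ (N : ℝ) ^ ε := Real.rpow_le_rpow (by positivity) hNr hε.le
        _ ≤ h := hh1
        _ ≤ 2 ^ (k₀ + 3) := by
            have : h ≤ 2 ^ (k₀ + 3) := by
              have : 2 ^ (k₀ + 3) = 4 * 2 ^ (k₀ + 1) := by ring
              omega
            exact_mod_cast this
        _ = _ := by rw [← rpow_two_nat]; congr 1; push_cast; ring
    have h2 := (Real.rpow_le_rpow_left_iff (show (1 : ℝ) < 2 by norm_num)).mp h1
    have h3 : (k₂ : ℝ) ≤ k₀ := by linarith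
    exact_mod_cast h3
  -- the small part
  have hsmall : ∑ m ∈ Ioc A (2 ^ l), TT α m h ^ 2 ≤ δ / 8 * (N * h) := by
    have h1 : ∑ m ∈ Ioc A (2 ^ l), TT α m h ^ 2 ≤ ∑ m ∈ Ioc (2 ^ k₀) (2 ^ l), TT α m h ^ 2 := by
      apply sum_le_sum_of_subset_of_nonneg
      · exact Ioc_subset_Ioc_left hk₀1
      · intro _ _ _; exact sq_nonneg _
    rw [dyadic_sum _ k₀ l hk₀l] at h1
    have h2 : ∀ k ∈ Ico k₀ l, ∑ x ∈ Ioc (2 ^ k) (2 ^ (k + 1)), TT α x h ^ 2 ≤ 2 ^ k * (h * (2 : ℝ) ^ (ε / 16 * K)) := by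
      intro k hk
      rw [mem_Ico] at hk
      have hk2 : 2 ^ k₀ ≤ 2 ^ k := Nat.pow_le_pow_right (by norm_num) hk.1
      have h3 := hk₂ k (by omega) h hhn (by
        have : 2 ^ (k₀ + 1) = 2 * 2 ^ k₀ := by ring
        omega)
      refine h3.trans ?_
      have : (k : ℝ) ≤ K := by exact_mod_cast (by omega : k ≤ K)
      gcongr
      norm_num
    refine h1.trans ((sum_le_sum h2).trans ?_)
    rw [← sum_mul]
    have h4 : ∑ k ∈ Ico k₀ l, (2 : ℝ) ^ k ≤ 2 ^ l := by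
      have h5 : ∑ k ∈ Ico k₀ l, (2 : ℝ) ^ k ≤ ∑ k ∈ range l, (2 : ℝ) ^ k := by
        apply sum_le_sum_of_subset_of_nonneg
        · intro x hx
          rw [mem_Ico] at hx
          exact mem_range.mpr hx.2
        · intro _ _ _; positivity
      have h6 : ∑ k ∈ range l, (2 : ℝ) ^ k = 2 ^ l - 1 := by
        rw [geom_sum_eq (show (2 : ℝ) ≠ 1 by norm_num) l]; norm_num
      linarith
    have h7 : (2 : ℝ) ^ l * (2 : ℝ) ^ (ε / 16 * K) ≤ δ / 8 * N := by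
      have e1 : (2 : ℝ) ^ l ≤ 2 * ((2 : ℝ) ^ K * ((2 : ℝ) ^ (ε / 4 * K))⁻¹) := by
        have h8 : (2 : ℝ) ^ l * 2 ^ s = 2 ^ K := by rw [← pow_add]; congr 1; omega
        have h9 : (2 : ℝ) ^ l = 2 ^ K / 2 ^ s := by rw [eq_div_iff (by positivity)]; exact h8
        rw [h9, ← div_eq_mul_inv, mul_div_assoc', div_le_div_iff₀ (by positivity) (by positivity)]
        calc (2 : ℝ) ^ K * (2 : ℝ) ^ (ε / 4 * K) ≤ 2 ^ K * (2 * 2 ^ s) := by gcongr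
          _ = _ := by ring
      have e2 : (2 : ℝ) ^ (ε / 4 * K) = (2 : ℝ) ^ (3 * ε / 16 * K) * (2 : ℝ) ^ (ε / 16 * K) := by
        rw [← Real.rpow_add (by norm_num)]; congr 1; ring
      calc (2 : ℝ) ^ l * (2 : ℝ) ^ (ε / 16 * K) ≤ 2 * ((2 : ℝ) ^ K * ((2 : ℝ) ^ (ε / 4 * K))⁻¹) * (2 : ℝ) ^ (ε / 16 * K) := by gcongr
        _ = 2 ^ K * (2 / (2 : ℝ) ^ (3 * ε / 16 * K)) := by rw [e2]; field_simp
        _ ≤ N * (δ / 8) := by
            apply mul_le_mul hNr _ (by positivity) hN0.le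
            rw [div_le_iff₀ (by positivity)]
            rw [div_le_iff₀ hδ] at b1
            linarith
        _ = _ := by ring
    calc (∑ k ∈ Ico k₀ l, (2 : ℝ) ^ k) * (h * (2 : ℝ) ^ (ε / 16 * K)) ≤ 2 ^ l * (h * (2 : ℝ) ^ (ε / 16 * K)) := by gcongr
      _ = (2 ^ l * (2 : ℝ) ^ (ε / 16 * K)) * h := by ring
      _ ≤ δ / 8 * N * h := by gcongr
      _ = _ := by ring
  -- the main part
  obtain ⟨Λ, hΛ⟩ : ∃ Λ, Λ = LL (primorial (zz N)) h := ⟨_, rfl⟩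
  have hΛ0 : 0 ≤ Λ := by rw [hΛ]; exact LL_nonneg _ _
  have hΛ1 : Λ ≤ Real.log N := by
    rw [hΛ]
    refine (LL_le (squarefree_primorial _) h).trans ?_
    rw [VP_eq]
    exact VP_zz_le N (by omega)
  have hcmp : ∀ k, l ≤ k → k ≤ K → |Λ - Lam k h| ≤ (K : ℝ) - k + 2 := by
    intro k hk1 hk2
    have hkN : 2 ^ k ≤ N := (Nat.pow_le_pow_right (by norm_num) hk2).trans hK1
    rw [hΛ]
    have h1 := Lam_compare k N h (by omega) hkN (hk₃ k (by omega)) ((K : ℝ) - k + 1) (by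
      have h2 : Real.log N ≤ Real.log ((2 ^ (K + 1) : ℕ) : ℝ) := Real.log_le_log hN0 (by exact_mod_cast hK2.le)
      push_cast at h2 ⊢
      rw [Real.log_pow] at h2 ⊢
      have h3 := Real.log_two_lt_d9
      have h4 : (k : ℝ) ≤ K := by exact_mod_cast hk2
      push_cast at h2
      nlinarith)
    refine h1.trans (le_of_eq ?_)
    ring
  have hbig1 : |∑ m ∈ Ioc (2 ^ l) (2 ^ K), TT α m h ^ 2 - ((2 : ℝ) ^ K - 2 ^ l) * (h * Λ)| ≤
      h * (2 ^ K * (δ / 16 * K + 4)) := by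
    rw [dyadic_sum _ l K hlK]
    have e1 : ((2 : ℝ) ^ K - 2 ^ l) * (h * Λ) = ∑ k ∈ Ico l K, 2 ^ k * (h * Λ) := by
      rw [← sum_mul]
      congr 1
      have h1 := geom_sum_Ico (show (2 : ℝ) ≠ 1 by norm_num) hlK
      rw [h1]; norm_num
    rw [e1, ← sum_sub_distrib]
    refine (abs_sum_le_sum_abs _ _).trans ?_
    have h1 : ∀ k ∈ Ico l K, |∑ x ∈ Ioc (2 ^ k) (2 ^ (k + 1)), TT α x h ^ 2 - 2 ^ k * (h * Λ)| ≤
        h * (2 ^ k * (δ / 16 * K)) + h * (2 ^ k * ((K : ℝ) - k + 2)) := by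
      intro k hk
      rw [mem_Ico] at hk
      have hkK : (k : ℝ) ≤ K := by exact_mod_cast hk.2.le
      have h2 := hk₁ k (by omega) h hhn (hhk k hk.1) (2 ^ (k + 1)) (Nat.pow_le_pow_right (by norm_num) (by omega)) le_rfl
      push_cast at h2
      have e2 : (2 : ℝ) ^ (k + 1) - 2 ^ k = 2 ^ k := by ring
      rw [e2] at h2
      have h3 := hcmp k hk.1 hk.2.le
      have h4 : |(2 : ℝ) ^ k * (h * Lam k h) - 2 ^ k * (h * Λ)| ≤ h * (2 ^ k * ((K : ℝ) - k + 2)) := by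
        have e3 : (2 : ℝ) ^ k * (h * Lam k h) - 2 ^ k * (h * Λ) = -(h * 2 ^ k * (Λ - Lam k h)) := by ring
        rw [e3, abs_neg, abs_mul, abs_of_pos (by positivity : (0 : ℝ) < h * 2 ^ k), ← mul_assoc]
        gcongr
      have h5 := abs_sub_le (∑ x ∈ Ioc (2 ^ k) (2 ^ (k + 1)), TT α x h ^ 2) ((2 : ℝ) ^ k * (h * Lam k h)) (2 ^ k * (h * Λ))
      have h6 : (2 : ℝ) ^ k * (h * (δ / 16 * k)) ≤ h * (2 ^ k * (δ / 16 * K)) := by
        calc (2 : ℝ) ^ k * (h * (δ / 16 * k)) = h * (2 ^ k * (δ / 16 * k)) := by ring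
          _ ≤ _ := by gcongr
      linarith
    refine (sum_le_sum h1).trans ?_
    rw [sum_add_distrib, ← mul_sum, ← mul_sum, ← sum_mul, ← mul_add]
    apply mul_le_mul_of_nonneg_left _ hh0.le
    have hsub : Ico l K ⊆ range K := by
      intro x hx
      rw [mem_Ico] at hx
      exact mem_range.mpr hx.2
    have h2 : ∑ k ∈ Ico l K, (2 : ℝ) ^ k ≤ 2 ^ K := by
      have h5 : ∑ k ∈ Ico l K, (2 : ℝ) ^ k ≤ ∑ k ∈ range K, (2 : ℝ) ^ k :=
        sum_le_sum_of_subset_of_nonneg hsub fun _ _ _ => by positivity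
      have h6 : ∑ k ∈ range K, (2 : ℝ) ^ k = 2 ^ K - 1 := by
        rw [geom_sum_eq (show (2 : ℝ) ≠ 1 by norm_num) K]; norm_num
      linarith
    have h3 : ∑ k ∈ Ico l K, (2 : ℝ) ^ k * ((K : ℝ) - k + 2) ≤ 4 * 2 ^ K := by
      have h5 : ∑ k ∈ Ico l K, (2 : ℝ) ^ k * ((K : ℝ) - k + 2) ≤ ∑ k ∈ range K, (2 : ℝ) ^ k * ((K : ℝ) - k + 2) := by
        apply sum_le_sum_of_subset_of_nonneg hsub
        intro k hk _
        have : (k : ℝ) ≤ K := by exact_mod_cast (mem_range.mp hk).le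
        apply mul_nonneg (by positivity)
        linarith
      have h6 := sum_pow_lin K
      linarith
    calc (∑ k ∈ Ico l K, (2 : ℝ) ^ k) * (δ / 16 * K) + ∑ k ∈ Ico l K, (2 : ℝ) ^ k * ((K : ℝ) - k + 2)
        ≤ 2 ^ K * (δ / 16 * K) + 4 * 2 ^ K := by gcongr
      _ = _ := by ring
  have hbig2 : |∑ m ∈ Ioc (2 ^ K) N, TT α m h ^ 2 - ((N : ℝ) - 2 ^ K) * (h * Λ)| ≤ h * (2 ^ K * (δ / 16 * K + 2)) := by
    have h2 := hk₁ K (by omega) h hhn (hhk K hlK) N hK1 hK2.le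
    have h3 := hcmp K hlK le_rfl
    have h4 : |((N : ℝ) - 2 ^ K) * (h * Lam K h) - ((N : ℝ) - 2 ^ K) * (h * Λ)| ≤ h * (2 ^ K * 2) := by
      have e3 : ((N : ℝ) - 2 ^ K) * (h * Lam K h) - ((N : ℝ) - 2 ^ K) * (h * Λ) = -(h * ((N : ℝ) - 2 ^ K) * (Λ - Lam K h)) := by ring
      have h5 : 0 ≤ (N : ℝ) - 2 ^ K := by linarith
      have h6 : (N : ℝ) - 2 ^ K ≤ 2 ^ K := by
        have h7 : (N : ℝ) ≤ 2 ^ (K + 1) := by exact_mod_cast hK2.le
        have : (2 : ℝ) ^ (K + 1) = 2 ^ K + 2 ^ K := by ring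
        linarith
      have h8 : |Λ - Lam K h| ≤ 2 := by linarith
      rw [e3, abs_neg, abs_mul, abs_of_nonneg (by positivity : (0 : ℝ) ≤ h * ((N : ℝ) - 2 ^ K)), ← mul_assoc]
      gcongr
    have h5 := abs_sub_le (∑ m ∈ Ioc (2 ^ K) N, TT α m h ^ 2) (((N : ℝ) - 2 ^ K) * (h * Lam K h)) (((N : ℝ) - 2 ^ K) * (h * Λ))
    have e4 : (h : ℝ) * (2 ^ K * (δ / 16 * K + 2)) = 2 ^ K * (h * (δ / 16 * K)) + h * (2 ^ K * 2) := by ring
    rw [e4]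
    linarith
  have hsplit : ∑ m ∈ Ioc A N, TT α m h ^ 2 = ∑ m ∈ Ioc A (2 ^ l), TT α m h ^ 2 + (∑ m ∈ Ioc (2 ^ l) (2 ^ K), TT α m h ^ 2 +
      ∑ m ∈ Ioc (2 ^ K) N, TT α m h ^ 2) := by
    have hlK2 : 2 ^ l ≤ 2 ^ K := Nat.pow_le_pow_right (by norm_num) hlK
    rw [← sum_union (Ioc_disjoint_Ioc_of_le le_rfl), Ioc_union_Ioc_eq_Ioc hlK2 hK1,
      ← sum_union (Ioc_disjoint_Ioc_of_le le_rfl), Ioc_union_Ioc_eq_Ioc hA3 (hlK2.trans hK1)]
  have hsmall0 : 0 ≤ ∑ m ∈ Ioc A (2 ^ l), TT α m h ^ 2 := sum_nonneg fun _ _ => sq_nonneg _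
  have hl3 : (2 : ℝ) ^ l * (h * Λ) ≤ δ / 8 * (N * (h * Real.log N)) := by
    have e1 : (2 : ℝ) ^ l ≤ δ / 8 * N := by
      have h8 : (2 : ℝ) ^ l * 2 ^ s = 2 ^ K := by rw [← pow_add]; congr 1; omega
      have h9 : (2 : ℝ) ^ l = 2 ^ K / 2 ^ s := by rw [eq_div_iff (by positivity)]; exact h8
      rw [h9, div_le_iff₀ (by positivity)]
      rw [div_le_iff₀ hδ] at b2
      calc (2 : ℝ) ^ K ≤ N * 1 := by rw [mul_one]; exact hNr
        _ ≤ N * (δ / 8 * 2 ^ s) := by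
            apply mul_le_mul_of_nonneg_left _ hN0.le
            nlinarith
        _ = _ := by ring
    calc (2 : ℝ) ^ l * (h * Λ) ≤ δ / 8 * N * (h * Real.log N) := by gcongr
      _ = _ := by ring
  have hKlog : (2 : ℝ) ^ K * (δ / 16 * K + 4) + 2 ^ K * (δ / 16 * K + 2) ≤ N * (δ / 2 * Real.log N) := by
    have h1 : (2 : ℝ) ^ K * (δ / 16 * K + 4) + 2 ^ K * (δ / 16 * K + 2) = 2 ^ K * (δ / 8 * K + 6) := by ring
    rw [h1]
    have h2 : 6 ≤ δ / 16 * (K : ℝ) := by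
      rw [div_le_iff₀ hδ] at b3
      linarith
    have h3 : δ / 8 * (K : ℝ) + 6 ≤ δ / 2 * Real.log N := by nlinarith
    exact mul_le_mul hNr h3 (by positivity) hN0.le
  have hlog1 : 1 ≤ Real.log N := by
    have h4 : (8 : ℝ) ≤ K := by nlinarith
    linarith
  have hfin : (h : ℝ) * (2 ^ K * (δ / 16 * K + 4)) + h * (2 ^ K * (δ / 16 * K + 2)) ≤ δ / 2 * (N * (h * Real.log N)) := by
    calc (h : ℝ) * (2 ^ K * (δ / 16 * K + 4)) + h * (2 ^ K * (δ / 16 * K + 2)) =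
        h * ((2 : ℝ) ^ K * (δ / 16 * K + 4) + 2 ^ K * (δ / 16 * K + 2)) := by ring
      _ ≤ h * (N * (δ / 2 * Real.log N)) := by gcongr
      _ = _ := by ring
  have hsmall' : δ / 8 * (N * (h : ℝ)) ≤ δ / 8 * (N * (h * Real.log N)) := by
    have : (N : ℝ) * h ≤ N * (h * Real.log N) := by
      rw [← mul_assoc]
      exact le_mul_of_one_le_right (by positivity) hlog1
    gcongr
  have hpos : 0 ≤ δ * (N * (h * Real.log N)) := by positivity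
  have hl30 : 0 ≤ (2 : ℝ) ^ l * (h * Λ) := by positivity
  rw [hsplit, ← hΛ]
  rw [abs_le] at hbig1 hbig2 ⊢
  have e5 : (N : ℝ) * (h * Λ) = ((2 : ℝ) ^ K - 2 ^ l) * (h * Λ) + ((N : ℝ) - 2 ^ K) * (h * Λ) + 2 ^ l * (h * Λ) := by ring
  rw [e5]
  constructor <;> linarith [hbig1.1, hbig1.2, hbig2.1, hbig2.2]

end Pool.Agent.L5helper10.RM
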