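import Mathlib

/-! The function `{u}(1-{u})` and its integral. -/

set_option autoImplicit false

namespace Pool.Agent.L5helper10.RM

open Finset Filter MeasureTheory intervalIntegral

open scoped Topology

noncomputable def Bf (u : ℝ) : ℝ := Int.fract u * (1 - Int.fract u)

lemma Bf_nonneg (u : ℝ) : 0 ≤ Bf u := by
  unfold Bf
  have h1 := Int.fract_nonneg u
  have h2 := (Int.fract_lt_one u).le
  exact mul_nonneg h1 (by linarith)

lemma Bf_le (u : ℝ) : Bf u ≤ 1 / 4 := by
  unfold Bf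
  nlinarith [sq_nonneg (Int.fract u - 1 / 2)]

lemma Bf_le_self {u : ℝ} (hu : 0 ≤ u) : Bf u ≤ u := by
  unfold Bf
  have h1 := Int.fract_nonneg u
  have h2 := (Int.fract_lt_one u).le
  have h3 : Int.fract u ≤ u := by
    rw [Int.fract]
    have : (0 : ℝ) ≤ ⌊u⌋ := by exact_mod_cast Int.floor_nonneg.mpr hu
    linarith
  nlinarith

/-- the parabolas are below `Bf` -/
lemma Bf_ge (k : ℤ) (v : ℝ) : (v - k) * (k + 1 - v) ≤ Bf v := by
  by_cases h : (k : ℝ) ≤ v ∧ v < k + 1
  · have h1 : ⌊v⌋ = k := Int.floor_eq_iff.mpr h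
    unfold Bf Int.fract
    rw [h1]
    nlinarith
  · refine le_trans ?_ (Bf_nonneg v)
    rcases lt_or_ge v k with h1 | h1
    · nlinarith
    · have h2 : (k : ℝ) + 1 ≤ v := by
        by_contra h3
        exact h ⟨h1, not_le.mp h3⟩
      nlinarith

lemma Bf_sub_le (u v : ℝ) : Bf u - Bf v ≤ 2 * |u - v| := by
  by_cases h : |u - v| ≤ 1
  · have h1 := Bf_ge ⌊u⌋ v
    have e : Bf u = (u - ⌊u⌋) * (⌊u⌋ + 1 - u) := by
      unfold Bf Int.fract; ring
    have h2 := Int.floor_le u
    have h3 := Int.lt_floor_add_one u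
    have h4 : (u - ⌊u⌋) * (⌊u⌋ + 1 - u) - (v - ⌊u⌋) * (⌊u⌋ + 1 - v) = (u - v) * ((2 * ⌊u⌋ + 1 - 2 * u) + (u - v)) := by ring
    have h5 : (u - v) * ((2 * ⌊u⌋ + 1 - 2 * u) + (u - v)) ≤ |u - v| * 2 := by
      refine (le_abs_self _).trans ?_
      rw [abs_mul]
      apply mul_le_mul_of_nonneg_left _ (abs_nonneg _)
      refine (abs_add_le _ _).trans ?_
      have : |2 * (⌊u⌋ : ℝ) + 1 - 2 * u| ≤ 1 := by
        rw [abs_le]; constructor <;> linarith
      linarith
    linarith
  · push Not at h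
    have := Bf_le u
    have := Bf_nonneg v
    linarith

lemma Bf_lip (u v : ℝ) : |Bf u - Bf v| ≤ 2 * |u - v| := by
  rw [abs_le]
  constructor
  · have := Bf_sub_le v u
    rw [abs_sub_comm] at this
    linarith
  · exact Bf_sub_le u v

lemma Bf_cont : Continuous Bf := by
  rw [Metric.continuous_iff]
  intro b ε hε
  refine ⟨ε / 2, by positivity, fun a ha => ?_⟩
  rw [Real.dist_eq] at ha ⊢
  have := Bf_lip a b
  linarith

lemma Bf_block (j : ℕ) (u : ℝ) (h1 : (j : ℝ) ≤ u) (h2 : u ≤ j + 1) : Bf u = (u - j) * (j + 1 - u) := by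
  rcases h2.lt_or_eq with h | h
  · have h3 : ⌊u⌋ = (j : ℤ) := Int.floor_eq_iff.mpr ⟨by exact_mod_cast h1, by exact_mod_cast h⟩
    unfold Bf Int.fract
    rw [h3]
    push_cast
    ring
  · have h3 : Int.fract u = 0 := by
      rw [h]
      have : ((j : ℝ) + 1) = ((j + 1 : ℤ) : ℝ) := by push_cast; rfl
      rw [this, Int.fract_intCast]
    unfold Bf
    rw [h3, h]
    ring

/-- the antiderivative of `Bf (N / x)` on a block -/
noncomputable def FB (N : ℝ) (j : ℕ) (x : ℝ) : ℝ := N ^ 2 / x + (2 * j + 1) * N * Real.log x - j * (j + 1) * x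

lemma FB_deriv (N : ℝ) (j : ℕ) (x : ℝ) (hx : 0 < x) :
    HasDerivAt (FB N j) ((N / x - j) * (j + 1 - N / x)) x := by
  have h1 : HasDerivAt (fun x : ℝ => N ^ 2 / x) (N ^ 2 * -(x ^ 2)⁻¹) x := by
    simpa only [div_eq_mul_inv] using (hasDerivAt_inv hx.ne').const_mul (N ^ 2)
  have h2 : HasDerivAt (fun x : ℝ => (2 * (j : ℝ) + 1) * N * Real.log x) ((2 * j + 1) * N * x⁻¹) x :=
    (Real.hasDerivAt_log hx.ne').const_mul _
  have h3 : HasDerivAt (fun x : ℝ => (j : ℝ) * (j + 1) * x) (j * (j + 1) * 1) x := (hasDerivAt_id x).const_mul _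
  have h4 : HasDerivAt (FB N j) (N ^ 2 * -(x ^ 2)⁻¹ + (2 * j + 1) * N * x⁻¹ - j * (j + 1) * 1) x := (h1.add h2).sub h3
  refine h4.congr_deriv ?_
  field_simp
  ring

lemma int_FB (N : ℝ) (j : ℕ) (a b : ℝ) (hN : 0 < N) (ha : 0 < a) (hab : a ≤ b) (h1 : (j : ℝ) ≤ N / b) (h2 : N / a ≤ j + 1) :
    ∫ x in a..b, Bf (N / x) = FB N j b - FB N j a := by
  have hpos : ∀ x ∈ Set.uIcc a b, 0 < x := by
    intro x hx
    rw [Set.uIcc_of_le hab] at hx
    linarith [hx.1]
  have h3 : ∫ x in a..b, Bf (N / x) = ∫ x in a..b, (N / x - j) * (j + 1 - N / x) := by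
    apply integral_congr
    intro x hx
    have hx0 := hpos x hx
    rw [Set.uIcc_of_le hab] at hx
    apply Bf_block
    · refine h1.trans ?_
      apply div_le_div_of_nonneg_left hN.le hx0 hx.2
    · refine le_trans ?_ h2
      apply div_le_div_of_nonneg_left hN.le ha hx.1
  rw [h3]
  apply integral_eq_sub_of_hasDerivAt
  · intro x hx
    exact FB_deriv N j x (hpos x hx)
  · apply ContinuousOn.intervalIntegrable
    intro x hx
    have hx0 := hpos x hx
    apply ContinuousAt.continuousWithinAt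
    have : ContinuousAt (fun x : ℝ => N / x) x := continuousAt_const.div continuousAt_id hx0.ne'
    exact (this.sub continuousAt_const).mul (continuousAt_const.sub this)

lemma Bf_int (N a b : ℝ) (ha : 0 < a) (hab : a ≤ b) : IntervalIntegrable (fun x => Bf (N / x)) volume a b := by
  apply ContinuousOn.intervalIntegrable
  intro x hx
  rw [Set.uIcc_of_le hab] at hx
  have hx0 : 0 < x := by linarith [hx.1]
  apply ContinuousAt.continuousWithinAt
  have : ContinuousAt (fun x : ℝ => N / x) x := continuousAt_const.div continuousAt_id hx0.ne'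
  exact Bf_cont.continuousAt.comp this

/-- the sum over the blocks -/
noncomputable def sJ (J : ℕ) : ℝ := (2 * J + 1) * Real.log (J + 1) - 2 * Real.log (J.factorial) - 2 * J

lemma int_blocks (N : ℝ) (hN : 0 < N) (J : ℕ) : ∫ x in (N / (J + 1))..N, Bf (N / x) = N * sJ J := by
  induction J with
  | zero => simp [sJ]
  | succ J ih =>
    have h1 : N / ((J + 1 : ℕ) + 1 : ℝ) ≤ N / (J + 1) := by
      apply div_le_div_of_nonneg_left hN.le (by positivity)
      push_cast; linarith
    have h2 : N / ((J : ℝ) + 1) ≤ N := by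
      apply div_le_self hN.le
      have : (0 : ℝ) ≤ J := Nat.cast_nonneg J
      linarith
    have hp1 : 0 < N / (((J + 1 : ℕ) : ℝ) + 1) := by positivity
    have hp2 : 0 < N / ((J : ℝ) + 1) := by positivity
    rw [← integral_add_adjacent_intervals (Bf_int N _ _ hp1 h1) (Bf_int N _ _ hp2 h2), ih,
      int_FB N (J + 1) _ _ hN hp1 h1]
    · unfold FB sJ
      have hJ : (0 : ℝ) < (J : ℝ) + 1 := by positivity
      have hJ2 : (0 : ℝ) < (J : ℝ) + 1 + 1 := by positivity
      rw [Nat.factorial_succ]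
      push_cast
      rw [Real.log_div hN.ne' hJ.ne', Real.log_div hN.ne' hJ2.ne', Real.log_mul hJ.ne' (by positivity)]
      field_simp
      ring
    · push_cast
      rw [div_div_eq_mul_div, mul_div_cancel_left₀]
      exact hN.ne'
    · push_cast
      rw [div_div_eq_mul_div, mul_div_cancel_left₀]
      exact hN.ne'

end Pool.Agent.L5helper10.RM
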