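import Pool.Agent.L5helper10.RM.G7

/-! The exceptional events with the smaller thresholds. -/

set_option autoImplicit false
set_option linter.unusedSectionVars false

namespace Pool.Agent.L5helper10.RM

open Finset MeasureTheory ProbabilityTheory Filter

open scoped Topology

variable {Ω : Type} [MeasurableSpace Ω] {P : Measure Ω} {a : ℕ → Ω → ℕ}

theorem Rnd.probVt (h : Rnd P a) (k q H : ℕ) (hk : 2 ≤ k) (hq : q ≤ k) (hH1 : 1 ≤ H) (hH : H ≤ 2 ^ (k - q))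
    (Tm : ℝ) (hT0 : 0 ≤ Tm) (hTm : ∀ n : ℕ, 1 ≤ n → n ≤ 2 * (2 ^ (k - q)) ^ 3 → tau n ≤ Tm) (t : ℝ) (ht : 0 < t) :
    P.real {ω | t ≤ FV k q H (fun p => a p ω)} ≤ 2 ^ q * (BB k Tm * (H / 2 ^ (k - q)) * H ^ 2) / t := by
  have hHr : (1 : ℝ) ≤ H := by exact_mod_cast hH1
  have hH0 : (0 : ℝ) < H := by linarith
  have h1 := h.markov (range (2 ^ q)) (fun j => zz (xb k q j))
    (fun j c => (VV (2 ^ (k - q)) H (c - ((xb k q j : ℕ) : ZMod (primorial (zz (xb k q j))))) -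
      EV (primorial (zz (xb k q j))) H) ^ 2) (fun _ _ _ => sq_nonneg _) t ht
  refine h1.trans ?_
  apply div_le_div_of_nonneg_right _ ht.le
  have h2 : ∀ j ∈ range (2 ^ q), (∑ c : ZMod (primorial (zz (xb k q j))),
      (VV (2 ^ (k - q)) H (c - ((xb k q j : ℕ) : ZMod (primorial (zz (xb k q j))))) -
      EV (primorial (zz (xb k q j))) H) ^ 2) / (primorial (zz (xb k q j)) : ℕ) ≤ BB k Tm * (H / 2 ^ (k - q)) * H ^ 2 := by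
    intro j hj
    rw [mem_range] at hj
    have e1 : ∑ c : ZMod (primorial (zz (xb k q j))),
      (VV (2 ^ (k - q)) H (c - ((xb k q j : ℕ) : ZMod (primorial (zz (xb k q j))))) -
      EV (primorial (zz (xb k q j))) H) ^ 2 = ∑ c : ZMod (primorial (zz (xb k q j))),
      (VV (2 ^ (k - q)) H c - EV (primorial (zz (xb k q j))) H) ^ 2 :=
      Fintype.sum_equiv (Equiv.subRight (((xb k q j : ℕ) : ZMod (primorial (zz (xb k q j)))))) _ _ (fun _ => rfl)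
    rw [e1]
    have hQ0 : (0 : ℝ) < (primorial (zz (xb k q j)) : ℕ) := by exact_mod_cast primorial_pos _
    have hV : ((primorial (zz (xb k q j)) : ℕ) : ℝ) / (Nat.totient (primorial (zz (xb k q j))) : ℝ) ≤ (k : ℝ) + 1 := by
      rw [VP_eq]
      exact VP_xb_le k q j hk hq hj
    have h3 := variance_bound (squarefree_primorial (zz (xb k q j))) (2 ^ (k - q)) H Nat.one_le_two_pow hH hV
      (by have : (0 : ℝ) ≤ k := Nat.cast_nonneg k; linarith) Tm hT0 hTm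
    rw [div_le_iff₀ hQ0]
    refine h3.trans ?_
    have hL0 : (0 : ℝ) < 2 ^ (k - q) := by positivity
    have hlog : Real.log ((2 ^ (k - q) : ℕ) : ℝ) ≤ k := by
      refine (log_two_pow (k - q)).trans ?_
      exact_mod_cast Nat.sub_le k q
    have hlog0 : 0 ≤ Real.log ((2 ^ (k - q) : ℕ) : ℝ) := Real.log_natCast_nonneg _
    have h7 : (1 + 2 * Real.log ((2 ^ (k - q) : ℕ) : ℝ)) ^ 5 ≤ (1 + 2 * (k : ℝ)) ^ 5 := by gcongr
    have hk0 : (0 : ℝ) ≤ k := Nat.cast_nonneg k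
    calc ((primorial (zz (xb k q j)) : ℕ) : ℝ) * (((k : ℝ) + 1) ^ 8 * ((H : ℝ) ^ 3 / ((2 ^ (k - q) : ℕ) : ℝ) *
          (2 * ((k : ℝ) + 1) ^ 44 + Tm ^ 4 * ((k : ℝ) + 1) ^ 12 * (1 + 2 * Real.log ((2 ^ (k - q) : ℕ) : ℝ)) ^ 5)))
        ≤ ((primorial (zz (xb k q j)) : ℕ) : ℝ) * (((k : ℝ) + 1) ^ 8 * ((H : ℝ) ^ 3 / ((2 ^ (k - q) : ℕ) : ℝ) *
          (2 * ((k : ℝ) + 1) ^ 44 + Tm ^ 4 * ((k : ℝ) + 1) ^ 12 * (1 + 2 * (k : ℝ)) ^ 5))) := by gcongr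
      _ = _ := by unfold BB; push_cast; ring
  refine (sum_le_sum h2).trans ?_
  rw [sum_const, card_range, nsmul_eq_mul]
  push_cast
  apply le_of_eq
  ring

/-- the fineness of the grid at the scale `2^k` -/
def uu (k : ℕ) : ℕ := 2 * Nat.log 2 k

lemma uu_bounds (k : ℕ) (hk : 1 ≤ k) : (2 : ℝ) ^ uu k ≤ (k : ℝ) ^ 2 ∧ (k : ℝ) ^ 2 ≤ 4 * 2 ^ uu k := by
  have h1 : 2 ^ Nat.log 2 k ≤ k := Nat.pow_log_le_self 2 (by omega)
  have h2 : k < 2 ^ (Nat.log 2 k + 1) := Nat.lt_pow_succ_log_self (by norm_num) k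
  have h1r : (2 : ℝ) ^ Nat.log 2 k ≤ k := by exact_mod_cast h1
  have h2r : (k : ℝ) ≤ 2 * 2 ^ Nat.log 2 k := by
    have h3 : k ≤ 2 * 2 ^ Nat.log 2 k := by rw [← pow_succ']; exact h2.le
    exact_mod_cast h3
  have e : (2 : ℝ) ^ uu k = (2 ^ Nat.log 2 k) ^ 2 := by unfold uu; rw [mul_comm, pow_mul]
  have hk0 : (0 : ℝ) ≤ k := Nat.cast_nonneg k
  rw [e]
  constructor
  · gcongr
  · have h4 : (0 : ℝ) < 2 ^ Nat.log 2 k := by positivity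
    nlinarith

/-- the bad event at the scale `2^k` -/
def Bad2 (a : ℕ → Ω → ℕ) (ε : ℝ) (k : ℕ) : Set Ω :=
  ⋃ m ∈ range (2 ^ (2 * uu k + 1)), ⋃ i ∈ range (k + 1),
    {ω | 1 ≤ m * 2 ^ i ∧ ((m * 2 ^ i : ℕ) : ℝ) ≤ (2 : ℝ) ^ ((1 - ε) * k) ∧
      (((m * 2 ^ i : ℕ) : ℝ) ^ 2 * (2 : ℝ) ^ (-(ε / 8) * k) ≤ FV k ⌊ε / 4 * k⌋₊ (m * 2 ^ i) (fun p => a p ω) ∨
        2 ^ k * (((m * 2 ^ i : ℕ) : ℝ) * (2 : ℝ) ^ (-(ε / 8) * k)) ≤ FU k ⌊ε / 4 * k⌋₊ (m * 2 ^ i) (fun p => a p ω))}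

theorem Rnd.prob_bad2 (h : Rnd P a) (ε : ℝ) (hε : 0 < ε) (hε1 : ε ≤ 1) :
    ∀ᶠ k : ℕ in atTop, P.real (Bad2 a ε k) ≤ (2 : ℝ) ^ (-(ε / 32) * k) := by
  have hprob := h.prob
  obtain ⟨T, hT0, hT, hTB⟩ := BB_small ε hε hε1
  have hp1 := polyexp 2 (ε / 16) (by positivity) 12
  have hp2 := polyexp 5 (ε / 32) (by positivity) 4
  filter_upwards [hTB, hp1, hp2, zz_pow, eventually_ge_atTop 2] with k h1 h2 h3 h4 hk
  have hk0 : (0 : ℝ) ≤ k := Nat.cast_nonneg k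
  obtain ⟨hq, hq2, hq3⟩ := floor_facts ε hε hε1 k
  obtain ⟨q, hqd⟩ : ∃ q, q = ⌊ε / 4 * k⌋₊ := ⟨_, rfl⟩
  -- each event of the grid
  have hev : ∀ m ∈ range (2 ^ (2 * uu k + 1)), ∀ i ∈ range (k + 1), P.real
      {ω | 1 ≤ m * 2 ^ i ∧ ((m * 2 ^ i : ℕ) : ℝ) ≤ (2 : ℝ) ^ ((1 - ε) * k) ∧
      (((m * 2 ^ i : ℕ) : ℝ) ^ 2 * (2 : ℝ) ^ (-(ε / 8) * k) ≤ FV k ⌊ε / 4 * k⌋₊ (m * 2 ^ i) (fun p => a p ω) ∨
        2 ^ k * (((m * 2 ^ i : ℕ) : ℝ) * (2 : ℝ) ^ (-(ε / 8) * k)) ≤ FU k ⌊ε / 4 * k⌋₊ (m * 2 ^ i) (fun p => a p ω))} ≤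
      2 * (2 : ℝ) ^ (-(ε / 16) * k) := by
    intro m _ i _
    obtain ⟨H, hHd⟩ : ∃ H, H = m * 2 ^ i := ⟨_, rfl⟩
    rw [← hHd, ← hqd]
    rw [← hqd] at hq hq2 hq3
    by_cases hc : 1 ≤ H ∧ (H : ℝ) ≤ (2 : ℝ) ^ ((1 - ε) * k)
    · obtain ⟨hH1, hH2⟩ := hc
      have hHL : H ≤ 2 ^ (k - q) := by rw [hqd]; exact H_le_of hε hε1 hH2
      have hH0 : (0 : ℝ) < H := by exact_mod_cast hH1
      have hsub : {ω | 1 ≤ H ∧ (H : ℝ) ≤ (2 : ℝ) ^ ((1 - ε) * k) ∧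
          ((H : ℝ) ^ 2 * (2 : ℝ) ^ (-(ε / 8) * k) ≤ FV k q H (fun p => a p ω) ∨ 2 ^ k * ((H : ℝ) * (2 : ℝ) ^ (-(ε / 8) * k)) ≤ FU k q H (fun p => a p ω))} ⊆
          {ω | (H : ℝ) ^ 2 * (2 : ℝ) ^ (-(ε / 8) * k) ≤ FV k q H (fun p => a p ω)} ∪
          {ω | 2 ^ k * ((H : ℝ) * (2 : ℝ) ^ (-(ε / 8) * k)) ≤ FU k q H (fun p => a p ω)} := by
        rintro ω ⟨_, _, h5 | h5⟩
        · exact Or.inl h5
        · exact Or.inr h5
      have h5 := h.probVt k q H hk hq hH1 hHL (T k) (hT0 k) (fun n hn1 hn2 => hT k n hn1 (hn2.trans (by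
        gcongr
        · norm_num
        · omega))) ((H : ℝ) ^ 2 * (2 : ℝ) ^ (-(ε / 8) * k)) (by positivity)
      have hz0 : (0 : ℝ) < zz (2 ^ k) := lt_of_lt_of_le (by positivity) h4
      have hz1 : 1 ≤ zz (2 ^ k) := by exact_mod_cast hz0
      have h6 := h.probU k q H hk hq hHL hz1 (2 ^ k * ((H : ℝ) * (2 : ℝ) ^ (-(ε / 8) * k))) (by positivity)
      have h7 : (2 : ℝ) ^ q * (BB k (T k) * (H / 2 ^ (k - q)) * H ^ 2) / ((H : ℝ) ^ 2 * (2 : ℝ) ^ (-(ε / 8) * k)) ≤ (2 : ℝ) ^ (-(ε / 16) * k) := by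
        have e1 : (2 : ℝ) ^ (k - q) = 2 ^ k / 2 ^ q := by
          rw [eq_div_iff (by positivity), ← pow_add, Nat.sub_add_cancel hq]
        have hBB : 0 ≤ BB k (T k) := by
          unfold BB
          have := hT0 k
          positivity
        calc (2 : ℝ) ^ q * (BB k (T k) * (H / 2 ^ (k - q)) * H ^ 2) / ((H : ℝ) ^ 2 * (2 : ℝ) ^ (-(ε / 8) * k))
            = 2 ^ q * 2 ^ q * BB k (T k) * H / 2 ^ k * (2 : ℝ) ^ (ε / 8 * k) := by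
              rw [e1, two_rpow_neg_mul]; field_simp
          _ ≤ (2 : ℝ) ^ (ε / 4 * k) * (2 : ℝ) ^ (ε / 4 * k) * (2 : ℝ) ^ (ε / 8 * k) * (2 : ℝ) ^ ((1 - ε) * k) / 2 ^ k * (2 : ℝ) ^ (ε / 8 * k) := by
              gcongr
          _ = (2 : ℝ) ^ (ε / 4 * k + ε / 4 * k + ε / 8 * k + (1 - ε) * k - k + ε / 8 * k) := by
              rw [Real.rpow_add (by norm_num), Real.rpow_sub (by norm_num), Real.rpow_add (by norm_num), Real.rpow_add (by norm_num),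
                Real.rpow_add (by norm_num), rpow_two_nat]
          _ ≤ _ := by
              apply Real.rpow_le_rpow_of_exponent_le (by norm_num)
              nlinarith [mul_nonneg hε.le hk0]
      have h8 : (2 ^ k * ((H : ℝ) * (4 * ((k : ℝ) + 3) ^ 2 * (1 / 2 ^ q + 1 / zz (2 ^ k))))) / (2 ^ k * ((H : ℝ) * (2 : ℝ) ^ (-(ε / 8) * k))) ≤
          (2 : ℝ) ^ (-(ε / 16) * k) := by
        have e1 : (2 ^ k * ((H : ℝ) * (4 * ((k : ℝ) + 3) ^ 2 * (1 / 2 ^ q + 1 / zz (2 ^ k))))) / (2 ^ k * ((H : ℝ) * (2 : ℝ) ^ (-(ε / 8) * k))) =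
            4 * ((k : ℝ) + 3) ^ 2 * (1 / 2 ^ q + 1 / zz (2 ^ k)) * (2 : ℝ) ^ (ε / 8 * k) := by
          rw [two_rpow_neg_mul]
          field_simp
        have h9 : (1 : ℝ) / 2 ^ q ≤ 2 * (2 : ℝ) ^ (-(ε / 4) * k) := by
          rw [two_rpow_neg_mul, div_le_iff₀ (by positivity)]
          rw [mul_assoc, mul_comm ((2 : ℝ) ^ (ε / 4 * (k : ℝ)))⁻¹, ← mul_assoc, ← div_eq_mul_inv, le_div_iff₀ (by positivity), one_mul]
          exact hq3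
        have h10 : (1 : ℝ) / zz (2 ^ k) ≤ (2 : ℝ) ^ (-(ε / 4) * k) := by
          rw [two_rpow_neg_mul, one_div]
          apply inv_anti₀ (by positivity)
          refine le_trans ?_ h4
          apply Real.rpow_le_rpow_of_exponent_le (by norm_num)
          nlinarith
        rw [e1]
        calc 4 * ((k : ℝ) + 3) ^ 2 * (1 / 2 ^ q + 1 / zz (2 ^ k)) * (2 : ℝ) ^ (ε / 8 * k)
            ≤ 4 * ((k : ℝ) + 3) ^ 2 * (2 * (2 : ℝ) ^ (-(ε / 4) * k) + (2 : ℝ) ^ (-(ε / 4) * k)) * (2 : ℝ) ^ (ε / 8 * k) := by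
              gcongr
          _ = (12 * ((k : ℝ) + 3) ^ 2) * ((2 : ℝ) ^ (-(ε / 4) * k) * (2 : ℝ) ^ (ε / 8 * k)) := by ring
          _ ≤ (2 : ℝ) ^ (ε / 16 * k) * ((2 : ℝ) ^ (-(ε / 4) * k) * (2 : ℝ) ^ (ε / 8 * k)) := by gcongr
          _ = (2 : ℝ) ^ (ε / 16 * k + (-(ε / 4) * k + ε / 8 * k)) := by
              rw [Real.rpow_add (by norm_num), Real.rpow_add (by norm_num)]
          _ = _ := by congr 1; ring
      calc P.real _ ≤ P.real _ := measureReal_mono hsub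
        _ ≤ _ := measureReal_union_le _ _
        _ ≤ (2 : ℝ) ^ (-(ε / 16) * k) + (2 : ℝ) ^ (-(ε / 16) * k) := add_le_add (h5.trans h7) (h6.trans h8)
        _ = _ := by ring
    · have : {ω | 1 ≤ H ∧ (H : ℝ) ≤ (2 : ℝ) ^ ((1 - ε) * k) ∧
          ((H : ℝ) ^ 2 * (2 : ℝ) ^ (-(ε / 8) * k) ≤ FV k q H (fun p => a p ω) ∨ 2 ^ k * ((H : ℝ) * (2 : ℝ) ^ (-(ε / 8) * k)) ≤ FU k q H (fun p => a p ω))} = ∅ := by
        ext ω
        simp only [Set.mem_ofPred_eq, Set.mem_empty_iff_false, iff_false]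
        rintro ⟨b1, b2, -⟩
        exact hc ⟨b1, b2⟩
      rw [this, measureReal_empty]
      positivity
  unfold Bad2
  refine (measureReal_biUnion_finset_le _ _).trans ?_
  have h5 : ∀ m ∈ range (2 ^ (2 * uu k + 1)), P.real (⋃ i ∈ range (k + 1),
    {ω | 1 ≤ m * 2 ^ i ∧ ((m * 2 ^ i : ℕ) : ℝ) ≤ (2 : ℝ) ^ ((1 - ε) * k) ∧
      (((m * 2 ^ i : ℕ) : ℝ) ^ 2 * (2 : ℝ) ^ (-(ε / 8) * k) ≤ FV k ⌊ε / 4 * k⌋₊ (m * 2 ^ i) (fun p => a p ω) ∨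
        2 ^ k * (((m * 2 ^ i : ℕ) : ℝ) * (2 : ℝ) ^ (-(ε / 8) * k)) ≤ FU k ⌊ε / 4 * k⌋₊ (m * 2 ^ i) (fun p => a p ω))}) ≤
      ((k : ℝ) + 1) * (2 * (2 : ℝ) ^ (-(ε / 16) * k)) := by
    intro m hm
    refine (measureReal_biUnion_finset_le _ _).trans ?_
    refine (sum_le_sum (hev m hm)).trans (le_of_eq ?_)
    rw [sum_const, card_range, nsmul_eq_mul]
    push_cast
    ring
  refine (sum_le_sum h5).trans ?_
  rw [sum_const, card_range, nsmul_eq_mul]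
  push_cast
  have h6 : (2 : ℝ) ^ (2 * uu k + 1) ≤ 2 * (k : ℝ) ^ 4 := by
    have h7 := (uu_bounds k (by omega)).1
    have e : (2 : ℝ) ^ (2 * uu k + 1) = 2 * (2 ^ uu k * 2 ^ uu k) := by rw [pow_succ, two_mul, pow_add]; ring
    rw [e]
    calc 2 * ((2 : ℝ) ^ uu k * 2 ^ uu k) ≤ 2 * ((k : ℝ) ^ 2 * (k : ℝ) ^ 2) := by gcongr
      _ = _ := by ring
  calc (2 : ℝ) ^ (2 * uu k + 1) * (((k : ℝ) + 1) * (2 * (2 : ℝ) ^ (-(ε / 16) * k)))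
      ≤ (2 * (k : ℝ) ^ 4) * (((k : ℝ) + 1) * (2 * (2 : ℝ) ^ (-(ε / 16) * k))) := by gcongr
    _ ≤ (2 * ((k : ℝ) + 3) ^ 4) * (((k : ℝ) + 3) * (2 * (2 : ℝ) ^ (-(ε / 16) * k))) := by gcongr <;> linarith
    _ = (4 * ((k : ℝ) + 3) ^ 5) * (2 : ℝ) ^ (-(ε / 16) * k) := by ring
    _ ≤ (2 : ℝ) ^ (ε / 32 * k) * (2 : ℝ) ^ (-(ε / 16) * k) := by gcongr
    _ = (2 : ℝ) ^ (ε / 32 * k + -(ε / 16) * k) := by rw [Real.rpow_add (by norm_num)]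
    _ = _ := by congr 1; ring

/-- the exceptional sums are small on the grid -/
def Small (α : ℕ → ℕ) (ε : ℝ) : Prop := ∀ᶠ k : ℕ in atTop, ∀ H : ℕ, 1 ≤ H → (H : ℝ) ≤ (2 : ℝ) ^ ((1 - ε) * k) →
  Grid (2 * uu k) k H → FV k ⌊ε / 4 * k⌋₊ H α < (H : ℝ) ^ 2 * (2 : ℝ) ^ (-(ε / 8) * k) ∧
    FU k ⌊ε / 4 * k⌋₊ H α < 2 ^ k * ((H : ℝ) * (2 : ℝ) ^ (-(ε / 8) * k))

theorem Rnd.ae_small (h : Rnd P a) (ε : ℝ) (hε : 0 < ε) (hε1 : ε ≤ 1) :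
    ∀ᵐ ω ∂P, Small (fun p => a p ω) ε := by
  have hprob := h.prob
  obtain ⟨k₀, hk₀⟩ := (h.prob_bad2 ε hε hε1).exists_forall_of_atTop
  have hsum : Summable (fun k : ℕ => (2 : ℝ) ^ (-(ε / 32) * k)) := by
    have h1 : ∀ k : ℕ, (2 : ℝ) ^ (-(ε / 32) * k) = ((2 : ℝ) ^ (-(ε / 32))) ^ k := by
      intro k; rw [Real.rpow_mul (by norm_num), Real.rpow_natCast]
    simp_rw [h1]
    apply summable_geometric_of_lt_one (by positivity)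
    exact Real.rpow_lt_one_of_one_lt_of_neg (by norm_num) (by linarith)
  have h1 : (∑' k, P (if k₀ ≤ k then Bad2 a ε k else ∅)) ≠ ⊤ := by
    refine ne_top_of_le_ne_top hsum.tsum_ofReal_ne_top (ENNReal.tsum_le_tsum fun k => ?_)
    split_ifs with hk
    · have h2 := hk₀ k hk
      rw [measureReal_def] at h2
      rw [← ENNReal.ofReal_toReal (measure_ne_top P (Bad2 a ε k))]
      exact ENNReal.ofReal_le_ofReal h2
    · simp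
  filter_upwards [ae_eventually_notMem h1] with ω hω
  unfold Small
  filter_upwards [hω, eventually_ge_atTop k₀] with k h2 h3
  rw [if_pos h3] at h2
  intro H hH1 hH2 hgrid
  obtain ⟨m, i, hm, hi, hHm⟩ := hgrid
  by_contra hcon
  apply h2
  unfold Bad2
  rw [Set.mem_iUnion₂]
  refine ⟨m, mem_range.mpr hm, ?_⟩
  rw [Set.mem_iUnion₂]
  refine ⟨i, mem_range.mpr (by omega), ?_⟩
  rw [← hHm]
  refine ⟨hH1, hH2, ?_⟩
  by_cases c1 : (H : ℝ) ^ 2 * (2 : ℝ) ^ (-(ε / 8) * k) ≤ FV k ⌊ε / 4 * k⌋₊ H (fun p => a p ω)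
  · exact Or.inl c1
  · right
    by_contra c2
    push Not at c1 c2
    exact hcon ⟨c1, c2⟩

theorem Rnd.ae_small_all (h : Rnd P a) : ∀ᵐ ω ∂P, ∀ n : ℕ, Small (fun p => a p ω) (1 / ((n : ℝ) + 1)) := by
  rw [ae_all_iff]
  intro n
  apply h.ae_small _ (by positivity)
  rw [div_le_one (by positivity)]
  have : (0 : ℝ) ≤ n := Nat.cast_nonneg n
  linarith

end Pool.Agent.L5helper10.RM
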