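import Pool.Agent.L5helper10.RM.K1

/-! Stirling's constant and the sum of `Bf (N / n)`. -/

set_option autoImplicit false

namespace Pool.Agent.L5helper10.RM

open Finset Filter MeasureTheory intervalIntegral

open scoped Topology

lemma sJ_tendsto : Tendsto sJ atTop (𝓝 (2 - Real.log (2 * Real.pi))) := by
  have h1 : Tendsto (fun n : ℕ => Real.log (Stirling.stirlingSeq n)) atTop (𝓝 (Real.log (Real.sqrt Real.pi))) :=
    (Real.continuousAt_log (by positivity)).tendsto.comp Stirling.tendsto_stirlingSeq_sqrt_pi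
  have h2 : Tendsto (fun n : ℕ => (n : ℝ) * Real.log (1 + 1 / (n : ℝ))) atTop (𝓝 1) := by
    have h3 := (Real.tendsto_mul_log_one_add_of_tendsto (g := fun x : ℝ => 1 / x) (t := 1) (by
      apply tendsto_const_nhds.congr'
      filter_upwards [eventually_ne_atTop 0] with x hx
      field_simp)).comp tendsto_natCast_atTop_atTop
    exact h3
  have h3 : Tendsto (fun n : ℕ => Real.log (1 + 1 / (n : ℝ))) atTop (𝓝 0) := by
    have h4 : Tendsto (fun n : ℕ => 1 + 1 / (n : ℝ)) atTop (𝓝 (1 + 0)) :=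
      tendsto_const_nhds.add tendsto_one_div_atTop_nhds_zero_nat
    rw [add_zero] at h4
    have := (Real.continuousAt_log (one_ne_zero)).tendsto.comp h4
    rwa [Real.log_one] at this
  have h4 : Tendsto (fun n : ℕ => 2 * ((n : ℝ) * Real.log (1 + 1 / (n : ℝ))) + Real.log (1 + 1 / (n : ℝ)) -
      2 * Real.log (Stirling.stirlingSeq n) - Real.log 2) atTop
      (𝓝 (2 * 1 + 0 - 2 * Real.log (Real.sqrt Real.pi) - Real.log 2)) :=
    (((h2.const_mul 2).add h3).sub (h1.const_mul 2)).sub tendsto_const_nhds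
  have e : 2 * 1 + 0 - 2 * Real.log (Real.sqrt Real.pi) - Real.log 2 = 2 - Real.log (2 * Real.pi) := by
    rw [Real.log_sqrt Real.pi_pos.le, Real.log_mul (by norm_num) Real.pi_pos.ne']
    ring
  rw [e] at h4
  apply h4.congr'
  filter_upwards [eventually_ge_atTop 1] with n hn
  have hn0 : (0 : ℝ) < n := by exact_mod_cast hn
  rw [Stirling.log_stirlingSeq_formula]
  unfold sJ
  have e1 : Real.log (1 + 1 / (n : ℝ)) = Real.log (n + 1) - Real.log n := by
    rw [← Real.log_div (by positivity) hn0.ne']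
    congr 1
    field_simp
  rw [e1, Real.log_mul (by norm_num) hn0.ne', Real.log_div hn0.ne' (Real.exp_pos 1).ne', Real.log_exp]
  ring

/-- the sum against the integral -/
lemma sum_sub_int (N : ℝ) (hN : 0 < N) (M Z : ℕ) (hM : 1 ≤ M) (hMZ : M ≤ Z) :
    |∑ n ∈ Ico M Z, Bf (N / n) - ∫ x in (M : ℝ)..Z, Bf (N / x)| ≤ 2 * N * (1 / M - 1 / Z) := by
  induction Z, hMZ using Nat.le_induction with
  | base => simp
  | succ Z hMZ ih =>
    have hM0 : (0 : ℝ) < M := by exact_mod_cast hM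
    have hZ0 : (0 : ℝ) < Z := by exact_mod_cast (by omega : 0 < Z)
    have hMZr : (M : ℝ) ≤ Z := by exact_mod_cast hMZ
    rw [sum_Ico_succ_top hMZ, ← integral_add_adjacent_intervals (Bf_int N M Z hM0 hMZr)
      (Bf_int N Z (Z + 1 : ℕ) hZ0 (by push_cast; linarith))]
    have h1 : |Bf (N / Z) - ∫ x in (Z : ℝ)..(Z + 1 : ℕ), Bf (N / x)| ≤ 2 * N * (1 / Z - 1 / (Z + 1 : ℕ)) := by
      have e1 : Bf (N / Z) = ∫ x in (Z : ℝ)..(Z + 1 : ℕ), Bf (N / Z) := by
        rw [intervalIntegral.integral_const]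
        push_cast
        simp
      rw [e1, ← intervalIntegral.integral_sub (by simp) (Bf_int N Z (Z + 1 : ℕ) hZ0 (by push_cast; linarith))]
      have h2 := intervalIntegral.norm_integral_le_of_norm_le_const (a := (Z : ℝ)) (b := ((Z + 1 : ℕ) : ℝ))
        (f := fun x => Bf (N / Z) - Bf (N / x)) (C := 2 * N * (1 / Z - 1 / (Z + 1 : ℕ))) (by
          intro x hx
          rw [Set.uIoc_of_le (by push_cast; linarith)] at hx
          have hx0 : 0 < x := by linarith [hx.1]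
          rw [Real.norm_eq_abs]
          refine (Bf_lip _ _).trans ?_
          rw [mul_assoc]
          apply mul_le_mul_of_nonneg_left _ (by norm_num)
          have h3 : N / x ≤ N / Z := div_le_div_of_nonneg_left hN.le hZ0 hx.1.le
          have h4 : N / ((Z + 1 : ℕ) : ℝ) ≤ N / x := div_le_div_of_nonneg_left hN.le hx0 hx.2
          rw [abs_of_nonneg (by linarith)]
          have e2 : N * (1 / (Z : ℝ) - 1 / ((Z + 1 : ℕ) : ℝ)) = N / Z - N / ((Z + 1 : ℕ) : ℝ) := by ring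
          rw [e2]
          linarith)
      rw [Real.norm_eq_abs] at h2
      refine h2.trans (le_of_eq ?_)
      have : |((Z + 1 : ℕ) : ℝ) - Z| = 1 := by push_cast; simp
      rw [this, mul_one]
    have e3 : ∑ n ∈ Ico M Z, Bf (N / n) + Bf (N / Z) - ((∫ x in (M : ℝ)..Z, Bf (N / x)) + (∫ x in (Z : ℝ)..(Z + 1 : ℕ), Bf (N / x))) =
        (∑ n ∈ Ico M Z, Bf (N / n) - (∫ x in (M : ℝ)..Z, Bf (N / x))) + (Bf (N / Z) - (∫ x in (Z : ℝ)..(Z + 1 : ℕ), Bf (N / x))) := by
      ring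
    rw [e3]
    refine (abs_add_le _ _).trans ?_
    have e4 : 2 * N * (1 / (M : ℝ) - 1 / ((Z + 1 : ℕ) : ℝ)) = 2 * N * (1 / M - 1 / Z) + 2 * N * (1 / Z - 1 / ((Z + 1 : ℕ) : ℝ)) := by
      ring
    rw [e4]
    exact add_le_add ih h1

lemma int_abs_le (N a b : ℝ) : |∫ x in a..b, Bf (N / x)| ≤ 1 / 4 * |b - a| := by
  have := intervalIntegral.norm_integral_le_of_norm_le_const (a := a) (b := b) (f := fun x => Bf (N / x)) (C := 1 / 4)
    (by
      intro x _
      rw [Real.norm_eq_abs, abs_of_nonneg (Bf_nonneg _)]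
      exact Bf_le _)
  rwa [Real.norm_eq_abs] at this

/-- the sum of `Bf (N / n)` over `n < Z` -/
theorem sum_Bf (ε : ℝ) (hε : 0 < ε) : ∃ N₀ : ℝ, ∀ N : ℝ, N₀ ≤ N → ∀ Z : ℕ, N ≤ Z →
    |∑ n ∈ Ico 1 Z, Bf (N / n) - N * (Real.log Z - Real.log N + 1 - Real.log (2 * Real.pi))| ≤ ε * N + N ^ 2 / Z := by
  have h1 := sJ_tendsto.eventually (Metric.ball_mem_nhds _ (show 0 < ε / 2 by positivity))
  obtain ⟨J₀, hJ₀⟩ := eventually_atTop.mp h1
  refine ⟨(16 * (1 + 1 / ε) + J₀ + 2) ^ 2, ?_⟩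
  intro N hN Z hZ
  obtain ⟨s, hs⟩ : ∃ s, s = Real.sqrt N := ⟨_, rfl⟩
  have hN0 : 0 < N := lt_of_lt_of_le (by positivity) hN
  have hs0 : 0 < s := by rw [hs]; positivity
  have hs2 : s ^ 2 = N := by rw [hs]; exact Real.sq_sqrt hN0.le
  have hsge : 16 * (1 + 1 / ε) + J₀ + 2 ≤ s := by
    rw [hs]; exact Real.le_sqrt_of_sq_le hN
  have hεi : 0 < 1 / ε := by positivity
  have hJr : (0 : ℝ) ≤ J₀ := Nat.cast_nonneg J₀
  obtain ⟨J, hJ⟩ : ∃ J, J = ⌊s⌋₊ := ⟨_, rfl⟩
  have hJ1 : (J : ℝ) ≤ s := by rw [hJ]; exact Nat.floor_le hs0.le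
  have hJ2 : s < J + 1 := by rw [hJ]; exact Nat.lt_floor_add_one s
  have hJ3 : J₀ ≤ J := by
    have : (J₀ : ℝ) ≤ J := by linarith
    exact_mod_cast this
  have hJ4 : 1 ≤ J := by
    have : (1 : ℝ) ≤ J := by linarith
    exact_mod_cast this
  have hJ5 := hJ₀ J hJ3
  rw [Real.dist_eq] at hJ5
  have hJN : (J : ℝ) ≤ N := by rw [← hs2]; nlinarith
  have hJZ : J ≤ Z := by
    have : (J : ℝ) ≤ Z := hJN.trans hZ
    exact_mod_cast this
  have hJ0 : (0 : ℝ) < J := by exact_mod_cast hJ4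
  have hZ0 : (0 : ℝ) < Z := by linarith
  -- the small terms
  have h2 : ∑ n ∈ Ico 1 Z, Bf (N / n) = ∑ n ∈ Ico 1 J, Bf (N / n) + ∑ n ∈ Ico J Z, Bf (N / n) :=
    (sum_Ico_consecutive _ hJ4 hJZ).symm
  have h3 : |∑ n ∈ Ico 1 J, Bf (N / n)| ≤ s := by
    rw [abs_of_nonneg (sum_nonneg fun _ _ => Bf_nonneg _)]
    refine (sum_le_sum fun n _ => Bf_le _).trans ?_
    rw [sum_const, Nat.card_Ico, nsmul_eq_mul, Nat.cast_sub hJ4]
    push_cast
    linarith
  have h4 := sum_sub_int N hN0 J Z hJ4 hJZ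
  have h5 : 2 * N * (1 / (J : ℝ) - 1 / Z) ≤ 4 * s := by
    have h6 : 2 * N * (1 / (J : ℝ) - 1 / Z) ≤ 2 * N * (1 / J) := by
      apply mul_le_mul_of_nonneg_left _ (by positivity)
      have : 0 < 1 / (Z : ℝ) := by positivity
      linarith
    refine h6.trans ?_
    rw [mul_one_div, div_le_iff₀ hJ0, ← hs2]
    nlinarith
  -- the integral
  have hNJ : N / (J + 1) ≤ N := div_le_self hN0.le (by linarith)
  have hNJ0 : 0 < N / ((J : ℝ) + 1) := by positivity
  have h6 : ∫ x in (J : ℝ)..Z, Bf (N / x) = (∫ x in (J : ℝ)..(N / (J + 1)), Bf (N / x)) + N * sJ J + ∫ x in N..Z, Bf (N / x) := by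
    rw [← int_blocks N hN0 J]
    have i1 : IntervalIntegrable (fun x => Bf (N / x)) volume (J : ℝ) (N / (J + 1)) := by
      rcases le_total (J : ℝ) (N / (J + 1)) with h | h
      · exact Bf_int N _ _ hJ0 h
      · exact (Bf_int N _ _ hNJ0 h).symm
    rw [integral_add_adjacent_intervals i1 (Bf_int N _ _ hNJ0 hNJ),
      integral_add_adjacent_intervals (Bf_int N _ _ hJ0 hJN) (Bf_int N _ _ hN0 hZ)]
  have h7 : ∫ x in N..Z, Bf (N / x) = N * (Real.log Z - Real.log N) - N + N ^ 2 / Z := by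
    rw [int_FB N 0 N Z hN0 hN0 hZ (by rw [Nat.cast_zero]; positivity) (by rw [div_self hN0.ne']; norm_num)]
    unfold FB
    push_cast
    field_simp
    ring
  have h8 : |∫ x in (J : ℝ)..(N / (J + 1)), Bf (N / x)| ≤ s := by
    refine (int_abs_le N _ _).trans ?_
    have h9 : |N / (J + 1) - J| ≤ 2 * s := by
      have h10 : N / ((J : ℝ) + 1) ≤ s := by
        rw [div_le_iff₀ (by positivity), ← hs2]
        nlinarith
      rw [abs_le]
      constructor <;> linarith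
    linarith
  have h9 : |N * sJ J - N * (2 - Real.log (2 * Real.pi))| ≤ ε / 2 * N := by
    rw [← mul_sub, abs_mul, abs_of_pos hN0, mul_comm]
    exact mul_le_mul_of_nonneg_right hJ5.le hN0.le
  have h10 : 8 * s ≤ ε / 2 * N := by
    have h11 : 16 * (1 / ε) ≤ s := by linarith
    rw [mul_one_div, div_le_iff₀ hε] at h11
    rw [← hs2]
    nlinarith
  rw [h2]
  have h11 := abs_le.mp h3
  have h12 := abs_le.mp (h4.trans h5)
  have h13 := abs_le.mp h8
  have h14 := abs_le.mp h9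
  have hNZ : 0 ≤ N ^ 2 / Z := by positivity
  rw [h6, h7] at h12
  rw [abs_le]
  constructor
  · nlinarith [h11.1, h12.1, h13.1, h14.1]
  · nlinarith [h11.2, h12.2, h13.2, h14.2]

end Pool.Agent.L5helper10.RM
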