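import Pool.Agent.L5helper10.RM.K8
import Pool.Agent.L5helper10.RM.K2

/-! The mean of the local mean square up to `o(H)`: the theorem. -/

set_option autoImplicit false
set_option linter.unusedSectionVars false

namespace Pool.Agent.L5helper10.RM

open Finset Filter

open scoped Topology

/-- the constant `1 - γ - log 2π` -/
noncomputable def c3 : ℝ := 1 - Real.eulerMascheroniConstant - Real.log (2 * Real.pi)

lemma half_bound (ε : ℝ) (hε : 0 < ε) : ∃ N₀ : ℝ, ∀ (z : ℕ) (N : ℝ), 2 ≤ z → N₀ ≤ N → N ≤ z →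
    |∑ n ∈ Icc 1 ⌊N ^ (1 / 2 : ℝ)⌋₊, bw N n * aa z n + ∑ n ∈ Ioc ⌊N ^ (1 / 2 : ℝ)⌋₊ z, bw N n * aa z n +
      ∑ e ∈ (QO z).divisors.filter (fun e => ¬ e ≤ z), bw N e * aa z e -
      N * (VP z - Real.eulerMascheroniConstant - Real.log 2 - Real.log N + 1 - Real.log (2 * Real.pi))| ≤
      ε * N + N ^ 2 * (VP z + 1) / z := by
  obtain ⟨N₁, hN₁⟩ := sum_Bf (ε / 8) (by positivity)
  -- the small quantities
  have hsq : Tendsto (fun N : ℝ => N ^ (1 / 2 : ℝ)) atTop atTop := tendsto_rpow_atTop (by norm_num)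
  have hMt : Tendsto (fun N : ℝ => (⌊N ^ (1 / 2 : ℝ)⌋₊ : ℝ)) atTop atTop :=
    tendsto_natCast_atTop_atTop.comp (tendsto_nat_floor_atTop.comp hsq)
  have hM8 : Tendsto (fun N : ℝ => CM * (⌊N ^ (1 / 2 : ℝ)⌋₊ : ℝ) ^ (-(1 / 8) : ℝ)) atTop (𝓝 (CM * 0)) :=
    ((tendsto_rpow_neg_atTop (by norm_num : (0 : ℝ) < 1 / 8)).comp hMt).const_mul _
  rw [mul_zero] at hM8
  have hz4 : Tendsto (fun N : ℝ => 20 * Dinf * N ^ (-(1 / 4) : ℝ)) atTop (𝓝 (20 * Dinf * 0)) :=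
    (tendsto_rpow_neg_atTop (by norm_num : (0 : ℝ) < 1 / 4)).const_mul _
  rw [mul_zero] at hz4
  have hlog := (isLittleO_log_rpow_atTop (show (0 : ℝ) < 1 / 4 by norm_num)).def (show (0 : ℝ) < 1 by norm_num)
  have hq : Tendsto (fun N : ℝ => N ^ (1 / 4 : ℝ)) atTop atTop := tendsto_rpow_atTop (by norm_num)
  have hε8 : 0 < ε / 8 := by positivity
  have hev : ∀ᶠ N : ℝ in atTop, N₁ ≤ N ∧ 4 ≤ N ∧ CM * (⌊N ^ (1 / 2 : ℝ)⌋₊ : ℝ) ^ (-(1 / 8) : ℝ) ≤ ε / 8 ∧
      20 * Dinf * N ^ (-(1 / 4) : ℝ) ≤ ε / 8 ∧ Real.log N ≤ N ^ (1 / 4 : ℝ) ∧ 4 + 20 * Dinf ≤ N ^ (1 / 4 : ℝ) ∧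
      8 / ε ≤ N ^ (1 / 4 : ℝ) ∧ 8 / ε ≤ N := by
    filter_upwards [eventually_ge_atTop N₁, eventually_ge_atTop 4, hM8.eventually (eventually_lt_nhds hε8),
      hz4.eventually (eventually_lt_nhds hε8), hlog, hq.eventually (eventually_ge_atTop (4 + 20 * Dinf)),
      hq.eventually (eventually_ge_atTop (8 / ε)), eventually_ge_atTop (8 / ε)] with N a1 a2 a3 a4 a5 a6 a7 a8
    refine ⟨a1, a2, a3.le, a4.le, ?_, a6, a7, a8⟩
    rw [one_mul, Real.norm_eq_abs, Real.norm_eq_abs, abs_of_nonneg (by positivity : (0 : ℝ) ≤ N ^ (1 / 4 : ℝ))] at a5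
    exact (le_abs_self _).trans a5
  obtain ⟨N₀, hN₀⟩ := hev.exists_forall_of_atTop
  refine ⟨N₀, fun z N hz hN hNz => ?_⟩
  obtain ⟨a1, a2, a3, a4, a5, a6, a7, a8⟩ := hN₀ N hN
  have hN0 : (0 : ℝ) < N := by linarith
  have hz0 : (0 : ℝ) < z := by linarith
  obtain ⟨M, hMd⟩ : ∃ M, M = ⌊N ^ (1 / 2 : ℝ)⌋₊ := ⟨_, rfl⟩
  rw [← hMd] at a3 ⊢
  have hMle : (M : ℝ) ≤ N ^ (1 / 2 : ℝ) := by rw [hMd]; exact Nat.floor_le (by positivity)
  have hsqN : N ^ (1 / 2 : ℝ) ≤ N := by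
    calc N ^ (1 / 2 : ℝ) ≤ N ^ (1 : ℝ) := Real.rpow_le_rpow_of_exponent_le (by linarith) (by norm_num)
      _ = N := Real.rpow_one N
  have hM1 : 1 ≤ M := by
    rw [hMd]
    apply Nat.le_floor
    push_cast
    exact Real.one_le_rpow (by linarith) (by norm_num)
  have hM1r : (1 : ℝ) ≤ M := by exact_mod_cast hM1
  have hMz : M ≤ z := by
    have : (M : ℝ) ≤ z := by linarith
    exact_mod_cast this
  have hD := Dinf_pos
  -- (1) the first sum
  have hg0 := Real.one_half_lt_eulerMascheroniConstant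
  have hg1 := Real.eulerMascheroniConstant_lt_two_thirds
  have hl2 := Real.log_two_lt_d9
  have hl2' := Real.log_two_gt_d9
  have hlogN0 : 0 ≤ Real.log N := Real.log_nonneg (by linarith)
  have hlogMN : Real.log M ≤ Real.log N := Real.log_le_log (by linarith) (by linarith)
  have hq2 : N ^ (1 / 2 : ℝ) = N ^ (1 / 4 : ℝ) * N ^ (1 / 4 : ℝ) := by rw [← Real.rpow_add hN0]; norm_num
  have hq4 : N = N ^ (1 / 2 : ℝ) * N ^ (1 / 2 : ℝ) := by rw [← Real.rpow_add hN0]; norm_num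
  obtain ⟨y, hy⟩ : ∃ y, y = N ^ (1 / 4 : ℝ) := ⟨_, rfl⟩
  rw [← hy] at a5 a6 a7 hq2
  have hy0 : 0 < y := by rw [hy]; positivity
  have hNy : N = (y * y) * (y * y) := by rw [← hq2]; exact hq4
  have h1 : 0 ≤ ∑ n ∈ Icc 1 M, bw N n * aa z n ∧ ∑ n ∈ Icc 1 M, bw N n * aa z n ≤ ε / 8 * N := by
    constructor
    · exact sum_nonneg fun n _ => mul_nonneg (bw_nonneg _ _) (aa_nonneg z n)
    · have h2 : ∑ n ∈ Icc 1 M, bw N n * aa z n ≤ M / 4 * ∑ n ∈ Icc 1 M, aa z n := by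
        rw [mul_sum]
        refine sum_le_sum fun n hn => ?_
        rw [mem_Icc] at hn
        apply mul_le_mul_of_nonneg_right _ (aa_nonneg z n)
        unfold bw
        have h3 : (n : ℝ) ≤ M := by exact_mod_cast hn.2
        have h4 := Bf_le (N / n)
        have h5 := Bf_nonneg (N / n)
        calc (n : ℝ) * Bf (N / n) ≤ M * (1 / 4) := by gcongr
          _ = _ := by ring
      have h3 := (abs_le.mp (sum_aa_asymp z M hM1)).2
      have h4 : (M : ℝ) ^ (-(1 / 4) : ℝ) ≤ 1 := Real.rpow_le_one_of_one_le_of_nonpos hM1r (by norm_num)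
      have h5 : 20 * Dinf * (M : ℝ) ^ (-(1 / 4) : ℝ) ≤ 20 * Dinf := by
        calc 20 * Dinf * (M : ℝ) ^ (-(1 / 4) : ℝ) ≤ 20 * Dinf * 1 := by gcongr
          _ = _ := by ring
      have h6 : ∑ n ∈ Icc 1 M, aa z n ≤ 2 * y := by linarith
      have hnn : 0 ≤ ∑ n ∈ Icc 1 M, aa z n := sum_nonneg fun n _ => aa_nonneg z n
      rw [div_le_iff₀ hε] at a7
      calc ∑ n ∈ Icc 1 M, bw N n * aa z n ≤ M / 4 * ∑ n ∈ Icc 1 M, aa z n := h2
        _ ≤ (y * y) / 4 * (2 * y) := by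
            apply mul_le_mul _ h6 hnn (by positivity)
            rw [← hq2]; linarith
        _ = 1 / 2 * (y * y * y) := by ring
        _ ≤ ε / 8 * ((y * y) * (y * y)) := by
            have : 8 * (y * y * y) ≤ (y * ε) * (y * y * y) := mul_le_mul_of_nonneg_right a7 (by positivity)
            nlinarith [this, mul_pos (mul_pos hy0 hy0) hy0]
        _ = ε / 8 * N := by rw [← hNy]
  -- (2) the middle sum
  have h2 := mid_sum z N hN0.le M z hM1 hMz
  have h2' : CM * N * (M : ℝ) ^ (-(1 / 8) : ℝ) ≤ ε / 8 * N := by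
    calc CM * N * (M : ℝ) ^ (-(1 / 8) : ℝ) = (CM * (M : ℝ) ^ (-(1 / 8) : ℝ)) * N := by ring
      _ ≤ _ := by gcongr
  -- (3) the sum of Bf
  have h3 := hN₁ N a1 (z + 1) (by push_cast; linarith)
  have e3 : ∑ n ∈ Ico 1 (z + 1), Bf (N / n) = ∑ n ∈ Icc 1 M, Bf (N / n) + ∑ n ∈ Ioc M z, Bf (N / n) := by
    have e1 : Ico 1 (z + 1) = Icc 1 M ∪ Ioc M z := by
      ext n
      rw [mem_union, mem_Ico, mem_Icc, mem_Ioc]
      omega
    rw [e1, sum_union]
    rw [disjoint_left]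
    intro n hn hn'
    rw [mem_Icc] at hn
    rw [mem_Ioc] at hn'
    omega
  rw [e3] at h3
  have h4 : 0 ≤ ∑ n ∈ Icc 1 M, Bf (N / n) ∧ ∑ n ∈ Icc 1 M, Bf (N / n) ≤ ε / 8 * N := by
    constructor
    · exact sum_nonneg fun n _ => Bf_nonneg _
    · have h5 : ∑ n ∈ Icc 1 M, Bf (N / n) ≤ ∑ n ∈ Icc 1 M, (1 / 4 : ℝ) := sum_le_sum fun n _ => Bf_le _
      rw [sum_const, Nat.card_Icc, Nat.add_sub_cancel, nsmul_eq_mul] at h5
      rw [div_le_iff₀ hε] at a7
      have h6 : (1 : ℝ) ≤ y := by linarith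
      calc ∑ n ∈ Icc 1 M, Bf (N / n) ≤ M * (1 / 4) := h5
        _ ≤ (y * y) * (1 / 4) := by
            apply mul_le_mul_of_nonneg_right _ (by norm_num)
            rw [← hq2]; exact hMle
        _ ≤ (y * y) * (ε / 8 * (y * y)) := by
            apply mul_le_mul_of_nonneg_left _ (by positivity)
            nlinarith [mul_nonneg hy0.le hε.le]
        _ = ε / 8 * N := by rw [hNy]; ring
  -- (4) the large divisors
  have h5 := big_sum z hz N hN0.le hNz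
  have h6 := sum_aa_asymp z z (by omega)
  have h7 : 20 * Dinf * (z : ℝ) ^ (-(1 / 4) : ℝ) ≤ ε / 8 := by
    refine le_trans ?_ a4
    apply mul_le_mul_of_nonneg_left _ (by positivity)
    exact Real.rpow_le_rpow_of_nonpos hN0 hNz (by norm_num)
  have h8 : |N * (VP z - ∑ n ∈ Icc 1 z, aa z n) - N * (VP z - (Real.log z + (Real.eulerMascheroniConstant + Real.log 2)))| ≤
      ε / 8 * N := by
    have e1 : N * (VP z - ∑ n ∈ Icc 1 z, aa z n) - N * (VP z - (Real.log z + (Real.eulerMascheroniConstant + Real.log 2))) =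
        -(N * (∑ n ∈ Icc 1 z, aa z n - (Real.log z + (Real.eulerMascheroniConstant + Real.log 2)))) := by ring
    rw [e1, abs_neg, abs_mul, abs_of_pos hN0, mul_comm]
    apply mul_le_mul_of_nonneg_right (h6.trans h7) hN0.le
  -- (5) the logarithm
  have h9 : |N * Real.log ((z + 1 : ℕ) : ℝ) - N * Real.log z| ≤ ε / 8 * N := by
    have h10 : Real.log ((z + 1 : ℕ) : ℝ) - Real.log z ≤ 1 / z := by
      rw [← Real.log_div (by positivity) hz0.ne']
      have h11 := Real.log_le_sub_one_of_pos (x := ((z + 1 : ℕ) : ℝ) / z) (by positivity)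
      refine h11.trans (le_of_eq ?_)
      push_cast
      field_simp
      ring
    have h12 : Real.log z ≤ Real.log ((z + 1 : ℕ) : ℝ) := by
      apply Real.log_le_log hz0
      push_cast; linarith
    have h13 : 1 / (z : ℝ) ≤ ε / 8 := by
      rw [div_le_iff₀ hz0]
      rw [div_le_iff₀ hε] at a8
      nlinarith
    rw [← mul_sub, abs_mul, abs_of_pos hN0, abs_of_nonneg (by linarith), mul_comm]
    apply mul_le_mul_of_nonneg_right (h10.trans h13) hN0.le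
  have h10 : N ^ 2 / ((z + 1 : ℕ) : ℝ) ≤ N ^ 2 / z := by
    apply div_le_div_of_nonneg_left (by positivity) hz0
    push_cast; linarith
  have e10 : N ^ 2 * (VP z + 1) / z = N ^ 2 * VP z / z + N ^ 2 / z := by ring
  rw [e10]
  have e11 : N * (Real.log ((z + 1 : ℕ) : ℝ) - Real.log N + 1 - Real.log (2 * Real.pi)) =
      N * Real.log ((z + 1 : ℕ) : ℝ) + N * (- Real.log N + 1 - Real.log (2 * Real.pi)) := by ring
  rw [e11] at h3
  have e12 : N * (VP z - (Real.log z + (Real.eulerMascheroniConstant + Real.log 2))) =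
      N * VP z - N * Real.log z - N * (Real.eulerMascheroniConstant + Real.log 2) := by ring
  rw [e12] at h8
  have e13 : N * (VP z - Real.eulerMascheroniConstant - Real.log 2 - Real.log N + 1 - Real.log (2 * Real.pi)) =
      N * VP z - N * (Real.eulerMascheroniConstant + Real.log 2) + N * (- Real.log N + 1 - Real.log (2 * Real.pi)) := by ring
  rw [e13]
  rw [abs_le] at h2 h3 h5 h8 h9 ⊢
  constructor
  · linarith [h1.1, h1.2, h2.1, h2.2, h3.1, h3.2, h4.1, h4.2, h5.1, h5.2, h8.1, h8.2, h9.1, h9.2]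
  · linarith [h1.1, h1.2, h2.1, h2.2, h3.1, h3.2, h4.1, h4.2, h5.1, h5.2, h8.1, h8.2, h9.1, h9.2]

/-- **the mean of the local mean square, with the constant** -/
theorem EV_asymp (ε : ℝ) (hε : 0 < ε) : ∃ H₀ : ℕ, ∀ z H : ℕ, H₀ ≤ H → H ≤ z →
    |EV (primorial z) H - H * (VP z - Real.log H + c3)| ≤ ε * H + (H : ℝ) ^ 2 * (VP z + 1) / z := by
  obtain ⟨N₀, hN₀⟩ := half_bound ε hε
  obtain ⟨m, hm⟩ := exists_nat_gt (2 * N₀)
  refine ⟨max m 2, fun z H hH hHz => ?_⟩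
  have hH2 : 2 ≤ H := (le_max_right _ _).trans hH
  have hHm : (m : ℝ) ≤ H := by exact_mod_cast (le_max_left _ _).trans hH
  have hH2r : (2 : ℝ) ≤ H := by exact_mod_cast hH2
  have hHzr : (H : ℝ) ≤ z := by exact_mod_cast hHz
  have hz0 : (0 : ℝ) < z := by linarith
  have h1 := hN₀ z ((H : ℝ) / 2) (by omega) (by linarith) (by linarith)
  have hMz : ⌊((H : ℝ) / 2) ^ (1 / 2 : ℝ)⌋₊ ≤ z := by
    have h2 : (⌊((H : ℝ) / 2) ^ (1 / 2 : ℝ)⌋₊ : ℝ) ≤ ((H : ℝ) / 2) ^ (1 / 2 : ℝ) := Nat.floor_le (by positivity)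
    have h3 : ((H : ℝ) / 2) ^ (1 / 2 : ℝ) ≤ (H : ℝ) / 2 := by
      calc ((H : ℝ) / 2) ^ (1 / 2 : ℝ) ≤ ((H : ℝ) / 2) ^ (1 : ℝ) :=
            Real.rpow_le_rpow_of_exponent_le (by linarith) (by norm_num)
        _ = _ := Real.rpow_one _
    have : (⌊((H : ℝ) / 2) ^ (1 / 2 : ℝ)⌋₊ : ℝ) ≤ z := by linarith
    exact_mod_cast this
  rw [EV_split z H (by omega) _ hMz]
  have hlog : Real.log ((H : ℝ) / 2) = Real.log H - Real.log 2 := Real.log_div (by positivity) (by norm_num)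
  rw [hlog] at h1
  have hVP := one_le_VP z
  have e1 : ((H : ℝ) / 2) ^ 2 * (VP z + 1) / z = 1 / 4 * ((H : ℝ) ^ 2 * (VP z + 1) / z) := by ring
  rw [e1] at h1
  have hnn : 0 ≤ (H : ℝ) ^ 2 * (VP z + 1) / z := by positivity
  unfold c3
  rw [abs_le] at h1 ⊢
  constructor <;> nlinarith [h1.1, h1.2]

end Pool.Agent.L5helper10.RM
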