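import Pool.Agent.L5helper10.RM.K10
import Pool.Agent.L5helper10.RM.K9

/-! The law up to `o(H)` for the lengths of the grid. -/

set_option autoImplicit false
set_option linter.unusedSectionVars false

namespace Pool.Agent.L5helper10.RM

open Finset Filter

open scoped Topology

/-- the main term at `x` -/
noncomputable def gm (H x : ℝ) : ℝ := H * (Real.log x - Real.log H + c3)

lemma c3_bounds : -2 ≤ c3 ∧ c3 ≤ 0 := by
  unfold c3
  have hg0 := Real.one_half_lt_eulerMascheroniConstant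
  have hg1 := Real.eulerMascheroniConstant_lt_two_thirds
  have h1 : Real.log (2 * Real.pi) ≤ 3 * Real.log 2 := by
    have h2 : Real.log (2 * Real.pi) ≤ Real.log (2 ^ 3) := by
      apply Real.log_le_log (by positivity)
      have := Real.pi_le_four
      linarith
    rwa [Real.log_pow] at h2
  have h3 := Real.log_two_lt_d9
  have h4 : 1 ≤ Real.log (2 * Real.pi) := by
    rw [Real.le_log_iff_exp_le (by positivity)]
    have := Real.exp_one_lt_d9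
    have := Real.pi_gt_three
    linarith
  push_cast at h1
  constructor <;> linarith

lemma gm_le {H : ℕ} (hH1 : 1 ≤ H) {k x : ℕ} (hx0 : 1 ≤ x) (hx : x ≤ 2 ^ (k + 1)) : gm H x ≤ H * ((k : ℝ) + 1) := by
  have hH0 : (1 : ℝ) ≤ H := by exact_mod_cast hH1
  unfold gm
  apply mul_le_mul_of_nonneg_left _ (by linarith)
  have h1 := Real.log_nonneg hH0
  have h2 := c3_bounds.2
  have h3 : Real.log (x : ℝ) ≤ Real.log ((2 ^ (k + 1) : ℕ) : ℝ) :=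
    Real.log_le_log (by exact_mod_cast hx0) (by exact_mod_cast hx)
  have h4 := log_two_pow (k + 1)
  push_cast at h3 h4
  linarith

lemma block_main2 (k q j H : ℕ) (α : ℕ → ℕ) (hk : 2 ≤ k) (hq : q ≤ k) (hj : j < 2 ^ q) (hH1 : 1 ≤ H)
    (hz : 1 ≤ zz (2 ^ k)) (e1 e2 : ℝ) (he2 : 0 ≤ e2)
    (hEV : |EV (primorial (zz (xb k q j))) H - H * (VP (zz (xb k q j)) - Real.log H + c3)| ≤ H * e1)
    (hFV : FV k q H α ≤ ((H : ℝ) * e2) ^ 2) :
    |∑ x ∈ Icc 1 (2 ^ (k - q)), DD H (((xb k q j + x : ℕ) : ZMod (primorial (zz (xb k q j)))) - cl (zz (xb k q j)) α) ^ 2 -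
      ∑ x ∈ Icc 1 (2 ^ (k - q)), gm H ((xb k q j + x : ℕ) : ℝ)| ≤
      2 ^ (k - q) * (H * (e1 + e2 + (((k : ℝ) + 1) / zz (2 ^ k) + 1 / 2 ^ q))) := by
  have hH0 : (0 : ℝ) < H := by exact_mod_cast hH1
  have hzr : (0 : ℝ) < zz (2 ^ k) := by exact_mod_cast hz
  obtain ⟨W, hW⟩ : ∃ W, W = VV (2 ^ (k - q)) H (cl (zz (xb k q j)) α - ((xb k q j : ℕ) : ZMod (primorial (zz (xb k q j))))) := ⟨_, rfl⟩
  have h1 : |W - EV (primorial (zz (xb k q j))) H| ≤ H * e2 := by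
    apply abs_le_of_sq_le_sq _ (by positivity)
    refine le_trans ?_ hFV
    unfold FV
    rw [hW]
    exact single_le_sum (f := fun j => (VV (2 ^ (k - q)) H (cl (zz (xb k q j)) α - ((xb k q j : ℕ) : ZMod (primorial (zz (xb k q j))))) -
      EV (primorial (zz (xb k q j))) H) ^ 2) (fun _ _ => sq_nonneg _) (mem_range.mpr hj)
  rw [block_VV, ← hW]
  have h2 : (2 : ℝ) ^ (k - q) * W = ∑ x ∈ Icc 1 (2 ^ (k - q)), W := by
    rw [sum_const, Nat.card_Icc, Nat.add_sub_cancel, nsmul_eq_mul]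
    push_cast; ring
  rw [h2, ← sum_sub_distrib]
  refine (abs_sum_le_sum_abs _ _).trans ?_
  have h3 : ∀ x ∈ Icc 1 (2 ^ (k - q)), |W - gm H ((xb k q j + x : ℕ) : ℝ)| ≤
      H * (e1 + e2 + (((k : ℝ) + 1) / zz (2 ^ k) + 1 / 2 ^ q)) := by
    intro x hx
    rw [mem_Icc] at hx
    have hx3 : 3 ≤ xb k q j := (two_pow_ge hk).trans (xb_ge k q j)
    have hxr : (0 : ℝ) < xb k q j := by exact_mod_cast (by omega : 0 < xb k q j)
    have hzx : zz (2 ^ k) ≤ zz (xb k q j) := zz_mono' (xb_ge k q j)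
    have hzxr : (zz (2 ^ k) : ℝ) ≤ zz (xb k q j) := by exact_mod_cast hzx
    have h4 := VP_zz_le (xb k q j) hx3
    have h5 := log_sub_VP (xb k q j) hx3 (hz.trans hzx)
    have h6 : Real.log (xb k q j : ℝ) ≤ (k : ℝ) + 1 := by
      have h7 : Real.log (xb k q j : ℝ) ≤ Real.log ((2 ^ (k + 1) : ℕ) : ℝ) := by
        apply Real.log_le_log hxr
        exact_mod_cast xb_le' hq hj
      have h8 := log_two_pow (k + 1)
      push_cast at h7 h8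
      linarith
    have h7 : Real.log (xb k q j : ℝ) / zz (xb k q j) ≤ ((k : ℝ) + 1) / zz (2 ^ k) := by
      gcongr
    have h8 : Real.log (xb k q j : ℝ) ≤ Real.log ((xb k q j + x : ℕ) : ℝ) := by
      apply Real.log_le_log hxr
      push_cast
      have : (0 : ℝ) ≤ x := Nat.cast_nonneg x
      linarith
    have h9 : Real.log ((xb k q j + x : ℕ) : ℝ) - Real.log (xb k q j : ℝ) ≤ 1 / 2 ^ q := by
      rw [← Real.log_div (by positivity) hxr.ne']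
      have h10 := Real.log_le_sub_one_of_pos (x := ((xb k q j + x : ℕ) : ℝ) / (xb k q j : ℝ)) (by positivity)
      refine h10.trans ?_
      have e3 : ((xb k q j + x : ℕ) : ℝ) / (xb k q j : ℝ) - 1 = x / (xb k q j : ℝ) := by
        push_cast
        field_simp
        ring
      rw [e3, div_le_div_iff₀ hxr (by positivity)]
      have : x * 2 ^ q ≤ 1 * xb k q j := by
        calc x * 2 ^ q ≤ 2 ^ (k - q) * 2 ^ q := Nat.mul_le_mul_right _ hx.2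
          _ = 2 ^ k := by rw [← pow_add, Nat.sub_add_cancel hq]
          _ ≤ 1 * xb k q j := by rw [one_mul]; exact xb_ge k q j
      exact_mod_cast this
    have h10 : |(H : ℝ) * (VP (zz (xb k q j)) - Real.log H + c3) - gm H ((xb k q j + x : ℕ) : ℝ)| ≤
        H * (((k : ℝ) + 1) / zz (2 ^ k) + 1 / 2 ^ q) := by
      unfold gm
      rw [← mul_sub, abs_mul, abs_of_pos hH0]
      apply mul_le_mul_of_nonneg_left _ hH0.le
      rw [abs_le]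
      have : 0 ≤ ((k : ℝ) + 1) / zz (2 ^ k) + 1 / 2 ^ q := by positivity
      constructor <;> linarith
    have e4 : W - gm H ((xb k q j + x : ℕ) : ℝ) = (W - EV (primorial (zz (xb k q j))) H) +
        (EV (primorial (zz (xb k q j))) H - H * (VP (zz (xb k q j)) - Real.log H + c3)) +
        ((H : ℝ) * (VP (zz (xb k q j)) - Real.log H + c3) - gm H ((xb k q j + x : ℕ) : ℝ)) := by ring
    rw [e4]
    refine (abs_add_three _ _ _).trans ?_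
    have e5 : (H : ℝ) * (e1 + e2 + (((k : ℝ) + 1) / zz (2 ^ k) + 1 / 2 ^ q)) = H * e2 + H * e1 +
        H * (((k : ℝ) + 1) / zz (2 ^ k) + 1 / 2 ^ q) := by ring
    rw [e5]
    linarith
  refine (sum_le_sum h3).trans (le_of_eq ?_)
  rw [sum_const, Nat.card_Icc, Nat.add_sub_cancel, nsmul_eq_mul]
  push_cast; ring

theorem scale_blocks2 (α : ℕ → ℕ) (k q H : ℕ) (hk : 2 ≤ k) (hq : q ≤ k) (hH1 : 1 ≤ H) (hH : H ≤ 2 ^ (k - q))
    (hz : 1 ≤ zz (2 ^ k)) (e1 e2 E : ℝ) (he2 : 0 ≤ e2)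
    (hEV : ∀ j < 2 ^ q, |EV (primorial (zz (xb k q j))) H - H * (VP (zz (xb k q j)) - Real.log H + c3)| ≤ H * e1)
    (hFV : FV k q H α ≤ ((H : ℝ) * e2) ^ 2) (hE : e1 + e2 + (((k : ℝ) + 1) / zz (2 ^ k) + 1 / 2 ^ q) ≤ E) (hE0 : 0 ≤ E)
    (θ η t : ℝ) (hFU : FU k q H α ≤ 2 ^ k * (H * θ)) (hη : 2 * θ + 2 * (H * ((k : ℝ) + 3) ^ 2 / zz (2 ^ k) ^ 2) ≤ η)
    (ht : 0 < t) (J : ℕ) (hJ : J ≤ 2 ^ q) :
    |∑ x ∈ Ioc (2 ^ k) (xb k q J), TT α x H ^ 2 - ∑ x ∈ Ioc (2 ^ k) (xb k q J), gm H x| ≤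
      2 ^ k * (H * (E + t * ((k : ℝ) + 1 + E) + (1 + 1 / t) * η)) := by
  have hH0 : (0 : ℝ) < H := by exact_mod_cast hH1
  rw [block_sum, block_sum k q (fun x : ℕ => gm H x), ← sum_sub_distrib]
  refine (abs_sum_le_sum_abs _ _).trans ?_
  have h3 : ∀ j ∈ range J, |∑ x ∈ Icc 1 (2 ^ (k - q)), TT α (xb k q j + x) H ^ 2 - ∑ x ∈ Icc 1 (2 ^ (k - q)), gm H ((xb k q j + x : ℕ) : ℝ)| ≤
      t * (2 ^ (k - q) * (H * ((k : ℝ) + 1 + E))) + (1 + 1 / t) * ∑ x ∈ Icc 1 (2 ^ (k - q)), RR' α k q j x H ^ 2 +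
      2 ^ (k - q) * (H * E) := by
    intro j hj
    rw [mem_range] at hj
    have hb := block_main2 k q j H α hk hq (by omega) hH1 hz e1 e2 he2 (hEV j (by omega)) hFV
    obtain ⟨D, hD⟩ : ∃ D : ℕ → ℝ, D = fun x => DD H (((xb k q j + x : ℕ) : ZMod (primorial (zz (xb k q j)))) - cl (zz (xb k q j)) α) :=
      ⟨_, rfl⟩
    have hTD : ∀ x, TT α (xb k q j + x) H = D x + RR' α k q j x H := by
      intro x; rw [hD]; unfold RR'; ring
    have hb' : |∑ x ∈ Icc 1 (2 ^ (k - q)), D x ^ 2 - ∑ x ∈ Icc 1 (2 ^ (k - q)), gm H ((xb k q j + x : ℕ) : ℝ)| ≤ 2 ^ (k - q) * (H * E) := by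
      rw [hD]
      refine hb.trans ?_
      gcongr
    have h4 := sq_compare (Icc 1 (2 ^ (k - q))) D (fun x => RR' α k q j x H) t ht
    simp only [← hTD] at h4
    have hg : ∑ x ∈ Icc 1 (2 ^ (k - q)), gm H ((xb k q j + x : ℕ) : ℝ) ≤ 2 ^ (k - q) * (H * ((k : ℝ) + 1)) := by
      have h5 : ∀ x ∈ Icc 1 (2 ^ (k - q)), gm H ((xb k q j + x : ℕ) : ℝ) ≤ H * ((k : ℝ) + 1) := by
        intro x hx
        rw [mem_Icc] at hx
        apply gm_le hH1 (by omega)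
        have := xb_le (k := k) hq (show j < 2 ^ q by omega)
        omega
      refine (sum_le_sum h5).trans (le_of_eq ?_)
      rw [sum_const, Nat.card_Icc, Nat.add_sub_cancel, nsmul_eq_mul]
      push_cast; ring
    have h5 : ∑ x ∈ Icc 1 (2 ^ (k - q)), D x ^ 2 ≤ 2 ^ (k - q) * (H * ((k : ℝ) + 1 + E)) := by
      have := (abs_le.mp hb').2
      calc _ ≤ 2 ^ (k - q) * (H * ((k : ℝ) + 1)) + 2 ^ (k - q) * (H * E) := by linarith
        _ = _ := by ring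
    have h6 := abs_sub_le (∑ x ∈ Icc 1 (2 ^ (k - q)), TT α (xb k q j + x) H ^ 2) (∑ x ∈ Icc 1 (2 ^ (k - q)), D x ^ 2)
      (∑ x ∈ Icc 1 (2 ^ (k - q)), gm H ((xb k q j + x : ℕ) : ℝ))
    have h7 : t * ∑ x ∈ Icc 1 (2 ^ (k - q)), D x ^ 2 ≤ t * (2 ^ (k - q) * (H * ((k : ℝ) + 1 + E))) := by gcongr
    linarith
  refine (sum_le_sum h3).trans ?_
  rw [sum_add_distrib, sum_add_distrib, sum_const, sum_const, card_range, nsmul_eq_mul, nsmul_eq_mul, ← mul_sum]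
  have hJr : (J : ℝ) ≤ 2 ^ q := by exact_mod_cast hJ
  have e : (2 : ℝ) ^ k = 2 ^ q * 2 ^ (k - q) := by rw [← pow_add, Nat.add_sub_cancel' hq]
  have h4 : ∑ j ∈ range J, ∑ x ∈ Icc 1 (2 ^ (k - q)), RR' α k q j x H ^ 2 ≤ 2 ^ k * (H * η) := by
    have h5 : ∑ j ∈ range J, ∑ x ∈ Icc 1 (2 ^ (k - q)), RR' α k q j x H ^ 2 ≤
        ∑ j ∈ range (2 ^ q), ∑ x ∈ Icc 1 (2 ^ (k - q)), RR' α k q j x H ^ 2 := by
      apply sum_le_sum_of_subset_of_nonneg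
      · exact range_subset_range.mpr hJ
      · intro _ _ _
        exact sum_nonneg fun _ _ => sq_nonneg _
    have h6 := RR'_sum α k q H hk hq hH hz
    calc _ ≤ 2 * FU k q H α + 2 * (2 ^ k * (H * (H * ((k : ℝ) + 3) ^ 2 / zz (2 ^ k) ^ 2))) := h5.trans h6
      _ ≤ 2 * (2 ^ k * (H * θ)) + 2 * (2 ^ k * (H * (H * ((k : ℝ) + 3) ^ 2 / zz (2 ^ k) ^ 2))) := by gcongr
      _ = 2 ^ k * (H * (2 * θ + 2 * (H * ((k : ℝ) + 3) ^ 2 / zz (2 ^ k) ^ 2))) := by ring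
      _ ≤ _ := by gcongr
  have ht1 : 0 < 1 + 1 / t := by positivity
  have hk0 : (0 : ℝ) ≤ k := Nat.cast_nonneg k
  have h5 : (J : ℝ) * (t * (2 ^ (k - q) * (H * ((k : ℝ) + 1 + E)))) ≤ 2 ^ k * (H * (t * ((k : ℝ) + 1 + E))) := by
    calc (J : ℝ) * (t * (2 ^ (k - q) * (H * ((k : ℝ) + 1 + E)))) ≤
        2 ^ q * (t * (2 ^ (k - q) * (H * ((k : ℝ) + 1 + E)))) := by gcongr
      _ = _ := by rw [e]; ring
  have h6 : (1 + 1 / t) * ∑ j ∈ range J, ∑ x ∈ Icc 1 (2 ^ (k - q)), RR' α k q j x H ^ 2 ≤ 2 ^ k * (H * ((1 + 1 / t) * η)) := by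
    calc _ ≤ (1 + 1 / t) * (2 ^ k * (H * η)) := by gcongr
      _ = _ := by ring
  have h7 : (J : ℝ) * (2 ^ (k - q) * (H * E)) ≤ 2 ^ k * (H * E) := by
    calc (J : ℝ) * (2 ^ (k - q) * (H * E)) ≤ 2 ^ q * (2 ^ (k - q) * (H * E)) := by gcongr
      _ = _ := by rw [e]; ring
  have e9 : (2 : ℝ) ^ k * (H * (E + t * ((k : ℝ) + 1 + E) + (1 + 1 / t) * η)) = 2 ^ k * (H * E) +
      2 ^ k * (H * (t * ((k : ℝ) + 1 + E))) + 2 ^ k * (H * ((1 + 1 / t) * η)) := by ring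
  rw [e9]
  linarith

/-- the law up to the error `E` -/
def Asy2 (α : ℕ → ℕ) (k H : ℕ) (E : ℝ) : Prop :=
  ∀ N : ℕ, 2 ^ k ≤ N → N ≤ 2 ^ (k + 1) →
    |∑ x ∈ Ioc (2 ^ k) N, TT α x H ^ 2 - ∑ x ∈ Ioc (2 ^ k) N, gm H x| ≤ 2 ^ k * (H * E)

theorem scale_grid2 (α : ℕ → ℕ) (k q H : ℕ) (hk : 2 ≤ k) (hq : q ≤ k) (hH1 : 1 ≤ H) (hH : H ≤ 2 ^ (k - q))
    (hz : 1 ≤ zz (2 ^ k)) (e1 e2 E : ℝ) (he2 : 0 ≤ e2)
    (hEV : ∀ j < 2 ^ q, |EV (primorial (zz (xb k q j))) H - H * (VP (zz (xb k q j)) - Real.log H + c3)| ≤ H * e1)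
    (hFV : FV k q H α ≤ ((H : ℝ) * e2) ^ 2) (hE : e1 + e2 + (((k : ℝ) + 1) / zz (2 ^ k) + 1 / 2 ^ q) ≤ E) (hE0 : 0 ≤ E)
    (θ η t : ℝ) (hFU : FU k q H α ≤ 2 ^ k * (H * θ)) (hη : 2 * θ + 2 * (H * ((k : ℝ) + 3) ^ 2 / zz (2 ^ k) ^ 2) ≤ η)
    (ht : 0 < t) (hη0 : 0 ≤ η) :
    Asy2 α k H (E + t * ((k : ℝ) + 1 + E) + (1 + 1 / t) * η + ((k : ℝ) + 1) / 2 ^ q) := by
  intro N hN1 hN2
  have hH0 : (0 : ℝ) < H := by exact_mod_cast hH1
  have hL0 : 0 < 2 ^ (k - q) := by positivity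
  have e : 2 ^ q * 2 ^ (k - q) = 2 ^ k := by rw [← pow_add, Nat.add_sub_cancel' hq]
  have er : (2 : ℝ) ^ q * 2 ^ (k - q) = 2 ^ k := by rw [← pow_add, Nat.add_sub_cancel' hq]
  obtain ⟨F, hF⟩ : ∃ F, F = E + t * ((k : ℝ) + 1 + E) + (1 + 1 / t) * η := ⟨_, rfl⟩
  obtain ⟨J, hJ⟩ : ∃ J, J = (N - 2 ^ k) / 2 ^ (k - q) := ⟨_, rfl⟩
  have hJ1 : J * 2 ^ (k - q) ≤ N - 2 ^ k := by rw [hJ]; exact Nat.div_mul_le_self _ _
  have hJ2 : N - 2 ^ k < (J + 1) * 2 ^ (k - q) := by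
    rw [hJ]
    exact (Nat.div_lt_iff_lt_mul hL0).mp (Nat.lt_succ_self _)
  have hJ3 : J ≤ 2 ^ q := by
    have h4 : J * 2 ^ (k - q) ≤ 2 ^ q * 2 ^ (k - q) := by
      rw [e]
      have : 2 ^ (k + 1) = 2 ^ k + 2 ^ k := by ring
      omega
    exact Nat.le_of_mul_le_mul_right h4 hL0
  have hxJ : xb k q J ≤ N := by unfold xb; omega
  have hbJ := abs_le.mp (scale_blocks2 α k q H hk hq hH1 hH hz e1 e2 E he2 hEV hFV hE hE0 θ η t hFU hη ht J hJ3)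
  rw [← hF] at hbJ ⊢
  have hF0 : 0 ≤ F := by rw [hF]; positivity
  have hmono : ∑ x ∈ Ioc (2 ^ k) (xb k q J), TT α x H ^ 2 ≤ ∑ x ∈ Ioc (2 ^ k) N, TT α x H ^ 2 := by
    apply sum_le_sum_of_subset_of_nonneg
    · exact Ioc_subset_Ioc_right hxJ
    · intro _ _ _; exact sq_nonneg _
  have hL : (2 : ℝ) ^ (k - q) * (H * ((k : ℝ) + 1)) = 2 ^ k * (H * (((k : ℝ) + 1) / 2 ^ q)) := by
    rw [← er]; field_simp
  -- the sums of the main term over short pieces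
  have hpiece : ∀ a b : ℕ, 2 ^ k ≤ a → a ≤ b → b ≤ 2 ^ (k + 1) → b ≤ a + 2 ^ (k - q) →
      ∑ x ∈ Ioc a b, gm H x ≤ 2 ^ k * (H * (((k : ℝ) + 1) / 2 ^ q)) := by
    intro a b ha hab hb hb2
    have h1 : ∀ x ∈ Ioc a b, gm H x ≤ H * ((k : ℝ) + 1) := by
      intro x hx
      rw [mem_Ioc] at hx
      exact gm_le hH1 (by omega) (by omega)
    refine (sum_le_sum h1).trans ?_
    rw [sum_const, Nat.card_Ioc, nsmul_eq_mul, ← hL]
    have h2 : ((b - a : ℕ) : ℝ) ≤ 2 ^ (k - q) := by exact_mod_cast (by omega : b - a ≤ 2 ^ (k - q))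
    gcongr
  have hsplit : ∀ a b : ℕ, 2 ^ k ≤ a → a ≤ b → ∑ x ∈ Ioc (2 ^ k) b, gm H x = ∑ x ∈ Ioc (2 ^ k) a, gm H x + ∑ x ∈ Ioc a b, gm H x := by
    intro a b ha hab
    rw [← sum_union (Ioc_disjoint_Ioc_of_le le_rfl), Ioc_union_Ioc_eq_Ioc ha hab]
  have e9 : (2 : ℝ) ^ k * (H * (F + ((k : ℝ) + 1) / 2 ^ q)) = 2 ^ k * (H * F) + 2 ^ k * (H * (((k : ℝ) + 1) / 2 ^ q)) := by ring
  have hk0 : (0 : ℝ) ≤ k := Nat.cast_nonneg k
  have hnn : 0 ≤ (2 : ℝ) ^ k * (H * (((k : ℝ) + 1) / 2 ^ q)) := by positivity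
  rw [e9, abs_le]
  constructor
  · have h1 := hsplit (xb k q J) N (xb_ge k q J) hxJ
    have h2 := hpiece (xb k q J) N (xb_ge k q J) hxJ hN2 (by
      unfold xb
      have : (J + 1) * 2 ^ (k - q) = J * 2 ^ (k - q) + 2 ^ (k - q) := by ring
      omega)
    linarith [hbJ.1]
  · rcases Nat.lt_or_ge J (2 ^ q) with hlt | hge
    · have hbJ' := abs_le.mp (scale_blocks2 α k q H hk hq hH1 hH hz e1 e2 E he2 hEV hFV hE hE0 θ η t hFU hη ht (J + 1) hlt)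
      rw [← hF] at hbJ'
      have hxJ' : N ≤ xb k q (J + 1) := by unfold xb; omega
      have hmono' : ∑ x ∈ Ioc (2 ^ k) N, TT α x H ^ 2 ≤ ∑ x ∈ Ioc (2 ^ k) (xb k q (J + 1)), TT α x H ^ 2 := by
        apply sum_le_sum_of_subset_of_nonneg
        · exact Ioc_subset_Ioc_right hxJ'
        · intro _ _ _; exact sq_nonneg _
      have h1 := hsplit N (xb k q (J + 1)) hN1 hxJ'
      have hJ1e : (J + 1) * 2 ^ (k - q) = J * 2 ^ (k - q) + 2 ^ (k - q) := by ring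
      have h2 := hpiece N (xb k q (J + 1)) hN1 hxJ' (by
        have := xb_le (k := k) hq hlt
        unfold xb at this ⊢
        omega) (by
        unfold xb
        omega)
      linarith [hbJ'.2]
    · have hJeq : J = 2 ^ q := le_antisymm hJ3 hge
      have hNeq : xb k q J = N := by
        apply le_antisymm hxJ
        unfold xb
        rw [hJeq, e]
        have : 2 ^ (k + 1) = 2 ^ k + 2 ^ k := by ring
        omega
      rw [hNeq] at hbJ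
      linarith [hbJ.2]

end Pool.Agent.L5helper10.RM
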