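import Pool.Agent.L5helper10.RM.K11

/-! The law up to `o(H)` for the lengths of the grid: the choice of the parameters. -/

set_option autoImplicit false
set_option linter.unusedSectionVars false

namespace Pool.Agent.L5helper10.RM

open Finset Filter

open scoped Topology

lemma zz_big (c : ℝ) (hc : c < kap) : ∀ᶠ k : ℕ in atTop, (2 : ℝ) ^ (c * k) ≤ zz (2 ^ k) := by
  have h1 := zz_lower c hc
  have ht : Tendsto (fun k : ℕ => 2 ^ k) atTop atTop := tendsto_pow_atTop_atTop_of_one_lt (by norm_num)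
  filter_upwards [ht.eventually h1] with k hk
  refine le_trans (le_of_eq ?_) hk
  push_cast
  rw [← rpow_two_nat, ← Real.rpow_mul (by norm_num)]
  congr 1; ring

theorem grid_law (α : ℕ → ℕ) (ε : ℝ) (hε : 0 < ε) (hε1 : ε ≤ 1) (hS : Small α ε) (δ : ℝ) (hδ : 0 < δ) (hδ1 : δ ≤ 1) :
    ∃ H₀ : ℕ, ∀ᶠ k : ℕ in atTop, ∀ H : ℕ, H₀ ≤ H → (H : ℝ) ≤ (2 : ℝ) ^ ((kap - ε) * k) → Grid (2 * uu k) k H →
      Asy2 α k H δ := by
  obtain ⟨H₀, hH₀⟩ := EV_asymp (δ / 8) (by positivity)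
  refine ⟨max H₀ 1, ?_⟩
  have hp0 := polyexp 1 (ε / 2) (by positivity) (8 / δ)
  have hp1 := polyexp 2 (ε / 2) (by positivity) 1
  have hp2 := polyexp 1 (ε / 16) (by positivity) (64 / δ)
  unfold Small at hS
  filter_upwards [hS, hp0, hp1, hp2, zz_pow, zz_big (kap - ε / 2) (by linarith), eventually_ge_atTop 2] with k h1 hp0 h2 h3 h6 h7 hk
  intro H hH hH2 hgrid
  have hk0 : (0 : ℝ) ≤ k := Nat.cast_nonneg k
  have hkap := kap_lt
  have hH1 : 1 ≤ H := (le_max_right _ _).trans hH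
  have hHH₀ : H₀ ≤ H := (le_max_left _ _).trans hH
  have hHε : (H : ℝ) ≤ (2 : ℝ) ^ ((1 - ε) * k) := by
    refine hH2.trans ?_
    apply Real.rpow_le_rpow_of_exponent_le (by norm_num)
    nlinarith
  obtain ⟨hq, hq2, hq3⟩ := floor_facts ε hε hε1 k
  have hHL := H_le_of hε hε1 hHε
  obtain ⟨hFV, hFU⟩ := h1 H hH1 hHε hgrid
  obtain ⟨q, hqd⟩ : ∃ q, q = ⌊ε / 4 * k⌋₊ := ⟨_, rfl⟩
  rw [← hqd] at hq hq2 hq3 hHL hFV hFU
  have hH0 : (0 : ℝ) < H := by exact_mod_cast hH1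
  have hz0 : (0 : ℝ) < zz (2 ^ k) := lt_of_lt_of_le (by positivity) h6
  have hz1 : 1 ≤ zz (2 ^ k) := by exact_mod_cast hz0
  have hzsq : (2 : ℝ) ^ k ≤ (zz (2 ^ k) : ℝ) ^ 2 := by
    calc (2 : ℝ) ^ k = ((2 : ℝ) ^ ((k : ℝ) / 2)) ^ 2 := by
          rw [← Real.rpow_natCast ((2 : ℝ) ^ ((k : ℝ) / 2)), ← Real.rpow_mul (by norm_num), ← rpow_two_nat]
          congr 1; push_cast; ring
      _ ≤ _ := by gcongr
  -- the quantity `w`
  obtain ⟨w, hw⟩ : ∃ w, w = (2 : ℝ) ^ (ε / 16 * k) := ⟨_, rfl⟩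
  rw [← hw] at h3
  have hw1 : 1 ≤ w := by rw [hw]; exact Real.one_le_rpow (by norm_num) (by positivity)
  have hw0 : 0 < w := by linarith
  have e8 : (2 : ℝ) ^ (-(ε / 8) * k) = w⁻¹ * w⁻¹ := by
    rw [two_rpow_neg_mul, hw, ← mul_inv, ← Real.rpow_add (by norm_num)]
    congr 2; ring
  have e4 : (2 : ℝ) ^ (ε / 4 * k) = w ^ 4 := by
    rw [hw, ← Real.rpow_natCast, ← Real.rpow_mul (by norm_num)]
    congr 1; push_cast; ring
  rw [pow_one] at h3 hp0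
  have hkw : ((k : ℝ) + 3) / w ≤ δ / 64 := by
    rw [div_le_iff₀ hw0]
    have : 64 / δ * ((k : ℝ) + 3) = ((k : ℝ) + 3) * 64 / δ := by ring
    rw [this, div_le_iff₀ hδ] at h3
    linarith
  have hinvw : 1 / w ≤ δ / 64 := by
    refine le_trans ?_ hkw
    gcongr
    linarith
  have hq4 : (1 : ℝ) / 2 ^ q ≤ 2 / w := by
    rw [div_le_div_iff₀ (by positivity) hw0, one_mul]
    rw [e4] at hq3
    refine le_trans ?_ hq3
    nlinarith [pow_le_pow_right₀ hw1 (show 1 ≤ 4 by norm_num)]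
  have hzw : ((k : ℝ) + 1) / zz (2 ^ k) ≤ ((k : ℝ) + 3) / w := by
    have : w ≤ zz (2 ^ k) := by
      refine le_trans ?_ h6
      rw [hw]
      apply Real.rpow_le_rpow_of_exponent_le (by norm_num)
      nlinarith
    gcongr
    linarith
  -- the mean
  have hEV : ∀ j < 2 ^ q, |EV (primorial (zz (xb k q j))) H - H * (VP (zz (xb k q j)) - Real.log H + c3)| ≤ H * (δ / 4) := by
    intro j hj
    have hzx : zz (2 ^ k) ≤ zz (xb k q j) := zz_mono' (xb_ge k q j)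
    have hzxr : (zz (2 ^ k) : ℝ) ≤ zz (xb k q j) := by exact_mod_cast hzx
    have e9 : (2 : ℝ) ^ ((kap - ε / 2) * k) = (2 : ℝ) ^ ((kap - ε) * k) * (2 : ℝ) ^ (ε / 2 * k) := by
      rw [← Real.rpow_add (by norm_num)]; congr 1; ring
    have h9 : (1 : ℝ) ≤ (2 : ℝ) ^ (ε / 2 * k) := Real.one_le_rpow (by norm_num) (by positivity)
    have hHz : (H : ℝ) * (2 : ℝ) ^ (ε / 2 * k) ≤ zz (xb k q j) := by
      calc (H : ℝ) * (2 : ℝ) ^ (ε / 2 * k) ≤ (2 : ℝ) ^ ((kap - ε) * k) * (2 : ℝ) ^ (ε / 2 * k) := by gcongr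
        _ = (2 : ℝ) ^ ((kap - ε / 2) * k) := e9.symm
        _ ≤ _ := h7.trans hzxr
    have hHz' : H ≤ zz (xb k q j) := by
      have : (H : ℝ) ≤ zz (xb k q j) := by nlinarith
      exact_mod_cast this
    have hzxr0 : (0 : ℝ) < zz (xb k q j) := hz0.trans_le hzxr
    refine (hH₀ (zz (xb k q j)) H hHH₀ hHz').trans ?_
    have hVP := VP_xb_le k q j hk hq hj
    have hVP1 := one_le_VP (zz (xb k q j))
    have h10 : (H : ℝ) ^ 2 * (VP (zz (xb k q j)) + 1) / zz (xb k q j) ≤ H * (δ / 8) := by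
      rw [div_le_iff₀ hzxr0]
      have h11 : (k : ℝ) + 3 ≤ δ / 8 * (2 : ℝ) ^ (ε / 2 * k) := by
        have : 8 / δ * ((k : ℝ) + 3) = ((k : ℝ) + 3) * 8 / δ := by ring
        rw [this, div_le_iff₀ hδ] at hp0
        linarith
      calc (H : ℝ) ^ 2 * (VP (zz (xb k q j)) + 1) ≤ (H : ℝ) ^ 2 * (δ / 8 * (2 : ℝ) ^ (ε / 2 * k)) := by
            gcongr
            linarith
        _ = H * (δ / 8) * (H * (2 : ℝ) ^ (ε / 2 * k)) := by ring
        _ ≤ _ := by gcongr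
    linarith
  have hFV' : FV k q H α ≤ ((H : ℝ) * (1 / w)) ^ 2 := by
    refine hFV.le.trans (le_of_eq ?_)
    rw [e8]; field_simp
  have h8 : (H : ℝ) * ((k : ℝ) + 3) ^ 2 / zz (2 ^ k) ^ 2 ≤ (2 : ℝ) ^ (-(ε / 8) * k) := by
    calc (H : ℝ) * ((k : ℝ) + 3) ^ 2 / zz (2 ^ k) ^ 2 ≤ (2 : ℝ) ^ ((1 - ε) * k) * (2 : ℝ) ^ (ε / 2 * k) / 2 ^ k := by
          rw [one_mul] at h2
          gcongr
      _ = (2 : ℝ) ^ ((1 - ε) * k + ε / 2 * k - k) := by
          rw [Real.rpow_sub (by norm_num), Real.rpow_add (by norm_num), rpow_two_nat]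
      _ ≤ _ := by
          apply Real.rpow_le_rpow_of_exponent_le (by norm_num)
          nlinarith [mul_nonneg hε.le hk0]
  have hmain := scale_grid2 α k q H hk hq hH1 hHL hz1 (δ / 4) (1 / w) (δ / 4 + 5 * (((k : ℝ) + 3) / w)) (by positivity) hEV hFV'
    (by
      have : 1 / w ≤ ((k : ℝ) + 3) / w := by gcongr; linarith
      have h12 : 2 / w = 2 * (1 / w) := by ring
      have hK0 : 0 ≤ ((k : ℝ) + 3) / w := by positivity
      linarith) (by positivity) ((2 : ℝ) ^ (-(ε / 8) * k)) (4 * (2 : ℝ) ^ (-(ε / 8) * k)) (1 / w) hFU.le (by linarith) (by positivity)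
    (by positivity)
  intro N hN1 hN2
  refine (hmain N hN1 hN2).trans ?_
  apply mul_le_mul_of_nonneg_left _ (by positivity)
  apply mul_le_mul_of_nonneg_left _ hH0.le
  have e12 : (1 + 1 / (1 / w)) * (4 * (2 : ℝ) ^ (-(ε / 8) * k)) = 4 * (1 / w * (1 / w)) + 4 * (1 / w) := by
    rw [e8]; field_simp
  rw [e12]
  have h13 : 1 / w * ((k : ℝ) + 1 + (δ / 4 + 5 * (((k : ℝ) + 3) / w))) ≤ ((k : ℝ) + 3) / w := by
    rw [one_div, inv_mul_eq_div]
    apply div_le_div_of_nonneg_right _ hw0.le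
    linarith
  have h14 : ((k : ℝ) + 1) / 2 ^ q ≤ 2 * (((k : ℝ) + 3) / w) := by
    calc ((k : ℝ) + 1) / 2 ^ q = ((k : ℝ) + 1) * (1 / 2 ^ q) := by ring
      _ ≤ ((k : ℝ) + 3) * (2 / w) := by gcongr; linarith
      _ = _ := by ring
  have h15 : 1 / w * (1 / w) ≤ 1 / w := by
    have : 1 / w ≤ 1 := by rw [div_le_one hw0]; exact hw1
    nlinarith [show (0 : ℝ) ≤ 1 / w by positivity]
  linarith

end Pool.Agent.L5helper10.RM
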