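import Pool.Agent.L5helper10.RM.K12
import Pool.Agent.L5helper10.RM.G8

/-! The law up to `o(H)` for all the lengths. -/

set_option autoImplicit false
set_option linter.unusedSectionVars false

namespace Pool.Agent.L5helper10.RM

open Finset Filter

open scoped Topology

theorem chain2 (α : ℕ → ℕ) (k u : ℕ) (B : ℝ) (hB : B ≤ 2 ^ k) (hk : 2 ≤ k) (E : ℝ) (H₁ : ℕ) (hH₁ : 1 ≤ H₁)
    (hpow : ∀ i : ℕ, ((2 ^ i : ℕ) : ℝ) ≤ B → ∑ x ∈ Ioc (2 ^ k) (2 ^ (k + 2)), TT α x (2 ^ i) ^ 2 ≤ (2 ^ k * (16 * (k : ℝ))) * 2 ^ i)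
    (hfull : ∀ H : ℕ, 1 ≤ H → (H : ℝ) ≤ B → ∑ x ∈ Ioc (2 ^ k) (2 ^ (k + 1)), TT α x H ^ 2 ≤ 2 ^ k * (H * (4 * (k : ℝ))))
    (h1 : ∀ H : ℕ, H₁ ≤ H → (H : ℝ) ≤ B → Grid (2 * u) k H → Asy2 α k H E) (hE0 : 0 ≤ E)
    (H : ℕ) (hH1 : 2 * H₁ ≤ H) (hH : (H : ℝ) ≤ B) :
    Asy2 α k H (E + 300 * ((k : ℝ) / 2 ^ u)) := by
  have hk0 : (2 : ℝ) ≤ k := by exact_mod_cast hk
  have hu : (0 : ℝ) < 2 ^ u := by positivity
  have hnn : 0 ≤ 300 * ((k : ℝ) / 2 ^ u) := by positivity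
  have hHN : H ≤ 2 ^ k := by exact_mod_cast (hH.trans hB)
  rcases Nat.lt_or_ge H (2 ^ (2 * u + 1)) with hsm | hlg
  · have h3 := h1 H (by omega) hH ⟨H, 0, hsm, Nat.zero_le _, by simp⟩
    intro N hN1 hN2
    refine (h3 N hN1 hN2).trans ?_
    gcongr
    linarith
  -- the decomposition of `H`
  obtain ⟨l, hl⟩ : ∃ l, l = Nat.log 2 H := ⟨_, rfl⟩
  have hl1 : 2 ^ l ≤ H := by rw [hl]; exact Nat.pow_log_le_self 2 (by omega)
  have hl2 : H < 2 ^ (l + 1) := by rw [hl]; exact Nat.lt_pow_succ_log_self (by norm_num) H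
  have hlu : 2 * u + 1 ≤ l := by
    by_contra h
    push Not at h
    have : 2 ^ (l + 1) ≤ 2 ^ (2 * u + 1) := Nat.pow_le_pow_right (by norm_num) (by omega)
    omega
  obtain ⟨i, hi⟩ : ∃ i, l = i + 2 * u := ⟨l - 2 * u, by omega⟩
  obtain ⟨m, hm⟩ : ∃ m, m = H / 2 ^ i := ⟨_, rfl⟩
  obtain ⟨H', hH'⟩ : ∃ H', H' = H % 2 ^ i := ⟨_, rfl⟩
  have hi0 : 0 < 2 ^ i := by positivity
  have hHdec : H = m * 2 ^ i + H' := by rw [hm, hH', mul_comm]; exact (Nat.div_add_mod H (2 ^ i)).symm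
  have hH'lt : H' < 2 ^ i := by rw [hH']; exact Nat.mod_lt _ hi0
  have hmlt : m < 2 ^ (2 * u + 1) := by
    rw [hm, Nat.div_lt_iff_lt_mul hi0, ← pow_add]
    have : 2 * u + 1 + i = l + 1 := by omega
    rw [this]; exact hl2
  have hmge : 2 ^ (2 * u) ≤ m := by
    rw [hm, Nat.le_div_iff_mul_le hi0, ← pow_add]
    have : 2 * u + i = l := by omega
    rw [this]; exact hl1
  have hlk : l ≤ k := by
    by_contra h
    push Not at h
    have : 2 ^ (k + 1) ≤ 2 ^ l := Nat.pow_le_pow_right (by norm_num) h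
    have : 2 ^ (k + 1) = 2 * 2 ^ k := by ring
    have : 0 < 2 ^ k := by positivity
    omega
  obtain ⟨H₀, hH₀⟩ : ∃ H₀, H₀ = m * 2 ^ i := ⟨_, rfl⟩
  have hH₀H : H₀ ≤ H := by omega
  have h2i : 2 ^ i ≤ H₀ := by
    rw [hH₀]
    have : 1 ≤ m := le_trans Nat.one_le_two_pow hmge
    exact Nat.le_mul_of_pos_left _ this
  have hH₀1 : 1 ≤ H₀ := le_trans Nat.one_le_two_pow h2i
  have hH₀H₁ : H₁ ≤ H₀ := by omega
  have hH₀B : (H₀ : ℝ) ≤ B := le_trans (by exact_mod_cast hH₀H) hH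
  have hH₀r : (H₀ : ℝ) ≤ H := by exact_mod_cast hH₀H
  have hgrid : Grid (2 * u) k H₀ := ⟨m, i, hmlt, by omega, hH₀⟩
  have hA₀ := h1 H₀ hH₀H₁ hH₀B hgrid
  have hHn1 : 1 ≤ H := by omega
  have hH0 : (0 : ℝ) < H := by exact_mod_cast hHn1
  have hH₀0 : (0 : ℝ) < H₀ := by exact_mod_cast hH₀1
  have h2ir : (2 : ℝ) ^ i * 2 ^ (2 * u) ≤ H := by
    have : 2 ^ i * 2 ^ (2 * u) ≤ H := by rw [← pow_add, ← hi]; exact hl1
    exact_mod_cast this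
  have h2ir' : (2 : ℝ) ^ i ≤ H / 2 ^ (2 * u) := by
    rw [le_div_iff₀ (by positivity)]; exact h2ir
  -- the bound for the powers of two
  have hpow' : ∀ i' < i, ∑ x ∈ Ioc (2 ^ k) (2 ^ (k + 2)), TT α x (2 ^ i') ^ 2 ≤ (2 ^ k * (16 * (k : ℝ))) * 2 ^ i' := by
    intro i' hi'
    apply hpow
    have hle : 2 ^ i' ≤ H₀ := (Nat.pow_le_pow_right (by norm_num) hi'.le).trans h2i
    exact le_trans (by exact_mod_cast hle) hH₀B
  have hbits := chain_bits α k i (2 ^ k * (16 * (k : ℝ))) (by positivity) hpow' i le_rfl H₀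
    (by
      have : 2 ^ (k + 1) = 2 ^ k + 2 ^ k := by ring
      omega) H' hH'lt
  intro N hN1 hN2
  have hdec : ∀ x, TT α x H = TT α x H₀ + TT α (x + H₀) H' := by
    intro x
    have : H = H₀ + H' := by omega
    rw [this, TT_add]
  have hcmp := sq_compare (Ioc (2 ^ k) N) (fun x => TT α x H₀) (fun x => TT α (x + H₀) H') (1 / 2 ^ u) (by positivity)
  simp only [← hdec] at hcmp
  have hfull' := hfull H₀ hH₀1 hH₀B
  have hsub1 : ∑ x ∈ Ioc (2 ^ k) N, TT α x H₀ ^ 2 ≤ 2 ^ k * (H₀ * (4 * (k : ℝ))) := by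
    refine le_trans ?_ hfull'
    exact sum_le_sum_of_subset_of_nonneg (Ioc_subset_Ioc_right hN2) fun _ _ _ => sq_nonneg _
  have hsub2 : ∑ x ∈ Ioc (2 ^ k) N, TT α (x + H₀) H' ^ 2 ≤ 6 * (2 ^ k * (16 * (k : ℝ))) * 2 ^ i := by
    refine le_trans ?_ hbits
    exact sum_le_sum_of_subset_of_nonneg (Ioc_subset_Ioc_right hN2) fun _ _ _ => sq_nonneg _
  have hcmp2 : |∑ x ∈ Ioc (2 ^ k) N, TT α x H ^ 2 - ∑ x ∈ Ioc (2 ^ k) N, TT α x H₀ ^ 2| ≤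
      2 ^ k * (H * (200 * ((k : ℝ) / 2 ^ u))) := by
    refine hcmp.trans ?_
    have h3 : 1 / 2 ^ u * ∑ x ∈ Ioc (2 ^ k) N, TT α x H₀ ^ 2 ≤ 2 ^ k * (H * (4 * ((k : ℝ) / 2 ^ u))) := by
      calc 1 / 2 ^ u * ∑ x ∈ Ioc (2 ^ k) N, TT α x H₀ ^ 2 ≤ 1 / 2 ^ u * (2 ^ k * (H₀ * (4 * (k : ℝ)))) := by gcongr
        _ ≤ 1 / 2 ^ u * (2 ^ k * (H * (4 * (k : ℝ)))) := by gcongr
        _ = _ := by ring
    have h4 : (1 + 1 / (1 / 2 ^ u)) * ∑ x ∈ Ioc (2 ^ k) N, TT α (x + H₀) H' ^ 2 ≤ 2 ^ k * (H * (192 * ((k : ℝ) / 2 ^ u))) := by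
      have h5 : (1 : ℝ) + 1 / (1 / 2 ^ u) ≤ 2 * 2 ^ u := by
        rw [one_div_one_div]
        have : (1 : ℝ) ≤ 2 ^ u := one_le_pow₀ (by norm_num)
        linarith
      calc (1 + 1 / (1 / 2 ^ u)) * ∑ x ∈ Ioc (2 ^ k) N, TT α (x + H₀) H' ^ 2
          ≤ (2 * 2 ^ u) * (6 * (2 ^ k * (16 * (k : ℝ))) * 2 ^ i) := by
            apply mul_le_mul h5 hsub2 (sum_nonneg fun _ _ => sq_nonneg _) (by positivity)
        _ ≤ (2 * 2 ^ u) * (6 * (2 ^ k * (16 * (k : ℝ))) * (H / 2 ^ (2 * u))) := by gcongr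
        _ = _ := by
            have : (2 : ℝ) ^ (2 * u) = 2 ^ u * 2 ^ u := by rw [two_mul, pow_add]
            rw [this]
            field_simp
            ring
    have e9 : (2 : ℝ) ^ k * (H * (200 * ((k : ℝ) / 2 ^ u))) = 2 ^ k * (H * (4 * ((k : ℝ) / 2 ^ u))) +
      2 ^ k * (H * (192 * ((k : ℝ) / 2 ^ u))) + 2 ^ k * (H * (4 * ((k : ℝ) / 2 ^ u))) := by ring
    rw [e9]
    have : 0 ≤ (2 : ℝ) ^ k * (H * (4 * ((k : ℝ) / 2 ^ u))) := by positivity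
    linarith
  -- the main terms
  have hHH₀ : (H : ℝ) - H₀ ≤ H / 2 ^ u := by
    have h3 : (H : ℝ) - H₀ ≤ 2 ^ i := by
      have : H ≤ H₀ + 2 ^ i := by omega
      have : (H : ℝ) ≤ H₀ + 2 ^ i := by exact_mod_cast this
      linarith
    have h4 : (H : ℝ) / 2 ^ (2 * u) ≤ H / 2 ^ u := by
      gcongr
      · norm_num
      · omega
    exact h3.trans (h2ir'.trans h4)
  have hlogH : Real.log H ≤ k := by
    have h3 : Real.log (H : ℝ) ≤ Real.log ((2 ^ k : ℕ) : ℝ) := Real.log_le_log hH0 (by exact_mod_cast hHN)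
    exact h3.trans (log_two_pow k)
  have hdiff : 0 ≤ (H : ℝ) * Real.log H - H₀ * Real.log H₀ ∧
      (H : ℝ) * Real.log H - H₀ * Real.log H₀ ≤ (H - H₀) * ((k : ℝ) + 1) := by
    have h3 : Real.log H₀ ≤ Real.log H := Real.log_le_log hH₀0 hH₀r
    have h4 : 0 ≤ Real.log (H₀ : ℝ) := Real.log_natCast_nonneg _
    have h5 : H₀ * (Real.log H - Real.log H₀) ≤ H - H₀ := by
      rw [← Real.log_div hH0.ne' hH₀0.ne']
      have h6 := Real.log_le_sub_one_of_pos (x := (H : ℝ) / H₀) (by positivity)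
      calc (H₀ : ℝ) * Real.log (H / H₀) ≤ H₀ * (H / H₀ - 1) := by gcongr
        _ = _ := by field_simp
    have h7 : ((H : ℝ) - H₀) * Real.log H ≤ (H - H₀) * k := mul_le_mul_of_nonneg_left hlogH (by linarith)
    constructor
    · have : (H₀ : ℝ) * Real.log H₀ ≤ H * Real.log H := mul_le_mul hH₀r h3 h4 hH0.le
      linarith
    · nlinarith
  have hmain : ∀ x ∈ Ioc (2 ^ k) N, |gm H₀ (x : ℕ) - gm H (x : ℕ)| ≤ H * (4 * ((k : ℝ) / 2 ^ u)) := by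
    intro x hx
    rw [mem_Ioc] at hx
    have hx0 : (1 : ℝ) ≤ x := by
      have : 1 ≤ x := by
        have : 0 < 2 ^ k := by positivity
        omega
      exact_mod_cast this
    have h3 : 0 ≤ Real.log (x : ℝ) := Real.log_nonneg hx0
    have h4 : Real.log (x : ℝ) ≤ (k : ℝ) + 1 := by
      have h5 : Real.log (x : ℝ) ≤ Real.log ((2 ^ (k + 1) : ℕ) : ℝ) :=
        Real.log_le_log (by linarith) (by exact_mod_cast hx.2.trans hN2)
      have h6 := log_two_pow (k + 1)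
      push_cast at h5 h6
      linarith
    have hc := c3_bounds
    have e1 : gm H₀ (x : ℕ) - gm H (x : ℕ) = ((H : ℝ) * Real.log H - H₀ * Real.log H₀) - (H - H₀) * (Real.log x + c3) := by
      unfold gm; ring
    have h7 : ((H : ℝ) - H₀) * (Real.log x + c3) ≤ (H - H₀) * ((k : ℝ) + 3) :=
      mul_le_mul_of_nonneg_left (by linarith [hc.2]) (by linarith)
    have h8 : ((H : ℝ) - H₀) * (-2) ≤ (H - H₀) * (Real.log x + c3) :=
      mul_le_mul_of_nonneg_left (by linarith [hc.1]) (by linarith)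
    have h9 : ((H : ℝ) - H₀) * ((k : ℝ) + 3) ≤ H / 2 ^ u * (4 * k) := by
      apply mul_le_mul hHH₀ (by linarith) (by positivity) (by positivity)
    have e2 : (H : ℝ) * (4 * ((k : ℝ) / 2 ^ u)) = H / 2 ^ u * (4 * k) := by ring
    rw [e1, e2, abs_le]
    constructor
    · linarith [hdiff.1]
    · have e3 : ((H : ℝ) - H₀) * ((k : ℝ) + 1) + (H - H₀) * 2 = (H - H₀) * ((k : ℝ) + 3) := by ring
      linarith [hdiff.2]
  have hN1r : (2 : ℝ) ^ k ≤ N := by exact_mod_cast hN1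
  have hmain2 : |∑ x ∈ Ioc (2 ^ k) N, gm H₀ (x : ℕ) - ∑ x ∈ Ioc (2 ^ k) N, gm H (x : ℕ)| ≤
      2 ^ k * (H * (4 * ((k : ℝ) / 2 ^ u))) := by
    rw [← sum_sub_distrib]
    refine (abs_sum_le_sum_abs _ _).trans ((sum_le_sum hmain).trans ?_)
    rw [sum_const, Nat.card_Ioc, nsmul_eq_mul]
    have h3 : ((N - 2 ^ k : ℕ) : ℝ) ≤ 2 ^ k := by
      have : N - 2 ^ k ≤ 2 ^ k := by
        have : 2 ^ (k + 1) = 2 ^ k + 2 ^ k := by ring
        omega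
      exact_mod_cast this
    gcongr
  have hA := hA₀ N hN1 hN2
  have hA' : |∑ x ∈ Ioc (2 ^ k) N, TT α x H₀ ^ 2 - ∑ x ∈ Ioc (2 ^ k) N, gm H₀ (x : ℕ)| ≤ 2 ^ k * (H * E) :=
    hA.trans (by gcongr)
  have e3 : (2 : ℝ) ^ k * (H * (E + 300 * ((k : ℝ) / 2 ^ u))) =
      2 ^ k * (H * (200 * ((k : ℝ) / 2 ^ u))) + 2 ^ k * (H * E) +
      2 ^ k * (H * (4 * ((k : ℝ) / 2 ^ u))) + 2 ^ k * (H * (96 * ((k : ℝ) / 2 ^ u))) := by ring
  have h10 : 0 ≤ (2 : ℝ) ^ k * (H * (96 * ((k : ℝ) / 2 ^ u))) := by positivity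
  rw [e3]
  rw [abs_le] at hcmp2 hA' hmain2 ⊢
  constructor <;> linarith [hcmp2.1, hcmp2.2, hA'.1, hA'.2, hmain2.1, hmain2.2]

/-- the law up to `o(H)` at all large scales -/
def Law2 (α : ℕ → ℕ) : Prop := ∀ ε : ℝ, 0 < ε → ∀ δ : ℝ, 0 < δ → ∃ H₀ : ℕ, 1 ≤ H₀ ∧ ∀ᶠ k : ℕ in atTop, ∀ H : ℕ, H₀ ≤ H →
    (H : ℝ) ≤ (2 : ℝ) ^ ((kap - ε) * k) → Asy2 α k H δ

theorem law2_of {α : ℕ → ℕ} (hA : Law α) (hS : ∀ n : ℕ, Small α (1 / ((n : ℝ) + 1))) : Law2 α := by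
  intro ε hε δ hδ
  obtain ⟨n, hn⟩ := exists_nat_gt (1 / ε)
  have hn0 : (0 : ℝ) < (n : ℝ) + 1 := by positivity
  obtain ⟨e, he⟩ : ∃ e : ℝ, e = 1 / ((n : ℝ) + 1) := ⟨_, rfl⟩
  have he0 : 0 < e := by rw [he]; positivity
  have hnε : e ≤ ε := by
    rw [he, div_le_iff₀ hn0]
    rw [div_lt_iff₀ hε] at hn
    nlinarith
  have he1 : e ≤ 1 := by
    rw [he, div_le_one hn0]
    have : (0 : ℝ) ≤ n := Nat.cast_nonneg n
    linarith
  obtain ⟨δ', hδ'⟩ : ∃ δ' : ℝ, δ' = min (δ / 2) 1 := ⟨_, rfl⟩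
  have hδ'0 : 0 < δ' := by rw [hδ']; exact lt_min (by positivity) one_pos
  obtain ⟨H₁, hH₁⟩ := grid_law α e he0 he1 (by rw [he]; exact hS n) δ' hδ'0 (by rw [hδ']; exact min_le_right _ _)
  refine ⟨2 * max H₁ 1, by omega, ?_⟩
  have hL := hA e he0 1 one_pos
  have hL' := (tendsto_add_atTop_nat 1).eventually hL
  filter_upwards [hH₁, hL, hL', eventually_ge_atTop 2,
    tendsto_natCast_atTop_atTop.eventually (eventually_ge_atTop (2400 / δ))] with k h1 h2 h3 hk h4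
  intro H hH1 hH2
  have hk0 : (0 : ℝ) ≤ k := Nat.cast_nonneg k
  have hk2 : (2 : ℝ) ≤ k := by exact_mod_cast hk
  have hkap := kap_lt
  obtain ⟨B, hB⟩ : ∃ B : ℝ, B = (2 : ℝ) ^ ((kap - e) * k) := ⟨_, rfl⟩
  have hBe : B ≤ (2 : ℝ) ^ ((1 - e) * k) := by
    rw [hB]
    apply Real.rpow_le_rpow_of_exponent_le (by norm_num)
    nlinarith
  have hBe' : B ≤ (2 : ℝ) ^ ((1 - e) * ((k + 1 : ℕ) : ℝ)) := by
    refine hBe.trans ?_
    apply Real.rpow_le_rpow_of_exponent_le (by norm_num)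
    push_cast
    nlinarith
  have hB1 : B ≤ 2 ^ k := by
    refine hBe.trans ?_
    rw [← rpow_two_nat]
    apply Real.rpow_le_rpow_of_exponent_le (by norm_num)
    nlinarith
  have hHB : (H : ℝ) ≤ B := by
    refine hH2.trans ?_
    rw [hB]
    apply Real.rpow_le_rpow_of_exponent_le (by norm_num)
    nlinarith
  have hfull : ∀ H : ℕ, 1 ≤ H → (H : ℝ) ≤ B → ∑ x ∈ Ioc (2 ^ k) (2 ^ (k + 1)), TT α x H ^ 2 ≤ 2 ^ k * (H * (4 * (k : ℝ))) := by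
    intro H' hH'1 hH'2
    refine ((h2 H' hH'1 (hH'2.trans hBe)).full hk).trans ?_
    apply mul_le_mul_of_nonneg_left _ (by positivity)
    apply mul_le_mul_of_nonneg_left _ (by positivity)
    linarith
  have hpow : ∀ i : ℕ, ((2 ^ i : ℕ) : ℝ) ≤ B → ∑ x ∈ Ioc (2 ^ k) (2 ^ (k + 2)), TT α x (2 ^ i) ^ 2 ≤ (2 ^ k * (16 * (k : ℝ))) * 2 ^ i := by
    intro i hi
    have h5 := (h2 (2 ^ i) Nat.one_le_two_pow (hi.trans hBe)).full hk
    have h6 := (h3 (2 ^ i) Nat.one_le_two_pow (hi.trans hBe')).full (by omega)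
    have e1 : Ioc (2 ^ k) (2 ^ (k + 2)) = Ioc (2 ^ k) (2 ^ (k + 1)) ∪ Ioc (2 ^ (k + 1)) (2 ^ (k + 2)) :=
      (Ioc_union_Ioc_eq_Ioc (Nat.pow_le_pow_right (by norm_num) (by omega))
        (Nat.pow_le_pow_right (by norm_num) (by omega))).symm
    rw [e1, sum_union (Ioc_disjoint_Ioc_of_le le_rfl)]
    push_cast at h5 h6 ⊢
    have h7 : (2 : ℝ) ^ k * (2 ^ i * ((k : ℝ) + 1 + 1 * k)) + 2 ^ (k + 1) * (2 ^ i * ((k : ℝ) + 1 + 1 + 1 * (k + 1))) =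
        2 ^ k * 2 ^ i * (6 * k + 7) := by ring
    have h8 : (2 : ℝ) ^ k * 2 ^ i * (6 * k + 7) ≤ 2 ^ k * 2 ^ i * (16 * k) := by
      gcongr; linarith
    have h9 : (2 : ℝ) ^ k * (16 * k) * 2 ^ i = 2 ^ k * 2 ^ i * (16 * k) := by ring
    rw [h9]
    linarith
  have hch := chain2 α k (uu k) B hB1 hk δ' (max H₁ 1) (le_max_right _ _) hpow hfull
    (fun H' hH'1 hH'2 hg => h1 H' ((le_max_left _ _).trans hH'1) (by rwa [hB] at hH'2) hg) hδ'0.le H hH1 hHB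
  intro N hN1 hN2
  refine (hch N hN1 hN2).trans ?_
  apply mul_le_mul_of_nonneg_left _ (by positivity)
  apply mul_le_mul_of_nonneg_left _ (by positivity)
  have h5 : δ' ≤ δ / 2 := by rw [hδ']; exact min_le_left _ _
  have h6 : 300 * ((k : ℝ) / 2 ^ uu k) ≤ δ / 2 := by
    have h7 := (uu_bounds k (by omega)).2
    have h8 : (k : ℝ) / 2 ^ uu k ≤ 4 / k := by
      rw [div_le_div_iff₀ (by positivity) (by linarith)]
      nlinarith
    have h9 : 4 / (k : ℝ) ≤ δ / 600 := by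
      rw [div_le_div_iff₀ (by linarith) (by norm_num)]
      rw [div_le_iff₀ hδ] at h4
      linarith
    linarith
  linarith

end Pool.Agent.L5helper10.RM
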