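import Pool.Agent.L5helper10.RM.K13

/-! The sums over `(A, N]` up to `o(H)`. -/

set_option autoImplicit false
set_option linter.unusedSectionVars false

namespace Pool.Agent.L5helper10.RM

open Finset Filter

open scoped Topology

lemma sum_log (N : ℕ) (hN : 1 ≤ N) : (N : ℝ) * Real.log N - N + 1 ≤ ∑ x ∈ Icc 1 N, Real.log (x : ℝ) ∧
    ∑ x ∈ Icc 1 N, Real.log (x : ℝ) ≤ N * Real.log N - N + 1 + Real.log N := by
  induction N, hN using Nat.le_induction with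
  | base => simp
  | succ N hN ih =>
    rw [sum_Icc_succ_top (by omega)]
    have hN0 : (0 : ℝ) < N := by exact_mod_cast hN
    have h1 : Real.log ((N + 1 : ℕ) : ℝ) - Real.log N ≤ 1 / N := by
      rw [← Real.log_div (by positivity) hN0.ne']
      have h2 := Real.log_le_sub_one_of_pos (x := ((N + 1 : ℕ) : ℝ) / N) (by positivity)
      refine h2.trans (le_of_eq ?_)
      push_cast
      field_simp
      ring
    have h2 : 1 / ((N : ℝ) + 1) ≤ Real.log ((N + 1 : ℕ) : ℝ) - Real.log N := by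
      rw [← Real.log_div (by positivity) hN0.ne']
      have h3 := Real.one_sub_inv_le_log_of_pos (x := ((N + 1 : ℕ) : ℝ) / N) (by positivity)
      refine le_trans (le_of_eq ?_) h3
      push_cast
      field_simp
      ring
    obtain ⟨a, ha⟩ : ∃ a, a = Real.log ((N + 1 : ℕ) : ℝ) := ⟨_, rfl⟩
    obtain ⟨b, hb⟩ : ∃ b, b = Real.log (N : ℝ) := ⟨_, rfl⟩
    rw [← ha, ← hb] at h1 h2
    rw [← hb] at ih
    rw [← ha]
    rw [le_div_iff₀ hN0] at h1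
    rw [div_le_iff₀ (by linarith)] at h2
    push_cast
    constructor <;> nlinarith [ih.1, ih.2]

theorem sum_law2 {α : ℕ → ℕ} (hA : Law α) (hA2 : Law2 α) (ε : ℝ) (hε : 0 < ε) (hε1 : ε ≤ 1 / 2) (δ : ℝ) (hδ : 0 < δ) :
    ∀ᶠ N : ℕ in atTop, ∀ h : ℕ, (N : ℝ) ^ ε ≤ h → (h : ℝ) ≤ (N : ℝ) ^ (kap - ε) → ∀ A : ℕ, h ≤ 4 * A →
      (A : ℝ) ≤ (N : ℝ) ^ (1 - ε / 2) → A ≤ N →
      |∑ m ∈ Ioc A N, TT α m h ^ 2 - N * (h * (Real.log N - 1 - Real.log h + c3))| ≤ δ * (N * h) := by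
  obtain ⟨H₀, hH₀1, hH₀⟩ := hA2 (ε / 2) (by positivity) (δ / 16) (by positivity)
  obtain ⟨k₁, hk₁⟩ := hH₀.exists_forall_of_atTop
  obtain ⟨k₂, hk₂⟩ := (crude hA (ε / 16) (by positivity) (by linarith)).exists_forall_of_atTop
  have hkap := kap_lt
  have hkap' := kap_gt
  have hKev : ∀ᶠ K : ℕ in atTop, (16 / δ ≤ (2 : ℝ) ^ (3 * ε / 16 * K)) ∧ (64 / δ * ((K : ℝ) + 3) ≤ (2 : ℝ) ^ (ε / 4 * K)) ∧
      (8 + k₂ ≤ ε * K) ∧ (2 * ((k₁ : ℝ) + 2) ≤ K) ∧ ((H₀ : ℝ) ≤ (2 : ℝ) ^ (ε * K)) ∧ (16 / δ * ((K : ℝ) + 3) ≤ (2 : ℝ) ^ ((1 : ℝ) * K)) := by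
    have h1 := polyexp 0 (3 * ε / 16) (by positivity) (16 / δ)
    have h2 := polyexp 1 (ε / 4) (by positivity) (64 / δ)
    have ht : Tendsto (fun k : ℕ => (k : ℝ)) atTop atTop := tendsto_natCast_atTop_atTop
    have h4 := (ht.const_mul_atTop hε).eventually (eventually_ge_atTop (8 + (k₂ : ℝ)))
    have h5 := ht.eventually (eventually_ge_atTop (2 * ((k₁ : ℝ) + 2)))
    have h6 := polyexp 0 ε hε (H₀ : ℝ)
    have h7 := polyexp 1 1 one_pos (16 / δ)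
    filter_upwards [h1, h2, h4, h5, h6, h7] with K a1 a2 a4 a5 a6 a7
    rw [pow_zero, mul_one] at a1 a6
    rw [pow_one] at a2 a7
    exact ⟨a1, a2, a4, a5, a6, a7⟩
  obtain ⟨K₀, hK₀⟩ := hKev.exists_forall_of_atTop
  filter_upwards [eventually_ge_atTop (2 ^ K₀), eventually_ge_atTop 4] with N hN hN4
  obtain ⟨K, hK⟩ : ∃ K, K = Nat.log 2 N := ⟨_, rfl⟩
  have hK1 : 2 ^ K ≤ N := by rw [hK]; exact Nat.pow_log_le_self 2 (by omega)
  have hK2 : N < 2 ^ (K + 1) := by rw [hK]; exact Nat.lt_pow_succ_log_self (by norm_num) N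
  have hK3 : K₀ ≤ K := by rw [hK]; exact Nat.le_log_of_pow_le (by norm_num) hN
  obtain ⟨b1, b2, b4, b5, b6, b7⟩ := hK₀ K hK3
  have hKr : (0 : ℝ) ≤ K := Nat.cast_nonneg K
  have hk₁r : (0 : ℝ) ≤ k₁ := Nat.cast_nonneg k₁
  have hk₂r : (0 : ℝ) ≤ k₂ := Nat.cast_nonneg k₂
  have hNr : (2 : ℝ) ^ K ≤ N := by exact_mod_cast hK1
  have hNr2 : (N : ℝ) ≤ (2 : ℝ) ^ ((K : ℝ) + 1) := by
    have : (N : ℝ) ≤ 2 ^ (K + 1) := by exact_mod_cast hK2.le
    refine this.trans (le_of_eq ?_)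
    rw [← rpow_two_nat]; congr 1; push_cast; ring
  have hN0 : (0 : ℝ) < N := lt_of_lt_of_le (by positivity) hNr
  have hlogN2 : Real.log N ≤ K + 1 := by
    have h1 : Real.log N ≤ Real.log ((2 ^ (K + 1) : ℕ) : ℝ) := Real.log_le_log hN0 (by exact_mod_cast hK2.le)
    have h2 := log_two_pow (K + 1)
    push_cast at h2 h1
    linarith
  -- the first scale
  obtain ⟨s, hs⟩ : ∃ s, s = ⌊ε / 4 * K⌋₊ := ⟨_, rfl⟩
  obtain ⟨hsK, hs2, hs3⟩ := floor_facts ε hε (by linarith) K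
  rw [← hs] at hsK hs2 hs3
  have hsr : (s : ℝ) ≤ ε / 4 * K := by rw [hs]; exact Nat.floor_le (by positivity)
  obtain ⟨l, hl⟩ : ∃ l, l = K - s := ⟨_, rfl⟩
  have hlr : (l : ℝ) = K - s := by rw [hl, Nat.cast_sub hsK]
  have hl1 : (1 - ε / 4) * K ≤ l := by rw [hlr]; linarith
  have hlK : l ≤ K := by omega
  have hl2 : (K : ℝ) / 2 ≤ l := by nlinarith
  have hlk₁ : k₁ ≤ l := by
    have : (k₁ : ℝ) ≤ l := by linarith
    exact_mod_cast this
  intro h hh1 hh2 A hA1 hA2 hAN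
  have hN1 : (1 : ℝ) ≤ N := by exact_mod_cast (by omega : 1 ≤ N)
  have hhr : (1 : ℝ) ≤ h := le_trans (Real.one_le_rpow hN1 hε.le) hh1
  have hh0 : (0 : ℝ) < h := by linarith
  have hhn : 1 ≤ h := by exact_mod_cast hhr
  have hA0 : 0 < A := by omega
  have hhN : (h : ℝ) ≤ N := by
    refine hh2.trans ?_
    calc (N : ℝ) ^ (kap - ε) ≤ (N : ℝ) ^ (1 : ℝ) := Real.rpow_le_rpow_of_exponent_le hN1 (by linarith)
      _ = N := Real.rpow_one _
  -- the bounds for `A` and `h`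
  have hA3 : A ≤ 2 ^ l := by
    have h1 : (A : ℝ) ≤ (2 : ℝ) ^ (l : ℝ) := by
      refine hA2.trans ?_
      calc (N : ℝ) ^ (1 - ε / 2) ≤ ((2 : ℝ) ^ ((K : ℝ) + 1)) ^ (1 - ε / 2) := Real.rpow_le_rpow hN0.le hNr2 (by linarith)
        _ = (2 : ℝ) ^ (((K : ℝ) + 1) * (1 - ε / 2)) := by rw [← Real.rpow_mul (by norm_num)]
        _ ≤ _ := by
            apply Real.rpow_le_rpow_of_exponent_le (by norm_num)
            nlinarith
    rw [rpow_two_nat] at h1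
    exact_mod_cast h1
  have hhH₀ : H₀ ≤ h := by
    have h1 : (H₀ : ℝ) ≤ h := by
      refine b6.trans (le_trans ?_ hh1)
      calc (2 : ℝ) ^ (ε * K) = ((2 : ℝ) ^ K) ^ ε := by
            rw [← rpow_two_nat, ← Real.rpow_mul (by norm_num), mul_comm]
        _ ≤ _ := Real.rpow_le_rpow (by positivity) hNr hε.le
    exact_mod_cast h1
  have hhk : ∀ k : ℕ, l ≤ k → (h : ℝ) ≤ (2 : ℝ) ^ ((kap - ε / 2) * k) := by
    intro k hk
    refine hh2.trans ?_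
    have hkr : (l : ℝ) ≤ k := by exact_mod_cast hk
    have hpos : 0 ≤ kap - ε := by
      by_contra hneg
      push Not at hneg
      have h1 : (N : ℝ) ^ (kap - ε) < 1 := Real.rpow_lt_one_of_one_lt_of_neg (by
        have : (4 : ℝ) ≤ N := by exact_mod_cast hN4
        linarith) hneg
      linarith
    calc (N : ℝ) ^ (kap - ε) ≤ ((2 : ℝ) ^ ((K : ℝ) + 1)) ^ (kap - ε) := Real.rpow_le_rpow hN0.le hNr2 hpos
      _ = (2 : ℝ) ^ (((K : ℝ) + 1) * (kap - ε)) := by rw [← Real.rpow_mul (by norm_num)]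
      _ ≤ _ := by
          apply Real.rpow_le_rpow_of_exponent_le (by norm_num)
          have h1 : (kap - ε / 2) * ((1 - ε / 4) * K) ≤ (kap - ε / 2) * k :=
            mul_le_mul_of_nonneg_left (hl1.trans hkr) (by linarith)
          have h2 : 0 ≤ ε * K := by positivity
          have h3 : kap * (ε * K) ≤ 1 * (ε * K) := by gcongr
          have h4 : 0 ≤ ε * (ε * K) := by positivity
          have e1 : (kap - ε / 2) * ((1 - ε / 4) * (K : ℝ)) = kap * K - (ε * K) / 2 - kap * (ε * K) / 4 + ε * (ε * K) / 8 := by ring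
          have e2 : ((K : ℝ) + 1) * (kap - ε) = kap * K - ε * K + (kap - ε) := by ring
          rw [e2]
          rw [e1] at h1
          linarith
  obtain ⟨k₀, hk₀⟩ : ∃ k₀, k₀ = Nat.log 2 A := ⟨_, rfl⟩
  have hk₀1 : 2 ^ k₀ ≤ A := by rw [hk₀]; exact Nat.pow_log_le_self 2 (by omega)
  have hk₀2 : A < 2 ^ (k₀ + 1) := by rw [hk₀]; exact Nat.lt_pow_succ_log_self (by norm_num) A
  have hk₀l : k₀ ≤ l := by
    have : 2 ^ k₀ ≤ 2 ^ l := hk₀1.trans hA3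
    exact (Nat.pow_le_pow_iff_right (by norm_num)).mp this
  have hk₀k₂ : k₂ ≤ k₀ := by
    have h1 : (2 : ℝ) ^ (ε * K) ≤ (2 : ℝ) ^ ((k₀ : ℝ) + 3) := by
      calc (2 : ℝ) ^ (ε * K) = ((2 : ℝ) ^ K) ^ ε := by
            rw [← rpow_two_nat, ← Real.rpow_mul (by norm_num), mul_comm]
        _ ≤ (N : ℝ) ^ ε := Real.rpow_le_rpow (by positivity) hNr hε.le
        _ ≤ h := hh1
        _ ≤ 2 ^ (k₀ + 3) := by
            have : h ≤ 2 ^ (k₀ + 3) := by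
              have : 2 ^ (k₀ + 3) = 4 * 2 ^ (k₀ + 1) := by ring
              omega
            exact_mod_cast this
        _ = _ := by rw [← rpow_two_nat]; congr 1; push_cast; ring
    have h2 := (Real.rpow_le_rpow_left_iff (show (1 : ℝ) < 2 by norm_num)).mp h1
    have h3 : (k₂ : ℝ) ≤ k₀ := by linarith
    exact_mod_cast h3
  -- the small part
  have e2l : (2 : ℝ) ^ l ≤ 2 * ((2 : ℝ) ^ K * ((2 : ℝ) ^ (ε / 4 * K))⁻¹) := by
    have h8 : (2 : ℝ) ^ l * 2 ^ s = 2 ^ K := by rw [← pow_add]; congr 1; omega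
    have h9 : (2 : ℝ) ^ l = 2 ^ K / 2 ^ s := by rw [eq_div_iff (by positivity)]; exact h8
    rw [h9, ← div_eq_mul_inv, mul_div_assoc', div_le_div_iff₀ (by positivity) (by positivity)]
    calc (2 : ℝ) ^ K * (2 : ℝ) ^ (ε / 4 * K) ≤ 2 ^ K * (2 * 2 ^ s) := by gcongr
      _ = _ := by ring
  have hsmall : ∑ m ∈ Ioc A (2 ^ l), TT α m h ^ 2 ≤ δ / 8 * (N * h) := by
    have h1 : ∑ m ∈ Ioc A (2 ^ l), TT α m h ^ 2 ≤ ∑ m ∈ Ioc (2 ^ k₀) (2 ^ l), TT α m h ^ 2 := by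
      apply sum_le_sum_of_subset_of_nonneg
      · exact Ioc_subset_Ioc_left hk₀1
      · intro _ _ _; exact sq_nonneg _
    rw [dyadic_sum _ k₀ l hk₀l] at h1
    have h2 : ∀ k ∈ Ico k₀ l, ∑ x ∈ Ioc (2 ^ k) (2 ^ (k + 1)), TT α x h ^ 2 ≤ 2 ^ k * (h * (2 : ℝ) ^ (ε / 16 * K)) := by
      intro k hk
      rw [mem_Ico] at hk
      have hk2 : 2 ^ k₀ ≤ 2 ^ k := Nat.pow_le_pow_right (by norm_num) hk.1
      have h3 := hk₂ k (by omega) h hhn (by
        have : 2 ^ (k₀ + 1) = 2 * 2 ^ k₀ := by ring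
        omega)
      refine h3.trans ?_
      have : (k : ℝ) ≤ K := by exact_mod_cast (by omega : k ≤ K)
      gcongr
      norm_num
    refine h1.trans ((sum_le_sum h2).trans ?_)
    rw [← sum_mul]
    have h4 : ∑ k ∈ Ico k₀ l, (2 : ℝ) ^ k ≤ 2 ^ l := by
      have h5 : ∑ k ∈ Ico k₀ l, (2 : ℝ) ^ k ≤ ∑ k ∈ range l, (2 : ℝ) ^ k := by
        apply sum_le_sum_of_subset_of_nonneg
        · intro x hx
          rw [mem_Ico] at hx
          exact mem_range.mpr hx.2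
        · intro _ _ _; positivity
      have h6 : ∑ k ∈ range l, (2 : ℝ) ^ k = 2 ^ l - 1 := by
        rw [geom_sum_eq (show (2 : ℝ) ≠ 1 by norm_num) l]; norm_num
      linarith
    have h7 : (2 : ℝ) ^ l * (2 : ℝ) ^ (ε / 16 * K) ≤ δ / 8 * N := by
      have e2 : (2 : ℝ) ^ (ε / 4 * K) = (2 : ℝ) ^ (3 * ε / 16 * K) * (2 : ℝ) ^ (ε / 16 * K) := by
        rw [← Real.rpow_add (by norm_num)]; congr 1; ring
      calc (2 : ℝ) ^ l * (2 : ℝ) ^ (ε / 16 * K) ≤ 2 * ((2 : ℝ) ^ K * ((2 : ℝ) ^ (ε / 4 * K))⁻¹) * (2 : ℝ) ^ (ε / 16 * K) := by gcongr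
        _ = 2 ^ K * (2 / (2 : ℝ) ^ (3 * ε / 16 * K)) := by rw [e2]; field_simp
        _ ≤ N * (δ / 8) := by
            apply mul_le_mul hNr _ (by positivity) hN0.le
            rw [div_le_iff₀ (by positivity)]
            rw [div_le_iff₀ hδ] at b1
            linarith
        _ = _ := by ring
    calc (∑ k ∈ Ico k₀ l, (2 : ℝ) ^ k) * (h * (2 : ℝ) ^ (ε / 16 * K)) ≤ 2 ^ l * (h * (2 : ℝ) ^ (ε / 16 * K)) := by gcongr
      _ = (2 ^ l * (2 : ℝ) ^ (ε / 16 * K)) * h := by ring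
      _ ≤ δ / 8 * N * h := by gcongr
      _ = _ := by ring
  -- the main part
  have hbig1 : |∑ m ∈ Ioc (2 ^ l) (2 ^ K), TT α m h ^ 2 - ∑ m ∈ Ioc (2 ^ l) (2 ^ K), gm h (m : ℕ)| ≤ 2 ^ K * (h * (δ / 16)) := by
    rw [dyadic_sum _ l K hlK, dyadic_sum (fun m : ℕ => gm h (m : ℕ)) l K hlK, ← sum_sub_distrib]
    refine (abs_sum_le_sum_abs _ _).trans ?_
    have h1 : ∀ k ∈ Ico l K, |∑ x ∈ Ioc (2 ^ k) (2 ^ (k + 1)), TT α x h ^ 2 - ∑ x ∈ Ioc (2 ^ k) (2 ^ (k + 1)), gm h (x : ℕ)| ≤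
        2 ^ k * (h * (δ / 16)) := by
      intro k hk
      rw [mem_Ico] at hk
      exact hk₁ k (by omega) h hhH₀ (hhk k hk.1) (2 ^ (k + 1)) (Nat.pow_le_pow_right (by norm_num) (by omega)) le_rfl
    refine (sum_le_sum h1).trans ?_
    rw [← sum_mul]
    apply mul_le_mul_of_nonneg_right _ (by positivity)
    have h5 : ∑ k ∈ Ico l K, (2 : ℝ) ^ k ≤ ∑ k ∈ range K, (2 : ℝ) ^ k := by
      apply sum_le_sum_of_subset_of_nonneg
      · intro x hx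
        rw [mem_Ico] at hx
        exact mem_range.mpr hx.2
      · intro _ _ _; positivity
    have h6 : ∑ k ∈ range K, (2 : ℝ) ^ k = 2 ^ K - 1 := by
      rw [geom_sum_eq (show (2 : ℝ) ≠ 1 by norm_num) K]; norm_num
    linarith
  have hbig2 : |∑ m ∈ Ioc (2 ^ K) N, TT α m h ^ 2 - ∑ m ∈ Ioc (2 ^ K) N, gm h (m : ℕ)| ≤ 2 ^ K * (h * (δ / 16)) :=
    hk₁ K (by omega) h hhH₀ (hhk K hlK) N hK1 hK2.le
  have hlK2 : 2 ^ l ≤ 2 ^ K := Nat.pow_le_pow_right (by norm_num) hlK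
  have hsplit : ∑ m ∈ Ioc A N, TT α m h ^ 2 = ∑ m ∈ Ioc A (2 ^ l), TT α m h ^ 2 + (∑ m ∈ Ioc (2 ^ l) (2 ^ K), TT α m h ^ 2 +
      ∑ m ∈ Ioc (2 ^ K) N, TT α m h ^ 2) := by
    rw [← sum_union (Ioc_disjoint_Ioc_of_le le_rfl), Ioc_union_Ioc_eq_Ioc hlK2 hK1,
      ← sum_union (Ioc_disjoint_Ioc_of_le le_rfl), Ioc_union_Ioc_eq_Ioc hA3 (hlK2.trans hK1)]
  have hsplit2 : ∑ m ∈ Ioc (2 ^ l) N, gm h (m : ℕ) = ∑ m ∈ Ioc (2 ^ l) (2 ^ K), gm h (m : ℕ) +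
      ∑ m ∈ Ioc (2 ^ K) N, gm h (m : ℕ) := by
    rw [← sum_union (Ioc_disjoint_Ioc_of_le le_rfl), Ioc_union_Ioc_eq_Ioc hlK2 hK1]
  have hsmall0 : 0 ≤ ∑ m ∈ Ioc A (2 ^ l), TT α m h ^ 2 := sum_nonneg fun _ _ => sq_nonneg _
  -- the sum of the main terms
  have hg : ∑ m ∈ Ioc (2 ^ l) N, gm h (m : ℕ) = h * (∑ m ∈ Ioc (2 ^ l : ℕ) N, Real.log (m : ℝ)) - (N - 2 ^ l) * (h * (Real.log h - c3)) := by
    have h1 : ∀ m ∈ Ioc (2 ^ l) N, gm h ((m : ℕ) : ℝ) = h * Real.log (m : ℝ) - h * (Real.log h - c3) := by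
      intro m _
      unfold gm
      ring
    rw [sum_congr rfl h1, sum_sub_distrib, ← mul_sum, sum_const, Nat.card_Ioc, nsmul_eq_mul,
      Nat.cast_sub (hlK2.trans hK1)]
    push_cast
    rfl
  have hlogs : ∑ m ∈ Icc 1 N, Real.log (m : ℝ) = ∑ m ∈ Icc (1 : ℕ) (2 ^ l), Real.log (m : ℝ) + ∑ m ∈ Ioc (2 ^ l : ℕ) N, Real.log (m : ℝ) := by
    have e1 : Icc 1 N = Icc (1 : ℕ) (2 ^ l) ∪ Ioc (2 ^ l) N := by
      ext m
      have := hlK2.trans hK1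
      rw [mem_union, mem_Icc, mem_Icc, mem_Ioc]
      omega
    rw [e1, sum_union]
    rw [disjoint_left]
    intro m hm hm'
    rw [mem_Icc] at hm
    rw [mem_Ioc] at hm'
    omega
  have hS1 := sum_log N (by omega)
  have hlogN0 : 0 ≤ Real.log (N : ℝ) := Real.log_nonneg hN1
  have hS2 : 0 ≤ ∑ m ∈ Icc (1 : ℕ) (2 ^ l), Real.log (m : ℝ) ∧ ∑ m ∈ Icc (1 : ℕ) (2 ^ l), Real.log (m : ℝ) ≤ 2 ^ l * Real.log N := by
    constructor
    · exact sum_nonneg fun m _ => Real.log_natCast_nonneg m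
    · have h1 : ∀ m ∈ Icc (1 : ℕ) (2 ^ l), Real.log (m : ℝ) ≤ Real.log N := by
        intro m hm
        rw [mem_Icc] at hm
        apply Real.log_le_log (by exact_mod_cast hm.1)
        exact_mod_cast hm.2.trans (hlK2.trans hK1)
      refine (sum_le_sum h1).trans (le_of_eq ?_)
      rw [sum_const, Nat.card_Icc, Nat.add_sub_cancel, nsmul_eq_mul]
      push_cast; ring
  have hlogh0 : 0 ≤ Real.log (h : ℝ) := Real.log_nonneg hhr
  have hloghN : Real.log (h : ℝ) ≤ Real.log N := Real.log_le_log hh0 hhN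
  have hc := c3_bounds
  -- the errors
  have hE1 : (2 : ℝ) ^ l * (2 * Real.log N + 2) ≤ δ / 16 * N := by
    calc (2 : ℝ) ^ l * (2 * Real.log N + 2) ≤ 2 * ((2 : ℝ) ^ K * ((2 : ℝ) ^ (ε / 4 * K))⁻¹) * (2 * ((K : ℝ) + 3)) := by
          apply mul_le_mul e2l (by linarith) (by linarith) (by positivity)
      _ = 2 ^ K * (4 * ((K : ℝ) + 3) / (2 : ℝ) ^ (ε / 4 * K)) := by field_simp; ring
      _ ≤ N * (δ / 16) := by
          apply mul_le_mul hNr _ (by positivity) hN0.le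
          rw [div_le_iff₀ (by positivity)]
          have : 64 / δ * ((K : ℝ) + 3) = 64 * ((K : ℝ) + 3) / δ := by ring
          rw [this, div_le_iff₀ hδ] at b2
          linarith
      _ = _ := by ring
  have hE2 : 1 + Real.log N ≤ δ / 16 * N := by
    have h1 : (K : ℝ) + 3 ≤ δ / 16 * 2 ^ K := by
      rw [one_mul, rpow_two_nat] at b7
      have : 16 / δ * ((K : ℝ) + 3) = 16 * ((K : ℝ) + 3) / δ := by ring
      rw [this, div_le_iff₀ hδ] at b7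
      linarith
    have h2 : δ / 16 * (2 : ℝ) ^ K ≤ δ / 16 * N := by gcongr
    linarith
  have hmain : |∑ m ∈ Ioc (2 ^ l) N, gm h (m : ℕ) - N * (h * (Real.log N - 1 - Real.log h + c3))| ≤ h * (δ / 8 * N) := by
    rw [hg]
    obtain ⟨S, hS⟩ : ∃ S, S = ∑ m ∈ Ioc (2 ^ l : ℕ) N, Real.log (m : ℝ) := ⟨_, rfl⟩
    obtain ⟨S', hS'⟩ : ∃ S', S' = ∑ m ∈ Icc (1 : ℕ) (2 ^ l), Real.log (m : ℝ) := ⟨_, rfl⟩
    rw [← hS]
    rw [hlogs, ← hS, ← hS'] at hS1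
    rw [← hS'] at hS2
    have e1 : (h : ℝ) * S - (N - 2 ^ l) * (h * (Real.log h - c3)) - N * (h * (Real.log N - 1 - Real.log h + c3)) =
        h * ((S' + S - (N * Real.log N - N)) - S' + 2 ^ l * (Real.log h - c3)) := by ring
    rw [e1, abs_mul, abs_of_pos hh0]
    apply mul_le_mul_of_nonneg_left _ hh0.le
    have h1 : 0 ≤ (2 : ℝ) ^ l * (Real.log h - c3) := by
      apply mul_nonneg (by positivity)
      linarith [hc.2]
    have h2 : (2 : ℝ) ^ l * (Real.log h - c3) ≤ 2 ^ l * (Real.log N + 2) := by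
      apply mul_le_mul_of_nonneg_left _ (by positivity)
      linarith [hc.1]
    have e2 : (2 : ℝ) ^ l * (2 * Real.log N + 2) = 2 ^ l * Real.log N + 2 ^ l * (Real.log N + 2) := by ring
    have h3 : 0 ≤ (2 : ℝ) ^ l * (Real.log N + 2) := by positivity
    rw [abs_le]
    constructor <;> linarith [hS1.1, hS1.2, hS2.1, hS2.2]
  have h16 : (2 : ℝ) ^ K * (h * (δ / 16)) ≤ δ / 16 * (N * h) := by
    calc (2 : ℝ) ^ K * (h * (δ / 16)) ≤ N * (h * (δ / 16)) := by gcongr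
      _ = _ := by ring
  have hpos : 0 ≤ δ * (N * (h : ℝ)) := by positivity
  have e6 : (h : ℝ) * (δ / 8 * N) = δ / 8 * (N * h) := by ring
  rw [e6] at hmain
  rw [hsplit2] at hmain
  rw [hsplit]
  rw [abs_le] at hbig1 hbig2 hmain ⊢
  constructor <;> linarith [hbig1.1, hbig1.2, hbig2.1, hbig2.2, hmain.1, hmain.2]

end Pool.Agent.L5helper10.RM
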