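import Pool.Agent.L5helper10.RM.K14
import Pool.Agent.L5helper10.RM.G11

/-! The mean square up to `o(H)`. -/

set_option autoImplicit false
set_option linter.unusedSectionVars false

namespace Pool.Agent.L5helper10.RM

open Finset Filter MeasureTheory

open scoped Topology

/-- comparison of the main terms -/
lemma main_cmp2 (δ X H M h : ℝ) (hδ : 0 < δ) (hX1 : 1 ≤ X) (hH8 : 8 ≤ H) (hHX8 : H * 8 ≤ X) (hM1 : X - H / 2 - 2 ≤ M) (hM2 : M ≤ X)
    (hh1 : h ≤ H) (hh2 : H < h + 1) (h1 : 16 / δ * (Real.log X + 5) ≤ H) (h2 : H * (16 / δ * (Real.log X + 5)) ≤ X) :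
    |M * (h * (Real.log M - 1 - Real.log h + c3)) - X * (H * (Real.log X - 1 - Real.log H + c3))| ≤ δ / 8 * (X * H) := by
  have hX0 : 0 < X := by linarith
  have hH0 : 0 < H := by linarith
  have hM3 : X / 2 ≤ M := by linarith
  have hM0 : 0 < M := by linarith
  have hh0 : 0 < h := by linarith
  have hhalf : H / 2 ≤ h := by linarith
  have hc := c3_bounds
  have hlogX : 0 ≤ Real.log X := Real.log_nonneg hX1
  have hlogH : 0 ≤ Real.log H := Real.log_nonneg (by linarith)
  have hlogHX : Real.log H ≤ Real.log X := Real.log_le_log hH0 (by linarith)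
  have e1 : M * (h * (Real.log M - 1 - Real.log h + c3)) - X * (H * (Real.log X - 1 - Real.log H + c3)) =
      -((X * H - M * h) * (Real.log X - 1 - Real.log H + c3)) + M * h * (Real.log H - Real.log h) - M * h * (Real.log X - Real.log M) := by ring
  have h3 : 0 ≤ X * H - M * h := by
    have : M * h ≤ X * H := mul_le_mul hM2 hh1 hh0.le hX0.le
    linarith
  have h4 : X * H - M * h ≤ H ^ 2 + X := by
    have e2 : X * H - M * h = (X - M) * H + M * (H - h) := by ring
    rw [e2]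
    have h5 : (X - M) * H ≤ H * H := by
      apply mul_le_mul_of_nonneg_right _ hH0.le
      linarith
    have h6 : M * (H - h) ≤ X * 1 := by
      apply mul_le_mul hM2 (by linarith) (by linarith) hX0.le
    nlinarith
  have h5 : |(X * H - M * h) * (Real.log X - 1 - Real.log H + c3)| ≤ (H ^ 2 + X) * (Real.log X + 3) := by
    rw [abs_mul, abs_of_nonneg h3]
    apply mul_le_mul h4 _ (abs_nonneg _) (by positivity)
    rw [abs_le]
    constructor <;> linarith [hc.1, hc.2]
  have h6 : 0 ≤ M * h * (Real.log H - Real.log h) ∧ M * h * (Real.log H - Real.log h) ≤ X := by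
    have h7 : Real.log h ≤ Real.log H := Real.log_le_log hh0 hh1
    have h8 : h * (Real.log H - Real.log h) ≤ 1 := by
      rw [← Real.log_div hH0.ne' hh0.ne']
      have h9 := Real.log_le_sub_one_of_pos (x := H / h) (by positivity)
      calc h * Real.log (H / h) ≤ h * (H / h - 1) := by gcongr
        _ = H - h := by field_simp
        _ ≤ 1 := by linarith
    constructor
    · apply mul_nonneg (by positivity); linarith
    · calc M * h * (Real.log H - Real.log h) = M * (h * (Real.log H - Real.log h)) := by ring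
        _ ≤ X * 1 := by
            apply mul_le_mul hM2 h8 _ hX0.le
            apply mul_nonneg hh0.le; linarith
        _ = X := by ring
  have h7 : 0 ≤ M * h * (Real.log X - Real.log M) ∧ M * h * (Real.log X - Real.log M) ≤ H ^ 2 := by
    have h8 : Real.log M ≤ Real.log X := Real.log_le_log hM0 hM2
    have h9 : M * (Real.log X - Real.log M) ≤ H := by
      rw [← Real.log_div hX0.ne' hM0.ne']
      have h10 := Real.log_le_sub_one_of_pos (x := X / M) (by positivity)
      calc M * Real.log (X / M) ≤ M * (X / M - 1) := by gcongr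
        _ = X - M := by field_simp
        _ ≤ H := by linarith
    have h11 : 0 ≤ M * (Real.log X - Real.log M) := by
      apply mul_nonneg hM0.le; linarith
    constructor
    · apply mul_nonneg (by positivity); linarith
    · calc M * h * (Real.log X - Real.log M) = h * (M * (Real.log X - Real.log M)) := by ring
        _ ≤ H * H := mul_le_mul hh1 h9 h11 hH0.le
        _ = H ^ 2 := by ring
  have h8 : (H ^ 2 + X) * (Real.log X + 5) ≤ δ / 8 * (X * H) := by
    have e2 : 16 / δ * (Real.log X + 5) = 16 * (Real.log X + 5) / δ := by ring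
    rw [e2, div_le_iff₀ hδ] at h1
    rw [e2, mul_div_assoc', div_le_iff₀ hδ] at h2
    have h9 : X * (16 * (Real.log X + 5)) ≤ X * (H * δ) := mul_le_mul_of_nonneg_left h1 hX0.le
    have h10 : H * (H * (16 * (Real.log X + 5))) ≤ H * (X * δ) := mul_le_mul_of_nonneg_left h2 hH0.le
    nlinarith
  have h5' := abs_le.mp h5
  have e3 : (H ^ 2 + X) * (Real.log X + 5) = (H ^ 2 + X) * (Real.log X + 3) + 2 * H ^ 2 + 2 * X := by ring
  rw [e3] at h8
  rw [e1, abs_le]
  have hsq : 0 ≤ H ^ 2 := by positivity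
  constructor <;> linarith [h5'.1, h5'.2, h6.1, h6.2, h7.1, h7.2]

theorem J_law2 {α : ℕ → ℕ} (hA : Law α) (hA2 : Law2 α) (ε : ℝ) (hε : 0 < ε) (hε1 : ε ≤ 1 / 2) (δ : ℝ) (hδ : 0 < δ) (hδ4 : δ ≤ 4) :
    ∀ᶠ X : ℝ in atTop, ∀ H : ℝ, X ^ ε ≤ H → H ≤ X ^ (kap - ε) →
      |JR α X H - H * (Real.log X - 1 - Real.log H + c3)| ≤ δ * H := by
  obtain ⟨N₀, hN₀⟩ := (sum_law2 hA hA2 (ε / 2) (by positivity) (by linarith) (δ / 8) (by positivity)).exists_forall_of_atTop
  have hkap := kap_lt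
  have hkap' := kap_gt
  have hpow : ∀ᶠ X : ℝ in atTop, 8 ≤ X ^ ε := (tendsto_rpow_atTop hε).eventually (eventually_ge_atTop _)
  have hpow2 : ∀ᶠ X : ℝ in atTop, 2 ≤ X ^ (ε / 2) := (tendsto_rpow_atTop (by positivity)).eventually (eventually_ge_atTop _)
  have hls1 := log_sq_small ε hε 1 one_pos (80 / δ)
  have hls2 := log_sq_small (ε / 4) (by positivity) (δ / 8) (by positivity) 1
  have hls3 := log_sq_small (3 * ε / 4) (by positivity) (δ / 8) (by positivity) 2
  filter_upwards [hpow, hpow2, hls1, hls2, hls3, eventually_ge_atTop (2 * ((N₀ : ℝ) + 8))] with X hX1 hX2 hl1 hl2 hl3 hX5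
  intro H hH1 hH2
  have hN₀r : (0 : ℝ) ≤ N₀ := Nat.cast_nonneg N₀
  have hX0 : (0 : ℝ) < X := by linarith
  have hX1' : (1 : ℝ) ≤ X := by linarith
  have hH8 : 8 ≤ H := hX1.trans hH1
  have hH0 : 0 < H := by linarith
  have hlogX0 : 0 ≤ Real.log X := Real.log_nonneg hX1'
  have hlog2X : Real.log X ≤ Real.log (2 * X) := Real.log_le_log hX0 (by linarith)
  have hlsq : 1 + Real.log X ≤ (1 + Real.log (2 * X)) ^ 2 := by nlinarith
  have hHXe : H ≤ X ^ (1 - ε) := hH2.trans (Real.rpow_le_rpow_of_exponent_le hX1' (by linarith))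
  have hHX : H * X ^ ε ≤ X := by
    calc H * X ^ ε ≤ X ^ (1 - ε) * X ^ ε := by gcongr
      _ = X := by rw [← Real.rpow_add hX0]; simp
  have hHX8 : H * 8 ≤ X := (mul_le_mul_of_nonneg_left hX1 hH0.le).trans hHX
  have hlX : 16 / δ * (Real.log X + 5) ≤ X ^ ε := by
    rw [one_mul] at hl1
    refine le_trans ?_ hl1
    have e1 : 80 / δ * (1 + Real.log (2 * X)) ^ 2 = 16 / δ * (5 * (1 + Real.log (2 * X)) ^ 2) := by ring
    rw [e1]
    apply mul_le_mul_of_nonneg_left _ (by positivity)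
    linarith
  obtain ⟨A, hAd⟩ : ∃ A, A = ⌊H / 2⌋₊ := ⟨_, rfl⟩
  obtain ⟨N, hNd⟩ : ∃ N, N = ⌊X - H / 2⌋₊ := ⟨_, rfl⟩
  obtain ⟨h, hh⟩ : ∃ h, h = ⌊H⌋₊ := ⟨_, rfl⟩
  have hA1 : (A : ℝ) ≤ H / 2 := by rw [hAd]; exact Nat.floor_le (by linarith)
  have hA2' : H / 2 < A + 1 := by rw [hAd]; exact Nat.lt_floor_add_one _
  have hN1 : (N : ℝ) ≤ X - H / 2 := by rw [hNd]; exact Nat.floor_le (by linarith)
  have hN2 : X - H / 2 < N + 1 := by rw [hNd]; exact Nat.lt_floor_add_one _
  have hh1 : (h : ℝ) ≤ H := by rw [hh]; exact Nat.floor_le hH0.le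
  have hh2 : H < h + 1 := by rw [hh]; exact Nat.lt_floor_add_one H
  have hN0 : 1 ≤ N := by
    have : (0 : ℝ) < N := by linarith
    exact_mod_cast this
  have hA0 : 1 ≤ A := by
    have : (0 : ℝ) < A := by linarith
    exact_mod_cast this
  have hNm1 : ((N - 1 : ℕ) : ℝ) = N - 1 := by rw [Nat.cast_sub hN0]; simp
  have hAm1 : ((A - 1 : ℕ) : ℝ) = A - 1 := by rw [Nat.cast_sub hA0]; simp
  obtain ⟨Λ, hΛ⟩ : ∃ Λ, Λ = Real.log X - 1 - Real.log H + c3 := ⟨_, rfl⟩
  -- the sums
  have key : ∀ (M A' : ℕ), X - H / 2 - 2 ≤ M → (M : ℝ) ≤ X → H / 2 - 2 < A' → (A' : ℝ) ≤ H / 2 →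
      |∑ m ∈ Ioc A' M, TT α m h ^ 2 - X * (H * Λ)| ≤ δ / 4 * (X * H) := by
    intro M A' hM1 hM2 hA'1 hA'2
    have hM3 : X / 2 ≤ M := by linarith
    have hM4 : (1 : ℝ) ≤ M := by linarith
    have hMN₀ : N₀ ≤ M := by
      have : (N₀ : ℝ) ≤ M := by linarith
      exact_mod_cast this
    have hhalf : X ^ (kap - ε) ≤ (M : ℝ) ^ (kap - ε / 2) := by
      calc X ^ (kap - ε) ≤ X ^ (kap - ε / 2) / 2 := by
            rw [le_div_iff₀ (by norm_num)]
            calc X ^ (kap - ε) * 2 ≤ X ^ (kap - ε) * X ^ (ε / 2) := by gcongr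
              _ = X ^ (kap - ε / 2) := by rw [← Real.rpow_add hX0]; congr 1; ring
        _ ≤ (X / 2) ^ (kap - ε / 2) := by
            rw [Real.div_rpow hX0.le (by norm_num)]
            apply div_le_div_of_nonneg_left (by positivity) (by positivity)
            calc (2 : ℝ) ^ (kap - ε / 2) ≤ 2 ^ (1 : ℝ) := Real.rpow_le_rpow_of_exponent_le (by norm_num) (by linarith)
              _ = 2 := Real.rpow_one 2
        _ ≤ _ := Real.rpow_le_rpow (by positivity) hM3 (by linarith)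
    have h1 := hN₀ M hMN₀ h (by
        have e1 : X ^ ε = X ^ (ε / 2) * X ^ (ε / 2) := by rw [← Real.rpow_add hX0]; congr 1; ring
        have h2 : (M : ℝ) ^ (ε / 2) ≤ X ^ (ε / 2) := Real.rpow_le_rpow (by positivity) hM2 (by linarith)
        have h3 : X ^ (ε / 2) + 1 ≤ X ^ ε := by rw [e1]; nlinarith
        linarith)
      (hh1.trans (hH2.trans hhalf)) A' (by
        have : (h : ℝ) ≤ 4 * A' := by linarith
        exact_mod_cast this) (by
        have h2 : (M : ℝ) ^ (kap - ε / 2) ≤ (M : ℝ) ^ (1 - ε / 2 / 2) :=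
          Real.rpow_le_rpow_of_exponent_le hM4 (by linarith)
        linarith [hH2.trans hhalf]) (by
        have : (A' : ℝ) ≤ M := by linarith
        exact_mod_cast this)
    have h2 := main_cmp2 δ X H M h hδ hX1' hH8 hHX8 hM1 hM2 hh1 hh2 (hlX.trans hH1)
      ((mul_le_mul_of_nonneg_left hlX hH0.le).trans hHX)
    rw [← hΛ] at h2
    have h3 : δ / 8 * (M * (h : ℝ)) ≤ δ / 8 * (X * H) := by gcongr
    have h4 := abs_sub_le (∑ m ∈ Ioc A' M, TT α m h ^ 2) (M * (h * (Real.log M - 1 - Real.log h + c3))) (X * (H * Λ))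
    linarith
  have hk1 := abs_le.mp (key (N - 1) A (by rw [hNm1]; linarith) (by rw [hNm1]; linarith) (by linarith) hA1)
  have hk2 := abs_le.mp (key N (A - 1) (by linarith) (by linarith) (by rw [hAm1]; linarith) (by rw [hAm1]; linarith))
  have hst := step_bounds (fun j => TT α j h ^ 2) (fun _ => sq_nonneg _) H X (by linarith) (by linarith)
  rw [← hAd, ← hNd] at hst
  have hJ := J_step α H X (by linarith) (by linarith) (X ^ (-(ε / 4))) (by positivity)
  rw [← hh] at hJ
  obtain ⟨IF, hIF⟩ : ∃ IF, IF = ∫ x in H..X, TT α (⌈x - H / 2⌉₊ - 1) h ^ 2 := ⟨_, rfl⟩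
  obtain ⟨Ig, hIg⟩ : ∃ Ig, Ig = ∫ x in H..X, (psiR α x H - H) ^ 2 := ⟨_, rfl⟩
  rw [← hIF, ← hIg] at hJ
  simp only [← hIF] at hst
  have hc := c3_bounds
  have hlogH : 0 ≤ Real.log H := Real.log_nonneg (by linarith)
  have hXH : 0 < X * H := by positivity
  have hI1 : |IF - X * (H * Λ)| ≤ δ / 4 * (X * H) := by
    rw [abs_le]
    constructor <;> linarith [hst.1, hst.2, hk1.1, hk1.2, hk2.1, hk2.2]
  have hIF0 : IF ≤ X * H * (1 + Real.log X) := by
    have h1 : X * (H * Λ) ≤ X * H * (Real.log X - 1) := by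
      rw [← mul_assoc]
      apply mul_le_mul_of_nonneg_left _ hXH.le
      rw [hΛ]
      linarith [hc.2]
    have h2 : δ / 4 * (X * H) ≤ 1 * (X * H) := by
      apply mul_le_mul_of_nonneg_right _ hXH.le
      linarith
    nlinarith [(abs_le.mp hI1).2]
  have hy : X ^ (-(ε / 4)) = 1 / X ^ (ε / 4) := by rw [Real.rpow_neg hX0.le, one_div]
  have hy1 : 1 ≤ X ^ (ε / 4) := Real.one_le_rpow hX1' (by positivity)
  have hy0 : 0 < X ^ (ε / 4) := by linarith
  have hT1 : X ^ (-(ε / 4)) * IF ≤ δ / 8 * (X * H) := by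
    have h1 : (1 + Real.log X) ≤ δ / 8 * X ^ (ε / 4) := by
      rw [one_mul] at hl2
      linarith
    calc X ^ (-(ε / 4)) * IF ≤ X ^ (-(ε / 4)) * (X * H * (1 + Real.log X)) := by gcongr
      _ ≤ X ^ (-(ε / 4)) * (X * H * (δ / 8 * X ^ (ε / 4))) := by gcongr
      _ = δ / 8 * (X * H) := by rw [hy]; field_simp
  have hT2 : (1 + 1 / X ^ (-(ε / 4))) * (1 + Real.log (2 * X)) ^ 2 * X ≤ δ / 8 * (X * H) := by
    have h1 : 1 + 1 / X ^ (-(ε / 4)) ≤ 2 * X ^ (ε / 4) := by
      rw [hy, one_div_one_div]; linarith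
    calc (1 + 1 / X ^ (-(ε / 4))) * (1 + Real.log (2 * X)) ^ 2 * X ≤ (2 * X ^ (ε / 4)) * (1 + Real.log (2 * X)) ^ 2 * X := by gcongr
      _ = X ^ (ε / 4) * (2 * (1 + Real.log (2 * X)) ^ 2) * X := by ring
      _ ≤ X ^ (ε / 4) * (δ / 8 * X ^ (3 * ε / 4)) * X := by gcongr
      _ = δ / 8 * X * (X ^ (ε / 4) * X ^ (3 * ε / 4)) := by ring
      _ = δ / 8 * X * X ^ ε := by rw [← Real.rpow_add hX0]; congr 2; ring
      _ ≤ δ / 8 * X * H := by gcongr
      _ = _ := by ring
  have hfin : |Ig - X * (H * Λ)| ≤ δ * (X * H) := by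
    have h1 := abs_sub_le Ig IF (X * (H * Λ))
    have h3 : 0 ≤ δ * (X * H) := by positivity
    linarith
  unfold JR
  rw [← hIg, ← hΛ]
  have e1 : 1 / X * Ig - H * Λ = (Ig - X * (H * Λ)) / X := by field_simp
  rw [e1, abs_div, abs_of_pos hX0, div_le_iff₀ hX0]
  calc |Ig - X * (H * Λ)| ≤ δ * (X * H) := hfin
    _ = _ := by ring

/-- **the mean square with the constant** -/
theorem J_const {α : ℕ → ℕ} (hA : Law α) (hA2 : Law2 α) (ε : ℝ) (hε : 0 < ε) :
    ∀ᶠ X : ℝ in atTop, ∀ H : ℝ, X ^ ε ≤ H → H ≤ X ^ (Real.exp (-Real.eulerMascheroniConstant) - ε) →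
      |JR α X H - H * (Real.log X - Real.log H - (Real.eulerMascheroniConstant + Real.log (2 * Real.pi)))| ≤ ε * H := by
  obtain ⟨e, he⟩ : ∃ e : ℝ, e = min ε (1 / 2) := ⟨_, rfl⟩
  have he0 : 0 < e := by rw [he]; exact lt_min hε (by norm_num)
  have heε : e ≤ ε := by rw [he]; exact min_le_left _ _
  have he2 : e ≤ 1 / 2 := by rw [he]; exact min_le_right _ _
  filter_upwards [J_law2 hA hA2 e he0 he2 (min ε 4) (lt_min hε (by norm_num)) (min_le_right _ _), eventually_ge_atTop 1] with X hX hX1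
  intro H hH1 hH2
  have hX0 : (0 : ℝ) < X := by linarith
  have hH0 : 0 < H := lt_of_lt_of_le (by positivity) hH1
  have h1 := hX H ((Real.rpow_le_rpow_of_exponent_le hX1 heε).trans hH1)
    (hH2.trans (Real.rpow_le_rpow_of_exponent_le hX1 (by unfold kap; linarith)))
  have e1 : Real.log X - 1 - Real.log H + c3 =
      Real.log X - Real.log H - (Real.eulerMascheroniConstant + Real.log (2 * Real.pi)) := by
    unfold c3; ring
  rw [e1] at h1
  refine h1.trans ?_
  gcongr
  exact min_le_left _ _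

end Pool.Agent.L5helper10.RM
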