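import Mathlib

/-! The sums of the coefficients: recursion over the primes. -/

set_option autoImplicit false

namespace Pool.Agent.L5helper10.RM

open Finset Filter

open scoped Topology

/-- the local factor at the prime `p` -/
noncomputable def lcf (p k : ℕ) : ℝ := if k = 0 then 1 else if p = 2 then 0 else if k = 1 then (p : ℝ) / (p - 2) else 0

noncomputable def GP (P : Finset ℕ) (n : ℕ) : ℝ := ∏ p ∈ P, lcf p (n.factorization p)

noncomputable def WP (P : Finset ℕ) (t : ℝ) : ℝ := ∑ n ∈ Icc 1 ⌊t⌋₊, GP P n / n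

noncomputable def be1 (p : ℕ) : ℝ := lcf p 1 - 1
noncomputable def be2 (p : ℕ) : ℝ := lcf p 2 - lcf p 1

lemma lcf_eq {p n : ℕ} (hp : p.Prime) (hn : n ≠ 0) :
    lcf p (n.factorization p) = 1 + (if p ∣ n then be1 p else 0) + (if p ^ 2 ∣ n then be2 p else 0) := by
  have h1 : p ∣ n ↔ 1 ≤ n.factorization p := by
    have := (hp.pow_dvd_iff_le_factorization hn (k := 1))
    rwa [pow_one] at this
  have h2 : p ^ 2 ∣ n ↔ 2 ≤ n.factorization p := hp.pow_dvd_iff_le_factorization hn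
  obtain ⟨v, hv⟩ : ∃ v, v = n.factorization p := ⟨_, rfl⟩
  rw [← hv] at h1 h2 ⊢
  rcases Nat.lt_or_ge v 1 with h | h
  · have : v = 0 := by omega
    rw [if_neg (by rw [h1]; omega), if_neg (by rw [h2]; omega), this]
    simp [lcf]
  · rcases Nat.lt_or_ge v 2 with h' | h'
    · have : v = 1 := by omega
      rw [if_pos (by rw [h1]; omega), if_neg (by rw [h2]; omega), this]
      unfold be1; ring
    · rw [if_pos (by rw [h1]; omega), if_pos (by rw [h2]; omega)]
      unfold be1 be2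
      have : lcf p v = lcf p 2 := by
        unfold lcf
        rw [if_neg (by omega : v ≠ 0), if_neg (by norm_num : (2 : ℕ) ≠ 0), if_neg (by omega : v ≠ 1),
          if_neg (by norm_num : (2 : ℕ) ≠ 1)]
      rw [this]; ring

lemma sum_dvd (F : ℕ → ℝ) (t : ℝ) (d : ℕ) (hd : 1 ≤ d) :
    ∑ n ∈ Icc 1 ⌊t⌋₊, (if d ∣ n then F n else 0) = ∑ m ∈ Icc 1 ⌊t / d⌋₊, F (d * m) := by
  rw [Nat.floor_div_natCast, ← sum_filter]
  symm
  apply sum_bij (fun m _ => d * m)
  · intro m hm
    rw [mem_Icc] at hm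
    rw [mem_filter, mem_Icc]
    refine ⟨⟨Nat.mul_pos hd hm.1, ?_⟩, dvd_mul_right _ _⟩
    calc d * m ≤ d * (⌊t⌋₊ / d) := Nat.mul_le_mul_left _ hm.2
      _ ≤ ⌊t⌋₊ := Nat.mul_div_le _ _
  · intro a _ b _ h
    exact Nat.eq_of_mul_eq_mul_left hd h
  · intro n hn
    rw [mem_filter, mem_Icc] at hn
    obtain ⟨⟨h1, h2⟩, m, rfl⟩ := hn
    refine ⟨m, ?_, rfl⟩
    rw [mem_Icc]
    have hm : 0 < m := Nat.pos_of_mul_pos_left (by omega : 0 < d * m)
    refine ⟨hm, ?_⟩
    rw [Nat.le_div_iff_mul_le hd, mul_comm]; exact h2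
  · intro _ _; rfl

lemma GP_mul {P : Finset ℕ} {p : ℕ} (hp : p.Prime) (hpP : p ∉ P) (k m : ℕ) (hm : m ≠ 0) :
    GP P (p ^ k * m) = GP P m := by
  unfold GP
  refine prod_congr rfl fun q hq => ?_
  congr 1
  rw [Nat.factorization_mul (pow_ne_zero _ hp.ne_zero) hm, Finsupp.add_apply, hp.factorization_pow,
    Finsupp.single_apply, if_neg, zero_add]
  rintro rfl
  exact hpP hq

lemma WP_insert {P : Finset ℕ} {p : ℕ} (hp : p.Prime) (hpP : p ∉ P) (t : ℝ) :
    WP (insert p P) t = WP P t + be1 p / p * WP P (t / p) + be2 p / p ^ 2 * WP P (t / p ^ 2) := by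
  have hp0 : (p : ℝ) ≠ 0 := by exact_mod_cast hp.ne_zero
  have h1 : WP (insert p P) t = ∑ n ∈ Icc 1 ⌊t⌋₊, (GP P n / n + (if p ∣ n then be1 p * (GP P n / n) else 0) +
      (if p ^ 2 ∣ n then be2 p * (GP P n / n) else 0)) := by
    unfold WP
    refine sum_congr rfl fun n hn => ?_
    rw [mem_Icc] at hn
    have e1 : GP (insert p P) n = lcf p (n.factorization p) * GP P n := by
      unfold GP
      rw [prod_insert hpP]
    rw [e1, lcf_eq hp (by omega)]
    split_ifs <;> ring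
  rw [h1, sum_add_distrib, sum_add_distrib, sum_dvd _ t p hp.pos]
  have h2 := sum_dvd (fun n => be2 p * (GP P n / n)) t (p ^ 2) (pow_pos hp.pos 2)
  rw [h2]
  unfold WP
  rw [mul_sum, mul_sum]
  congr 1
  · congr 1
    refine sum_congr rfl fun m hm => ?_
    rw [mem_Icc] at hm
    have := GP_mul hp hpP 1 m (by omega)
    rw [pow_one] at this
    rw [this]
    push_cast
    have hm0 : (m : ℝ) ≠ 0 := by exact_mod_cast (by omega : m ≠ 0)
    field_simp
  · push_cast
    refine sum_congr rfl fun m hm => ?_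
    rw [mem_Icc] at hm
    rw [GP_mul hp hpP 2 m (by omega)]
    have hm0 : (m : ℝ) ≠ 0 := by exact_mod_cast (by omega : m ≠ 0)
    field_simp

lemma harm_asymp (t : ℝ) (ht : 0 < t) :
    |∑ n ∈ Icc 1 ⌊t⌋₊, (1 : ℝ) / n - (Real.log t + Real.eulerMascheroniConstant)| ≤ 5 * t ^ (-(1 / 4) : ℝ) := by
  have hg0 := Real.one_half_lt_eulerMascheroniConstant
  have hg1 := Real.eulerMascheroniConstant_lt_two_thirds
  rcases lt_or_ge t 1 with h | h
  · have h1 : ⌊t⌋₊ = 0 := Nat.floor_eq_zero.mpr h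
    rw [h1]
    simp only [Icc_eq_empty_of_lt (by norm_num : (0 : ℕ) < 1), sum_empty, zero_sub, abs_neg]
    obtain ⟨s, hs⟩ : ∃ s, s = t ^ (-(1 / 4) : ℝ) := ⟨_, rfl⟩
    have hs1 : 1 ≤ s := by
      rw [hs]; exact Real.one_le_rpow_of_pos_of_le_one_of_nonpos ht h.le (by norm_num)
    have h2 : Real.log s = -(1 / 4) * Real.log t := by rw [hs, Real.log_rpow ht]
    have h3 := Real.log_le_sub_one_of_pos (show 0 < s by linarith)
    have h4 : Real.log t ≤ 0 := Real.log_nonpos ht.le h.le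
    rw [← hs, abs_le]
    constructor <;> linarith
  · obtain ⟨n, hn⟩ : ∃ n, n = ⌊t⌋₊ := ⟨_, rfl⟩
    have hn1 : 1 ≤ n := by rw [hn]; exact Nat.le_floor (by exact_mod_cast h)
    have hnt : (n : ℝ) ≤ t := by rw [hn]; exact Nat.floor_le ht.le
    have htn : t < n + 1 := by rw [hn]; exact Nat.lt_floor_add_one t
    have hn0 : (1 : ℝ) ≤ n := by exact_mod_cast hn1
    have h1 : ∑ n ∈ Icc 1 n, (1 : ℝ) / n = (harmonic n : ℝ) := by
      rw [harmonic_eq_sum_Icc]
      push_cast
      exact sum_congr rfl fun n _ => by rw [one_div]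
    have h2 := Real.eulerMascheroniSeq_lt_eulerMascheroniConstant n
    have h3 := Real.eulerMascheroniConstant_lt_eulerMascheroniSeq' n
    unfold Real.eulerMascheroniSeq at h2
    unfold Real.eulerMascheroniSeq' at h3
    rw [if_neg (by omega)] at h3
    have h4 : Real.log n ≤ Real.log t := Real.log_le_log (by linarith) hnt
    have h5 : Real.log t ≤ Real.log (n + 1) := Real.log_le_log ht htn.le
    have h6 : Real.log (n + 1) ≤ Real.log n + 1 / n := by
      have h7 := Real.log_le_sub_one_of_pos (show (0 : ℝ) < (n + 1) / n by positivity)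
      rw [Real.log_div (by positivity) (by positivity)] at h7
      have h8 : ((n : ℝ) + 1) / n - 1 = 1 / n := by field_simp; ring
      linarith
    have h7 : 1 / (n : ℝ) ≤ 5 * t ^ (-(1 / 4) : ℝ) := by
      have h8 : t ^ (-1 : ℝ) ≤ t ^ (-(1 / 4) : ℝ) := Real.rpow_le_rpow_of_exponent_le h (by norm_num)
      rw [Real.rpow_neg_one] at h8
      have h9 : 1 / (n : ℝ) ≤ 2 * t⁻¹ := by
        rw [← div_eq_mul_inv, div_le_div_iff₀ (by linarith) ht]
        linarith
      have : 0 < t⁻¹ := by positivity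
      linarith
    rw [← hn, h1, abs_le]
    constructor <;> linarith

end Pool.Agent.L5helper10.RM
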