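import Pool.Agent.L5helper10.RM.K3

/-! The sums of the coefficients: asymptotics. -/

set_option autoImplicit false

namespace Pool.Agent.L5helper10.RM

open Finset Filter

open scoped Topology

noncomputable def AP (P : Finset ℕ) : ℝ := ∏ p ∈ P, (1 + 1 / ((p : ℝ) * (p - 2)))

noncomputable def DP (P : Finset ℕ) : ℝ := ∏ p ∈ P, (1 + 9 * (p : ℝ) ^ (-(3 / 2) : ℝ))

lemma be_odd {p : ℕ} (hp : p.Prime) (hp2 : p ≠ 2) :
    be1 p = 2 / ((p : ℝ) - 2) ∧ be2 p = -((p : ℝ) / (p - 2)) ∧ (3 : ℝ) ≤ p := by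
  have h2 := hp.two_le
  have h3 : (3 : ℝ) ≤ p := by exact_mod_cast (by omega : 3 ≤ p)
  have h4 : (p : ℝ) - 2 ≠ 0 := by linarith
  refine ⟨?_, ?_, h3⟩
  · unfold be1 lcf
    rw [if_neg (by norm_num), if_neg hp2, if_pos rfl]
    field_simp
    ring
  · unfold be2 lcf
    rw [if_neg (by norm_num), if_neg hp2, if_neg (by norm_num), if_neg (by norm_num), if_neg hp2, if_pos rfl]
    ring

lemma one_le_AP (P : Finset ℕ) (hP : ∀ p ∈ P, p.Prime ∧ p ≠ 2) : 1 ≤ AP P := by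
  unfold AP
  have : ∀ p ∈ P, (1 : ℝ) ≤ 1 + 1 / ((p : ℝ) * (p - 2)) := by
    intro p hp
    obtain ⟨-, -, h3⟩ := be_odd (hP p hp).1 (hP p hp).2
    have : 0 < 1 / ((p : ℝ) * (p - 2)) := by
      apply one_div_pos.mpr
      apply mul_pos <;> linarith
    linarith
  calc (1 : ℝ) = ∏ p ∈ P, 1 := by rw [prod_const_one]
    _ ≤ _ := Finset.prod_le_prod (fun _ _ => zero_le_one) this

lemma DP_nonneg (P : Finset ℕ) : 0 ≤ DP P := by
  unfold DP
  apply prod_nonneg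
  intro p _
  positivity

lemma WP_odd (P : Finset ℕ) (hP : ∀ p ∈ P, p.Prime ∧ p ≠ 2) : ∀ t : ℝ, 0 < t →
    |WP P t - AP P * (Real.log t + Real.eulerMascheroniConstant)| ≤ 5 * DP P * AP P * t ^ (-(1 / 4) : ℝ) := by
  classical
  induction P using Finset.induction_on with
  | empty =>
    intro t ht
    have := harm_asymp t ht
    unfold WP AP DP GP
    simpa using this
  | insert p P hpP ih =>
    intro t ht
    have hP' : ∀ q ∈ P, q.Prime ∧ q ≠ 2 := fun q hq => hP q (mem_insert_of_mem hq)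
    obtain ⟨hp, hp2⟩ := hP p (mem_insert_self _ _)
    obtain ⟨hb1, hb2, hp3⟩ := be_odd hp hp2
    have hp0 : (0 : ℝ) < p := by linarith
    have hp20 : (0 : ℝ) < p - 2 := by linarith
    rw [WP_insert hp hpP]
    have i1 := ih hP' t ht
    have i2 := ih hP' (t / p) (by positivity)
    have i3 := ih hP' (t / p ^ 2) (by positivity)
    have hA : AP (insert p P) = (1 + 1 / ((p : ℝ) * (p - 2))) * AP P := by unfold AP; rw [prod_insert hpP]
    have hD : DP (insert p P) = (1 + 9 * (p : ℝ) ^ (-(3 / 2) : ℝ)) * DP P := by unfold DP; rw [prod_insert hpP]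
    obtain ⟨c, hc⟩ : ∃ c, c = Real.eulerMascheroniConstant := ⟨_, rfl⟩
    obtain ⟨A, hAd⟩ : ∃ A, A = AP P := ⟨_, rfl⟩
    obtain ⟨D, hDd⟩ : ∃ D, D = DP P := ⟨_, rfl⟩
    have hA1 : 1 ≤ A := by rw [hAd]; exact one_le_AP P hP'
    have hD0 : 0 ≤ D := by rw [hDd]; exact DP_nonneg P
    rw [hA, hD]
    rw [← hc, ← hAd, ← hDd] at i1 i2 i3 ⊢
    rw [Real.log_div ht.ne' hp0.ne'] at i2
    rw [Real.log_div ht.ne' (by positivity), Real.log_pow] at i3
    push_cast at i3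
    obtain ⟨l, hl⟩ : ∃ l, l = Real.log t := ⟨_, rfl⟩
    obtain ⟨lp, hlp⟩ : ∃ lp, lp = Real.log (p : ℝ) := ⟨_, rfl⟩
    rw [← hl, ← hlp] at i2 i3
    rw [← hl] at i1 ⊢
    have e1 : WP P t + be1 p / p * WP P (t / p) + be2 p / p ^ 2 * WP P (t / p ^ 2) -
        (1 + 1 / ((p : ℝ) * (p - 2))) * A * (l + c) =
        (WP P t - A * (l + c)) + be1 p / p * (WP P (t / p) - A * (l - lp + c)) +
          be2 p / p ^ 2 * (WP P (t / p ^ 2) - A * (l - 2 * lp + c)) := by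
      rw [hb1, hb2]
      field_simp
      ring
    rw [e1]
    refine (abs_add_three _ _ _).trans ?_
    rw [abs_mul, abs_mul]
    obtain ⟨τ, hτ⟩ : ∃ τ, τ = t ^ (-(1 / 4) : ℝ) := ⟨_, rfl⟩
    have hτ0 : 0 < τ := by rw [hτ]; positivity
    have e2 : (t / p) ^ (-(1 / 4) : ℝ) = τ * (p : ℝ) ^ (1 / 4 : ℝ) := by
      rw [Real.div_rpow ht.le hp0.le, hτ, Real.rpow_neg hp0.le, div_inv_eq_mul]
    have e3 : (t / p ^ 2) ^ (-(1 / 4) : ℝ) = τ * (p : ℝ) ^ (1 / 2 : ℝ) := by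
      rw [Real.div_rpow ht.le (by positivity), hτ, ← Real.rpow_natCast, ← Real.rpow_mul hp0.le,
        show (((2 : ℕ) : ℝ) * -(1 / 4)) = -(1 / 2) by norm_num, Real.rpow_neg hp0.le, div_inv_eq_mul]
    rw [e2] at i2
    rw [e3] at i3
    rw [← hτ] at i1 ⊢
    have k1 : |be1 p / p| ≤ 6 / (p : ℝ) ^ 2 := by
      rw [hb1, abs_of_nonneg (by positivity), div_div, div_le_div_iff₀ (by positivity) (by positivity)]
      nlinarith
    have k2 : |be2 p / p ^ 2| ≤ 3 / (p : ℝ) ^ 2 := by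
      rw [hb2, neg_div, abs_neg, abs_of_nonneg (by positivity)]
      apply div_le_div_of_nonneg_right _ (by positivity)
      rw [div_le_iff₀ hp20]
      linarith
    obtain ⟨r, hr⟩ : ∃ r, r = (p : ℝ) ^ (1 / 2 : ℝ) := ⟨_, rfl⟩
    have hr0 : 0 < r := by rw [hr]; positivity
    have k3 : (p : ℝ) ^ (1 / 4 : ℝ) ≤ r := by
      rw [hr]; exact Real.rpow_le_rpow_of_exponent_le (by linarith) (by norm_num)
    have k4 : r / (p : ℝ) ^ 2 = (p : ℝ) ^ (-(3 / 2) : ℝ) := by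
      rw [hr, ← Real.rpow_natCast, ← Real.rpow_sub hp0]
      norm_num
    rw [← hr] at i3
    have k5 : |be1 p / p| * |WP P (t / p) - A * (l - lp + c)| ≤ 6 / (p : ℝ) ^ 2 * (5 * D * A * (τ * r)) := by
      apply mul_le_mul k1 _ (abs_nonneg _) (by positivity)
      refine i2.trans ?_
      gcongr
    have k6 : |be2 p / p ^ 2| * |WP P (t / p ^ 2) - A * (l - 2 * lp + c)| ≤ 3 / (p : ℝ) ^ 2 * (5 * D * A * (τ * r)) :=
      mul_le_mul k2 i3 (abs_nonneg _) (by positivity)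
    rw [← k4]
    have e4 : 5 * ((1 + 9 * (r / (p : ℝ) ^ 2)) * D) * ((1 + 1 / ((p : ℝ) * (p - 2))) * A) * τ =
        (5 * D * A * τ + 6 / (p : ℝ) ^ 2 * (5 * D * A * (τ * r)) + 3 / (p : ℝ) ^ 2 * (5 * D * A * (τ * r))) +
        5 * ((1 + 9 * (r / (p : ℝ) ^ 2)) * D) * (1 / ((p : ℝ) * (p - 2)) * A) * τ := by
      field_simp
      ring
    rw [e4]
    have : 0 ≤ 5 * ((1 + 9 * (r / (p : ℝ) ^ 2)) * D) * (1 / ((p : ℝ) * (p - 2)) * A) * τ := by positivity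
    linarith

/-- the constant -/
noncomputable def Dinf : ℝ := Real.exp (9 * ∑' n : ℕ, (n : ℝ) ^ (-(3 / 2) : ℝ))

lemma DP_le (P : Finset ℕ) : DP P ≤ Dinf := by
  unfold DP Dinf
  have hs : Summable (fun n : ℕ => (n : ℝ) ^ (-(3 / 2) : ℝ)) := Real.summable_nat_rpow.mpr (by norm_num)
  calc ∏ p ∈ P, (1 + 9 * (p : ℝ) ^ (-(3 / 2) : ℝ)) ≤ ∏ p ∈ P, Real.exp (9 * (p : ℝ) ^ (-(3 / 2) : ℝ)) := by
        apply Finset.prod_le_prod
        · intro p _; positivity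
        · intro p _
          have := Real.add_one_le_exp (9 * (p : ℝ) ^ (-(3 / 2) : ℝ))
          linarith
    _ = Real.exp (9 * ∑ p ∈ P, (p : ℝ) ^ (-(3 / 2) : ℝ)) := by
        rw [← Real.exp_sum, mul_sum]
    _ ≤ _ := by
        apply Real.exp_le_exp.mpr
        apply mul_le_mul_of_nonneg_left _ (by norm_num)
        exact hs.sum_le_tsum P (fun n _ => by positivity)

lemma Dinf_pos : 0 < Dinf := Real.exp_pos _

/-- with the prime two -/
theorem WP_two (P : Finset ℕ) (hP : ∀ p ∈ P, p.Prime ∧ p ≠ 2) (t : ℝ) (ht : 0 < t) :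
    |WP (insert 2 P) t - AP P / 2 * (Real.log t + (Real.eulerMascheroniConstant + Real.log 2))| ≤
      AP P / 2 * (20 * Dinf * t ^ (-(1 / 4) : ℝ)) := by
  have h2P : 2 ∉ P := fun h => (hP 2 h).2 rfl
  rw [WP_insert Nat.prime_two h2P]
  have hb1 : be1 2 = -1 := by unfold be1 lcf; norm_num
  have hb2 : be2 2 = 0 := by unfold be2 lcf; norm_num
  rw [hb1, hb2]
  have i1 := WP_odd P hP t ht
  have i2 := WP_odd P hP (t / 2) (by positivity)
  rw [Real.log_div ht.ne' (by norm_num)] at i2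
  have hA := one_le_AP P hP
  have hD := DP_le P
  have hD0 := DP_nonneg P
  obtain ⟨τ, hτ⟩ : ∃ τ, τ = t ^ (-(1 / 4) : ℝ) := ⟨_, rfl⟩
  have hτ0 : 0 < τ := by rw [hτ]; positivity
  have e2 : (t / 2) ^ (-(1 / 4) : ℝ) ≤ 2 * τ := by
    rw [Real.div_rpow ht.le (by norm_num), hτ, Real.rpow_neg (by norm_num : (0 : ℝ) ≤ 2), div_inv_eq_mul, mul_comm]
    apply mul_le_mul_of_nonneg_right _ (by positivity)
    calc (2 : ℝ) ^ (1 / 4 : ℝ) ≤ 2 ^ (1 : ℝ) := Real.rpow_le_rpow_of_exponent_le (by norm_num) (by norm_num)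
      _ = 2 := Real.rpow_one 2
  rw [← hτ] at i1 ⊢
  have j1 : 5 * DP P * AP P * τ ≤ 5 * Dinf * AP P * τ := by gcongr
  have hDi := Dinf_pos
  have j2 : 5 * DP P * AP P * (t / 2) ^ (-(1 / 4) : ℝ) ≤ 5 * Dinf * AP P * (2 * τ) := by gcongr
  have k1 := abs_le.mp (i1.trans j1)
  have k2 := abs_le.mp (i2.trans j2)
  push_cast
  rw [abs_le]
  constructor
  · nlinarith [k1.1, k2.2]
  · nlinarith [k1.2, k2.1]

end Pool.Agent.L5helper10.RM
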