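import Pool.Agent.L5helper10.RM.F14
import Pool.Agent.L5helper10.RM.K1

/-! An exact formula for the mean of the local mean square. -/

set_option autoImplicit false
set_option linter.unusedSectionVars false

namespace Pool.Agent.L5helper10.RM

open Finset ArithmeticFunction

open scoped ArithmeticFunction.Moebius ArithmeticFunction.zeta

variable {Q : ℕ} [NeZero Q]

lemma card_back (H e : ℕ) :
    #((Icc 1 H).filter (fun y : ℕ => (e : ℤ) ∣ ((H + 1 : ℕ) : ℤ) - y)) = H / e := by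
  rw [← Nat.Ioc_filter_dvd_card_eq_div]
  apply card_bij (fun y _ => H + 1 - y)
  · intro y hy
    rw [mem_filter, mem_Icc] at hy
    rw [mem_filter, mem_Ioc]
    refine ⟨⟨by omega, by omega⟩, ?_⟩
    have h1 : ((H + 1 - y : ℕ) : ℤ) = ((H + 1 : ℕ) : ℤ) - y := by
      rw [Nat.cast_sub (by omega)]
    rw [← Int.natCast_dvd_natCast, h1]
    exact hy.2
  · intro a ha b hb h
    rw [mem_filter, mem_Icc] at ha hb
    omega
  · intro b hb
    rw [mem_filter, mem_Ioc] at hb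
    refine ⟨H + 1 - b, ?_, by omega⟩
    rw [mem_filter, mem_Icc]
    refine ⟨⟨by omega, by omega⟩, ?_⟩
    rw [Nat.cast_sub (by omega : b ≤ H + 1)]
    have : ((H + 1 : ℕ) : ℤ) - (((H + 1 : ℕ) : ℤ) - (b : ℤ)) = b := by ring
    rw [this]
    exact Int.natCast_dvd_natCast.mpr hb.2

lemma cnt_succ (H e : ℕ) : cnt (H + 1) e = cnt H e + (2 * (H / e) + 1) := by
  unfold cnt
  have hI : ∀ P : ℕ → Prop, ∀ [DecidablePred P], #((Icc 1 (H + 1)).filter P) = #((Icc 1 H).filter P) + if P (H + 1) then 1 else 0 := by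
    intro P _
    have h1 : Icc 1 (H + 1) = insert (H + 1) (Icc 1 H) := by
      ext y; rw [mem_insert, mem_Icc, mem_Icc]; omega
    rw [h1, filter_insert]
    split_ifs with h
    · rw [card_insert_of_notMem]
      rw [mem_filter, mem_Icc]; omega
    · rfl
  rw [sum_Icc_succ_top (by omega)]
  have h2 : ∀ x ∈ Icc 1 H, #((Icc 1 (H + 1)).filter (fun y : ℕ => (e : ℤ) ∣ (x : ℤ) - y)) =
      #((Icc 1 H).filter (fun y : ℕ => (e : ℤ) ∣ (x : ℤ) - y)) + if (e : ℤ) ∣ ((H + 1 : ℕ) : ℤ) - x then 1 else 0 := by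
    intro x _
    rw [hI]
    congr 1
    have : (e : ℤ) ∣ (x : ℤ) - ((H + 1 : ℕ) : ℤ) ↔ (e : ℤ) ∣ ((H + 1 : ℕ) : ℤ) - x := dvd_sub_comm
    simp only [this]
  rw [sum_congr rfl h2, sum_add_distrib, hI, card_back H e, if_pos (by rw [sub_self]; exact dvd_zero _),
    ← card_filter, card_back H e]
  omega

lemma cnt_eq (H e : ℕ) (he : 0 < e) : (e : ℝ) * cnt H e = (H : ℝ) ^ 2 + (e : ℝ) ^ 2 * Bf ((H : ℝ) / e) := by
  have her : (0 : ℝ) < e := by exact_mod_cast he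
  have hB : ∀ H : ℕ, (e : ℝ) ^ 2 * Bf ((H : ℝ) / e) = ((H % e : ℕ) : ℝ) * (e - (H % e : ℕ)) := by
    intro H
    unfold Bf
    rw [Int.fract_div_natCast_eq_div_natCast_mod]
    field_simp
  rw [hB]
  induction H with
  | zero => simp [cnt]
  | succ H ih =>
    rw [cnt_succ H e]
    have h1 : (H : ℝ) = e * (H / e : ℕ) + (H % e : ℕ) := by exact_mod_cast (Nat.div_add_mod H e).symm
    have h3 : (((H + 1) % e : ℕ) : ℝ) * (e - ((H + 1) % e : ℕ)) = ((H % e : ℕ) + 1 : ℝ) * (e - ((H % e : ℕ) + 1 : ℝ)) := by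
      by_cases h : H % e + 1 = e
      · have h4 : (H + 1) % e = 0 := by
          rw [Nat.add_mod]
          rcases Nat.lt_or_ge 1 e with h5 | h5
          · rw [Nat.mod_eq_of_lt h5, h, Nat.mod_self]
          · have : e = 1 := by omega
            subst this; simp [Nat.mod_one]
        have h5 : ((H % e : ℕ) : ℝ) + 1 = e := by exact_mod_cast h
        rw [h4, h5]
        push_cast; ring
      · have h4 : (H + 1) % e = H % e + 1 := by
          have h6 : H % e < e := Nat.mod_lt _ he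
          rw [Nat.add_mod, Nat.mod_eq_of_lt (by omega : 1 < e), Nat.mod_eq_of_lt (by omega)]
        rw [h4]; push_cast; rfl
    rw [h3]
    push_cast
    obtain ⟨q, hq⟩ : ∃ q : ℝ, q = (H / e : ℕ) := ⟨_, rfl⟩
    obtain ⟨r, hr⟩ : ∃ r : ℝ, r = (H % e : ℕ) := ⟨_, rfl⟩
    rw [← hq, ← hr] at h1
    rw [← hr] at ih ⊢
    rw [← hq]
    rw [h1] at ih ⊢
    linear_combination ih

noncomputable def kpa (m : ℕ) : ℝ := ∑ f ∈ m.divisors, (μ f : ℝ) / (f.totient : ℝ) ^ 2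

theorem EV_formula (hQ : Squarefree Q) (H : ℕ) :
    EV Q H = ∑ e ∈ Q.divisors, ((e : ℝ) / e.totient) ^ 2 * kpa (Q / e) * Bf ((H : ℝ) / e) := by
  have hQ0 : Q ≠ 0 := NeZero.ne Q
  -- the terms
  have h1 : ∀ d ∈ Q.divisors.erase 1, AA Q H d / (d.totient : ℝ) ^ 2 =
      (∑ e ∈ d.divisors, (μ (d / e) : ℝ) * ((e : ℝ) ^ 2 * Bf ((H : ℝ) / e))) / (d.totient : ℝ) ^ 2 := by
    intro d hd
    rw [mem_erase] at hd
    have hd0 := Nat.pos_of_mem_divisors hd.2
    rw [AA_moebius (Nat.dvd_of_mem_divisors hd.2)]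
    congr 1
    have h2 : ∀ e ∈ d.divisors, (μ (d / e) : ℝ) * (e * cnt H e) =
        (H : ℝ) ^ 2 * (μ (d / e) : ℝ) + (μ (d / e) : ℝ) * ((e : ℝ) ^ 2 * Bf ((H : ℝ) / e)) := by
      intro e he
      rw [cnt_eq H e (Nat.pos_of_mem_divisors he)]
      ring
    rw [sum_congr rfl h2, sum_add_distrib, ← mul_sum]
    have h3 : ∑ e ∈ d.divisors, (μ (d / e) : ℝ) = 0 := by
      rw [Nat.sum_div_divisors d (fun e => (μ e : ℝ))]
      have h4 := DFunLike.congr_fun moebius_mul_coe_zeta d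
      rw [coe_mul_zeta_apply, one_apply_ne hd.1] at h4
      exact_mod_cast h4
    rw [h3, mul_zero, zero_add]
  rw [EV_eq hQ, sum_congr rfl h1]
  have h2 : ∑ d ∈ Q.divisors.erase 1, (∑ e ∈ d.divisors, (μ (d / e) : ℝ) * ((e : ℝ) ^ 2 * Bf ((H : ℝ) / e))) / (d.totient : ℝ) ^ 2 =
      ∑ d ∈ Q.divisors, (∑ e ∈ d.divisors, (μ (d / e) : ℝ) * ((e : ℝ) ^ 2 * Bf ((H : ℝ) / e))) / (d.totient : ℝ) ^ 2 := by
    apply sum_subset (erase_subset _ _)
    intro d hd hd'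
    have : d = 1 := by
      by_contra h
      exact hd' (mem_erase.mpr ⟨h, hd⟩)
    subst this
    have hB : Bf ((H : ℝ) / (1 : ℕ)) = 0 := by
      unfold Bf
      have : (H : ℝ) / (1 : ℕ) = ((H : ℤ) : ℝ) := by push_cast; ring
      rw [this, Int.fract_intCast, zero_mul]
    rw [Nat.divisors_one, sum_singleton, hB]
    simp
  rw [h2]
  -- change of the order
  have h3 : ∀ d ∈ Q.divisors, (∑ e ∈ d.divisors, (μ (d / e) : ℝ) * ((e : ℝ) ^ 2 * Bf ((H : ℝ) / e))) / (d.totient : ℝ) ^ 2 =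
      ∑ e ∈ Q.divisors, if e ∣ d then (μ (d / e) : ℝ) * ((e : ℝ) ^ 2 * Bf ((H : ℝ) / e)) / (d.totient : ℝ) ^ 2 else 0 := by
    intro d hd
    rw [sum_div, ← sum_filter]
    refine sum_congr ?_ fun _ _ => rfl
    ext e
    rw [mem_filter, Nat.mem_divisors, Nat.mem_divisors]
    constructor
    · rintro ⟨h, -⟩
      exact ⟨⟨h.trans (Nat.dvd_of_mem_divisors hd), hQ0⟩, h⟩
    · rintro ⟨-, h⟩
      exact ⟨h, (Nat.pos_of_mem_divisors hd).ne'⟩
  rw [sum_congr rfl h3, sum_comm]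
  refine sum_congr rfl fun e he => ?_
  rw [← sum_filter]
  have he0 := Nat.pos_of_mem_divisors he
  obtain ⟨g, hg⟩ := Nat.dvd_of_mem_divisors he
  have hg0 : 0 < g := Nat.pos_of_ne_zero (by rintro rfl; rw [mul_zero] at hg; exact hQ0 hg)
  have hQe : Q / e = g := by rw [hg]; exact Nat.mul_div_cancel_left g he0
  rw [hQe]
  have h4 : ∑ d ∈ Q.divisors.filter (fun d => e ∣ d), (μ (d / e) : ℝ) * ((e : ℝ) ^ 2 * Bf ((H : ℝ) / e)) / (d.totient : ℝ) ^ 2 =
      ∑ f ∈ g.divisors, (μ f : ℝ) * ((e : ℝ) ^ 2 * Bf ((H : ℝ) / e)) / ((e * f).totient : ℝ) ^ 2 := by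
    symm
    apply sum_bij (fun f _ => e * f)
    · intro f hf
      rw [mem_filter, Nat.mem_divisors]
      exact ⟨⟨by rw [hg]; exact Nat.mul_dvd_mul_left e (Nat.dvd_of_mem_divisors hf), hQ0⟩, dvd_mul_right _ _⟩
    · intro a _ b _ h
      exact Nat.eq_of_mul_eq_mul_left he0 h
    · intro d hd
      rw [mem_filter, Nat.mem_divisors] at hd
      obtain ⟨⟨h5, -⟩, f, rfl⟩ := hd
      refine ⟨f, ?_, rfl⟩
      rw [Nat.mem_divisors]
      rw [hg] at h5
      exact ⟨Nat.dvd_of_mul_dvd_mul_left he0 h5, hg0.ne'⟩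
    · intro f _
      rw [Nat.mul_div_cancel_left f he0]
  rw [h4]
  unfold kpa
  rw [mul_sum, sum_mul]
  refine sum_congr rfl fun f hf => ?_
  have hef : e * f ∣ Q := by rw [hg]; exact Nat.mul_dvd_mul_left e (Nat.dvd_of_mem_divisors hf)
  have hcop : Nat.Coprime e f := Nat.coprime_of_squarefree_mul (hQ.squarefree_of_dvd hef)
  rw [Nat.totient_mul hcop]
  push_cast
  have hφe : (e.totient : ℝ) ≠ 0 := by exact_mod_cast (Nat.totient_pos.mpr he0).ne'
  have hφf : (f.totient : ℝ) ≠ 0 := by exact_mod_cast (Nat.totient_pos.mpr (Nat.pos_of_mem_divisors hf)).ne'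
  field_simp

end Pool.Agent.L5helper10.RM
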