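import Pool.Agent.L5helper10.RM.K4
import Pool.Agent.L5helper10.RM.K5
import Pool.Agent.L5helper10.RM.G12

/-! The exact formula for primorials, and the coefficients. -/

set_option autoImplicit false
set_option linter.unusedSectionVars false

namespace Pool.Agent.L5helper10.RM

open Finset ArithmeticFunction

open scoped ArithmeticFunction.Moebius ArithmeticFunction.zeta

/-- the odd primes up to `z` -/
def OP (z : ℕ) : Finset ℕ := (Icc 1 z).filter (fun p => p.Prime ∧ p ≠ 2)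

lemma mem_OP {z p : ℕ} : p ∈ OP z ↔ p ≤ z ∧ p.Prime ∧ p ≠ 2 := by
  unfold OP
  rw [mem_filter, mem_Icc]
  constructor
  · rintro ⟨⟨-, h1⟩, h2⟩; exact ⟨h1, h2⟩
  · rintro ⟨h1, h2⟩; exact ⟨⟨h2.1.one_le, h1⟩, h2⟩

lemma OP_prime (z : ℕ) : ∀ p ∈ OP z, p.Prime ∧ p ≠ 2 := fun _ hp => (mem_OP.mp hp).2

/-- the product of the odd primes up to `z` -/
def QO (z : ℕ) : ℕ := ∏ p ∈ OP z, p

lemma QO_ne (z : ℕ) : QO z ≠ 0 := by
  unfold QO
  rw [prod_ne_zero_iff]
  intro p hp
  exact (OP_prime z p hp).1.ne_zero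

lemma primorial_eq (z : ℕ) (hz : 2 ≤ z) : primorial z = 2 * QO z := by
  unfold primorial QO
  have h1 : (range (z + 1)).filter Nat.Prime = insert 2 (OP z) := by
    ext p
    rw [mem_filter, mem_range, mem_insert, mem_OP]
    constructor
    · rintro ⟨a, b⟩
      by_cases h : p = 2
      · exact Or.inl h
      · exact Or.inr ⟨by omega, b, h⟩
    · rintro (rfl | ⟨a, b, c⟩)
      · exact ⟨by omega, Nat.prime_two⟩
      · exact ⟨by omega, b⟩
  rw [h1, prod_insert]
  intro h
  exact (mem_OP.mp h).2.2 rfl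

lemma QO_sqf (z : ℕ) (hz : 2 ≤ z) : Squarefree (QO z) := by
  have h := squarefree_primorial z
  rw [primorial_eq z hz] at h
  exact h.squarefree_of_dvd (dvd_mul_left _ _)

lemma QO_pf (z : ℕ) : (QO z).primeFactors = OP z := by
  unfold QO
  exact Nat.primeFactors_prod fun p hp => (OP_prime z p hp).1

lemma dvd_QO {z e : ℕ} (he : Squarefree e) (h : ∀ p, p.Prime → p ∣ e → p ∈ OP z) : e ∣ QO z := by
  rw [← Nat.prod_primeFactors_of_squarefree he]
  unfold QO
  apply prod_dvd_prod_of_subset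
  intro p hp
  exact h p (Nat.prime_of_mem_primeFactors hp) (Nat.dvd_of_mem_primeFactors hp)

lemma two_not_dvd {z e : ℕ} (he : e ∣ QO z) : ¬ 2 ∣ e := by
  intro h
  have h1 : 2 ∈ (QO z).primeFactors := Nat.mem_primeFactors.mpr ⟨Nat.prime_two, h.trans he, QO_ne z⟩
  rw [QO_pf] at h1
  exact (mem_OP.mp h1).2.2 rfl

noncomputable def f2 : ArithmeticFunction ℝ := ⟨fun n => 1 / (n.totient : ℝ) ^ 2, by simp⟩

lemma f2_mul : IsMultiplicative f2 := by
  refine ⟨by simp [f2], ?_⟩
  intro m n hmn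
  simp only [f2, coe_mk]
  rw [Nat.totient_mul hmn]
  push_cast
  rw [mul_pow, one_div_mul_one_div]

lemma kpa_eq {m : ℕ} (hm : Squarefree m) : kpa m = ∏ p ∈ m.primeFactors, (1 - 1 / ((p : ℝ) - 1) ^ 2) := by
  have h := IsMultiplicative.prodPrimeFactors_one_sub_of_squarefree f2 f2_mul hm
  unfold kpa
  have h1 : ∑ f ∈ m.divisors, (μ f : ℝ) / (f.totient : ℝ) ^ 2 = ∑ d ∈ m.divisors, (μ d : ℝ) * f2 d := by
    refine sum_congr rfl fun d _ => ?_
    simp only [f2, coe_mk]
    ring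
  rw [h1, ← h]
  refine prod_congr rfl fun p hp => ?_
  have hp' := Nat.prime_of_mem_primeFactors hp
  simp only [f2, coe_mk]
  rw [Nat.totient_prime hp', Nat.cast_sub hp'.one_le, Nat.cast_one]

lemma ratio_prod {e : ℕ} (he : Squarefree e) : (e : ℝ) / e.totient = ∏ p ∈ e.primeFactors, ((p : ℝ) / (p - 1)) := by
  have h3 : (e.totient : ℝ) = e * ∏ p ∈ e.primeFactors, (1 - (p : ℝ)⁻¹) := by
    have := congrArg (fun q : ℚ => (q : ℝ)) (Nat.totient_eq_mul_prod_factors e)
    push_cast at this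
    exact this
  have he0 : (e : ℝ) ≠ 0 := by exact_mod_cast he.ne_zero
  rw [h3, div_mul_eq_div_div, div_self he0, one_div, ← prod_inv_distrib]
  refine prod_congr rfl fun p hp => ?_
  have hp' := (Nat.prime_of_mem_primeFactors hp).two_le
  have h2 : (2 : ℝ) ≤ p := by exact_mod_cast hp'
  have h5 : (p : ℝ) - 1 ≠ 0 := by linarith
  have h6 : (p : ℝ) ≠ 0 := by linarith
  rw [inv_eq_iff_eq_inv, inv_div]
  field_simp

lemma GP_eq {z e : ℕ} (he : e ∣ QO z) (hsq : Squarefree (QO z)) :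
    GP (insert 2 (OP z)) e = ∏ p ∈ e.primeFactors, ((p : ℝ) / (p - 2)) := by
  have hes := hsq.squarefree_of_dvd he
  have h2 : 2 ∉ OP z := fun h => (mem_OP.mp h).2.2 rfl
  have hsub : e.primeFactors ⊆ OP z := by
    rw [← QO_pf z]; exact Nat.primeFactors_mono he (QO_ne z)
  unfold GP
  rw [prod_insert h2]
  have h3 : lcf 2 (e.factorization 2) = 1 := by
    rw [Nat.factorization_eq_zero_of_not_dvd (two_not_dvd he)]
    simp [lcf]
  rw [h3, one_mul]
  rw [← prod_subset hsub]
  · refine prod_congr rfl fun p hp => ?_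
    have hp' := Nat.prime_of_mem_primeFactors hp
    have hpd := Nat.dvd_of_mem_primeFactors hp
    have h4 : e.factorization p = 1 := by
      have h5 := (Nat.squarefree_iff_factorization_le_one hes.ne_zero).mp hes p
      have h6 := hp'.factorization_pos_of_dvd hes.ne_zero hpd
      omega
    have h7 := (mem_OP.mp (hsub hp)).2.2
    rw [h4]
    unfold lcf
    rw [if_neg (by norm_num), if_neg h7, if_pos rfl]
  · intro p hp hpe
    have hp' := (mem_OP.mp hp).2.1
    have h4 : ¬ p ∣ e := fun h => hpe (Nat.mem_primeFactors.mpr ⟨hp', h, hes.ne_zero⟩)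
    rw [Nat.factorization_eq_zero_of_not_dvd h4]
    simp [lcf]

/-- the coefficients -/
noncomputable def aa (z e : ℕ) : ℝ := 2 / AP (OP z) * (GP (insert 2 (OP z)) e / e)

lemma coef_eq {z e : ℕ} (he : e ∣ QO z) (hz : 2 ≤ z) :
    ((e : ℝ) / e.totient) ^ 2 * kpa (QO z / e) * AP (OP z) = GP (insert 2 (OP z)) e := by
  classical
  have hsq := QO_sqf z hz
  have hes := hsq.squarefree_of_dvd he
  have hsub : e.primeFactors ⊆ OP z := by
    rw [← QO_pf z]; exact Nat.primeFactors_mono he (QO_ne z)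
  obtain ⟨g, hg⟩ := he
  have he0 : 0 < e := Nat.pos_of_ne_zero hes.ne_zero
  have hgs : Squarefree g := hsq.squarefree_of_dvd (hg ▸ dvd_mul_left g e)
  have hcop : Nat.Coprime e g := Nat.coprime_of_squarefree_mul (hg ▸ hsq)
  have hQe : QO z / e = g := by rw [hg]; exact Nat.mul_div_cancel_left g he0
  have hpf : OP z = e.primeFactors ∪ g.primeFactors := by
    rw [← QO_pf z, hg, hcop.primeFactors_mul]
  have hdis : Disjoint e.primeFactors g.primeFactors := hcop.disjoint_primeFactors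
  rw [hQe, kpa_eq hgs, ratio_prod hes, GP_eq (hg ▸ dvd_mul_right e g) hsq, ← prod_pow]
  unfold AP
  rw [hpf, prod_union hdis]
  have hp3 : ∀ p ∈ OP z, (3 : ℝ) ≤ p := by
    intro p hp
    have h1 := mem_OP.mp hp
    have := h1.2.1.two_le
    exact_mod_cast (by omega : 3 ≤ p)
  have h1 : (∏ p ∈ e.primeFactors, ((p : ℝ) / (p - 1)) ^ 2) * ∏ p ∈ e.primeFactors, (1 + 1 / ((p : ℝ) * (p - 2))) =
      ∏ p ∈ e.primeFactors, ((p : ℝ) / (p - 2)) := by
    rw [← prod_mul_distrib]
    refine prod_congr rfl fun p hp => ?_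
    have h2 := hp3 p (by rw [hpf]; exact mem_union_left _ hp)
    have h5 : (p : ℝ) - 1 ≠ 0 := by linarith
    have h6 : (p : ℝ) ≠ 0 := by linarith
    have h7 : (p : ℝ) - 2 ≠ 0 := by linarith
    field_simp
    ring
  have h2 : (∏ p ∈ g.primeFactors, (1 - 1 / ((p : ℝ) - 1) ^ 2)) * ∏ p ∈ g.primeFactors, (1 + 1 / ((p : ℝ) * (p - 2))) = 1 := by
    rw [← prod_mul_distrib]
    apply prod_eq_one
    intro p hp
    have h2 := hp3 p (by rw [hpf]; exact mem_union_right _ hp)
    have h5 : (p : ℝ) - 1 ≠ 0 := by linarith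
    have h6 : (p : ℝ) ≠ 0 := by linarith
    have h7 : (p : ℝ) - 2 ≠ 0 := by linarith
    field_simp
    ring
  calc _ = ((∏ p ∈ e.primeFactors, ((p : ℝ) / (p - 1)) ^ 2) * ∏ p ∈ e.primeFactors, (1 + 1 / ((p : ℝ) * (p - 2)))) *
        ((∏ p ∈ g.primeFactors, (1 - 1 / ((p : ℝ) - 1) ^ 2)) * ∏ p ∈ g.primeFactors, (1 + 1 / ((p : ℝ) * (p - 2)))) := by ring
    _ = _ := by rw [h1, h2, mul_one]

theorem EV_primorial (z H : ℕ) (hz : 2 ≤ z) :
    EV (primorial z) H = 2 * ∑ e ∈ (QO z).divisors, (e : ℝ) * aa z e * Bf ((H : ℝ) / 2 / e) := by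
  classical
  have hQ := squarefree_primorial z
  have hA := one_le_AP (OP z) (OP_prime z)
  rw [EV_formula hQ]
  have hmap : (QO z).divisors.image (fun e => 2 * e) ⊆ (primorial z).divisors := by
    intro d hd
    rw [mem_image] at hd
    obtain ⟨e, he, rfl⟩ := hd
    rw [Nat.mem_divisors, primorial_eq z hz]
    exact ⟨Nat.mul_dvd_mul_left 2 (Nat.dvd_of_mem_divisors he), by have := QO_ne z; omega⟩
  rw [← sum_subset hmap]
  · rw [sum_image (by intro a _ b _ h; simpa using h), mul_sum]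
    refine sum_congr rfl fun e he => ?_
    have hed := Nat.dvd_of_mem_divisors he
    have he0 := Nat.pos_of_mem_divisors he
    have her : (e : ℝ) ≠ 0 := by exact_mod_cast he0.ne'
    have hcop : Nat.Coprime 2 e := by
      rw [Nat.prime_two.coprime_iff_not_dvd]; exact two_not_dvd hed
    have h1 : primorial z / (2 * e) = QO z / e := by
      rw [primorial_eq z hz, Nat.mul_div_mul_left _ _ (by norm_num)]
    rw [h1, Nat.totient_mul hcop, Nat.totient_two, one_mul]
    have h2 := coef_eq hed hz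
    have h3 : (H : ℝ) / ((2 * e : ℕ) : ℝ) = (H : ℝ) / 2 / e := by push_cast; rw [div_div]
    rw [h3]
    unfold aa
    rw [← h2]
    push_cast
    field_simp
  · intro d hd hd'
    have h2 : ¬ 2 ∣ d := by
      rintro ⟨e, rfl⟩
      apply hd'
      rw [mem_image]
      refine ⟨e, ?_, rfl⟩
      rw [Nat.mem_divisors] at hd ⊢
      rw [primorial_eq z hz] at hd
      exact ⟨Nat.dvd_of_mul_dvd_mul_left (by norm_num) hd.1, QO_ne z⟩
    have hd0 := Nat.pos_of_mem_divisors hd
    obtain ⟨g, hg⟩ := Nat.dvd_of_mem_divisors hd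
    have hg2 : 2 ∣ g := by
      have h3 : 2 ∣ d * g := by rw [← hg, primorial_eq z hz]; exact dvd_mul_right _ _
      exact (Nat.prime_two.dvd_mul.mp h3).resolve_left h2
    have hgs : Squarefree g := hQ.squarefree_of_dvd (hg ▸ dvd_mul_left g d)
    have hQd : primorial z / d = g := by rw [hg]; exact Nat.mul_div_cancel_left g hd0
    have h4 : kpa (primorial z / d) = 0 := by
      rw [hQd, kpa_eq hgs]
      apply prod_eq_zero (Nat.mem_primeFactors.mpr ⟨Nat.prime_two, hg2, hgs.ne_zero⟩)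
      norm_num
    rw [h4, mul_zero, zero_mul]

end Pool.Agent.L5helper10.RM
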