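import Pool.Agent.L5helper10.RM.K6

/-! The sums of the coefficients. -/

set_option autoImplicit false
set_option linter.unusedSectionVars false

namespace Pool.Agent.L5helper10.RM

open Finset ArithmeticFunction

open scoped ArithmeticFunction.Moebius ArithmeticFunction.zeta

lemma GP_nonneg (z n : ℕ) : 0 ≤ GP (insert 2 (OP z)) n := by
  unfold GP
  apply prod_nonneg
  intro p hp
  unfold lcf
  split_ifs with h1 h2 h3
  · norm_num
  · exact le_rfl
  · rw [mem_insert] at hp
    have h4 := (mem_OP.mp (hp.resolve_left h2)).2.1.two_le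
    have h5 : (2 : ℝ) ≤ p := by exact_mod_cast h4
    apply div_nonneg <;> linarith
  · exact le_rfl

lemma aa_nonneg (z e : ℕ) : 0 ≤ aa z e := by
  unfold aa
  have := one_le_AP (OP z) (OP_prime z)
  have := GP_nonneg z e
  positivity

lemma sum_aa (z : ℕ) (hz : 2 ≤ z) : ∑ e ∈ (QO z).divisors, aa z e = VP z := by
  classical
  have hsq := QO_sqf z hz
  have hp3 : ∀ p ∈ OP z, (3 : ℝ) ≤ p := by
    intro p hp
    have h1 := mem_OP.mp hp
    have := h1.2.1.two_le
    exact_mod_cast (by omega : 3 ≤ p)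
  have h1 : ∀ e ∈ (QO z).divisors, aa z e = 2 / AP (OP z) *
      (prodPrimeFactors (fun p => 1 / ((p : ℝ) - 2)) : ArithmeticFunction ℝ) e := by
    intro e he
    have hed := Nat.dvd_of_mem_divisors he
    have hes := hsq.squarefree_of_dvd hed
    unfold aa
    congr 1
    rw [GP_eq hed hsq, prodPrimeFactors_apply hes.ne_zero]
    have h2 : (e : ℝ) = ∏ p ∈ e.primeFactors, (p : ℝ) := by
      conv_lhs => rw [← Nat.prod_primeFactors_of_squarefree hes]
      push_cast; rfl
    conv_lhs => rw [h2]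
    rw [← prod_div_distrib]
    refine prod_congr rfl fun p hp => ?_
    have h3 := hp3 p (by rw [← QO_pf z]; exact Nat.primeFactors_mono hed (QO_ne z) hp)
    have h5 : (p : ℝ) - 2 ≠ 0 := by linarith
    have h6 : (p : ℝ) ≠ 0 := by linarith
    field_simp
  rw [sum_congr rfl h1, ← mul_sum]
  have h2 := IsMultiplicative.prodPrimeFactors_one_add_of_squarefree
    (IsMultiplicative.prodPrimeFactors (fun p => 1 / ((p : ℝ) - 2))) hsq
  rw [← h2, QO_pf]
  have h3 : ∀ p ∈ OP z, (1 + (prodPrimeFactors (fun p => 1 / ((p : ℝ) - 2)) : ArithmeticFunction ℝ) p) =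
      (1 - (p : ℝ)⁻¹)⁻¹ * (1 + 1 / ((p : ℝ) * (p - 2))) := by
    intro p hp
    have hp' := (mem_OP.mp hp).2.1
    have h4 := hp3 p hp
    rw [prodPrimeFactors_apply hp'.ne_zero, hp'.primeFactors, prod_singleton]
    have h5 : (p : ℝ) - 2 ≠ 0 := by linarith
    have h6 : (p : ℝ) ≠ 0 := by linarith
    have h7 : (p : ℝ) - 1 ≠ 0 := by linarith
    have h8 : (1 - (p : ℝ)⁻¹)⁻¹ = (p : ℝ) / (p - 1) := by
      rw [inv_eq_iff_eq_inv, inv_div]
      field_simp
    rw [h8]
    field_simp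
    ring
  rw [prod_congr rfl h3, prod_mul_distrib]
  have h4 : VP z = 2 * ∏ p ∈ OP z, (1 - (p : ℝ)⁻¹)⁻¹ := by
    unfold VP
    have h5 : (Icc 1 z).filter Nat.Prime = insert 2 (OP z) := by
      ext p
      rw [mem_filter, mem_Icc, mem_insert, mem_OP]
      constructor
      · rintro ⟨⟨a, b⟩, c⟩
        by_cases h : p = 2
        · exact Or.inl h
        · exact Or.inr ⟨b, c, h⟩
      · rintro (rfl | ⟨a, b, c⟩)
        · exact ⟨⟨by norm_num, hz⟩, Nat.prime_two⟩
        · exact ⟨⟨b.one_le, a⟩, b⟩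
    rw [h5, prod_insert]
    · norm_num
    · intro h
      exact (mem_OP.mp h).2.2 rfl
  rw [h4]
  have hA := one_le_AP (OP z) (OP_prime z)
  have h5 : ∏ p ∈ OP z, (1 + 1 / ((p : ℝ) * (p - 2))) = AP (OP z) := rfl
  rw [h5]
  field_simp

lemma GP_zero {z n : ℕ} (hn1 : 1 ≤ n) (hn : n ≤ z) (h : ¬ n ∣ QO z) : GP (insert 2 (OP z)) n = 0 := by
  classical
  by_contra hne
  apply h
  have h1 : ∀ p ∈ insert 2 (OP z), lcf p (n.factorization p) ≠ 0 := by
    unfold GP at hne
    exact prod_ne_zero_iff.mp hne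
  have h2 : ¬ 2 ∣ n := by
    intro h2
    have h3 := h1 2 (mem_insert_self _ _)
    have h4 := Nat.prime_two.factorization_pos_of_dvd (by omega : n ≠ 0) h2
    unfold lcf at h3
    rw [if_neg (by omega), if_pos rfl] at h3
    exact h3 rfl
  have h3 : ∀ p, p.Prime → p ∣ n → p ∈ OP z := by
    intro p hp hpn
    rw [mem_OP]
    refine ⟨(Nat.le_of_dvd (by omega) hpn).trans hn, hp, ?_⟩
    rintro rfl
    exact h2 hpn
  apply dvd_QO _ h3
  rw [Nat.squarefree_iff_factorization_le_one (by omega)]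
  intro p
  by_cases hp : p.Prime
  · by_cases hpn : p ∣ n
    · have h4 := h1 p (mem_insert_of_mem (h3 p hp hpn))
      by_contra h5
      push Not at h5
      have h6 := (mem_OP.mp (h3 p hp hpn)).2.2
      unfold lcf at h4
      rw [if_neg (by omega), if_neg h6, if_neg (by omega)] at h4
      exact h4 rfl
    · rw [Nat.factorization_eq_zero_of_not_dvd hpn]; norm_num
  · rw [Nat.factorization_eq_zero_of_not_prime n hp]; norm_num

/-- sums over the divisors up to `M ≤ z` -/
lemma sum_small (z M : ℕ) (hM : M ≤ z) (F : ℕ → ℝ) :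
    ∑ e ∈ (QO z).divisors.filter (fun e => e ≤ M), F e * aa z e = ∑ n ∈ Icc 1 M, F n * aa z n := by
  classical
  apply sum_subset
  · intro e he
    rw [mem_filter] at he
    rw [mem_Icc]
    exact ⟨Nat.pos_of_mem_divisors he.1, he.2⟩
  · intro n hn hn'
    rw [mem_Icc] at hn
    have h1 : ¬ n ∣ QO z := by
      intro h
      apply hn'
      rw [mem_filter, Nat.mem_divisors]
      exact ⟨⟨h, QO_ne z⟩, hn.2⟩
    unfold aa
    rw [GP_zero hn.1 (hn.2.trans hM) h1]
    simp

lemma sum_aa_asymp (z M : ℕ) (hM1 : 1 ≤ M) :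
    |∑ n ∈ Icc 1 M, aa z n - (Real.log M + (Real.eulerMascheroniConstant + Real.log 2))| ≤
      20 * Dinf * (M : ℝ) ^ (-(1 / 4) : ℝ) := by
  have hM0 : (0 : ℝ) < M := by exact_mod_cast hM1
  have h := WP_two (OP z) (OP_prime z) M hM0
  have hA := one_le_AP (OP z) (OP_prime z)
  have h1 : ∑ n ∈ Icc 1 M, aa z n = 2 / AP (OP z) * WP (insert 2 (OP z)) M := by
    unfold WP aa
    rw [Nat.floor_natCast, mul_sum]
  rw [h1]
  have h2 : 2 / AP (OP z) * WP (insert 2 (OP z)) M - (Real.log M + (Real.eulerMascheroniConstant + Real.log 2)) =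
      2 / AP (OP z) * (WP (insert 2 (OP z)) M - AP (OP z) / 2 * (Real.log M + (Real.eulerMascheroniConstant + Real.log 2))) := by
    field_simp
  rw [h2, abs_mul, abs_of_pos (by positivity)]
  calc 2 / AP (OP z) * |WP (insert 2 (OP z)) M - AP (OP z) / 2 * (Real.log M + (Real.eulerMascheroniConstant + Real.log 2))|
      ≤ 2 / AP (OP z) * (AP (OP z) / 2 * (20 * Dinf * (M : ℝ) ^ (-(1 / 4) : ℝ))) := by gcongr
    _ = _ := by field_simp

end Pool.Agent.L5helper10.RM
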