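import Pool.Agent.L5helper10.RM.K7

/-! The mean of the local mean square up to `o(H)`. -/

set_option autoImplicit false
set_option linter.unusedSectionVars false

namespace Pool.Agent.L5helper10.RM

open Finset Filter

open scoped Topology

/-- the constant of the partial sums -/
noncomputable def CS : ℝ := 20 * Dinf + 5

lemma CS_pos : 0 < CS := by
  unfold CS
  have := Dinf_pos
  positivity

/-- the partial sums of `aa z k - 1/k` -/
noncomputable def Spart (z n : ℕ) : ℝ := ∑ k ∈ Icc 1 n, (aa z k - 1 / (k : ℝ))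

lemma Spart_bound (z m : ℕ) (hm : 1 ≤ m) : |Spart z m - Real.log 2| ≤ CS * (m : ℝ) ^ (-(1 / 4) : ℝ) := by
  have hm0 : (0 : ℝ) < m := by exact_mod_cast hm
  have h1 := sum_aa_asymp z m hm
  have h2 := harm_asymp (m : ℝ) hm0
  rw [Nat.floor_natCast] at h2
  unfold Spart CS
  rw [sum_sub_distrib]
  rw [abs_le] at h1 h2 ⊢
  constructor <;> nlinarith [h1.1, h1.2, h2.1, h2.2]

lemma abel_sum (u b : ℕ → ℝ) (c : ℝ) (M Z : ℕ) (h : M ≤ Z) :
    ∑ n ∈ Ioc M Z, u n * b n = (∑ k ∈ Icc 1 Z, u k - c) * b (Z + 1) - (∑ k ∈ Icc 1 M, u k - c) * b (M + 1) -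
      ∑ n ∈ Ioc M Z, (∑ k ∈ Icc 1 n, u k - c) * (b (n + 1) - b n) := by
  induction Z, h using Nat.le_induction with
  | base => simp
  | succ Z hZ ih =>
    rw [sum_Ioc_succ_top hZ, ih, sum_Ioc_succ_top hZ, sum_Icc_succ_top (by omega)]
    ring

/-- the weights of the sum -/
noncomputable def bw (N : ℝ) (n : ℕ) : ℝ := n * Bf (N / n)

lemma bw_nonneg (N : ℝ) (n : ℕ) : 0 ≤ bw N n := mul_nonneg (Nat.cast_nonneg _) (Bf_nonneg _)

lemma bw_le (N : ℝ) (hN : 0 ≤ N) (n : ℕ) (hn : 1 ≤ n) : bw N n ≤ N := by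
  have hn0 : (0 : ℝ) < n := by exact_mod_cast hn
  unfold bw
  calc (n : ℝ) * Bf (N / n) ≤ n * (N / n) := by
        apply mul_le_mul_of_nonneg_left _ hn0.le
        exact Bf_le_self (by positivity)
    _ = N := by field_simp

lemma bw_diff (N : ℝ) (hN : 0 ≤ N) (n : ℕ) (hn : 1 ≤ n) : |bw N (n + 1) - bw N n| ≤ 3 * N / n := by
  have hn0 : (0 : ℝ) < n := by exact_mod_cast hn
  unfold bw
  have e1 : ((n + 1 : ℕ) : ℝ) * Bf (N / ((n + 1 : ℕ) : ℝ)) - n * Bf (N / n) =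
      Bf (N / ((n + 1 : ℕ) : ℝ)) + n * (Bf (N / ((n + 1 : ℕ) : ℝ)) - Bf (N / n)) := by push_cast; ring
  rw [e1]
  have h1 : |Bf (N / ((n + 1 : ℕ) : ℝ))| ≤ N / n := by
    rw [abs_of_nonneg (Bf_nonneg _)]
    refine (Bf_le_self (by positivity)).trans ?_
    apply div_le_div_of_nonneg_left hN hn0
    push_cast; linarith
  have h2 := Bf_lip (N / ((n + 1 : ℕ) : ℝ)) (N / n)
  have h3 : |N / ((n + 1 : ℕ) : ℝ) - N / n| = N / (n * (n + 1)) := by
    have e2 : N / ((n + 1 : ℕ) : ℝ) - N / n = -(N / (n * (n + 1))) := by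
      push_cast
      field_simp
      ring
    rw [e2, abs_neg, abs_of_nonneg (by positivity)]
  rw [h3] at h2
  have h4 : |(n : ℝ) * (Bf (N / ((n + 1 : ℕ) : ℝ)) - Bf (N / n))| ≤ 2 * (N / n) := by
    rw [abs_mul, abs_of_pos hn0]
    calc (n : ℝ) * |Bf (N / ((n + 1 : ℕ) : ℝ)) - Bf (N / n)| ≤ n * (2 * (N / (n * (n + 1)))) := by gcongr
      _ = 2 * (N / (n + 1)) := by field_simp
      _ ≤ 2 * (N / n) := by
          apply mul_le_mul_of_nonneg_left _ (by norm_num)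
          apply div_le_div_of_nonneg_left hN hn0
          linarith
  refine (abs_add_le _ _).trans ?_
  have e3 : 3 * N / n = N / n + 2 * (N / n) := by ring
  rw [e3]
  linarith

noncomputable def Z98 : ℝ := ∑' n : ℕ, (n : ℝ) ^ (-(9 / 8) : ℝ)

lemma Z98_sum (s : Finset ℕ) : ∑ n ∈ s, (n : ℝ) ^ (-(9 / 8) : ℝ) ≤ Z98 := by
  unfold Z98
  apply Summable.sum_le_tsum
  · intro n _
    positivity
  · rw [Real.summable_nat_rpow]
    norm_num

lemma Z98_nonneg : 0 ≤ Z98 := by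
  have := Z98_sum ∅
  simpa using this

noncomputable def CM : ℝ := CS * (2 + 3 * Z98)

lemma CM_pos : 0 < CM := by
  unfold CM
  have := CS_pos
  have := Z98_nonneg
  positivity

lemma mid_sum (z : ℕ) (N : ℝ) (hN : 0 ≤ N) (M Z : ℕ) (hM : 1 ≤ M) (hMZ : M ≤ Z) :
    |∑ n ∈ Ioc M Z, bw N n * aa z n - ∑ n ∈ Ioc M Z, Bf (N / n)| ≤ CM * N * (M : ℝ) ^ (-(1 / 8) : ℝ) := by
  have hM0 : (1 : ℝ) ≤ M := by exact_mod_cast hM
  have hMp : (0 : ℝ) < M := by linarith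
  have hMZr : (M : ℝ) ≤ Z := by exact_mod_cast hMZ
  have e1 : ∑ n ∈ Ioc M Z, bw N n * aa z n - ∑ n ∈ Ioc M Z, Bf (N / n) =
      ∑ n ∈ Ioc M Z, (aa z n - 1 / (n : ℝ)) * bw N n := by
    rw [← sum_sub_distrib]
    refine sum_congr rfl fun n hn => ?_
    rw [mem_Ioc] at hn
    have hn0 : (n : ℝ) ≠ 0 := by exact_mod_cast (by omega : n ≠ 0)
    unfold bw
    field_simp
  rw [e1, abel_sum _ _ (Real.log 2) M Z hMZ]
  have hCS := CS_pos
  have h1 : |(∑ k ∈ Icc 1 Z, (aa z k - 1 / (k : ℝ)) - Real.log 2) * bw N (Z + 1)| ≤ CS * (M : ℝ) ^ (-(1 / 8) : ℝ) * N := by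
    rw [abs_mul]
    apply mul_le_mul _ _ (abs_nonneg _) (by positivity)
    · refine (Spart_bound z Z (by omega)).trans ?_
      apply mul_le_mul_of_nonneg_left _ hCS.le
      calc (Z : ℝ) ^ (-(1 / 4) : ℝ) ≤ (M : ℝ) ^ (-(1 / 4) : ℝ) :=
            Real.rpow_le_rpow_of_nonpos hMp hMZr (by norm_num)
        _ ≤ _ := Real.rpow_le_rpow_of_exponent_le hM0 (by norm_num)
    · rw [abs_of_nonneg (bw_nonneg _ _)]
      exact bw_le N hN _ (by omega)
  have h2 : |(∑ k ∈ Icc 1 M, (aa z k - 1 / (k : ℝ)) - Real.log 2) * bw N (M + 1)| ≤ CS * (M : ℝ) ^ (-(1 / 8) : ℝ) * N := by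
    rw [abs_mul]
    apply mul_le_mul _ _ (abs_nonneg _) (by positivity)
    · refine (Spart_bound z M hM).trans ?_
      apply mul_le_mul_of_nonneg_left _ hCS.le
      exact Real.rpow_le_rpow_of_exponent_le hM0 (by norm_num)
    · rw [abs_of_nonneg (bw_nonneg _ _)]
      exact bw_le N hN _ (by omega)
  have h3 : |∑ n ∈ Ioc M Z, (∑ k ∈ Icc 1 n, (aa z k - 1 / (k : ℝ)) - Real.log 2) * (bw N (n + 1) - bw N n)| ≤
      CS * (3 * N) * (M : ℝ) ^ (-(1 / 8) : ℝ) * Z98 := by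
    refine (abs_sum_le_sum_abs _ _).trans ?_
    have h4 : ∀ n ∈ Ioc M Z, |(∑ k ∈ Icc 1 n, (aa z k - 1 / (k : ℝ)) - Real.log 2) * (bw N (n + 1) - bw N n)| ≤
        CS * (3 * N) * (M : ℝ) ^ (-(1 / 8) : ℝ) * (n : ℝ) ^ (-(9 / 8) : ℝ) := by
      intro n hn
      rw [mem_Ioc] at hn
      have hn0 : (0 : ℝ) < n := by exact_mod_cast (by omega : 0 < n)
      have hnM : (M : ℝ) ≤ n := by exact_mod_cast hn.1.le
      rw [abs_mul]
      calc |∑ k ∈ Icc 1 n, (aa z k - 1 / (k : ℝ)) - Real.log 2| * |bw N (n + 1) - bw N n|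
          ≤ (CS * (n : ℝ) ^ (-(1 / 4) : ℝ)) * (3 * N / n) := by
            apply mul_le_mul (Spart_bound z n (by omega)) (bw_diff N hN n (by omega)) (abs_nonneg _) (by positivity)
        _ = CS * (3 * N) * ((n : ℝ) ^ (-(1 / 8) : ℝ) * (n : ℝ) ^ (-(9 / 8) : ℝ)) := by
            have e2 : (n : ℝ) ^ (-(1 / 8) : ℝ) * (n : ℝ) ^ (-(9 / 8) : ℝ) = (n : ℝ) ^ (-(1 / 4) : ℝ) * (n : ℝ)⁻¹ := by
              rw [← Real.rpow_neg_one, ← Real.rpow_add hn0, ← Real.rpow_add hn0]; norm_num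
            rw [e2]; ring
        _ ≤ CS * (3 * N) * ((M : ℝ) ^ (-(1 / 8) : ℝ) * (n : ℝ) ^ (-(9 / 8) : ℝ)) := by
            apply mul_le_mul_of_nonneg_left _ (by positivity)
            apply mul_le_mul_of_nonneg_right _ (by positivity)
            exact Real.rpow_le_rpow_of_nonpos hMp hnM (by norm_num)
        _ = _ := by ring
    refine (sum_le_sum h4).trans ?_
    rw [← mul_sum]
    exact mul_le_mul_of_nonneg_left (Z98_sum _) (by positivity)
  obtain ⟨y, hy⟩ : ∃ y, y = (M : ℝ) ^ (-(1 / 8) : ℝ) := ⟨_, rfl⟩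
  rw [← hy] at h1 h2 h3 ⊢
  unfold CM
  rw [abs_le] at h1 h2 h3 ⊢
  constructor <;> nlinarith [h1.1, h1.2, h2.1, h2.2, h3.1, h3.2]

lemma big_sum (z : ℕ) (hz : 2 ≤ z) (N : ℝ) (hN : 0 ≤ N) (hNz : N ≤ z) :
    |∑ e ∈ (QO z).divisors.filter (fun e => ¬ e ≤ z), bw N e * aa z e - N * (VP z - ∑ n ∈ Icc 1 z, aa z n)| ≤
      N ^ 2 * VP z / z := by
  have hz0 : (0 : ℝ) < z := by exact_mod_cast (by omega : 0 < z)
  have h1 := sum_small z z le_rfl (fun _ => 1)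
  simp only [one_mul] at h1
  have h2 := sum_filter_add_sum_filter_not (QO z).divisors (fun e => e ≤ z) (fun e => aa z e)
  rw [sum_aa z hz, h1] at h2
  have h3 : VP z - ∑ n ∈ Icc 1 z, aa z n = ∑ e ∈ (QO z).divisors.filter (fun e => ¬ e ≤ z), aa z e := by linarith
  rw [h3, mul_sum, ← sum_sub_distrib]
  have h4 : ∀ e ∈ (QO z).divisors.filter (fun e => ¬ e ≤ z), |bw N e * aa z e - N * aa z e| ≤ N ^ 2 / z * aa z e := by
    intro e he
    rw [mem_filter, not_le] at he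
    have hez : (z : ℝ) < e := by exact_mod_cast he.2
    have he0 : (0 : ℝ) < e := by linarith
    have h5 : Bf (N / e) = (N / e - (0 : ℕ)) * ((0 : ℕ) + 1 - N / e) := by
      apply Bf_block 0
      · push_cast; positivity
      · push_cast
        rw [zero_add, div_le_one he0]; linarith
    have ha := aa_nonneg z e
    unfold bw
    rw [h5]
    have e1 : (e : ℝ) * ((N / e - (0 : ℕ)) * ((0 : ℕ) + 1 - N / e)) * aa z e - N * aa z e = -(N ^ 2 / e * aa z e) := by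
      push_cast
      field_simp
      ring
    rw [e1, abs_neg, abs_of_nonneg (by positivity)]
    apply mul_le_mul_of_nonneg_right _ ha
    apply div_le_div_of_nonneg_left (by positivity) hz0 hez.le
  refine (abs_sum_le_sum_abs _ _).trans ((sum_le_sum h4).trans ?_)
  rw [← mul_sum]
  have h5 : ∑ e ∈ (QO z).divisors.filter (fun e => ¬ e ≤ z), aa z e ≤ VP z := by
    rw [← h3]
    have : 0 ≤ ∑ n ∈ Icc 1 z, aa z n := sum_nonneg fun n _ => aa_nonneg z n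
    linarith
  calc N ^ 2 / z * _ ≤ N ^ 2 / z * VP z := by gcongr
    _ = _ := by ring

/-- the assembly -/
lemma EV_split (z H : ℕ) (hz : 2 ≤ z) (M : ℕ) (hM : M ≤ z) :
    EV (primorial z) H = 2 * (∑ n ∈ Icc 1 M, bw ((H : ℝ) / 2) n * aa z n + ∑ n ∈ Ioc M z, bw ((H : ℝ) / 2) n * aa z n +
      ∑ e ∈ (QO z).divisors.filter (fun e => ¬ e ≤ z), bw ((H : ℝ) / 2) e * aa z e) := by
  rw [EV_primorial z H hz]
  have h1 := sum_small z z le_rfl (fun e => bw ((H : ℝ) / 2) e)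
  have h2 := sum_filter_add_sum_filter_not (QO z).divisors (fun e => e ≤ z) (fun e => bw ((H : ℝ) / 2) e * aa z e)
  rw [h1] at h2
  have h3 : ∑ n ∈ Icc 1 z, bw ((H : ℝ) / 2) n * aa z n =
      ∑ n ∈ Icc 1 M, bw ((H : ℝ) / 2) n * aa z n + ∑ n ∈ Ioc M z, bw ((H : ℝ) / 2) n * aa z n := by
    have e1 : Icc 1 z = Icc 1 M ∪ Ioc M z := by
      ext n
      rw [mem_union, mem_Icc, mem_Icc, mem_Ioc]
      omega
    rw [e1, sum_union]
    rw [disjoint_left]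
    intro n hn hn'
    rw [mem_Icc] at hn
    rw [mem_Ioc] at hn'
    omega
  rw [← h3, h2]
  congr 1
  refine sum_congr rfl fun e _ => ?_
  unfold bw
  ring

end Pool.Agent.L5helper10.RM
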